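import Pool.Agent.H776R2.Fatou.Defs

/-!
# Discrete Fatou: the hyperbolic angle function
-/

open Real

noncomputable section

namespace Pool.Agent.H776R2.Fatou

/-- the half of the angle quotient -/
def A_x (r a : ℝ) : ℝ := sinh a / sinh (r + a)

theorem A_sinh_pos {a : ℝ} (ha : 0 < a) : 0 < sinh a := Real.sinh_pos_iff.2 ha

theorem A_x_pos {r a : ℝ} (hr : 0 < r) (ha : 0 < a) : 0 < A_x r a :=
  div_pos (A_sinh_pos ha) (A_sinh_pos (add_pos hr ha))

theorem A_x_lt_one {r a : ℝ} (hr : 0 < r) (ha : 0 < a) : A_x r a < 1 := by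
  unfold A_x
  rw [div_lt_one (A_sinh_pos (add_pos hr ha))]
  exact Real.sinh_lt_sinh.2 (by linarith)

theorem A_x_le_exp {r a : ℝ} (hr : 0 < r) (ha : 0 < a) : A_x r a ≤ exp (-r) := by
  unfold A_x
  rw [div_le_iff₀ (A_sinh_pos (add_pos hr ha)), Real.sinh_eq, Real.sinh_eq]
  have h1 : exp (-r) * ((exp (r + a) - exp (-(r + a))) / 2) =
      (exp a - exp (-(2 * r + a))) / 2 := by
    have e1 : exp (-r) * exp (r + a) = exp a := by rw [← Real.exp_add]; congr 1; ring
    have e2 : exp (-r) * exp (-(r + a)) = exp (-(2 * r + a)) := by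
      rw [← Real.exp_add]; congr 1; ring
    calc exp (-r) * ((exp (r + a) - exp (-(r + a))) / 2)
        = (exp (-r) * exp (r + a) - exp (-r) * exp (-(r + a))) / 2 := by ring
      _ = _ := by rw [e1, e2]
  rw [h1]
  have h2 : exp (-(2 * r + a)) ≤ exp (-a) := Real.exp_le_exp.2 (by linarith)
  linarith

theorem A_x_mono {r a a' : ℝ} (hr : 0 < r) (ha : 0 < a) (h : a ≤ a') : A_x r a ≤ A_x r a' := by
  unfold A_x
  have ha' : 0 < a' := lt_of_lt_of_le ha h
  rw [div_le_div_iff₀ (A_sinh_pos (add_pos hr ha)) (A_sinh_pos (add_pos hr ha')),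
    Real.sinh_add, Real.sinh_add]
  have h1 : 0 ≤ sinh (a' - a) := Real.sinh_nonneg_iff.2 (by linarith)
  rw [Real.sinh_sub] at h1
  nlinarith [mul_nonneg (A_sinh_pos hr).le h1]

theorem A_x_anti {r r' a : ℝ} (hr : 0 < r) (h : r ≤ r') (ha : 0 < a) : A_x r' a ≤ A_x r a := by
  unfold A_x
  exact div_le_div_of_nonneg_left (A_sinh_pos ha).le (A_sinh_pos (add_pos hr ha))
    (Real.sinh_le_sinh.2 (by linarith))

theorem A_x_ge {r a : ℝ} (hr : 0 < r) (ha : 0 < a) (h : exp (-2 * a) ≤ 1 / 2) :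
    exp (-r) / 2 ≤ A_x r a := by
  unfold A_x
  rw [le_div_iff₀ (A_sinh_pos (add_pos hr ha)), Real.sinh_eq, Real.sinh_eq]
  have e1 : exp (-r) * exp (r + a) = exp a := by rw [← Real.exp_add]; congr 1; ring
  have e2 : 0 < exp (-r) * exp (-(r + a)) := by positivity
  have e3 : exp (-a) = exp a * exp (-2 * a) := by rw [← Real.exp_add]; congr 1; ring
  have e4 : exp (-a) ≤ exp a * (1 / 2) := by
    rw [e3]
    exact mul_le_mul_of_nonneg_left h (Real.exp_pos a).le
  nlinarith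

theorem A_ang_eq (r a b : ℝ) : ang r a b = 2 * arcsin (sqrt (A_x r a * A_x r b)) := by
  unfold ang A_x
  rw [div_mul_div_comm]

theorem A_prod_pos {r a b : ℝ} (hr : 0 < r) (ha : 0 < a) (hb : 0 < b) :
    0 < A_x r a * A_x r b := mul_pos (A_x_pos hr ha) (A_x_pos hr hb)

theorem A_prod_lt {r a b : ℝ} (hr : 0 < r) (ha : 0 < a) (hb : 0 < b) :
    A_x r a * A_x r b < 1 :=
  mul_lt_one_of_nonneg_of_lt_one_left (A_x_pos hr ha).le (A_x_lt_one hr ha) (A_x_lt_one hr hb).le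

theorem ang_comm (r a b : ℝ) : ang r a b = ang r b a := by
  rw [A_ang_eq, A_ang_eq, mul_comm (A_x r a)]

theorem ang_pos {r a b : ℝ} (hr : 0 < r) (ha : 0 < a) (hb : 0 < b) : 0 < ang r a b := by
  rw [A_ang_eq]
  exact mul_pos two_pos (Real.arcsin_pos.2 (Real.sqrt_pos.2 (A_prod_pos hr ha hb)))

theorem ang_lt_pi {r a b : ℝ} (hr : 0 < r) (ha : 0 < a) (hb : 0 < b) : ang r a b < π := by
  rw [A_ang_eq]
  have h1 : sqrt (A_x r a * A_x r b) < 1 := by
    rw [Real.sqrt_lt' one_pos]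
    simpa using A_prod_lt hr ha hb
  have := Real.arcsin_lt_pi_div_two.2 h1
  linarith

theorem ang_anti {r r' a b : ℝ} (hr : 0 < r) (h : r ≤ r') (ha : 0 < a) (hb : 0 < b) :
    ang r' a b ≤ ang r a b := by
  rw [A_ang_eq, A_ang_eq]
  have hr' : 0 < r' := lt_of_lt_of_le hr h
  refine mul_le_mul_of_nonneg_left (Real.monotone_arcsin (Real.sqrt_le_sqrt ?_)) two_pos.le
  exact mul_le_mul (A_x_anti hr h ha) (A_x_anti hr h hb) (A_x_pos hr' hb).le (A_x_pos hr ha).le

theorem ang_mono {r a a' b b' : ℝ} (hr : 0 < r) (ha : 0 < a) (hb : 0 < b) (haa : a ≤ a')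
    (hbb : b ≤ b') : ang r a b ≤ ang r a' b' := by
  rw [A_ang_eq, A_ang_eq]
  refine mul_le_mul_of_nonneg_left (Real.monotone_arcsin (Real.sqrt_le_sqrt ?_)) two_pos.le
  exact mul_le_mul (A_x_mono hr ha haa) (A_x_mono hr hb hbb) (A_x_pos hr hb).le
    (A_x_pos hr (lt_of_lt_of_le ha haa)).le

theorem ang_cont {a b : ℝ} (ha : 0 < a) (hb : 0 < b) :
    ContinuousOn (fun r => ang r a b) (Set.Ioi 0) := by
  unfold ang
  refine continuousOn_const.mul (Real.continuous_arcsin.comp_continuousOn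
    (Real.continuous_sqrt.comp_continuousOn ?_))
  refine continuousOn_const.div ?_ ?_
  · exact Continuous.continuousOn (by fun_prop)
  · intro r hr
    have hr : (0 : ℝ) < r := hr
    exact (mul_pos (A_sinh_pos (add_pos hr ha)) (A_sinh_pos (add_pos hr hb))).ne'

theorem ang_le {r a b : ℝ} (hr : 0 < r) (ha : 0 < a) (hb : 0 < b) :
    ang r a b ≤ 2 * arcsin (exp (-r)) := by
  rw [A_ang_eq]
  refine mul_le_mul_of_nonneg_left (Real.monotone_arcsin ?_) two_pos.le
  refine Real.sqrt_le_iff.2 ⟨(Real.exp_pos _).le, ?_⟩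
  rw [sq]
  exact mul_le_mul (A_x_le_exp hr ha) (A_x_le_exp hr hb) (A_x_pos hr hb).le (Real.exp_pos _).le

theorem ang_ge {r a b : ℝ} (hr : 0 < r) (ha : 0 < a) (hb : 0 < b)
    (ha2 : exp (-2 * a) ≤ 1 / 2) (hb2 : exp (-2 * b) ≤ 1 / 2) :
    2 * arcsin (exp (-r) / 2) ≤ ang r a b := by
  rw [A_ang_eq]
  refine mul_le_mul_of_nonneg_left (Real.monotone_arcsin ?_) two_pos.le
  refine Real.le_sqrt_of_sq_le ?_
  rw [sq]
  exact mul_le_mul (A_x_ge hr ha ha2) (A_x_ge hr hb hb2) (by positivity) (A_x_pos hr ha).le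

theorem ang_ge_exp {r a b : ℝ} (hr : 0 < r) (ha : 0 < a) (hb : 0 < b)
    (ha2 : exp (-2 * a) ≤ 1 / 2) (hb2 : exp (-2 * b) ≤ 1 / 2) : exp (-r) ≤ ang r a b := by
  refine le_trans ?_ (ang_ge hr ha hb ha2 hb2)
  have h1 : exp (-r) ≤ 1 := Real.exp_le_one_iff.2 (by linarith)
  have h0 : 0 < exp (-r) := Real.exp_pos _
  have h2 : exp (-r) / 2 ≤ arcsin (exp (-r) / 2) := by
    have h3 : sin (exp (-r) / 2) ≤ exp (-r) / 2 := Real.sin_le (by positivity)
    calc exp (-r) / 2 = arcsin (sin (exp (-r) / 2)) := by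
          rw [Real.arcsin_sin] <;> linarith [Real.pi_gt_three]
      _ ≤ _ := Real.monotone_arcsin h3
  linarith

theorem ang_small {r a b : ℝ} (hr : 0 < r) (ha : 0 < a) (hb : 0 < b) (h : exp (-r) ≤ 1 / 10) :
    ang r a b ≤ π / 10 := by
  refine (ang_le hr ha hb).trans ?_
  have h1 : (2 / π) * (π / 20) ≤ sin (π / 20) :=
    Real.mul_le_sin (by positivity) (by linarith [Real.pi_pos])
  have h2 : (2 / π) * (π / 20) = 1 / 10 := by
    field_simp
    norm_num
  rw [h2] at h1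
  have h3 : arcsin (exp (-r)) ≤ arcsin (sin (π / 20)) := Real.monotone_arcsin (h.trans h1)
  rw [Real.arcsin_sin (by linarith [Real.pi_pos]) (by linarith [Real.pi_pos])] at h3
  linarith

theorem A_cos_ang {r a b : ℝ} (hr : 0 < r) (ha : 0 < a) (hb : 0 < b) :
    cos (ang r a b) = 1 - 2 * (A_x r a * A_x r b) := by
  rw [A_ang_eq, Real.cos_two_mul, Real.cos_sq', Real.sin_arcsin, Real.sq_sqrt]
  · ring
  · exact (A_prod_pos hr ha hb).le
  · linarith [Real.sqrt_nonneg (A_x r a * A_x r b)]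
  · rw [Real.sqrt_le_one]
    exact (A_prod_lt hr ha hb).le

/-- law of cosines -/
theorem ang_law {r a b : ℝ} (hr : 0 < r) (ha : 0 < a) (hb : 0 < b) :
    cosh (r + a) * cosh (r + b) - sinh (r + a) * sinh (r + b) * cos (ang r a b)
      = cosh (a + b) := by
  rw [A_cos_ang hr ha hb]
  have h1 : sinh (r + a) * A_x r a = sinh a := by
    unfold A_x
    field_simp [(A_sinh_pos (add_pos hr ha)).ne']
  have h2 : sinh (r + b) * A_x r b = sinh b := by
    unfold A_x
    field_simp [(A_sinh_pos (add_pos hr hb)).ne']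
  have h3 : cosh (a - b) = cosh (r + a) * cosh (r + b) - sinh (r + a) * sinh (r + b) := by
    rw [← Real.cosh_sub]
    congr 1
    ring
  have h4 : cosh (a + b) = cosh (a - b) + 2 * sinh a * sinh b := by
    rw [Real.cosh_add, Real.cosh_sub]
    ring
  calc cosh (r + a) * cosh (r + b) -
        sinh (r + a) * sinh (r + b) * (1 - 2 * (A_x r a * A_x r b))
      = cosh (r + a) * cosh (r + b) - sinh (r + a) * sinh (r + b) +
        2 * (sinh (r + a) * A_x r a) * (sinh (r + b) * A_x r b) := by ring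
    _ = cosh (a + b) := by rw [h1, h2, h4, h3]

theorem ang_unique {r a b φ : ℝ} (hr : 0 < r) (ha : 0 < a) (hb : 0 < b) (h0 : 0 ≤ φ) (h1 : φ ≤ π)
    (h : cosh (r + a) * cosh (r + b) - sinh (r + a) * sinh (r + b) * cos φ = cosh (a + b)) :
    φ = ang r a b := by
  have h2 := ang_law hr ha hb
  have h3 : 0 < sinh (r + a) * sinh (r + b) :=
    mul_pos (A_sinh_pos (add_pos hr ha)) (A_sinh_pos (add_pos hr hb))
  have h4 : sinh (r + a) * sinh (r + b) * cos φ =
      sinh (r + a) * sinh (r + b) * cos (ang r a b) := by linarith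
  have h5 := mul_left_cancel₀ h3.ne' h4
  exact Real.injOn_cos ⟨h0, h1⟩ ⟨(ang_pos hr ha hb).le, (ang_lt_pi hr ha hb).le⟩ h5

end Pool.Agent.H776R2.Fatou
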