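import Pool.Agent.H776R2.Fatou.Defs

open Real

noncomputable section

namespace Pool.Agent.H776R2.Fatou

/-! ### Task D: passage to Euclidean circles in the unit disc -/

theorem D_isH {X : M3} (hX : IsH X) : X.2.re ^ 2 + X.2.im ^ 2 = X.1 ^ 2 - 1 ∧ 1 ≤ X.1 := by
  obtain ⟨h1, h2⟩ := hX
  unfold B at h1
  have h3 : X.2.re ^ 2 + X.2.im ^ 2 = X.1 ^ 2 - 1 := by nlinarith
  refine ⟨h3, ?_⟩
  nlinarith [sq_nonneg X.2.re, sq_nonneg X.2.im]

theorem D_normsq (z w : ℂ) (p q : ℝ) :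
    ‖z / ((p : ℝ) : ℂ) - w / ((q : ℝ) : ℂ)‖ ^ 2 =
      (z.re / p - w.re / q) ^ 2 + (z.im / p - w.im / q) ^ 2 := by
  rw [Complex.sq_norm, Complex.normSq_apply, Complex.sub_re, Complex.sub_im,
    Complex.div_ofReal_re, Complex.div_ofReal_re, Complex.div_ofReal_im, Complex.div_ofReal_im]
  ring

theorem D_normsq1 (z : ℂ) (p : ℝ) :
    ‖z / ((p : ℝ) : ℂ)‖ ^ 2 = (z.re ^ 2 + z.im ^ 2) / p ^ 2 := by
  rw [Complex.sq_norm, Complex.normSq_apply, Complex.div_ofReal_re, Complex.div_ofReal_im]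
  ring

theorem D_cs (r : ℝ) : cosh r ^ 2 - sinh r ^ 2 = 1 := cosh_sq_sub_sinh_sq r

theorem rad_pos {X : M3} {r : ℝ} (hX : IsH X) (hr : 0 < r) : 0 < rad X r := by
  obtain ⟨-, h2⟩ := D_isH hX
  have h3 := one_le_cosh r
  have h4 := sinh_pos_iff.2 hr
  unfold rad
  positivity

theorem D_key {X Y : M3} {r s : ℝ} (hX : IsH X) (hY : IsH Y) :
    ‖cen X r - cen Y s‖ ^ 2 - (rad X r + rad Y s) ^ 2 =
      2 * (B X Y - cosh (r + s)) / ((X.1 + cosh r) * (Y.1 + cosh s)) := by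
  obtain ⟨h1, h2⟩ := D_isH hX
  obtain ⟨h3, h4⟩ := D_isH hY
  have h5 := one_le_cosh r
  have h6 := one_le_cosh s
  have hp : X.1 + cosh r ≠ 0 := by linarith
  have hq : Y.1 + cosh s ≠ 0 := by linarith
  have e1 := D_cs r
  have e2 := D_cs s
  unfold cen rad B
  rw [D_normsq, cosh_add]
  rw [eq_div_iff (mul_ne_zero hp hq)]
  field_simp
  linear_combination (Y.1 + cosh s) ^ 2 * h1 + (X.1 + cosh r) ^ 2 * h3 +
    (Y.1 + cosh s) ^ 2 * e1 + (X.1 + cosh r) ^ 2 * e2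

theorem D_key0 {X Y : M3} {r : ℝ} (hX : IsH X) (hY : IsH Y) :
    ‖poin Y - cen X r‖ ^ 2 - (rad X r) ^ 2 =
      2 * (B X Y - cosh r) / ((1 + Y.1) * (X.1 + cosh r)) := by
  have h := D_key (r := r) (s := 0) hX hY
  have e1 : cen Y 0 = poin Y := by
    unfold cen poin
    rw [cosh_zero, add_comm]
  have e2 : rad Y 0 = 0 := by
    unfold rad
    rw [sinh_zero, zero_div]
  rw [e1, e2, cosh_zero, add_zero, add_zero, norm_sub_rev] at h
  rw [h, add_comm Y.1 1, mul_comm (1 + Y.1)]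

theorem poin_mem {X Y : M3} {r : ℝ} (hX : IsH X) (hY : IsH Y) (hr : 0 < r) :
    ‖poin Y - cen X r‖ ≤ rad X r ↔ B X Y ≤ cosh r := by
  have h := D_key0 (r := r) hX hY
  have hrad := rad_pos hX hr
  have hpos : 0 < (1 + Y.1) * (X.1 + cosh r) := by
    have h1 := hX.2
    have h2 := hY.2
    have h3 := one_le_cosh r
    positivity
  rw [← sq_le_sq₀ (norm_nonneg _) hrad.le, ← sub_nonpos, h]
  constructor
  · intro h1
    by_contra hcon
    have : 0 < 2 * (B X Y - cosh r) / ((1 + Y.1) * (X.1 + cosh r)) :=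
      div_pos (by linarith) hpos
    linarith
  · intro h1
    exact div_nonpos_of_nonpos_of_nonneg (by linarith) hpos.le

theorem poin_mem_lt {X Y : M3} {r : ℝ} (hX : IsH X) (hY : IsH Y) (hr : 0 < r) :
    ‖poin Y - cen X r‖ < rad X r ↔ B X Y < cosh r := by
  have h := D_key0 (r := r) hX hY
  have hrad := rad_pos hX hr
  have hpos : 0 < (1 + Y.1) * (X.1 + cosh r) := by
    have h1 := hX.2
    have h2 := hY.2
    have h3 := one_le_cosh r
    positivity
  rw [← sq_lt_sq₀ (norm_nonneg _) hrad.le, ← sub_neg, h]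
  constructor
  · intro h1
    by_contra hcon
    have : 0 ≤ 2 * (B X Y - cosh r) / ((1 + Y.1) * (X.1 + cosh r)) :=
      div_nonneg (by linarith) hpos.le
    linarith
  · intro h1
    exact div_neg_of_neg_of_pos (by linarith) hpos

theorem D_pos {X Y : M3} {r s : ℝ} (hX : IsH X) (hY : IsH Y) :
    0 < (X.1 + cosh r) * (Y.1 + cosh s) := by
  have h1 := hX.2
  have h2 := hY.2
  have h3 := one_le_cosh r
  have h4 := one_le_cosh s
  positivity

theorem cen_tang {X Y : M3} {r s : ℝ} (hX : IsH X) (hY : IsH Y) (hr : 0 < r) (hs : 0 < s) :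
    ‖cen X r - cen Y s‖ = rad X r + rad Y s ↔ B X Y = cosh (r + s) := by
  have h := D_key (r := r) (s := s) hX hY
  have h1 := rad_pos hX hr
  have h2 := rad_pos hY hs
  have hpos := D_pos (r := r) (s := s) hX hY
  constructor
  · intro h3
    rw [h3, sub_self] at h
    have h4 := h.symm
    rw [div_eq_zero_iff] at h4
    rcases h4 with h4 | h4
    · linarith
    · exact absurd h4 hpos.ne'
  · intro h3
    rw [h3, sub_self, mul_zero, zero_div, sub_eq_zero] at h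
    exact (pow_left_inj₀ (norm_nonneg _) (by linarith) two_ne_zero).1 h

theorem cen_disj {X Y : M3} {r s : ℝ} (hX : IsH X) (hY : IsH Y) (hr : 0 < r) (hs : 0 < s) :
    rad X r + rad Y s ≤ ‖cen X r - cen Y s‖ ↔ cosh (r + s) ≤ B X Y := by
  have h := D_key (r := r) (s := s) hX hY
  have h1 := rad_pos hX hr
  have h2 := rad_pos hY hs
  have hpos := D_pos (r := r) (s := s) hX hY
  rw [← sq_le_sq₀ (by linarith) (norm_nonneg _), ← sub_nonneg, h]
  constructor
  · intro h3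
    by_contra hcon
    have : 2 * (B X Y - cosh (r + s)) / ((X.1 + cosh r) * (Y.1 + cosh s)) < 0 :=
      div_neg_of_neg_of_pos (by linarith) hpos
    linarith
  · intro h3
    exact div_nonneg (by linarith) hpos.le

theorem cen_lt {X : M3} {r : ℝ} (hX : IsH X) (hr : 0 < r) : ‖cen X r‖ + rad X r < 1 := by
  obtain ⟨h1, h2⟩ := D_isH hX
  have h3 := one_le_cosh r
  have h4 := sinh_pos_iff.2 hr
  have h5 : sinh r < cosh r := sinh_lt_cosh r
  have hp : 0 < X.1 + cosh r := by linarith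
  have hlt : ‖cen X r‖ < (X.1 + cosh r - sinh r) / (X.1 + cosh r) := by
    rw [← sq_lt_sq₀ (norm_nonneg _) (div_nonneg (by linarith) hp.le)]
    unfold cen
    rw [D_normsq1, h1, div_pow]
    apply div_lt_div_of_pos_right _ (by positivity)
    nlinarith
  have heq : (X.1 + cosh r - sinh r) / (X.1 + cosh r) + rad X r = 1 := by
    unfold rad
    rw [← add_div, sub_add_cancel, div_self hp.ne']
  linarith

theorem poin_lt {Y : M3} (hY : IsH Y) : ‖poin Y‖ < 1 := by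
  obtain ⟨h1, h2⟩ := D_isH hY
  rw [← sq_lt_sq₀ (norm_nonneg _) zero_le_one]
  unfold poin
  rw [D_normsq1, h1, div_lt_iff₀ (by positivity)]
  nlinarith

theorem poin_surj {y : ℂ} (hy : ‖y‖ < 1) : ∃ Y : M3, IsH Y ∧ poin Y = y := by
  set m : ℝ := y.re ^ 2 + y.im ^ 2 with hm
  have hm1 : m < 1 := by
    have h1 : ‖y‖ ^ 2 < 1 := by
      have := pow_lt_pow_left₀ hy (norm_nonneg _) two_ne_zero
      rwa [one_pow] at this
    rw [Complex.sq_norm, Complex.normSq_apply] at h1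
    rw [hm]
    nlinarith
  have hm0 : 0 ≤ m := by positivity
  have hd : 0 < 1 - m := by linarith
  refine ⟨((1 + m) / (1 - m), ((2 / (1 - m) : ℝ) : ℂ) * y), ⟨?_, ?_⟩, ?_⟩
  · unfold B
    simp only [Complex.re_ofReal_mul, Complex.im_ofReal_mul]
    have e1 : (1 + m) / (1 - m) * ((1 + m) / (1 - m)) -
        (2 / (1 - m) * y.re * (2 / (1 - m) * y.re) + 2 / (1 - m) * y.im * (2 / (1 - m) * y.im)) =
        ((1 + m) ^ 2 - 4 * (y.re ^ 2 + y.im ^ 2)) / (1 - m) ^ 2 := by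
      field_simp
      ring
    rw [e1, ← hm, div_eq_one_iff_eq (by positivity)]
    ring
  · exact div_pos (by linarith) hd
  · unfold poin
    simp only
    have e2 : 1 + (1 + m) / (1 - m) = 2 / (1 - m) := by
      field_simp
      ring
    rw [e2]
    have e3 : ((2 / (1 - m) : ℝ) : ℂ) ≠ 0 := by
      have : (2 / (1 - m) : ℝ) ≠ 0 := by positivity
      exact_mod_cast this
    rw [mul_div_cancel_left₀ _ e3]

theorem D_B_comm (X Y : M3) : B X Y = B Y X := by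
  unfold B; ring

/-- the solution of the linear system -/
theorem D_sys (C1 C2 C3 S1 S2 S3 : ℝ) (h1 : S1 ≠ 0) (h2 : S2 ≠ 0) (h3 : S3 ≠ 0)
    (e1 : C1 ^ 2 - S1 ^ 2 = 1) :
    (C2 / S2 + C3 / S3) / (2 * S1) * 1 + (C1 / S1 + C3 / S3) / (2 * S2) * (C1 * C2 + S1 * S2) +
      (C1 / S1 + C2 / S2) / (2 * S3) * (C1 * C3 + S1 * S3) =
      (1 + (C1 / S1 * (C2 / S2) + C2 / S2 * (C3 / S3) + C3 / S3 * (C1 / S1))) * C1 := by
  have h : (C2 / S2 + C3 / S3) / (2 * S1) * (C1 ^ 2 - S1 ^ 2) +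
      (C1 / S1 + C3 / S3) / (2 * S2) * (C1 * C2 + S1 * S2) +
      (C1 / S1 + C2 / S2) / (2 * S3) * (C1 * C3 + S1 * S3) =
      (1 + (C1 / S1 * (C2 / S2) + C2 / S2 * (C3 / S3) + C3 / S3 * (C1 / S1))) * C1 := by
    field_simp
    ring
  rw [e1] at h
  exact h

theorem cen_orient {X Y W : M3} {r s t : ℝ} (hX : IsH X) (hY : IsH Y) (hW : IsH W) (hr : 0 < r)
    (hs : 0 < s) (ht : 0 < t) (h1 : B X Y = cosh (r + s)) (h2 : B Y W = cosh (s + t))
    (h3 : B W X = cosh (t + r)) (hd : 0 < det3 X Y W) :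
    0 < cr (cen Y s - cen X r) (cen W t - cen X r) := by
  obtain ⟨-, hX1⟩ := D_isH hX
  obtain ⟨-, hY1⟩ := D_isH hY
  obtain ⟨-, hW1⟩ := D_isH hW
  have c1 := one_le_cosh r
  have c2 := one_le_cosh s
  have c3 := one_le_cosh t
  have s1 := sinh_pos_iff.2 hr
  have s2 := sinh_pos_iff.2 hs
  have s3 := sinh_pos_iff.2 ht
  have q1 := D_cs r
  have q2 := D_cs s
  have q3 := D_cs t
  rw [cosh_add] at h1 h2 h3
  set C1 := cosh r
  set C2 := cosh s
  set C3 := cosh t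
  set S1 := sinh r
  set S2 := sinh s
  set S3 := sinh t
  have hp1 : 0 < X.1 + C1 := by linarith
  have hp2 : 0 < Y.1 + C2 := by linarith
  have hp3 : 0 < W.1 + C3 := by linarith
  set K := 1 + (C1 / S1 * (C2 / S2) + C2 / S2 * (C3 / S3) + C3 / S3 * (C1 / S1)) with hK
  have hK0 : 0 < K := by positivity
  set d1 := (C2 / S2 + C3 / S3) / (2 * S1) with hd1
  set d2 := (C1 / S1 + C3 / S3) / (2 * S2) with hd2
  set d3 := (C1 / S1 + C2 / S2) / (2 * S3) with hd3
  have hd1' : 0 < d1 := by positivity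
  have hd2' : 0 < d2 := by positivity
  have hd3' : 0 < d3 := by positivity
  have k1 : d1 * 1 + d2 * B X Y + d3 * B W X = K * C1 := by
    have := D_sys C1 C2 C3 S1 S2 S3 s1.ne' s2.ne' s3.ne' q1
    rw [h1, h3, hK, hd1, hd2, hd3]
    linear_combination this
  have k2 : d1 * B X Y + d2 * 1 + d3 * B Y W = K * C2 := by
    have := D_sys C2 C1 C3 S2 S1 S3 s2.ne' s1.ne' s3.ne' q2
    rw [h1, h2, hK, hd1, hd2, hd3]
    linear_combination this
  have k3 : d1 * B W X + d2 * B Y W + d3 * 1 = K * C3 := by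
    have := D_sys C3 C1 C2 S3 S1 S2 s3.ne' s1.ne' s2.ne' q3
    rw [h2, h3, hK, hd1, hd2, hd3]
    linear_combination this
  have b1 : X.1 * X.1 - (X.2.re * X.2.re + X.2.im * X.2.im) = 1 := hX.1
  have b2 : Y.1 * Y.1 - (Y.2.re * Y.2.re + Y.2.im * Y.2.im) = 1 := hY.1
  have b3 : W.1 * W.1 - (W.2.re * W.2.re + W.2.im * W.2.im) = 1 := hW.1
  have hE : K * (C1 * cr Y.2 W.2 - C2 * cr X.2 W.2 + C3 * cr X.2 Y.2) =
      (d1 * X.1 + d2 * Y.1 + d3 * W.1) * det3 X Y W := by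
    unfold det3
    unfold B at k1 k2 k3
    unfold cr
    linear_combination -(Y.2.re * W.2.im - Y.2.im * W.2.re) * k1 +
      (X.2.re * W.2.im - X.2.im * W.2.re) * k2 - (X.2.re * Y.2.im - X.2.im * Y.2.re) * k3 -
      d1 * (Y.2.re * W.2.im - Y.2.im * W.2.re) * b1 +
      d2 * (X.2.re * W.2.im - X.2.im * W.2.re) * b2 -
      d3 * (X.2.re * Y.2.im - X.2.im * Y.2.re) * b3
  have hEpos : 0 < C1 * cr Y.2 W.2 - C2 * cr X.2 W.2 + C3 * cr X.2 Y.2 := by
    have h5 : 0 < K * (C1 * cr Y.2 W.2 - C2 * cr X.2 W.2 + C3 * cr X.2 Y.2) := by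
      rw [hE]
      have hx := hX.2
      have hy := hY.2
      have hw := hW.2
      positivity
    exact (pos_iff_pos_of_mul_pos h5).1 hK0
  have hfin : cr (cen Y s - cen X r) (cen W t - cen X r) =
      (det3 X Y W + (C1 * cr Y.2 W.2 - C2 * cr X.2 W.2 + C3 * cr X.2 Y.2)) /
        ((X.1 + C1) * (Y.1 + C2) * (W.1 + C3)) := by
    unfold cr cen det3
    simp only [Complex.sub_re, Complex.sub_im, Complex.div_ofReal_re, Complex.div_ofReal_im]
    unfold cr
    show (Y.2.re / (Y.1 + C2) - X.2.re / (X.1 + C1)) * (W.2.im / (W.1 + C3) -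
      X.2.im / (X.1 + C1)) - (Y.2.im / (Y.1 + C2) - X.2.im / (X.1 + C1)) *
      (W.2.re / (W.1 + C3) - X.2.re / (X.1 + C1)) = _
    have n1 := hp1.ne'
    have n2 := hp2.ne'
    have n3 := hp3.ne'
    field_simp
    ring
  rw [hfin]
  positivity

end Pool.Agent.H776R2.Fatou
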