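import Pool.Agent.H776R2.Fatou.Defs
import Pool.Agent.H776R2.Fatou.Eucl

open Real

noncomputable section

namespace Pool.Agent.H776R2.Fatou
namespace CarrE

theorem E_sq (z : ℂ) : ‖z‖ ^ 2 = z.re ^ 2 + z.im ^ 2 := by
  rw [← Complex.normSq_eq_norm_sq, Complex.normSq_apply]; ring

/-- the inner side of one side of the triangle -/
theorem E_side {Z1 Z2 Z3 p y : ℂ} {R1 R2 R3 σ : ℝ} (h1 : 0 < R1) (h2 : 0 < R2) (h3 : 0 < R3)
    (hσ : 0 ≤ σ) (h12 : ‖Z1 - Z2‖ = R1 + R2) (h23 : ‖Z2 - Z3‖ = R2 + R3)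
    (h31 : ‖Z3 - Z1‖ = R3 + R1) (hp1 : ‖Z1 - p‖ ^ 2 = R1 ^ 2 + σ ^ 2)
    (hp2 : ‖Z2 - p‖ ^ 2 = R2 ^ 2 + σ ^ 2) (hp3 : ‖Z3 - p‖ ^ 2 = R3 ^ 2 + σ ^ 2)
    (ho : 0 < cr (Z2 - Z1) (Z3 - Z1)) (hy : ‖y - p‖ ≤ σ) : 0 ≤ cr (Z2 - Z1) (y - Z1) := by
  have q12 : ‖Z1 - Z2‖ ^ 2 = (R1 + R2) ^ 2 := by rw [h12]
  have q23 : ‖Z2 - Z3‖ ^ 2 = (R2 + R3) ^ 2 := by rw [h23]
  have q31 : ‖Z3 - Z1‖ ^ 2 = (R3 + R1) ^ 2 := by rw [h31]
  have qy : ‖y - p‖ ^ 2 ≤ σ ^ 2 := pow_le_pow_left₀ (norm_nonneg _) hy 2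
  rw [E_sq] at q12 q23 q31 hp1 hp2 hp3 qy
  simp only [cr, Complex.sub_re, Complex.sub_im] at *
  set u1 := Z2.re - Z1.re with hu1
  set u2 := Z2.im - Z1.im with hu2
  set v1 := Z3.re - Z1.re with hv1
  set v2 := Z3.im - Z1.im with hv2
  set w1 := p.re - Z1.re with hw1
  set w2 := p.im - Z1.im with hw2
  set e1 := y.re - p.re with he1
  set e2 := y.im - p.im with he2
  have a1 : Z1.re - Z2.re = -u1 := by rw [hu1]; ring
  have a2 : Z1.im - Z2.im = -u2 := by rw [hu2]; ring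
  have a3 : Z2.re - Z3.re = u1 - v1 := by rw [hu1, hv1]; ring
  have a4 : Z2.im - Z3.im = u2 - v2 := by rw [hu2, hv2]; ring
  have a5 : Z1.re - p.re = -w1 := by rw [hw1]; ring
  have a6 : Z1.im - p.im = -w2 := by rw [hw2]; ring
  have a7 : Z2.re - p.re = u1 - w1 := by rw [hu1, hw1]; ring
  have a8 : Z2.im - p.im = u2 - w2 := by rw [hu2, hw2]; ring
  have a9 : Z3.re - p.re = v1 - w1 := by rw [hv1, hw1]; ring
  have a10 : Z3.im - p.im = v2 - w2 := by rw [hv2, hw2]; ring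
  have a11 : y.re - Z1.re = w1 + e1 := by rw [he1, hw1]; ring
  have a12 : y.im - Z1.im = w2 + e2 := by rw [he2, hw2]; ring
  rw [a1, a2] at q12
  rw [a3, a4] at q23
  rw [a5, a6] at hp1
  rw [a7, a8] at hp2
  rw [a9, a10] at hp3
  rw [a11, a12]
  have wu : w1 * u1 + w2 * u2 = R1 * (R1 + R2) := by linear_combination (hp1 + q12 - hp2) / 2
  have wv : w1 * v1 + w2 * v2 = R1 * (R1 + R3) := by linear_combination (hp1 + q31 - hp3) / 2
  have uv : u1 * v1 + u2 * v2 = R1 ^ 2 + R1 * R2 + R1 * R3 - R2 * R3 := by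
    linear_combination (q12 + q31 - q23) / 2
  have uu : u1 ^ 2 + u2 ^ 2 = (R1 + R2) ^ 2 := by linear_combination q12
  have ww : w1 ^ 2 + w2 ^ 2 = R1 ^ 2 + σ ^ 2 := by linear_combination hp1
  have k1 : (u1 * w2 - u2 * w1) * (u1 * v2 - u2 * v1) = 2 * R1 * R2 * R3 * (R1 + R2) := by
    have : (u1 * w2 - u2 * w1) * (u1 * v2 - u2 * v1) =
        (u1 ^ 2 + u2 ^ 2) * (w1 * v1 + w2 * v2) - (w1 * u1 + w2 * u2) * (u1 * v1 + u2 * v2) := by
      ring
    rw [this, uu, wv, wu, uv]; ring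
  have k2 : 0 < u1 * w2 - u2 * w1 := by
    have : 0 < (u1 * w2 - u2 * w1) * (u1 * v2 - u2 * v1) := by rw [k1]; positivity
    exact (pos_iff_pos_of_mul_pos this).2 ho
  have k3 : (u1 * w2 - u2 * w1) ^ 2 = ((R1 + R2) * σ) ^ 2 := by
    have : (u1 * w2 - u2 * w1) ^ 2 =
        (u1 ^ 2 + u2 ^ 2) * (w1 ^ 2 + w2 ^ 2) - (w1 * u1 + w2 * u2) ^ 2 := by ring
    rw [this, uu, ww, wu]; ring
  have k4 : u1 * w2 - u2 * w1 = (R1 + R2) * σ :=
    (pow_left_inj₀ k2.le (by positivity) two_ne_zero).1 k3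
  have k5 : (u1 * e2 - u2 * e1) ^ 2 ≤ ((R1 + R2) * σ) ^ 2 := by
    have h : (u1 * e2 - u2 * e1) ^ 2 ≤ (u1 ^ 2 + u2 ^ 2) * (e1 ^ 2 + e2 ^ 2) := by
      have h' : (u1 * e2 - u2 * e1) ^ 2 = (u1 ^ 2 + u2 ^ 2) * (e1 ^ 2 + e2 ^ 2) -
        (u1 * e1 + u2 * e2) ^ 2 := by ring
      have := sq_nonneg (u1 * e1 + u2 * e2)
      linarith
    rw [uu] at h
    calc _ ≤ _ := h
      _ ≤ (R1 + R2) ^ 2 * σ ^ 2 := mul_le_mul_of_nonneg_left qy (by positivity)
      _ = _ := by ring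
  have k6 : |u1 * e2 - u2 * e1| ≤ (R1 + R2) * σ :=
    abs_le_of_sq_le_sq k5 (mul_nonneg (by linarith) hσ)
  have k7 := (abs_le.1 k6).1
  have k8 : u1 * (w2 + e2) - u2 * (w1 + e1) = (u1 * w2 - u2 * w1) + (u1 * e2 - u2 * e1) := by
    ring
  rw [k8, k4]
  linarith

/-- barycentric coordinates -/
theorem E_hull {Z1 Z2 Z3 y : ℂ} (ho : 0 < cr (Z2 - Z1) (Z3 - Z1))
    (h1 : 0 ≤ cr (Z2 - Z1) (y - Z1)) (h2 : 0 ≤ cr (Z3 - Z2) (y - Z2))
    (h3 : 0 ≤ cr (Z1 - Z3) (y - Z3)) : y ∈ convexHull ℝ {Z1, Z2, Z3} := by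
  set Δ := cr (Z2 - Z1) (Z3 - Z1) with hΔ
  have hs : cr (Z3 - Z2) (y - Z2) + cr (Z1 - Z3) (y - Z3) + cr (Z2 - Z1) (y - Z1) = Δ := by
    rw [hΔ]; simp only [cr, Complex.sub_re, Complex.sub_im]; ring
  have hy : y = (cr (Z3 - Z2) (y - Z2) / Δ) • Z1 + (cr (Z1 - Z3) (y - Z3) / Δ) • Z2 +
      (cr (Z2 - Z1) (y - Z1) / Δ) • Z3 := by
    have hΔ0 : Δ ≠ 0 := ho.ne'
    apply Complex.ext
    · simp only [Complex.add_re, Complex.smul_re, smul_eq_mul]
      field_simp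
      rw [hΔ]; simp only [cr, Complex.sub_re, Complex.sub_im]; ring
    · simp only [Complex.add_im, Complex.smul_im, smul_eq_mul]
      field_simp
      rw [hΔ]; simp only [cr, Complex.sub_re, Complex.sub_im]; ring
  rw [hy]
  have hc := convex_convexHull ℝ ({Z1, Z2, Z3} : Set ℂ)
  have m1 : Z1 ∈ convexHull ℝ ({Z1, Z2, Z3} : Set ℂ) := subset_convexHull _ _ (by simp)
  have m2 : Z2 ∈ convexHull ℝ ({Z1, Z2, Z3} : Set ℂ) := subset_convexHull _ _ (by simp)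
  have m3 : Z3 ∈ convexHull ℝ ({Z1, Z2, Z3} : Set ℂ) := subset_convexHull _ _ (by simp)
  have := hc.sum_mem (t := Finset.univ) (w := ![cr (Z3 - Z2) (y - Z2) / Δ,
    cr (Z1 - Z3) (y - Z3) / Δ, cr (Z2 - Z1) (y - Z1) / Δ]) (z := ![Z1, Z2, Z3])
    (by intro i _; fin_cases i
        · exact div_nonneg h2 ho.le
        · exact div_nonneg h3 ho.le
        · exact div_nonneg h1 ho.le)
    (by rw [Fin.sum_univ_three]
        simp only [Matrix.cons_val_zero, Matrix.cons_val_one, Matrix.cons_val]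
        rw [← add_div, ← add_div, hs, div_self ho.ne'])
    (by intro i _; fin_cases i
        · exact m1
        · exact m2
        · exact m3)
  rw [Fin.sum_univ_three] at this
  simpa using this

theorem E_B_comb (a b c : ℝ) (X Y W D : M3) :
    B (a • X + b • Y + c • W) D = a * B X D + b * B Y D + c * B W D := by
  simp only [B, Prod.fst_add, Prod.snd_add, Prod.smul_fst, Prod.smul_snd, smul_eq_mul,
    Complex.add_re, Complex.add_im, Complex.smul_re, Complex.smul_im]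
  ring

theorem E_B_comb' (a b c : ℝ) (X Y W D : M3) :
    B D (a • X + b • Y + c • W) = a * B D X + b * B D Y + c * B D W := by
  simp only [B, Prod.fst_add, Prod.snd_add, Prod.smul_fst, Prod.smul_snd, smul_eq_mul,
    Complex.add_re, Complex.add_im, Complex.smul_re, Complex.smul_im]
  ring

theorem E_comm (X Y : M3) : B X Y = B Y X := by simp only [B]; ring

theorem E_cramer {X Y W V : M3} (hd : det3 X Y W ≠ 0) :
    V = (det3 Y W V / det3 X Y W) • X + (det3 W X V / det3 X Y W) • Y +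
      (det3 X Y V / det3 X Y W) • W := by
  refine Prod.ext ?_ (Complex.ext ?_ ?_)
  · simp only [Prod.fst_add, Prod.smul_fst, smul_eq_mul]
    field_simp
    simp only [det3, cr]; ring
  · simp only [Prod.snd_add, Prod.smul_snd, smul_eq_mul, Complex.add_re, Complex.smul_re]
    field_simp
    simp only [det3, cr]; ring
  · simp only [Prod.snd_add, Prod.smul_snd, smul_eq_mul, Complex.add_im, Complex.smul_im]
    field_simp
    simp only [det3, cr]; ring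

/-- the dual vector -/
theorem E_dual {X Y W : M3} {r s t : ℝ} (hX : IsH X) (hY : IsH Y) (hW : IsH W) (hr : 0 < r)
    (hs : 0 < s) (ht : 0 < t) (h1 : B X Y = cosh (r + s)) (h2 : B Y W = cosh (s + t))
    (h3 : B W X = cosh (t + r)) :
    ∃ D : M3, B X D = cosh r ∧ B Y D = cosh s ∧ B W D = cosh t ∧ 0 < D.1 ∧ B D D < 1 := by
  have s1 := Real.sinh_pos_iff.2 hr
  have s2 := Real.sinh_pos_iff.2 hs
  have s3 := Real.sinh_pos_iff.2 ht
  have c1 := Real.cosh_pos r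
  have c2 := Real.cosh_pos s
  have c3 := Real.cosh_pos t
  have q1 := Real.cosh_sq r
  have q2 := Real.cosh_sq s
  have q3 := Real.cosh_sq t
  obtain ⟨k1, hk1⟩ : ∃ k, k = cosh r / sinh r := ⟨_, rfl⟩
  obtain ⟨k2, hk2⟩ : ∃ k, k = cosh s / sinh s := ⟨_, rfl⟩
  obtain ⟨k3, hk3⟩ : ∃ k, k = cosh t / sinh t := ⟨_, rfl⟩
  have C1 : cosh r = k1 * sinh r := by rw [hk1]; field_simp
  have C2 : cosh s = k2 * sinh s := by rw [hk2]; field_simp
  have C3 : cosh t = k3 * sinh t := by rw [hk3]; field_simp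
  have p1 : 0 < k1 := by rw [hk1]; positivity
  have p2 : 0 < k2 := by rw [hk2]; positivity
  have p3 : 0 < k3 := by rw [hk3]; positivity
  obtain ⟨e, he⟩ : ∃ e, e = 1 + (k1 * k2 + k2 * k3 + k3 * k1) := ⟨_, rfl⟩
  have e0 : 0 < e := by rw [he]; positivity
  rw [Real.cosh_add, C1, C2] at h1
  rw [Real.cosh_add, C2, C3] at h2
  rw [Real.cosh_add, C3, C1] at h3
  have u1 : sinh r ^ 2 * (k1 ^ 2 - 1) = 1 := by rw [C1] at q1; linarith
  have u2 : sinh s ^ 2 * (k2 ^ 2 - 1) = 1 := by rw [C2] at q2; linarith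
  have u3 : sinh t ^ 2 * (k3 ^ 2 - 1) = 1 := by rw [C3] at q3; linarith
  obtain ⟨d1, hd1⟩ : ∃ d, d = (k2 + k3) / (2 * sinh r * e) := ⟨_, rfl⟩
  obtain ⟨d2, hd2⟩ : ∃ d, d = (k3 + k1) / (2 * sinh s * e) := ⟨_, rfl⟩
  obtain ⟨d3, hd3⟩ : ∃ d, d = (k1 + k2) / (2 * sinh t * e) := ⟨_, rfl⟩
  have d1p : 0 < d1 := by rw [hd1]; positivity
  have d2p : 0 < d2 := by rw [hd2]; positivity
  have d3p : 0 < d3 := by rw [hd3]; positivity
  have hBX : B X (d1 • X + d2 • Y + d3 • W) = cosh r := by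
    rw [E_B_comb', hX.1, h1, E_comm X W, h3, C1, ← u1, hd1, hd2, hd3]
    field_simp
    rw [he]; ring
  have hBY : B Y (d1 • X + d2 • Y + d3 • W) = cosh s := by
    rw [E_B_comb', hY.1, h2, E_comm Y X, h1, C2, ← u2, hd1, hd2, hd3]
    field_simp
    rw [he]; ring
  have hBW : B W (d1 • X + d2 • Y + d3 • W) = cosh t := by
    rw [E_B_comb', hW.1, h3, E_comm W Y, h2, C3, ← u3, hd1, hd2, hd3]
    field_simp
    rw [he]; ring
  refine ⟨d1 • X + d2 • Y + d3 • W, hBX, hBY, hBW, ?_, ?_⟩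
  · have := hX.2
    have := hY.2
    have := hW.2
    simp only [Prod.fst_add, Prod.smul_fst, smul_eq_mul]
    positivity
  · rw [E_B_comb, hBX, hBY, hBW, C1, C2, C3, hd1, hd2, hd3]
    have : (k2 + k3) / (2 * sinh r * e) * (k1 * sinh r) + (k3 + k1) / (2 * sinh s * e) *
        (k2 * sinh s) + (k1 + k2) / (2 * sinh t * e) * (k3 * sinh t) = (e - 1) / e := by
      field_simp
      rw [he]; ring
    rw [this, div_lt_one e0]
    linarith

theorem E_poin {V D : M3} (hV : IsH V) (hD : 0 < D.1) :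
    ‖poin V - poin D‖ ^ 2 = (1 - B D D) / (1 + D.1) ^ 2 +
      2 * (B V D - 1) / ((1 + V.1) * (1 + D.1)) := by
  have h1 := hV.1
  have h2 := hV.2
  have e1 : (1 + V.1) ≠ 0 := by positivity
  have e2 : (1 + D.1) ≠ 0 := by positivity
  rw [E_sq]
  simp only [poin, Complex.sub_re, Complex.sub_im, Complex.div_ofReal_re, Complex.div_ofReal_im]
  simp only [B] at *
  have h3 : V.2.im ^ 2 = V.1 ^ 2 - 1 - V.2.re ^ 2 := by linarith
  field_simp
  ring_nf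
  rw [h3]
  ring

theorem E_cen {X D : M3} {r : ℝ} (hX : IsH X) (hD : 0 < D.1)
    (hB : B X D = cosh r) : ‖cen X r - poin D‖ ^ 2 = (rad X r) ^ 2 + (1 - B D D) / (1 + D.1) ^ 2 := by
  have h1 := hX.1
  have h2 := hX.2
  have hc := Real.cosh_pos r
  have hq := Real.sinh_sq r
  have e1 : (X.1 + cosh r) ≠ 0 := by positivity
  have e2 : (1 + D.1) ≠ 0 := by positivity
  rw [E_sq]
  simp only [poin, cen, rad, Complex.sub_re, Complex.sub_im, Complex.div_ofReal_re,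
    Complex.div_ofReal_im, div_pow]
  rw [hq]
  rw [← hB] at *
  simp only [B] at *
  have h3 : X.2.im ^ 2 = X.1 ^ 2 - 1 - X.2.re ^ 2 := by linarith
  field_simp
  ring_nf
  rw [h3]
  ring

end CarrE

theorem carrier_pt {X Y W V : M3} {r s t : ℝ} (hX : IsH X) (hY : IsH Y) (hW : IsH W) (hr : 0 < r)
    (hs : 0 < s) (ht : 0 < t) (h1 : B X Y = cosh (r + s)) (h2 : B Y W = cosh (s + t))
    (h3 : B W X = cosh (t + r)) (hd : 0 < det3 X Y W) (hV : IsH V) (hin : InTri X Y W V)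
    (hx : cosh r ≤ B X V) (hy : cosh s ≤ B Y V) (hw : cosh t ≤ B W V) :
    poin V ∈ convexHull ℝ {cen X r, cen Y s, cen W t} := by
  obtain ⟨D, hXD, hYD, hWD, hD, hDD⟩ := CarrE.E_dual hX hY hW hr hs ht h1 h2 h3
  -- coordinates of V
  obtain ⟨a, ha⟩ : ∃ a, a = det3 Y W V / det3 X Y W := ⟨_, rfl⟩
  obtain ⟨b, hb⟩ : ∃ b, b = det3 W X V / det3 X Y W := ⟨_, rfl⟩
  obtain ⟨c, hc⟩ : ∃ c, c = det3 X Y V / det3 X Y W := ⟨_, rfl⟩
  have hVc : V = a • X + b • Y + c • W := by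
    rw [ha, hb, hc]; exact CarrE.E_cramer hd.ne'
  have ha0 : 0 ≤ a := by rw [ha]; exact div_nonneg hin.2.1 hd.le
  have hb0 : 0 ≤ b := by rw [hb]; exact div_nonneg hin.2.2 hd.le
  have hc0 : 0 ≤ c := by rw [hc]; exact div_nonneg hin.1 hd.le
  have hVV : a * B X V + b * B Y V + c * B W V = 1 := by
    rw [← CarrE.E_B_comb, ← hVc]; exact hV.1
  have hVD : B V D ≤ 1 := by
    have : B V D = a * B X D + b * B Y D + c * B W D := by
      rw [← CarrE.E_B_comb, ← hVc]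
    rw [this, hXD, hYD, hWD, ← hVV]
    have := mul_le_mul_of_nonneg_left hx ha0
    have := mul_le_mul_of_nonneg_left hy hb0
    have := mul_le_mul_of_nonneg_left hw hc0
    linarith
  obtain ⟨σ, hσ⟩ : ∃ σ, σ = sqrt ((1 - B D D) / (1 + D.1) ^ 2) := ⟨_, rfl⟩
  have hσ0 : 0 ≤ σ := by rw [hσ]; exact Real.sqrt_nonneg _
  have hσ2 : σ ^ 2 = (1 - B D D) / (1 + D.1) ^ 2 := by
    rw [hσ]; apply Real.sq_sqrt
    exact div_nonneg (by linarith) (by positivity)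
  have hyp : ‖poin V - poin D‖ ≤ σ := by
    apply le_of_sq_le_sq _ hσ0
    rw [CarrE.E_poin hV hD, hσ2]
    have h0 := hV.2
    have : 2 * (B V D - 1) / ((1 + V.1) * (1 + D.1)) ≤ 0 :=
      div_nonpos_of_nonpos_of_nonneg (by linarith) (by positivity)
    linarith
  have p1 := CarrE.E_cen (r := r) hX hD hXD
  have p2 := CarrE.E_cen (r := s) hY hD hYD
  have p3 := CarrE.E_cen (r := t) hW hD hWD
  rw [← hσ2] at p1 p2 p3
  have o1 := cen_orient hX hY hW hr hs ht h1 h2 h3 hd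
  have o2 : 0 < cr (cen W t - cen Y s) (cen X r - cen Y s) := by
    have : cr (cen W t - cen Y s) (cen X r - cen Y s) = cr (cen Y s - cen X r) (cen W t - cen X r) := by
      simp only [cr, Complex.sub_re, Complex.sub_im]; ring
    rw [this]; exact o1
  have o3 : 0 < cr (cen X r - cen W t) (cen Y s - cen W t) := by
    have : cr (cen X r - cen W t) (cen Y s - cen W t) = cr (cen Y s - cen X r) (cen W t - cen X r) := by
      simp only [cr, Complex.sub_re, Complex.sub_im]; ring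
    rw [this]; exact o1
  have t1 := (cen_tang hX hY hr hs).2 h1
  have t2 := (cen_tang hY hW hs ht).2 h2
  have t3 := (cen_tang hW hX ht hr).2 h3
  exact CarrE.E_hull o1
    (CarrE.E_side (rad_pos hX hr) (rad_pos hY hs) (rad_pos hW ht) hσ0 t1 t2 t3 p1 p2 p3 o1 hyp)
    (CarrE.E_side (rad_pos hY hs) (rad_pos hW ht) (rad_pos hX hr) hσ0 t2 t3 t1 p2 p3 p1 o2 hyp)
    (CarrE.E_side (rad_pos hW ht) (rad_pos hX hr) (rad_pos hY hs) hσ0 t3 t1 t2 p3 p1 p2 o3 hyp)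

end Pool.Agent.H776R2.Fatou
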