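import Pool.Agent.H776R2.Fatou.Defs

/-! Task K: combinatorics of the spiral triangulation. -/

open Real

noncomputable section

namespace Pool.Agent.H776R2.Fatou

/-- consecutive pairs forming a path from `a` to `b` -/
def ChainL : ℕ → List (ℕ × ℕ) → ℕ → Prop
  | a, [], b => a = b
  | a, (p :: l), b => p.1 = a ∧ ChainL p.2 l b

theorem K_q_ge (k : ℕ) : 1000000000000 ≤ q k := by
  unfold q Qc
  have h : 1 ≤ 2 ^ k := Nat.one_le_two_pow
  calc 1000000000000 = 10 ^ 12 * 1 := by norm_num
    _ ≤ 10 ^ 12 * 2 ^ k := Nat.mul_le_mul_left _ h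

theorem K_N_def (k : ℕ) : N k = 2 * q k + 64 := rfl

theorem N_ge (k : ℕ) : 2 * 10 ^ 12 + 64 ≤ N k := by
  have h := K_q_ge k
  rw [K_N_def]
  norm_num
  omega

theorem K_N_ge (k : ℕ) : 2000000000064 ≤ N k := by
  have h := K_q_ge k
  rw [K_N_def]
  omega

theorem n_succ (k : ℕ) : n (k + 1) = n k + N k := rfl

theorem K_n_zero : n 0 = 2 := rfl

theorem n_strictMono : StrictMono n := by
  refine strictMono_nat_of_lt_succ fun k => ?_
  have h := K_N_ge k
  rw [n_succ]
  omega

theorem n_ge (k : ℕ) : k + 2 ≤ n k := by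
  induction k with
  | zero => rw [K_n_zero]
  | succ k ih =>
    have h := K_N_ge k
    rw [n_succ]
    omega

theorem K_n_ge' (k : ℕ) (hk : 1 ≤ k) : k + 1000000000000 ≤ n k := by
  induction k, hk using Nat.le_induction with
  | base =>
    have h := K_N_ge 0
    rw [show n 1 = n 0 + N 0 from rfl, K_n_zero]
    omega
  | succ k _ ih =>
    have h := K_N_ge k
    rw [n_succ]
    omega

theorem n_ge' (k : ℕ) (hk : 1 ≤ k) : k + 10 ^ 12 ≤ n k := by
  have h := K_n_ge' k hk
  norm_num
  exact h

theorem pet_le {k j : ℕ} (h : j ≤ N k) : pet k j = n k - 1 + j := by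
  unfold pet
  rw [if_neg (by omega)]

theorem pet_zero (k : ℕ) : pet k 0 = n k - 1 := by
  rw [pet_le (Nat.zero_le _)]
  rfl

theorem pet_last (k : ℕ) : pet k (N k + 1) = k + 1 := by
  unfold pet
  rw [if_pos rfl]

theorem pet_mem {k j : ℕ} (h1 : 1 ≤ j) (h2 : j ≤ N k) : n k ≤ pet k j ∧ pet k j < n (k + 1) := by
  have h := n_ge k
  rw [pet_le h2, n_succ]
  omega

theorem pet_surj {k i : ℕ} (h1 : n k ≤ i) (h2 : i < n (k + 1)) :
    ∃ j, 1 ≤ j ∧ j ≤ N k ∧ pet k j = i := by
  have h := n_ge k
  rw [n_succ] at h2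
  refine ⟨i - (n k - 1), by omega, by omega, ?_⟩
  rw [pet_le (by omega)]
  omega

theorem pet_lt {k j : ℕ} (h : j ≤ N k + 1) : pet k j < n (k + 1) := by
  rcases Nat.lt_or_ge (N k) j with h1 | h1
  · have h2 : j = N k + 1 := by omega
    rw [h2, pet_last]
    have := n_ge (k + 1)
    omega
  · have := n_ge k
    rw [pet_le h1, n_succ]
    omega

theorem pet_gt {k j : ℕ} (h : j ≤ N k + 1) : k < pet k j := by
  rcases Nat.lt_or_ge (N k) j with h1 | h1
  · have h2 : j = N k + 1 := by omega
    rw [h2, pet_last]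
    omega
  · have := n_ge k
    rw [pet_le h1]
    omega

theorem par_spec {i : ℕ} (h : 2 ≤ i) : n (par i) ≤ i ∧ i < n (par i + 1) := by
  constructor
  · unfold par
    exact Nat.findGreatest_spec (P := fun k => n k ≤ i) (m := 0) (Nat.zero_le _) h
  · by_contra hc
    rw [not_lt] at hc
    have h1 : par i + 1 ≤ i := by
      have := n_ge (par i + 1)
      omega
    have h2 : par i + 1 ≤ par i := by
      conv_rhs => unfold par
      exact Nat.le_findGreatest h1 hc
    omega

theorem par_eq {k i : ℕ} (h1 : n k ≤ i) (h2 : i < n (k + 1)) : par i = k := by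
  have h3 : 2 ≤ i := by
    have := n_ge k
    omega
  obtain ⟨h4, h5⟩ := par_spec h3
  have h6 : par i < k + 1 := n_strictMono.lt_iff_lt.1 (lt_of_le_of_lt h4 h2)
  have h7 : k < par i + 1 := n_strictMono.lt_iff_lt.1 (lt_of_le_of_lt h1 h5)
  omega

theorem K_par_lt {i : ℕ} (h : 2 ≤ i) : par i + 2 ≤ i := by
  have h1 := (par_spec h).1
  have h2 := n_ge (par i)
  omega

theorem K_old_zero : old 0 = [] := by
  unfold old
  rw [if_pos rfl]

theorem K_old_one : old 1 = [(2, 0), (0, n 1 - 1)] := by
  unfold old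
  rw [if_neg one_ne_zero, if_pos rfl]

theorem K_old_a {k : ℕ} (hk : 2 ≤ k) (h : k + 1 = n (par k + 1)) :
    old k = [(k + 1, par k + 1), (par k + 1, par k), (par k, k - 1), (k - 1, n k - 1)] := by
  unfold old
  rw [if_neg (by omega), if_neg (by omega), if_pos h]

theorem K_old_b {k : ℕ} (hk : 2 ≤ k) (h : k + 1 ≠ n (par k + 1)) :
    old k = [(k + 1, par k), (par k, k - 1), (k - 1, n k - 1)] := by
  unfold old
  rw [if_neg (by omega), if_neg (by omega), if_neg h]

theorem K_cases (k : ℕ) : k = 0 ∨ k = 1 ∨ (2 ≤ k ∧ k + 1 = n (par k + 1)) ∨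
    (2 ≤ k ∧ k + 1 ≠ n (par k + 1)) := by
  by_cases h : k + 1 = n (par k + 1)
  · rcases Nat.lt_or_ge k 2 with h1 | h1
    · omega
    · right; right; left; exact ⟨h1, h⟩
  · rcases Nat.lt_or_ge k 2 with h1 | h1
    · omega
    · right; right; right; exact ⟨h1, h⟩

theorem old_len (k : ℕ) : (old k).length ≤ 4 := by
  rcases K_cases k with h | h | ⟨h1, h2⟩ | ⟨h1, h2⟩
  · subst h; rw [K_old_zero]; simp
  · subst h; rw [K_old_one]; simp
  · rw [K_old_a h1 h2]; simp
  · rw [K_old_b h1 h2]; simp

theorem K_chain_nil (a : ℕ) : ChainL a [] a := rfl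

theorem old_chain {k : ℕ} (hk : 1 ≤ k) : ChainL (k + 1) (old k) (n k - 1) := by
  rcases K_cases k with h | h | ⟨h1, h2⟩ | ⟨h1, h2⟩
  · omega
  · subst h; rw [K_old_one]; exact ⟨rfl, rfl, rfl⟩
  · rw [K_old_a h1 h2]; exact ⟨rfl, rfl, rfl, rfl, rfl⟩
  · rw [K_old_b h1 h2]; exact ⟨rfl, rfl, rfl, rfl⟩

theorem K_chain_append {a b c : ℕ} {l m : List (ℕ × ℕ)} (h1 : ChainL a l b) (h2 : ChainL b m c) :
    ChainL a (l ++ m) c := by
  induction l generalizing a with
  | nil =>
    have h : a = b := h1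
    subst h
    exact h2
  | cons p l ih => exact ⟨h1.1, ih h1.2⟩

theorem K_chain_range (f : ℕ → ℕ) (m : ℕ) :
    ChainL (f 0) ((List.range m).map fun j => (f j, f (j + 1))) (f m) := by
  induction m with
  | zero => exact rfl
  | succ m ih =>
    rw [List.range_succ, List.map_append]
    exact K_chain_append ih ⟨rfl, rfl⟩

theorem new_chain (k : ℕ) : ChainL (n k - 1) (new k) (k + 1) := by
  have h := K_chain_range (pet k) (N k + 1)
  rw [pet_last, pet_zero] at h
  exact h

theorem pairs_chain (k : ℕ) : ChainL (k + 1) (pairs k) (k + 1) := by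
  unfold pairs
  rcases Nat.eq_zero_or_pos k with h | h
  · have h1 := new_chain k
    have h2 : n k - 1 = k + 1 := by rw [h, K_n_zero]
    have h3 : old k = [] := by rw [h]; exact K_old_zero
    rw [h2] at h1
    rw [h3, List.nil_append]
    exact h1
  · exact K_chain_append (old_chain h) (new_chain k)

/-- the pairs of `old k` are corners at `k` of faces of earlier stages -/
theorem old_face {k : ℕ} {p : ℕ × ℕ} (hp : p ∈ old k) : ∃ k' j, k' < k ∧ j ≤ N k' ∧
    ((k = pet k' j ∧ p.1 = pet k' (j + 1) ∧ p.2 = k') ∨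
     (k = pet k' (j + 1) ∧ p.1 = k' ∧ p.2 = pet k' j)) := by
  have hlast : 1 ≤ k → ∃ k' j, k' < k ∧ j ≤ N k' ∧
      ((k = pet k' j ∧ n k - 1 = pet k' (j + 1) ∧ n k - 1 = k') ∨
       (k = pet k' (j + 1) ∧ k - 1 = k' ∧ n k - 1 = pet k' j)) := by
    intro h
    obtain ⟨m, rfl⟩ : ∃ m, k = m + 1 := ⟨k - 1, by omega⟩
    refine ⟨m, N m, by omega, le_rfl, Or.inr ⟨?_, ?_, ?_⟩⟩
    · rw [pet_last]
    · omega
    · have := n_ge m
      rw [pet_le le_rfl, n_succ]
      omega
  rcases K_cases k with h | h | ⟨h1, h2⟩ | ⟨h1, h2⟩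
  · subst h; rw [K_old_zero] at hp; simp at hp
  · subst h
    rw [K_old_one] at hp
    simp only [List.mem_cons, List.not_mem_nil, or_false] at hp
    have hN := K_N_ge 0
    rcases hp with rfl | rfl
    · refine ⟨0, 0, by omega, by omega, Or.inl ⟨?_, ?_, rfl⟩⟩
      · rw [pet_zero, K_n_zero]
      · rw [pet_le (by omega), K_n_zero]
    · refine ⟨0, N 0, by omega, le_rfl, Or.inr ⟨?_, rfl, ?_⟩⟩
      · rw [pet_last]
      · show n 1 - 1 = _
        rw [pet_le le_rfl, show n 1 = n 0 + N 0 from rfl, K_n_zero]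
        omega
  · rw [K_old_a h1 h2] at hp
    simp only [List.mem_cons, List.not_mem_nil, or_false] at hp
    obtain ⟨h3, h4⟩ := par_spec h1
    have h5 := K_par_lt h1
    have h6 := n_ge (par k)
    have h7 := K_N_ge (par k)
    have h8 := K_N_ge (par k + 1)
    have h9 := n_ge (par k + 1)
    have h10 := n_succ (par k)
    generalize par k = m at *
    rcases hp with rfl | rfl | rfl | rfl
    · refine ⟨m + 1, 0, by omega, by omega, Or.inl ⟨?_, ?_, rfl⟩⟩
      · rw [pet_zero]; omega
      · rw [pet_le (by omega)]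
        show k + 1 = _
        omega
    · refine ⟨m, N m, by omega, le_rfl, Or.inl ⟨?_, ?_, rfl⟩⟩
      · rw [pet_le le_rfl]; omega
      · rw [pet_last]
    · refine ⟨m, N m - 1, by omega, by omega, Or.inr ⟨?_, rfl, ?_⟩⟩
      · rw [pet_le (by omega)]; omega
      · rw [pet_le (by omega)]
        show k - 1 = _
        omega
    · obtain ⟨k', j, ha, hb, hc⟩ := hlast (by omega)
      refine ⟨k', j, ha, hb, ?_⟩
      rcases hc with hc | hc
      · exfalso
        have := n_ge k
        omega
      · exact Or.inr hc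
  · rw [K_old_b h1 h2] at hp
    simp only [List.mem_cons, List.not_mem_nil, or_false] at hp
    obtain ⟨h3, h4⟩ := par_spec h1
    have h5 := K_par_lt h1
    have h6 := n_ge (par k)
    have h7 := K_N_ge (par k)
    have h8 := K_N_ge (par k + 1)
    have h9 := n_ge (par k + 1)
    have h10 := n_succ (par k)
    generalize par k = m at *
    rcases hp with rfl | rfl | rfl
    · refine ⟨m, k - (n m - 1), by omega, by omega, Or.inl ⟨?_, ?_, rfl⟩⟩
      · rw [pet_le (by omega)]; omega
      · rw [pet_le (by omega)]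
        show k + 1 = _
        omega
    · refine ⟨m, k - n m, by omega, by omega, Or.inr ⟨?_, rfl, ?_⟩⟩
      · rw [pet_le (by omega)]; omega
      · rw [pet_le (by omega)]
        show k - 1 = _
        omega
    · obtain ⟨k', j, ha, hb, hc⟩ := hlast (by omega)
      refine ⟨k', j, ha, hb, ?_⟩
      rcases hc with hc | hc
      · exfalso
        have := n_ge k
        omega
      · exact Or.inr hc

theorem new_face {k : ℕ} {p : ℕ × ℕ} (hp : p ∈ new k) :
    ∃ j, j ≤ N k ∧ p.1 = pet k j ∧ p.2 = pet k (j + 1) := by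
  unfold new at hp
  rw [List.mem_map] at hp
  obtain ⟨j, hj, rfl⟩ := hp
  rw [List.mem_range] at hj
  exact ⟨j, by omega, rfl, rfl⟩

/-- every face has its three corners in the flowers -/
theorem corner0 {k j : ℕ} (hj : j ≤ N k) : (pet k j, pet k (j + 1)) ∈ pairs k := by
  unfold pairs new
  rw [List.mem_append]
  right
  rw [List.mem_map]
  exact ⟨j, List.mem_range.2 (by omega), rfl⟩

theorem corner1 {k j : ℕ} (hj : j ≤ N k) : (pet k (j + 1), k) ∈ pairs (pet k j) := by
  unfold pairs
  rw [List.mem_append]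
  left
  have hN := K_N_ge k
  have hn := n_ge k
  rcases Nat.eq_zero_or_pos j with h0 | h0
  · subst h0
    rw [pet_zero, pet_le (by omega)]
    rcases Nat.eq_zero_or_pos k with hk | hk
    · subst hk
      rw [K_n_zero, show 2 - 1 = 1 from rfl, K_old_one]
      simp
    · have h1 := K_n_ge' k hk
      obtain ⟨m, rfl⟩ : ∃ m, k = m + 1 := ⟨k - 1, by omega⟩
      have h2 := n_succ m
      have h3 := K_N_ge m
      have h4 : par (n (m + 1) - 1) = m := par_eq (by omega) (by omega)
      rw [K_old_a (by omega) (by rw [h4]; omega), h4]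
      have h5 : n (m + 1) - 1 + (0 + 1) = n (m + 1) - 1 + 1 := rfl
      rw [h5]
      simp
  · have h1 := pet_mem h0 hj
    have h2 : par (pet k j) = k := par_eq h1.1 h1.2
    rcases Nat.lt_or_ge j (N k) with h3 | h3
    · have h4 := n_succ k
      have h5 := pet_le hj
      have h6 : pet k (j + 1) = n k - 1 + (j + 1) := pet_le (by omega)
      rw [K_old_b (by omega) (by rw [h2]; omega), h2]
      have h7 : pet k (j + 1) = pet k j + 1 := by omega
      rw [h7]
      simp
    · have h4 : j = N k := by omega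
      subst h4
      have h4 := n_succ k
      have h5 := pet_le hj
      rw [K_old_a (by omega) (by rw [h2]; omega), h2, pet_last]
      simp

theorem corner2 {k j : ℕ} (hj : j ≤ N k) : (k, pet k j) ∈ pairs (pet k (j + 1)) := by
  unfold pairs
  rw [List.mem_append]
  left
  have hN := K_N_ge k
  have hn := n_ge k
  have hs := n_succ k
  rcases Nat.lt_or_ge j (N k) with h3 | h3
  · have h1 := pet_mem (k := k) (j := j + 1) (by omega) (by omega)
    have h2 : par (pet k (j + 1)) = k := par_eq h1.1 h1.2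
    have h5 := pet_le hj
    have h6 : pet k (j + 1) = n k - 1 + (j + 1) := pet_le (by omega)
    have h7 : pet k j = pet k (j + 1) - 1 := by omega
    by_cases h8 : pet k (j + 1) + 1 = n (par (pet k (j + 1)) + 1)
    · rw [K_old_a (by omega) h8, h2, h7]
      simp
    · rw [K_old_b (by omega) h8, h2, h7]
      simp
  · have h4 : j = N k := by omega
    subst h4
    rw [pet_last]
    have h5 := pet_le hj
    have h6 : pet k (N k) = n (k + 1) - 1 := by omega
    rw [h6]
    rcases K_cases (k + 1) with h | h | ⟨h1, h2⟩ | ⟨h1, h2⟩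
    · omega
    · have hk : k = 0 := by omega
      subst hk
      rw [show 0 + 1 = 1 from rfl, K_old_one]
      simp
    · rw [K_old_a h1 h2]
      simp
    · rw [K_old_b h1 h2]
      simp

/-- boundary edges are edges of faces -/
theorem bd_edge {k i : ℕ} (hk : 1 ≤ k) (h1 : k ≤ i) (h2 : i < n k) :
    ∃ k' j, k' < k ∧ j ≤ N k' ∧ i = pet k' j ∧ nx k i = pet k' (j + 1) := by
  unfold nx
  by_cases h : i + 1 = n k
  · rw [if_pos h]
    obtain ⟨m, rfl⟩ : ∃ m, k = m + 1 := ⟨k - 1, by omega⟩
    have h3 := n_succ m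
    have h4 := n_ge m
    refine ⟨m, N m, by omega, le_rfl, ?_, ?_⟩
    · rw [pet_le le_rfl]; omega
    · rw [pet_last]
  · rw [if_neg h]
    obtain ⟨h3, h4⟩ := par_spec (i := i + 1) (by omega)
    have h5 : par (i + 1) < k := n_strictMono.lt_iff_lt.1 (by omega)
    have h6 := n_succ (par (i + 1))
    have h7 := n_ge (par (i + 1))
    generalize par (i + 1) = m at *
    refine ⟨m, i + 1 - n m, h5, by omega, ?_, ?_⟩
    · rw [pet_le (by omega)]; omega
    · rw [pet_le (by omega)]; omega

/-- the colouring -/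
def K_st (i : ℕ) : Option (ZMod 3) :=
  if _h : i < 2 then (if i = 0 then some 0 else some 1)
  else if i - (n (par i) - 1) ≤ q (par i) then
    zone (K_st (par i)) (K_st (n (par i) - 1)) (i - (n (par i) - 1))
  else if i - (n (par i) - 1) ≤ q (par i) + mB then none
  else zone (K_st (par i)) (K_st (par i + 1)) (N (par i) + 1 - (i - (n (par i) - 1)))
termination_by i
decreasing_by
  all_goals
    have h1 := K_par_lt (i := i) (by omega)
    have h2 := (par_spec (i := i) (by omega)).1
    have h3 := n_ge (par i)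
    omega

theorem K_st_pet {k j : ℕ} (h1 : 1 ≤ j) (h2 : j ≤ N k) : K_st (pet k j) =
    if j ≤ q k then zone (K_st k) (K_st (n k - 1)) j
    else if j ≤ q k + mB then none
    else zone (K_st k) (K_st (k + 1)) (N k + 1 - j) := by
  have h3 := pet_mem h1 h2
  have h4 : par (pet k j) = k := par_eq h3.1 h3.2
  have h5 := n_ge k
  have h6 : pet k j - (n k - 1) = j := by
    rw [pet_le h2]
    omega
  rw [K_st, dif_neg (by omega), h4, h6]

/-- existence of the colouring -/
theorem st_exists : ∃ st, StSpec st := by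
  refine ⟨K_st, ?_, ?_, ?_, ?_, ?_⟩
  · rw [K_st]; simp
  · rw [K_st]; simp
  · intro k j h1 h2
    have h3 := K_N_def k
    rw [K_st_pet h1 (by omega), if_pos h2]
  · intro k j h1 h2
    have h3 := K_N_def k
    have h4 : mB = 64 := rfl
    have h5 : N k + 1 - (N k + 1 - j) = j := by omega
    rw [K_st_pet (by omega) (by omega), if_neg (by omega), if_neg (by omega), h5]
  · intro k j h1 h2
    have h3 := K_N_def k
    have h4 : mB = 64 := rfl
    have h5 := K_q_ge k
    rw [K_st_pet (by omega) (by omega), if_neg (by omega), if_pos h2]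

end Pool.Agent.H776R2.Fatou
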