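import Pool.Agent.H776R2.Fatou.Defs
import Pool.Agent.H776R2.Fatou.Comb

open Real

noncomputable section

namespace Pool.Agent.H776R2.Fatou

/-! ### Task PA (Col.lean): colours of the faces -/

theorem PA_zone_none_left (c : Option (ZMod 3)) (j : ℕ) : zone none c j = none := rfl

theorem PA_zone_none_right (c : Option (ZMod 3)) (j : ℕ) : zone c none j = none := by
  cases c <;> rfl

theorem PA_zone_some (x y : ZMod 3) (j : ℕ) :
    zone (some x) (some y) j = if j % 2 = 1 then some (-(x + y)) else some y := rfl

theorem PA_zone_ne {c c' : Option (ZMod 3)} {j : ℕ} :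
    zone c c' j ≠ none ↔ c ≠ none ∧ c' ≠ none := by
  cases c with
  | none => simp [PA_zone_none_left]
  | some x =>
    cases c' with
    | none => simp [PA_zone_none_right]
    | some y =>
      rw [PA_zone_some]
      split_ifs <;> simp

theorem PA_L {st : ℕ → Option (ZMod 3)} (hst : StSpec st) {k j : ℕ} (h1 : 1 ≤ j)
    (h2 : j ≤ q k) : st (pet k j) ≠ none ↔ st k ≠ none ∧ st (n k - 1) ≠ none := by
  rw [hst.left k j h1 h2]
  exact PA_zone_ne

theorem PA_right {st : ℕ → Option (ZMod 3)} (hst : StSpec st) {k j : ℕ}
    (h1 : q k + mB + 1 ≤ j) (h2 : j ≤ N k) :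
    st (pet k j) = zone (st k) (st (k + 1)) (N k + 1 - j) := by
  have h := hst.right k (N k + 1 - j) (by omega) (by
    have : N k = 2 * q k + mB := rfl
    omega)
  have e : N k + 1 - (N k + 1 - j) = j := by omega
  rw [e] at h
  exact h

theorem PA_R {st : ℕ → Option (ZMod 3)} (hst : StSpec st) {k j : ℕ}
    (h1 : q k + mB + 1 ≤ j) (h2 : j ≤ N k) :
    st (pet k j) ≠ none ↔ st k ≠ none ∧ st (k + 1) ≠ none := by
  rw [PA_right hst h1 h2]
  exact PA_zone_ne

theorem PA_cases {st : ℕ → Option (ZMod 3)} (hst : StSpec st) {k j : ℕ} (h1 : 1 ≤ j)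
    (h2 : j ≤ N k) (h : st (pet k j) ≠ none) :
    (j ≤ q k ∧ st k ≠ none ∧ st (n k - 1) ≠ none) ∨
    (q k + mB + 1 ≤ j ∧ st k ≠ none ∧ st (k + 1) ≠ none) := by
  rcases le_or_gt j (q k) with hj | hj
  · left
    exact ⟨hj, (PA_L hst h1 hj).1 h⟩
  · rcases le_or_gt j (q k + mB) with hj' | hj'
    · exact absurd (hst.mid k j hj hj') h
    · right
      exact ⟨hj', (PA_R hst hj' h2).1 h⟩

theorem PA_bad {st : ℕ → Option (ZMod 3)} (hst : StSpec st) {k j : ℕ} (h1 : 1 ≤ j)
    (h2 : j ≤ N k) (h : st k = none) : st (pet k j) = none := by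
  by_contra hc
  rcases PA_cases hst h1 h2 hc with h' | h'
  · exact h'.2.1 h
  · exact h'.2.1 h

/-- left zone with index 0 included -/
theorem PA_left0 {st : ℕ → Option (ZMod 3)} (hst : StSpec st) {k j : ℕ} (h2 : j ≤ q k)
    {x y : ZMod 3} (hx : st k = some x) (hy : st (n k - 1) = some y) :
    st (pet k j) = if j % 2 = 1 then some (-(x + y)) else some y := by
  rcases Nat.eq_zero_or_pos j with h | h
  · subst h
    rw [pet_zero]
    simpa using hy
  · rw [hst.left k j h h2, hx, hy, PA_zone_some]

/-- right zone with the last index included -/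
theorem PA_right0 {st : ℕ → Option (ZMod 3)} (hst : StSpec st) {k j : ℕ}
    (h1 : q k + mB + 1 ≤ j) (h2 : j ≤ N k + 1)
    {x y : ZMod 3} (hx : st k = some x) (hy : st (k + 1) = some y) :
    st (pet k j) = if (N k + 1 - j) % 2 = 1 then some (-(x + y)) else some y := by
  rcases Nat.lt_or_ge (N k) j with h | h
  · have e : j = N k + 1 := by omega
    subst e
    rw [pet_last]
    simpa using hy
  · rw [PA_right hst h1 h, hx, hy, PA_zone_some]

/-- two consecutive good petals -/
theorem PA_pair {st : ℕ → Option (ZMod 3)} (hst : StSpec st) {k j : ℕ} (hj : j ≤ N k)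
    (h1 : st (pet k j) ≠ none) (h2 : st (pet k (j + 1)) ≠ none) :
    (j + 1 ≤ q k ∧ st k ≠ none ∧ st (n k - 1) ≠ none) ∨
    (q k + mB + 1 ≤ j ∧ st k ≠ none ∧ st (k + 1) ≠ none) := by
  have hN : N k = 2 * q k + mB := rfl
  have hm : mB = 64 := rfl
  have hq := K_q_ge k
  rcases Nat.eq_zero_or_pos j with h | h
  · subst h
    have := PA_cases hst (k := k) (j := 0 + 1) (by omega) (by omega) h2
    rcases this with h' | h'
    · exact Or.inl h'
    · omega
  · rcases PA_cases hst h hj h1 with h' | h'
    · rcases PA_cases hst (k := k) (j := j + 1) (by omega) (by omega) h2 with h'' | h''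
      · exact Or.inl h''
      · omega
    · exact Or.inr h'

theorem face_third {st : ℕ → Option (ZMod 3)} (hst : StSpec st) {k j : ℕ} (hj : j ≤ N k)
    {x y : ZMod 3} (h1 : st (pet k j) = some x) (h2 : st (pet k (j + 1)) = some y) :
    st k = some (-(x + y)) := by
  have g1 : st (pet k j) ≠ none := by rw [h1]; simp
  have g2 : st (pet k (j + 1)) ≠ none := by rw [h2]; simp
  have key : ∀ z w : ZMod 3, z = -((-(z + w)) + w) ∧ z = -(w + (-(z + w))) := by decide
  rcases PA_pair hst hj g1 g2 with ⟨ha, hb, hc⟩ | ⟨ha, hb, hc⟩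
  · obtain ⟨z, hz⟩ := Option.ne_none_iff_exists'.1 hb
    obtain ⟨w, hw⟩ := Option.ne_none_iff_exists'.1 hc
    have e1 := PA_left0 hst (j := j) (by omega) hz hw
    have e2 := PA_left0 hst (j := j + 1) (by omega) hz hw
    rw [h1] at e1
    rw [h2] at e2
    rw [hz]
    rcases Nat.mod_two_eq_zero_or_one j with hp | hp
    · have hp' : (j + 1) % 2 = 1 := by omega
      rw [if_neg (by omega)] at e1
      rw [if_pos hp'] at e2
      rw [Option.some.inj e1, Option.some.inj e2, ← (key z w).2]
    · have hp' : (j + 1) % 2 = 0 := by omega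
      rw [if_pos hp] at e1
      rw [if_neg (by omega)] at e2
      rw [Option.some.inj e1, Option.some.inj e2, ← (key z w).1]
  · obtain ⟨z, hz⟩ := Option.ne_none_iff_exists'.1 hb
    obtain ⟨w, hw⟩ := Option.ne_none_iff_exists'.1 hc
    have e1 := PA_right0 hst (j := j) (by omega) (by omega) hz hw
    have e2 := PA_right0 hst (j := j + 1) (by omega) (by omega) hz hw
    rw [h1] at e1
    rw [h2] at e2
    rw [hz]
    rcases Nat.mod_two_eq_zero_or_one (N k + 1 - j) with hp | hp
    · have hp' : (N k + 1 - (j + 1)) % 2 = 1 := by omega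
      rw [if_neg (by omega)] at e1
      rw [if_pos hp'] at e2
      rw [Option.some.inj e1, Option.some.inj e2, ← (key z w).2]
    · have hp' : (N k + 1 - (j + 1)) % 2 = 0 := by omega
      rw [if_pos hp] at e1
      rw [if_neg (by omega)] at e2
      rw [Option.some.inj e1, Option.some.inj e2, ← (key z w).1]

theorem PA_prev {k : ℕ} (hk : 1 ≤ k) : pet (k - 1) (N (k - 1)) = n k - 1 ∧
    pet (k - 1) (N (k - 1) + 1) = k := by
  obtain ⟨m, rfl⟩ : ∃ m, k = m + 1 := ⟨k - 1, by omega⟩
  simp only [Nat.add_sub_cancel]
  rw [pet_le le_rfl, pet_last, n_succ]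
  have := n_ge m
  constructor
  · omega
  · rfl

/-- the third vertex of the older face at the edge `k, n k - 1` (`k ≥ 1`) -/
theorem left_old {st : ℕ → Option (ZMod 3)} (hst : StSpec st) {k : ℕ} (hk : 1 ≤ k)
    {x y : ZMod 3} (h1 : st k = some x) (h2 : st (n k - 1) = some y) :
    st (k - 1) = some (-(x + y)) := by
  have hp := PA_prev hk
  have := face_third hst (k := k - 1) (j := N (k - 1)) le_rfl (x := y) (y := x)
    (by rw [hp.1]; exact h2) (by rw [hp.2]; exact h1)
  rw [this, add_comm]

/-- all pairs of good vertices of a face have distinct colours -/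
theorem PA_face_all {st : ℕ → Option (ZMod 3)} (hst : StSpec st) (k : ℕ) :
    ∀ j, j ≤ N k →
      (∀ x y, st k = some x → st (pet k j) = some y → x ≠ y) ∧
      (∀ x y, st k = some x → st (pet k (j + 1)) = some y → x ≠ y) ∧
      (∀ x y, st (pet k j) = some x → st (pet k (j + 1)) = some y → x ≠ y) := by
  induction k using Nat.strong_induction_on with
  | _ k ih =>
    have hN : N k = 2 * q k + mB := rfl
    have hm : mB = 64 := rfl
    have hq := K_q_ge k
    have hn := n_ge k
    have key : ∀ z w : ZMod 3, z ≠ w → z ≠ -(z + w) ∧ w ≠ -(z + w) := by decide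
    have e1 : ∀ x y, st k = some x → st (n k - 1) = some y → x ≠ y := by
      intro x y hx hy
      rcases Nat.eq_zero_or_pos k with h | h
      · subst h
        have a0 := hst.zero
        have a1 := hst.one
        rw [a0] at hx
        have e : n 0 - 1 = 1 := rfl
        rw [e, a1] at hy
        rw [← Option.some.inj hx, ← Option.some.inj hy]
        decide
      · have hp := PA_prev h
        have := (ih (k - 1) (by omega) (N (k - 1)) le_rfl).2.2 y x (by rw [hp.1]; exact hy)
          (by rw [hp.2]; exact hx)
        exact this.symm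
    have e2 : ∀ x y, st k = some x → st (k + 1) = some y → x ≠ y := by
      intro x y hx hy
      rcases Nat.eq_zero_or_pos k with h | h
      · subst h
        have a0 := hst.zero
        have a1 := hst.one
        rw [a0] at hx
        rw [zero_add, a1] at hy
        rw [← Option.some.inj hx, ← Option.some.inj hy]
        decide
      · obtain ⟨k', j, hk', hj, h1, h2⟩ := bd_edge (k := k) (i := k) h le_rfl (by omega)
        have hnx : nx k k = k + 1 := by
          unfold nx
          rw [if_neg (by
            have := n_ge' k h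
            omega)]
        rw [hnx] at h2
        exact (ih k' hk' j hj).2.2 x y (by rw [← h1]; exact hx) (by rw [← h2]; exact hy)
    have hpet : ∀ j, j ≤ N k + 1 → ∀ x y, st k = some x → st (pet k j) = some y → x ≠ y := by
      intro j hj x y hx hy
      rcases Nat.eq_zero_or_pos j with h | h
      · subst h
        rw [pet_zero] at hy
        exact e1 x y hx hy
      · rcases Nat.lt_or_ge (N k) j with h' | h'
        · have e : j = N k + 1 := by omega
          subst e
          rw [pet_last] at hy
          exact e2 x y hx hy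
        · rcases PA_cases hst h h' (by rw [hy]; simp) with ⟨ha, hb, hc⟩ | ⟨ha, hb, hc⟩
          · obtain ⟨w, hw⟩ := Option.ne_none_iff_exists'.1 hc
            have e := PA_left0 hst (j := j) ha hx hw
            have hne := e1 x w hx hw
            rw [hy] at e
            split_ifs at e with hs
            · rw [Option.some.inj e]
              exact (key x w hne).1
            · rw [Option.some.inj e]
              exact hne
          · obtain ⟨w, hw⟩ := Option.ne_none_iff_exists'.1 hc
            have e := PA_right0 hst (j := j) ha hj hx hw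
            have hne := e2 x w hx hw
            rw [hy] at e
            split_ifs at e with hs
            · rw [Option.some.inj e]
              exact (key x w hne).1
            · rw [Option.some.inj e]
              exact hne
    intro j hj
    refine ⟨hpet j (by omega), hpet (j + 1) (by omega), ?_⟩
    intro x y hx hy
    have h3 := face_third hst hj hx hy
    have h4 := hpet j (by omega) _ _ h3 hx
    have h5 := hpet (j + 1) (by omega) _ _ h3 hy
    intro hxy
    subst hxy
    have k3 : ∀ z : ZMod 3, -(z + z) = z := by decide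
    exact h4 (k3 x)

theorem face_colour_ne {st : ℕ → Option (ZMod 3)} (hst : StSpec st) {k j a b : ℕ} (hj : j ≤ N k)
    (ha : a ∈ verts k j) (hb : b ∈ verts k j) (hab : a ≠ b) (h1 : st a ≠ none)
    (h2 : st b ≠ none) : st a ≠ st b := by
  obtain ⟨x, hx⟩ := Option.ne_none_iff_exists'.1 h1
  obtain ⟨y, hy⟩ := Option.ne_none_iff_exists'.1 h2
  have H := PA_face_all hst k j hj
  rw [hx, hy]
  intro he
  have he := Option.some.inj he
  simp only [verts, Finset.mem_insert, Finset.mem_singleton] at ha hb
  rcases ha with rfl | rfl | rfl <;> rcases hb with rfl | rfl | rfl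
  · exact hab rfl
  · exact H.1 x y hx hy he
  · exact H.2.1 x y hx hy he
  · exact H.1 y x hy hx he.symm
  · exact hab rfl
  · exact H.2.2 x y hx hy he
  · exact H.2.1 y x hy hx he.symm
  · exact H.2.2 y x hy hx he.symm
  · exact hab rfl

/-- vertices which can be bad and adjacent to a good vertex, charged to `g` -/
def AG (g : ℕ) : Finset ℕ :=
  (Finset.Icc (q g + 1) (q g + mB)).image (pet g) ∪
  (Finset.Icc 1 (N (pet g (q g)))).image (pet (pet g (q g))) ∪
  (Finset.Icc 1 (N (pet g (q g + mB + 1)))).image (pet (pet g (q g + mB + 1))) ∪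
  {pet (pet g (q g + mB)) (N (pet g (q g + mB)))}

/-- bad vertices adjacent to a good vertex -/
def Bad1 (st : ℕ → Option (ZMod 3)) : Set ℕ :=
  {i | st i = none ∧ ∃ k j g, j ≤ N k ∧ i ∈ verts k j ∧ g ∈ verts k j ∧ st g ≠ none}

theorem PA_mem1 {g j : ℕ} (h1 : q g + 1 ≤ j) (h2 : j ≤ q g + mB) : pet g j ∈ AG g := by
  unfold AG
  simp only [Finset.mem_union]
  left; left; left
  exact Finset.mem_image_of_mem _ (Finset.mem_Icc.2 ⟨h1, h2⟩)

theorem PA_mem2 {g j : ℕ} (h1 : 1 ≤ j) (h2 : j ≤ N (pet g (q g))) :
    pet (pet g (q g)) j ∈ AG g := by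
  unfold AG
  simp only [Finset.mem_union]
  left; left; right
  exact Finset.mem_image_of_mem _ (Finset.mem_Icc.2 ⟨h1, h2⟩)

theorem PA_mem3 {g j : ℕ} (h1 : 1 ≤ j) (h2 : j ≤ N (pet g (q g + mB + 1))) :
    pet (pet g (q g + mB + 1)) j ∈ AG g := by
  unfold AG
  simp only [Finset.mem_union]
  left; right
  exact Finset.mem_image_of_mem _ (Finset.mem_Icc.2 ⟨h1, h2⟩)

theorem PA_mem4 {g : ℕ} : pet (pet g (q g + mB)) (N (pet g (q g + mB))) ∈ AG g := by
  unfold AG
  simp only [Finset.mem_union]
  right
  exact Finset.mem_singleton_self _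

/-- `n k - 1` as a petal of `k - 1`: bad if one of `k - 1`, `k` is bad -/
theorem PA_prev_iff {st : ℕ → Option (ZMod 3)} (hst : StSpec st) {k : ℕ} (hk : 1 ≤ k) :
    st (n k - 1) ≠ none ↔ st (k - 1) ≠ none ∧ st k ≠ none := by
  have hN : N (k - 1) = 2 * q (k - 1) + mB := rfl
  have hm : mB = 64 := rfl
  have hq := K_q_ge (k - 1)
  rw [← (PA_prev hk).1, PA_R hst (by omega) le_rfl, Nat.sub_add_cancel hk]

/-- the vertex `n (p+1)` after the last petal of `p` -/
theorem PA_next_iff {st : ℕ → Option (ZMod 3)} (hst : StSpec st) (p : ℕ) :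
    st (pet (p + 1) 1) ≠ none ↔ st (p + 1) ≠ none ∧ st (pet p (N p)) ≠ none := by
  have hq := K_q_ge (p + 1)
  rw [PA_L hst le_rfl (by omega)]
  have := (PA_prev (k := p + 1) (by omega)).1
  simp only [Nat.add_sub_cancel] at this
  rw [this]

theorem PA_succ {p j : ℕ} (h : j + 1 ≤ N p) : pet p (j + 1) = pet p j + 1 := by
  rw [pet_le h, pet_le (by omega)]
  omega

theorem PA_succ' (p : ℕ) : pet (p + 1) 1 = pet p (N p) + 1 := by
  have := K_N_ge (p + 1)
  have h2 := n_ge p
  rw [pet_le (by omega), pet_le le_rfl, n_succ]
  omega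

/-- a good vertex `p ≥ 2` with a bad successor is `pet g (q g)` -/
theorem PA_good_bad {st : ℕ → Option (ZMod 3)} (hst : StSpec st) {p : ℕ} (hp : 2 ≤ p)
    (h1 : st p ≠ none) (h2 : st (p + 1) = none) : ∃ g, p = pet g (q g) := by
  obtain ⟨a, b⟩ := par_spec hp
  obtain ⟨i, i1, i2, i3⟩ := pet_surj a b
  have hN : N (par p) = 2 * q (par p) + mB := rfl
  have hm : mB = 64 := rfl
  have hq := K_q_ge (par p)
  refine ⟨par p, ?_⟩
  rcases PA_cases hst i1 i2 (by rw [i3]; exact h1) with ⟨ha, hb, hc⟩ | ⟨ha, hb, hc⟩
  · rcases Nat.lt_or_ge i (q (par p)) with h | h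
    · exfalso
      have := (PA_L hst (k := par p) (j := i + 1) (by omega) (by omega)).2 ⟨hb, hc⟩
      rw [PA_succ (by omega), i3] at this
      exact this h2
    · have e : i = q (par p) := le_antisymm ha h
      rw [← e, i3]
  · exfalso
    rcases Nat.lt_or_ge i (N (par p)) with h | h
    · have := (PA_R hst (k := par p) (j := i + 1) (by omega) (by omega)).2 ⟨hb, hc⟩
      rw [PA_succ (by omega), i3] at this
      exact this h2
    · have e : i = N (par p) := le_antisymm i2 h
      subst e
      have := (PA_next_iff hst (par p)).2 ⟨hc, by rw [i3]; exact h1⟩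
      rw [PA_succ', i3] at this
      exact this h2

/-- a good vertex `p ≥ 2` with a bad predecessor is `pet g (q g + mB + 1)` -/
theorem PA_bad_good {st : ℕ → Option (ZMod 3)} (hst : StSpec st) {p : ℕ} (hp : 2 ≤ p)
    (h1 : st p ≠ none) (h2 : st (p - 1) = none) : ∃ g, p = pet g (q g + mB + 1) := by
  obtain ⟨a, b⟩ := par_spec hp
  obtain ⟨i, i1, i2, i3⟩ := pet_surj a b
  have hN : N (par p) = 2 * q (par p) + mB := rfl
  have hm : mB = 64 := rfl
  have hq := K_q_ge (par p)
  refine ⟨par p, ?_⟩
  obtain ⟨i', rfl⟩ : ∃ i', i = i' + 1 := ⟨i - 1, by omega⟩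
  have hs := PA_succ i2
  rw [i3] at hs
  have hs' : p - 1 = pet (par p) i' := by omega
  rw [hs'] at h2
  rcases PA_cases hst i1 i2 (by rw [i3]; exact h1) with ⟨ha, hb, hc⟩ | ⟨ha, hb, hc⟩
  · exfalso
    rcases Nat.eq_zero_or_pos i' with h | h
    · subst h
      rw [pet_zero] at h2
      exact hc h2
    · exact (PA_L hst (k := par p) (j := i') h (by omega)).2 ⟨hb, hc⟩ h2
  · rcases Nat.lt_or_ge (q (par p) + mB + 1) (i' + 1) with h | h
    · exfalso
      exact (PA_R hst (k := par p) (j := i') (by omega) (by omega)).2 ⟨hb, hc⟩ h2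
    · have e : i' + 1 = q (par p) + mB + 1 := le_antisymm h ha
      rw [← e, i3]

/-- a bad vertex `p` with a good successor is `pet g (q g + mB)` -/
theorem PA_bad_succ {st : ℕ → Option (ZMod 3)} (hst : StSpec st) {p : ℕ} (hp : 2 ≤ p)
    (h1 : st p = none) (h2 : st (p + 1) ≠ none) : ∃ g, p = pet g (q g + mB) := by
  obtain ⟨a, b⟩ := par_spec hp
  obtain ⟨i, i1, i2, i3⟩ := pet_surj a b
  have hN : N (par p) = 2 * q (par p) + mB := rfl
  have hm : mB = 64 := rfl
  have hq := K_q_ge (par p)
  refine ⟨par p, ?_⟩
  rcases Nat.lt_or_ge i (N (par p)) with h | h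
  · have hs := PA_succ (p := par p) (j := i) (by omega)
    rw [i3] at hs
    rw [← hs] at h2
    rcases PA_cases hst (by omega) (by omega) h2 with ⟨ha, hb, hc⟩ | ⟨ha, hb, hc⟩
    · exfalso
      have := (PA_L hst (k := par p) (j := i) i1 (by omega)).2 ⟨hb, hc⟩
      rw [i3] at this
      exact this h1
    · rcases Nat.lt_or_ge (q (par p) + mB) i with h' | h'
      · exfalso
        have := (PA_R hst (k := par p) (j := i) (by omega) (by omega)).2 ⟨hb, hc⟩
        rw [i3] at this
        exact this h1
      · have e : i = q (par p) + mB := by omega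
        rw [← e, i3]
  · exfalso
    have e : i = N (par p) := le_antisymm i2 h
    subst e
    have := PA_succ' (par p)
    rw [i3] at this
    rw [← this] at h2
    have := (PA_next_iff hst (par p)).1 h2
    rw [i3] at this
    exact this.2 h1

theorem PA_two_le {st : ℕ → Option (ZMod 3)} (hst : StSpec st) {i : ℕ} (h : st i = none) :
    2 ≤ i := by
  by_contra hc
  have : i = 0 ∨ i = 1 := by omega
  rcases this with rfl | rfl
  · rw [hst.zero] at h; simp at h
  · rw [hst.one] at h; simp at h

/-- a bad vertex whose parent is bad, adjacent to a good vertex, is the last petal and the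
successor of the parent is good -/
theorem PA_case2 {st : ℕ → Option (ZMod 3)} (hst : StSpec st) {b k j g : ℕ} (hb : st b = none)
    (hp : st (par b) = none) (hj : j ≤ N k) (h1 : b ∈ verts k j) (h2 : g ∈ verts k j)
    (hg : st g ≠ none) : b = pet (par b) (N (par b)) ∧ st (par b + 1) ≠ none := by
  have hb2 := PA_two_le hst hb
  have hp2 := PA_two_le hst hp
  obtain ⟨a, a'⟩ := par_spec hb2
  obtain ⟨i, i1, i2, i3⟩ := pet_surj a a'
  have hq := K_q_ge
  -- the predecessor is bad
  have hpred : st (b - 1) = none := by
    obtain ⟨i', rfl⟩ : ∃ i', i = i' + 1 := ⟨i - 1, by omega⟩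
    have hs := PA_succ i2
    rw [i3] at hs
    have hs' : b - 1 = pet (par b) i' := by omega
    rw [hs']
    rcases Nat.eq_zero_or_pos i' with h | h
    · subst h
      rw [pet_zero]
      by_contra hc
      exact ((PA_prev_iff hst (k := par b) (by omega)).1 hc).2 hp
    · exact PA_bad hst h (by omega) hp
  -- the left neighbour is bad
  have hleft : st (n b - 1) = none := by
    by_contra hc
    exact ((PA_prev_iff hst (k := b) (by omega)).1 hc).2 hb
  -- the successor
  have hsucc : st (b + 1) = none := by
    rcases Nat.lt_or_ge i (N (par b)) with h | h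
    · have hs := PA_succ (p := par b) (j := i) (by omega)
      rw [i3] at hs
      rw [← hs]
      exact PA_bad hst (by omega) (by omega) hp
    · have e : i = N (par b) := le_antisymm i2 h
      subst e
      have := PA_succ' (par b)
      rw [i3] at this
      rw [← this]
      by_contra hc
      have := (PA_next_iff hst (par b)).1 hc
      rw [i3] at this
      exact this.2 hb
  have hpn := PA_prev (k := b) (by omega)
  simp only [verts, Finset.mem_insert, Finset.mem_singleton] at h1 h2
  -- petals of b
  have hpet : ∀ j, j ≤ N b + 1 → st (pet b j) = none := by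
    intro j hj
    rcases Nat.eq_zero_or_pos j with h | h
    · subst h
      rw [pet_zero]
      exact hleft
    · rcases Nat.lt_or_ge (N b) j with h' | h'
      · have e : j = N b + 1 := by omega
        subst e
        rw [pet_last]
        exact hsucc
      · exact PA_bad hst h h' hb
  -- b is a petal of k, with index j₀
  have main : ∀ j₀, j₀ ≤ N k + 1 → b = pet k j₀ →
      (st k ≠ none ∨ (j₀ ≤ N k ∧ st (pet k (j₀ + 1)) ≠ none) ∨
        (1 ≤ j₀ ∧ st (pet k (j₀ - 1)) ≠ none)) →
      b = pet (par b) (N (par b)) ∧ st (par b + 1) ≠ none := by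
    intro j₀ hj₀ he hgood
    rcases Nat.eq_zero_or_pos j₀ with h | h
    · subst h
      rw [pet_zero] at he
      have hk : 1 ≤ k := by
        by_contra hc
        have : k = 0 := by omega
        subst this
        have : n 0 - 1 = 1 := rfl
        omega
      have hpk := PA_prev hk
      have hpar : par b = k - 1 := by
        apply par_eq
        · rw [he, ← hpk.1]
          have := K_N_ge (k - 1)
          exact (pet_mem (by omega) le_rfl).1
        · rw [Nat.sub_add_cancel hk, he]
          have := n_ge k
          omega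
      rw [hpar, Nat.sub_add_cancel hk, hpk.1]
      refine ⟨he, ?_⟩
      rcases hgood with h' | h' | h'
      · exact h'
      · rw [zero_add] at h'
        exact ((PA_L hst (k := k) (j := 1) le_rfl (by
          have := hq k
          omega)).1 h'.2).1
      · omega
    · rcases Nat.lt_or_ge (N k) j₀ with h' | h'
      · exfalso
        have e : j₀ = N k + 1 := by omega
        subst e
        rw [pet_last] at he
        subst he
        rcases hgood with h'' | h'' | h''
        · exact h'' hpred
        · omega
        · simp only [Nat.add_sub_cancel] at h'' hpn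
          rw [hpn.1] at h''
          exact h''.2 hleft
      · have hpar : par b = k := by
          rw [he]
          exact par_eq (pet_mem h h').1 (pet_mem h h').2
        rw [hpar] at hp ⊢
        rcases hgood with h'' | h'' | h''
        · exact absurd hp h''
        · rcases Nat.lt_or_ge j₀ (N k) with h3 | h3
          · exact absurd (PA_bad hst (by omega) (by omega) hp) h''.2
          · have e : j₀ = N k := le_antisymm h' h3
            subst e
            rw [pet_last] at h''
            exact ⟨he, h''.2⟩
        · exfalso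
          apply h''.2
          rcases Nat.eq_zero_or_pos (j₀ - 1) with h3 | h3
          · rw [h3, pet_zero]
            by_contra hc
            have h4 : 1 ≤ k := by
              have := PA_two_le hst hp
              omega
            exact ((PA_prev_iff hst (k := k) h4).1 hc).2 hp
          · exact PA_bad hst h3 (by omega) hp
  rcases h1 with h1 | h1 | h1
  · exfalso
    rw [← h1] at h2 hj
    rcases h2 with h2 | h2 | h2
    · exact hg (by rw [h2]; exact hb)
    · exact hg (by rw [h2]; exact hpet _ (by omega))
    · exact hg (by rw [h2]; exact hpet _ (by omega))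
  · apply main j (by omega) h1
    rcases h2 with h2 | h2 | h2
    · left
      rw [← h2]; exact hg
    · exfalso
      rw [← h1] at h2
      exact hg (by rw [h2]; exact hb)
    · right; left
      exact ⟨hj, by rw [← h2]; exact hg⟩
  · apply main (j + 1) (by omega) h1
    rcases h2 with h2 | h2 | h2
    · left
      rw [← h2]; exact hg
    · right; right
      refine ⟨by omega, ?_⟩
      rw [Nat.add_sub_cancel, ← h2]; exact hg
    · exfalso
      rw [← h1] at h2
      exact hg (by rw [h2]; exact hb)

theorem bad1_sub {st : ℕ → Option (ZMod 3)} (hst : StSpec st) {i : ℕ} (hi : i ∈ Bad1 st) :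
    ∃ g, i ∈ AG g := by
  obtain ⟨hb, k, j, g, hj, h1, h2, hg⟩ := hi
  have hb2 := PA_two_le hst hb
  obtain ⟨a, a'⟩ := par_spec hb2
  obtain ⟨l, l1, l2, l3⟩ := pet_surj a a'
  have hm : mB = 64 := rfl
  have hq := K_q_ge (par i)
  have hN : N (par i) = 2 * q (par i) + mB := rfl
  by_cases hp : st (par i) = none
  · obtain ⟨e1, e2⟩ := PA_case2 hst hb hp hj h1 h2 hg
    obtain ⟨g', hg'⟩ := PA_bad_succ hst (PA_two_le hst hp) hp e2
    refine ⟨g', ?_⟩
    rw [e1, hg']
    exact PA_mem4
  · by_cases hL : st (n (par i) - 1) = none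
    · -- p ≥ 1
      have hp1 : 1 ≤ par i := by
        by_contra hc
        have e : par i = 0 := by omega
        rw [e] at hL
        have := PA_two_le hst hL
        have e' : n 0 - 1 = 1 := rfl
        omega
      have hpm : st (par i - 1) = none := by
        by_contra hc
        exact (PA_prev_iff hst hp1).2 ⟨hc, hp⟩ hL
      have hp2 : 2 ≤ par i := by
        have := PA_two_le hst hpm
        omega
      obtain ⟨g', hg'⟩ := PA_bad_good hst hp2 hp hpm
      refine ⟨g', ?_⟩
      rw [← l3, hg']
      apply PA_mem3 l1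
      rw [← hg']
      exact l2
    · by_cases hR : st (par i + 1) = none
      · have hp2 : 2 ≤ par i := by
          by_contra hc
          have e : par i = 0 ∨ par i = 1 := by omega
          rcases e with e | e
          · rw [e] at hR
            have := PA_two_le hst hR
            omega
          · rw [e] at hR
            have e' : (1 : ℕ) + 1 = pet 0 1 := by
              have := K_N_ge 0
              rw [pet_le (by omega)]
              rfl
            rw [e'] at hR
            refine (PA_L hst (k := 0) (j := 1) le_rfl ?_).2 ⟨?_, ?_⟩ hR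
            · have := K_q_ge 0
              omega
            · rw [hst.zero]; simp
            · have : n 0 - 1 = 1 := rfl
              rw [this, hst.one]; simp
        obtain ⟨g', hg'⟩ := PA_good_bad hst hp2 hp hR
        refine ⟨g', ?_⟩
        rw [← l3, hg']
        apply PA_mem2 l1
        rw [← hg']
        exact l2
      · refine ⟨par i, ?_⟩
        have k1 : q (par i) + 1 ≤ l := by
          by_contra hc
          have := (PA_L hst (k := par i) l1 (by omega)).2 ⟨hp, hL⟩
          rw [l3] at this
          exact this hb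
        have k2 : l ≤ q (par i) + mB := by
          by_contra hc
          have := (PA_R hst (k := par i) (j := l) (by omega) l2).2 ⟨hp, hR⟩
          rw [l3] at this
          exact this hb
        have k3 := PA_mem1 k1 k2
        rw [l3] at k3
        exact k3

end Pool.Agent.H776R2.Fatou
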