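import Pool.Agent.H776R2.Fatou.Defs
import Pool.Agent.H776R2.Fatou.Ang

open Real

noncomputable section

namespace Pool.Agent.H776R2.Fatou

/-! ### Task C (Mink.lean): boosts and polar coordinates -/

theorem C_fst (X V : M3) : (boost X V).1 = X.1 * V.1 + (X.2.re * V.2.re + X.2.im * V.2.im) := rfl

theorem C_re (X V : M3) : (boost X V).2.re = V.2.re +
    (V.1 + (X.2.re * V.2.re + X.2.im * V.2.im) / (1 + X.1)) * X.2.re := by
  unfold boost
  rw [Complex.add_re, Complex.re_ofReal_mul]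

theorem C_im (X V : M3) : (boost X V).2.im = V.2.im +
    (V.1 + (X.2.re * V.2.re + X.2.im * V.2.im) / (1 + X.1)) * X.2.im := by
  unfold boost
  rw [Complex.add_im, Complex.im_ofReal_mul]

theorem C_q {X : M3} (hX : IsH X) : X.2.re * X.2.re + X.2.im * X.2.im = X.1 * X.1 - 1 := by
  have h := hX.1
  unfold B at h
  linarith

theorem C_ext {X Y : M3} (h1 : X.1 = Y.1) (h2 : X.2.re = Y.2.re) (h3 : X.2.im = Y.2.im) :
    X = Y := Prod.ext h1 (Complex.ext h2 h3)

theorem boost_B {X : M3} (hX : IsH X) (V W : M3) : B (boost X V) (boost X W) = B V W := by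
  have hq := C_q hX
  have h1 : (1 : ℝ) + X.1 ≠ 0 := by have := hX.2; positivity
  unfold B
  rw [C_fst, C_fst, C_re, C_re, C_im, C_im]
  obtain ⟨k, hk⟩ : ∃ k, k = V.1 + (X.2.re * V.2.re + X.2.im * V.2.im) / (1 + X.1) := ⟨_, rfl⟩
  obtain ⟨k', hk'⟩ : ∃ k', k' = W.1 + (X.2.re * W.2.re + X.2.im * W.2.im) / (1 + X.1) := ⟨_, rfl⟩
  rw [← hk, ← hk']
  have hp : X.2.re * V.2.re + X.2.im * V.2.im = (k - V.1) * (1 + X.1) := by
    rw [hk]; field_simp; ring
  have hp' : X.2.re * W.2.re + X.2.im * W.2.im = (k' - W.1) * (1 + X.1) := by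
    rw [hk']; field_simp; ring
  linear_combination (X.1 * W.1 - k' + (X.2.re * W.2.re + X.2.im * W.2.im)) * hp +
    (X.1 * V.1 - k + (k - V.1) * (1 + X.1)) * hp' - k * k' * hq

theorem boost_det {X : M3} (hX : IsH X) (U V W : M3) :
    det3 (boost X U) (boost X V) (boost X W) = det3 U V W := by
  have hq := C_q hX
  have h1 : (1 : ℝ) + X.1 ≠ 0 := by have := hX.2; positivity
  have key : det3 (boost X U) (boost X V) (boost X W) =
      (X.1 * (1 + (X.2.re * X.2.re + X.2.im * X.2.im) * (1 + X.1)⁻¹) -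
        (X.2.re * X.2.re + X.2.im * X.2.im)) * det3 U V W := by
    unfold det3 cr
    simp only [C_fst, C_re, C_im, div_eq_mul_inv]
    ring
  rw [key, hq]
  have h2 : X.1 * (1 + (X.1 * X.1 - 1) * (1 + X.1)⁻¹) - (X.1 * X.1 - 1) = 1 := by
    field_simp
    ring
  rw [h2, one_mul]

theorem boost_one {X : M3} (hX : IsH X) : boost X (1, 0) = X := by
  refine C_ext ?_ ?_ ?_
  · rw [C_fst]; simp
  · rw [C_re]; simp
  · rw [C_im]; simp

theorem isH_neg {X : M3} (hX : IsH X) : IsH (X.1, -X.2) := by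
  refine ⟨?_, hX.2⟩
  have h := hX.1
  unfold B at h ⊢
  simp only [Complex.neg_re, Complex.neg_im]
  linarith

theorem boost_inv {X : M3} (hX : IsH X) (V : M3) : boost (X.1, -X.2) (boost X V) = V := by
  have hq := C_q hX
  have h1 : (1 : ℝ) + X.1 ≠ 0 := by have := hX.2; positivity
  obtain ⟨k, hk⟩ : ∃ k, k = V.1 + (X.2.re * V.2.re + X.2.im * V.2.im) / (1 + X.1) := ⟨_, rfl⟩
  have hp : X.2.re * V.2.re + X.2.im * V.2.im = (k - V.1) * (1 + X.1) := by
    rw [hk]; field_simp; ring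
  have e1 : (boost X V).1 = X.1 * V.1 + (X.2.re * V.2.re + X.2.im * V.2.im) := rfl
  have e2 : (boost X V).2.re = V.2.re + k * X.2.re := by rw [C_re, hk]
  have e3 : (boost X V).2.im = V.2.im + k * X.2.im := by rw [C_im, hk]
  have hm : (-X.2.re * (V.2.re + k * X.2.re) + -X.2.im * (V.2.im + k * X.2.im)) / (1 + X.1) =
      k - (X.1 * V.1 + (X.2.re * V.2.re + X.2.im * V.2.im)) := by
    rw [div_eq_iff h1]
    linear_combination (-1 + (1 + X.1)) * hp - k * hq
  refine C_ext ?_ ?_ ?_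
  · rw [C_fst, e1, e2, e3]
    simp only [Complex.neg_re, Complex.neg_im]
    linear_combination (X.1 - 1) * hp - k * hq
  · rw [C_re, e1, e2, e3]
    simp only [Complex.neg_re, Complex.neg_im]
    rw [hm]
    ring
  · rw [C_im, e1, e2, e3]
    simp only [Complex.neg_re, Complex.neg_im]
    rw [hm]
    ring

theorem boost_inv' {X : M3} (hX : IsH X) (V : M3) : boost X (boost (X.1, -X.2) V) = V := by
  have h := boost_inv (isH_neg hX) V
  simp only [neg_neg] at h
  exact h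

theorem boost_add {X : M3} (V W : M3) : boost X (V + W) = boost X V + boost X W := by
  refine C_ext ?_ ?_ ?_
  · simp only [Prod.fst_add, C_fst, Prod.snd_add, Complex.add_re, Complex.add_im]; ring
  · simp only [Prod.fst_add, C_re, Prod.snd_add, Complex.add_re, Complex.add_im]; ring
  · simp only [Prod.fst_add, C_im, Prod.snd_add, Complex.add_re, Complex.add_im]; ring

theorem boost_smul {X : M3} (c : ℝ) (V : M3) : boost X (c • V) = c • boost X V := by
  refine C_ext ?_ ?_ ?_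
  · simp only [Prod.smul_fst, C_fst, Prod.smul_snd, Complex.smul_re, Complex.smul_im,
      smul_eq_mul]; ring
  · simp only [Prod.smul_fst, C_re, Prod.smul_snd, Complex.smul_re, Complex.smul_im,
      smul_eq_mul]; ring
  · simp only [Prod.smul_fst, C_im, Prod.smul_snd, Complex.smul_re, Complex.smul_im,
      smul_eq_mul]; ring

theorem C_sq {X Y : M3} (hX : IsH X) (hY : IsH Y) :
    (X.1 * Y.1) ^ 2 - (1 + (X.2.re * Y.2.re + X.2.im * Y.2.im)) ^ 2 =
      ((X.2.re - Y.2.re) ^ 2 + (X.2.im - Y.2.im) ^ 2) +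
        (X.2.re * Y.2.im - X.2.im * Y.2.re) ^ 2 := by
  have hq := C_q hX
  have hr := C_q hY
  have e : (X.1 * Y.1) ^ 2 = (1 + (X.2.re * X.2.re + X.2.im * X.2.im)) *
      (1 + (Y.2.re * Y.2.re + Y.2.im * Y.2.im)) := by
    rw [hq, hr]; ring
  rw [e]; ring

theorem one_le_B {X Y : M3} (hX : IsH X) (hY : IsH Y) : 1 ≤ B X Y := by
  have h := C_sq hX hY
  have h0 : 0 < X.1 * Y.1 := mul_pos hX.2 hY.2
  have h1 : (1 + (X.2.re * Y.2.re + X.2.im * Y.2.im)) ^ 2 ≤ (X.1 * Y.1) ^ 2 := by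
    nlinarith [sq_nonneg (X.2.re - Y.2.re), sq_nonneg (X.2.im - Y.2.im),
      sq_nonneg (X.2.re * Y.2.im - X.2.im * Y.2.re)]
  have h2 : |1 + (X.2.re * Y.2.re + X.2.im * Y.2.im)| ≤ X.1 * Y.1 :=
    abs_le_of_sq_le_sq h1 h0.le
  have h3 := (abs_le.mp h2).2
  unfold B
  linarith

theorem isH_boost {X V : M3} (hX : IsH X) (hV : IsH V) : IsH (boost X V) := by
  refine ⟨by rw [boost_B hX]; exact hV.1, ?_⟩
  have h := one_le_B (isH_neg hX) hV
  unfold B at h
  simp only [Complex.neg_re, Complex.neg_im] at h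
  rw [C_fst]
  linarith

theorem B_comm (X Y : M3) : B X Y = B Y X := by unfold B; ring

theorem eq_of_B_eq_one {X Y : M3} (hX : IsH X) (hY : IsH Y) (h : B X Y = 1) : X = Y := by
  have h1 := C_sq hX hY
  unfold B at h
  have h2 : X.1 * Y.1 = 1 + (X.2.re * Y.2.re + X.2.im * Y.2.im) := by linarith
  rw [h2, sub_self] at h1
  have h3 : (X.2.re - Y.2.re) ^ 2 = 0 := by
    nlinarith [sq_nonneg (X.2.re - Y.2.re), sq_nonneg (X.2.im - Y.2.im),
      sq_nonneg (X.2.re * Y.2.im - X.2.im * Y.2.re)]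
  have h4 : (X.2.im - Y.2.im) ^ 2 = 0 := by
    nlinarith [sq_nonneg (X.2.re - Y.2.re), sq_nonneg (X.2.im - Y.2.im),
      sq_nonneg (X.2.re * Y.2.im - X.2.im * Y.2.re)]
  have h5 : X.2.re = Y.2.re := sub_eq_zero.mp (pow_eq_zero_iff (two_ne_zero) |>.mp h3)
  have h6 : X.2.im = Y.2.im := sub_eq_zero.mp (pow_eq_zero_iff (two_ne_zero) |>.mp h4)
  have hq := C_q hX
  have hr := C_q hY
  have h7 : X.1 * X.1 = Y.1 * Y.1 := by
    rw [h5, h6] at hq
    linarith
  have h8 : X.1 = Y.1 := by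
    have hx := hX.2
    have hy := hY.2
    exact (mul_self_inj hx.le hy.le).mp h7
  exact C_ext h8 h5 h6

theorem C_unit {u : ℂ} (hu : ‖u‖ = 1) : u.re * u.re + u.im * u.im = 1 := by
  have h : ‖u‖ ^ 2 = u.re * u.re + u.im * u.im := by
    rw [Complex.sq_norm, Complex.normSq_apply]
  rw [← h, hu]; norm_num

theorem C_isH0 {u : ℂ} (hu : ‖u‖ = 1) (d : ℝ) : IsH (cosh d, (sinh d : ℂ) * u) := by
  refine ⟨?_, cosh_pos d⟩
  unfold B
  simp only [Complex.re_ofReal_mul, Complex.im_ofReal_mul]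
  have h1 := C_unit hu
  have h2 := cosh_sq d
  linear_combination (-sinh d * sinh d) * h1 + h2

theorem isH_pt {X : M3} (hX : IsH X) {u : ℂ} (hu : ‖u‖ = 1) (d : ℝ) : IsH (pt X d u) :=
  isH_boost hX (C_isH0 hu d)

theorem B_pt {X : M3} (hX : IsH X) {u : ℂ} (hu : ‖u‖ = 1) (d : ℝ) : B X (pt X d u) = cosh d := by
  have h : B X (pt X d u) = B (boost X (1, 0)) (pt X d u) := by rw [boost_one hX]
  rw [h]
  unfold pt
  rw [boost_B hX]
  unfold B
  simp

theorem B_pt_pt {X : M3} (hX : IsH X) {u v : ℂ} (hu : ‖u‖ = 1) (hv : ‖v‖ = 1) (d e : ℝ) :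
    B (pt X d u) (pt X e v)
      = cosh d * cosh e - sinh d * sinh e * (u.re * v.re + u.im * v.im) := by
  unfold pt
  rw [boost_B hX]
  unfold B
  simp only [Complex.re_ofReal_mul, Complex.im_ofReal_mul]
  ring

theorem det_pt_pt {X : M3} (hX : IsH X) (u v : ℂ) (d e : ℝ) :
    det3 X (pt X d u) (pt X e v) = sinh d * sinh e * cr u v := by
  have h : det3 X (pt X d u) (pt X e v) = det3 (boost X (1, 0)) (pt X d u) (pt X e v) := by
    rw [boost_one hX]
  rw [h]
  unfold pt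
  rw [boost_det hX]
  unfold det3 cr
  simp only [Complex.re_ofReal_mul, Complex.im_ofReal_mul, Complex.zero_re,
    Complex.zero_im]
  ring

theorem polar {X Y : M3} (hX : IsH X) (hY : IsH Y) :
    ∃ d u, 0 ≤ d ∧ ‖u‖ = 1 ∧ Y = pt X d u := by
  obtain ⟨V, hV⟩ : ∃ V, V = boost (X.1, -X.2) Y := ⟨_, rfl⟩
  have hVH : IsH V := by rw [hV]; exact isH_boost (isH_neg hX) hY
  have hYV : Y = boost X V := by rw [hV, boost_inv' hX]
  obtain ⟨d, hd⟩ : ∃ d, d = arsinh ‖V.2‖ := ⟨_, rfl⟩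
  have hd0 : 0 ≤ d := by rw [hd]; exact arsinh_nonneg_iff.mpr (norm_nonneg _)
  have hs : sinh d = ‖V.2‖ := by rw [hd]; exact sinh_arsinh _
  have hc : cosh d = V.1 := by
    have h1 : cosh d ^ 2 = V.1 ^ 2 := by
      rw [cosh_sq, hs, Complex.sq_norm, Complex.normSq_apply]
      have := C_q hVH
      linarith
    exact (pow_left_inj₀ (cosh_pos d).le hVH.2.le two_ne_zero).mp h1
  by_cases h0 : V.2 = 0
  · refine ⟨d, 1, hd0, by simp, ?_⟩
    rw [hYV]
    unfold pt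
    congr 1
    have h1 : sinh d = 0 := by rw [hs, h0, norm_zero]
    refine Prod.ext hc.symm ?_
    show V.2 = ((sinh d : ℝ) : ℂ) * 1
    rw [h1, h0]; simp
  · have h1 : ‖V.2‖ ≠ 0 := norm_ne_zero_iff.mpr h0
    refine ⟨d, V.2 / (‖V.2‖ : ℂ), hd0, ?_, ?_⟩
    · rw [norm_div, Complex.norm_real, norm_norm, div_self h1]
    · rw [hYV]
      unfold pt
      congr 1
      refine Prod.ext hc.symm ?_
      show V.2 = ((sinh d : ℝ) : ℂ) * (V.2 / (‖V.2‖ : ℂ))
      rw [hs]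
      have h2 : (‖V.2‖ : ℂ) ≠ 0 := by exact_mod_cast h1
      field_simp

theorem pt_inj {X : M3} (hX : IsH X) {u v : ℂ} (hu : ‖u‖ = 1) (hv : ‖v‖ = 1) {d e : ℝ}
    (hd : 0 < d) (he : 0 < e) (h : pt X d u = pt X e v) : d = e ∧ u = v := by
  unfold pt at h
  have h1 := congrArg (boost (X.1, -X.2)) h
  rw [boost_inv hX, boost_inv hX] at h1
  have h2 : cosh d = cosh e := congrArg Prod.fst h1
  have h3 : (sinh d : ℂ) * u = (sinh e : ℂ) * v := congrArg Prod.snd h1
  have h4 : d = e := by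
    have := cosh_strictMonoOn.injOn (Set.mem_Ici.mpr hd.le) (Set.mem_Ici.mpr he.le) h2
    exact this
  subst h4
  refine ⟨rfl, ?_⟩
  have h5 : (sinh d : ℂ) ≠ 0 := by exact_mod_cast (sinh_pos_iff.mpr hd).ne'
  exact mul_left_cancel₀ h5 h3

theorem C_exp (φ : ℝ) : (Complex.exp (Complex.I * (φ : ℂ))).re = cos φ ∧
    (Complex.exp (Complex.I * (φ : ℂ))).im = sin φ := by
  rw [mul_comm]
  exact ⟨Complex.exp_ofReal_mul_I_re φ, Complex.exp_ofReal_mul_I_im φ⟩

theorem C_norm_exp (φ : ℝ) : ‖Complex.exp (Complex.I * (φ : ℂ))‖ = 1 := by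
  rw [mul_comm]; exact Complex.norm_exp_ofReal_mul_I φ

theorem C_dot {u : ℂ} (hu : ‖u‖ = 1) (φ : ℝ) :
    u.re * (u * Complex.exp (Complex.I * (φ : ℂ))).re +
      u.im * (u * Complex.exp (Complex.I * (φ : ℂ))).im = cos φ := by
  obtain ⟨h1, h2⟩ := C_exp φ
  rw [Complex.mul_re, Complex.mul_im, h1, h2]
  have h := C_unit hu
  linear_combination cos φ * h

theorem C_cr {u : ℂ} (hu : ‖u‖ = 1) (φ : ℝ) :
    cr u (u * Complex.exp (Complex.I * (φ : ℂ))) = sin φ := by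
  obtain ⟨h1, h2⟩ := C_exp φ
  unfold cr
  rw [Complex.mul_re, Complex.mul_im, h1, h2]
  have h := C_unit hu
  linear_combination sin φ * h

theorem face_of_ang {X : M3} (hX : IsH X) {r a b : ℝ} (hr : 0 < r) (ha : 0 < a) (hb : 0 < b)
    {u : ℂ} (hu : ‖u‖ = 1) :
    B (pt X (r + a) u) (pt X (r + b) (u * Complex.exp (Complex.I * (ang r a b : ℂ))))
      = cosh (a + b) ∧
    0 < det3 X (pt X (r + a) u)
      (pt X (r + b) (u * Complex.exp (Complex.I * (ang r a b : ℂ)))) := by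
  have hv : ‖u * Complex.exp (Complex.I * (ang r a b : ℂ))‖ = 1 := by
    rw [norm_mul, hu, C_norm_exp, mul_one]
  constructor
  · rw [B_pt_pt hX hu hv, C_dot hu, ang_law hr ha hb]
  · rw [det_pt_pt hX, C_cr hu]
    have h1 : 0 < sinh (r + a) := sinh_pos_iff.mpr (by linarith)
    have h2 : 0 < sinh (r + b) := sinh_pos_iff.mpr (by linarith)
    have h3 : 0 < sin (ang r a b) :=
      sin_pos_of_pos_of_lt_pi (ang_pos hr ha hb) (ang_lt_pi hr ha hb)
    positivity

theorem ang_of_face {X : M3} (hX : IsH X) {r a b : ℝ} (hr : 0 < r) (ha : 0 < a) (hb : 0 < b)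
    {u v : ℂ} (hu : ‖u‖ = 1) (hv : ‖v‖ = 1)
    (h1 : B (pt X (r + a) u) (pt X (r + b) v) = cosh (a + b))
    (h2 : 0 < det3 X (pt X (r + a) u) (pt X (r + b) v)) :
    v = u * Complex.exp (Complex.I * (ang r a b : ℂ)) := by
  have hu0 : u ≠ 0 := by
    intro h
    rw [h, norm_zero] at hu
    exact zero_ne_one hu
  obtain ⟨φ, hφ⟩ : ∃ φ, φ = Complex.arg (v / u) := ⟨_, rfl⟩
  have hvu : v = u * Complex.exp (Complex.I * (φ : ℂ)) := by
    have h3 : v / u = Complex.exp (Complex.I * (φ : ℂ)) := by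
      have h4 := Complex.norm_mul_exp_arg_mul_I (v / u)
      rw [norm_div, hu, hv, div_one, Complex.ofReal_one, one_mul, ← hφ, mul_comm] at h4
      exact h4.symm
    rw [← h3]
    field_simp
  have hφ1 : φ ≤ π := by rw [hφ]; exact Complex.arg_le_pi _
  have hφ2 : -π < φ := by rw [hφ]; exact Complex.neg_pi_lt_arg _
  have h5 : 0 < sinh (r + a) := sinh_pos_iff.mpr (by linarith)
  have h6 : 0 < sinh (r + b) := sinh_pos_iff.mpr (by linarith)
  have hφ0 : 0 ≤ φ := by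
    by_contra hcon
    rw [not_le] at hcon
    rw [det_pt_pt hX, hvu, C_cr hu] at h2
    have h7 : sin φ < 0 := sin_neg_of_neg_of_neg_pi_lt hcon hφ2
    have h8 : sinh (r + a) * sinh (r + b) * sin φ < 0 :=
      mul_neg_of_pos_of_neg (mul_pos h5 h6) h7
    linarith
  have h9 : φ = ang r a b := by
    apply ang_unique hr ha hb hφ0 hφ1
    rw [B_pt_pt hX hu hv, hvu, C_dot hu] at h1
    exact h1
  rw [← h9]
  exact hvu

end Pool.Agent.H776R2.Fatou
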