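import Pool.Agent.H776R2.Fatou.Defs
import Pool.Agent.H776R2.Fatou.Ang
import Pool.Agent.H776R2.Fatou.Mink
import Pool.Agent.H776R2.Fatou.Comb

/-!
# Layout of the spiral triangulation in the hyperboloid (task L, helper818)
-/

open Real

noncomputable section

namespace Pool.Agent.H776R2.Fatou

theorem face_rot {ρ : ℕ → ℝ} {X : ℕ → M3} {a b c : ℕ} (h : FaceOK ρ X a b c) :
    FaceOK ρ X b c a := by
  obtain ⟨h1, h2, h3, h4⟩ := h
  refine ⟨h2, h3, h1, ?_⟩
  unfold det3 cr at *
  linarith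

theorem L_pairs {ρ : ℕ → ℝ} {X : ℕ → M3} {K : ℕ}
    (h : ∀ k j, k < K → j ≤ N k → FaceOK ρ X k (pet k j) (pet k (j + 1))) {k : ℕ} (hk : k ≤ K)
    {p : ℕ × ℕ} (hp : p ∈ old k) : FaceOK ρ X k p.1 p.2 := by
  obtain ⟨k', j, h1, h2, h3⟩ := old_face hp
  have hF := h k' j (by omega) h2
  rcases h3 with ⟨e1, e2, e3⟩ | ⟨e1, e2, e3⟩
  · rw [← e1, ← e2] at hF
    rw [e3]
    exact face_rot hF
  · rw [← e1, ← e3] at hF
    rw [e2]
    exact face_rot (face_rot hF)

theorem pairs_faceOK {ρ : ℕ → ℝ} {X : ℕ → M3} (h : Lay ρ X) {k : ℕ} {p : ℕ × ℕ}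
    (hp : p ∈ pairs k) : FaceOK ρ X k p.1 p.2 := by
  unfold pairs at hp
  rcases List.mem_append.1 hp with hp | hp
  · exact L_pairs (K := k) (fun k' j _ hj => h.face k' j hj) le_rfl hp
  · obtain ⟨j, hj, e1, e2⟩ := new_face hp
    rw [e1, e2]
    exact h.face k j hj

theorem lab_exp {ρ : ℕ → ℝ} (h : Lab ρ) (v : ℕ) : exp (-ρ v) ≤ 1 / 10 ^ 9 := by
  have h1 := h.small v
  have h2 : (2 * 10 ^ 12 : ℝ) ≤ (N v : ℝ) := by
    have := N_ge v
    have h3 : (2 * 10 ^ 12 + 64 : ℕ) ≤ N v := this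
    have h4 : ((2 * 10 ^ 12 + 64 : ℕ) : ℝ) ≤ (N v : ℝ) := by exact_mod_cast h3
    push_cast at h4
    linarith
  refine h1.trans ?_
  have hN : (0 : ℝ) < (N v : ℝ) := by linarith [h2, show (0:ℝ) < 2 * 10 ^ 12 by positivity]
  rw [div_le_div_iff₀ hN (by positivity)]
  have := Real.pi_lt_four
  nlinarith

/-- directions along a chain of faces around `k` -/
theorem chain_dir {ρ : ℕ → ℝ} {X : ℕ → M3} (hρ : ∀ v, 0 < ρ v) (hX : ∀ i, IsH (X i)) {k : ℕ}
    (l : List (ℕ × ℕ)) (a b : ℕ) (h : ChainL a l b) (hf : ∀ p ∈ l, FaceOK ρ X k p.1 p.2)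
    (u : ℂ) (hu : ‖u‖ = 1) (ha : X a = pt (X k) (ρ k + ρ a) u) :
    X b = pt (X k) (ρ k + ρ b) (u * Complex.exp (Complex.I * (asum ρ k l : ℂ))) := by
  induction l generalizing a u with
  | nil =>
    have hab : a = b := h
    subst hab
    simp [asum, ha]
  | cons p l ih =>
    obtain ⟨h1, h2⟩ : p.1 = a ∧ ChainL p.2 l b := h
    obtain ⟨f1, f2, f3, f4⟩ := hf p (by simp)
    rw [h1] at f1 f2 f4
    obtain ⟨d, v, hd, hv, hXp⟩ := polar (hX k) (hX p.2)
    have hd2 : d = ρ k + ρ p.2 := by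
      have e1 : B (X k) (X p.2) = cosh d := by rw [hXp]; exact B_pt (hX k) hv d
      have e2 : B (X k) (X p.2) = cosh (ρ k + ρ p.2) := by
        rw [B_comm, add_comm]; exact f3
      have e3 : cosh d = cosh (ρ k + ρ p.2) := by rw [← e1, e2]
      have hpos : 0 ≤ ρ k + ρ p.2 := by linarith [hρ k, hρ p.2]
      exact Real.cosh_strictMonoOn.injOn (Set.mem_Ici.2 hd) (Set.mem_Ici.2 hpos) e3
    rw [hd2] at hXp
    have hang : v = u * Complex.exp (Complex.I * (ang (ρ k) (ρ a) (ρ p.2) : ℂ)) := by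
      refine ang_of_face (hX k) (hρ k) (hρ a) (hρ p.2) hu hv ?_ ?_
      · rw [← ha, ← hXp]; exact f2
      · rw [← ha, ← hXp]; exact f4
    have := ih p.2 h2 (fun q hq => hf q (by simp [hq])) v hv hXp
    rw [this, hang, mul_assoc, ← Complex.exp_add]
    congr 3
    simp only [asum, List.map_cons, List.sum_cons, h1]
    push_cast
    ring_nf

theorem L_norm {u : ℂ} (hu : ‖u‖ = 1) (t : ℝ) : ‖u * Complex.exp (Complex.I * (t : ℂ))‖ = 1 := by
  rw [norm_mul, hu, mul_comm Complex.I, Complex.norm_exp_ofReal_mul_I, one_mul]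

/-- good partial layout -/
def L_Good (ρ : ℕ → ℝ) (k : ℕ) (X : ℕ → M3) : Prop :=
  (∀ i, IsH (X i)) ∧ X 0 = (1, 0) ∧ B (X 0) (X 1) = cosh (ρ 0 + ρ 1) ∧
    ∀ k' j, k' < k → j ≤ N k' → FaceOK ρ X k' (pet k' j) (pet k' (j + 1))

theorem L_congr {ρ : ℕ → ℝ} {X X' : ℕ → M3} {a b c : ℕ} (ha : X' a = X a) (hb : X' b = X b)
    (hc : X' c = X c) (h : FaceOK ρ X a b c) : FaceOK ρ X' a b c := by
  unfold FaceOK Tang at *
  rw [ha, hb, hc]
  exact h

theorem L_dir {ρ : ℕ → ℝ} {X : ℕ → M3} (hρ : ∀ v, 0 < ρ v) {k : ℕ} (h : L_Good ρ k X) :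
    ∃ u : ℂ, ‖u‖ = 1 ∧ X (k + 1) = pt (X k) (ρ k + ρ (k + 1)) u ∧
      X (n k - 1) = pt (X k) (ρ k + ρ (n k - 1))
        (u * Complex.exp (Complex.I * (asum ρ k (old k) : ℂ))) := by
  obtain ⟨hX, h0, h1, hF⟩ := h
  -- tangency of `k` and `k+1`
  have ht : B (X k) (X (k + 1)) = cosh (ρ k + ρ (k + 1)) := by
    rcases Nat.eq_zero_or_pos k with hk | hk
    · subst hk; exact h1
    · have hch := old_chain (k := k) hk
      have hge := n_ge' k hk
      cases hl : old k with
      | nil =>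
        rw [hl] at hch
        have : k + 1 = n k - 1 := hch
        have h10 : 10 ^ 12 = 1000000000000 := by norm_num
        omega
      | cons p l =>
        rw [hl] at hch
        obtain ⟨e1, -⟩ : p.1 = k + 1 ∧ ChainL p.2 l (n k - 1) := hch
        have := L_pairs hF le_rfl (p := p) (by rw [hl]; simp)
        have h3 := this.1
        rw [e1] at h3
        exact h3
  obtain ⟨d, u, hd, hu, hXp⟩ := polar (hX k) (hX (k + 1))
  have hd2 : d = ρ k + ρ (k + 1) := by
    have e1 : B (X k) (X (k + 1)) = cosh d := by rw [hXp]; exact B_pt (hX k) hu d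
    have e3 : cosh d = cosh (ρ k + ρ (k + 1)) := by rw [← e1, ht]
    have hpos : 0 ≤ ρ k + ρ (k + 1) := by linarith [hρ k, hρ (k + 1)]
    exact Real.cosh_strictMonoOn.injOn (Set.mem_Ici.2 hd) (Set.mem_Ici.2 hpos) e3
  rw [hd2] at hXp
  refine ⟨u, hu, hXp, ?_⟩
  rcases Nat.eq_zero_or_pos k with hk | hk
  · subst hk
    have : n 0 - 1 = 0 + 1 := rfl
    rw [this, hXp]
    simp [old, asum]
  · exact chain_dir hρ hX (old k) (k + 1) (n k - 1) (old_chain hk)
      (fun p hp => L_pairs hF le_rfl hp) u hu hXp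

theorem L_sum_range (f : ℕ → ℝ) (m : ℕ) :
    ((List.range m).map f).sum = ∑ l ∈ Finset.range m, f l := by
  induction m with
  | zero => simp
  | succ m ih =>
    rw [List.range_succ, List.map_append, List.sum_append, ih, Finset.sum_range_succ]
    simp

theorem L_asum_new (ρ : ℕ → ℝ) (k : ℕ) : asum ρ k (new k) =
    ∑ l ∈ Finset.range (N k + 1), ang (ρ k) (ρ (pet k l)) (ρ (pet k (l + 1))) := by
  unfold asum new
  rw [List.map_map, ← L_sum_range]
  rfl

theorem L_step {ρ : ℕ → ℝ} (hL : Lab ρ) {k : ℕ} {X : ℕ → M3} (h : L_Good ρ k X) :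
    ∃ X', L_Good ρ (k + 1) X' ∧ ∀ i, i < n k → X' i = X i := by
  obtain ⟨u, hu, hR, hLf⟩ := L_dir hL.pos h
  obtain ⟨hX, h0, h1, hF⟩ := h
  set Θ : ℕ → ℝ := fun j => asum ρ k (old k) +
    ∑ l ∈ Finset.range j, ang (ρ k) (ρ (pet k l)) (ρ (pet k (l + 1))) with hΘ
  set X' : ℕ → M3 := fun i => if i < n k then X i else
    pt (X k) (ρ k + ρ i) (u * Complex.exp (Complex.I * (Θ (i + 1 - n k) : ℂ))) with hX'
  have hnk := n_ge k
  have hsame : ∀ i, i < n k → X' i = X i := fun i hi => by simp [hX', hi]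
  have hend : Θ (N k + 1) = 2 * π := by
    have := hL.sum k
    rw [← this]
    unfold pairs
    rw [hΘ]
    simp only
    rw [← L_asum_new]
    unfold asum
    rw [List.map_append, List.sum_append]
  have hpet : ∀ j, j ≤ N k + 1 → X' (pet k j) =
      pt (X k) (ρ k + ρ (pet k j)) (u * Complex.exp (Complex.I * (Θ j : ℂ))) := by
    intro j hj
    rcases Nat.eq_zero_or_pos j with hj0 | hj0
    · subst hj0
      rw [pet_zero, hsame _ (by omega), hLf]
      simp [hΘ]
    · rcases Nat.lt_or_ge (N k) j with hj1 | hj1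
      · have : j = N k + 1 := by omega
        subst this
        rw [pet_last, hsame _ (by omega), hend, hR]
        have : Complex.exp (Complex.I * ((2 * π : ℝ) : ℂ)) = 1 := by
          rw [mul_comm]
          push_cast
          exact Complex.exp_two_pi_mul_I
        rw [this, mul_one]
      · have hm := (pet_mem hj0 hj1).1
        have he : pet k j + 1 - n k = j := by
          rw [pet_le hj1]; omega
        simp only [hX']
        rw [if_neg (by omega), he]
  have hk' : X' k = X k := hsame k (by omega)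
  refine ⟨X', ⟨?_, ?_, ?_, ?_⟩, hsame⟩
  · intro i
    by_cases hi : i < n k
    · rw [hsame i hi]; exact hX i
    · simp only [hX', if_neg hi]
      exact isH_pt (hX k) (L_norm hu _) _
  · rw [hsame 0 (by omega)]; exact h0
  · rw [hsame 0 (by omega), hsame 1 (by omega)]; exact h1
  · intro k' j hk'' hj
    rcases Nat.lt_succ_iff_lt_or_eq.1 hk'' with hlt | heq
    · have hmono : n (k' + 1) ≤ n k := n_strictMono.monotone hlt
      have e1 : pet k' j < n (k' + 1) := pet_lt (by omega)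
      have e2 : pet k' (j + 1) < n (k' + 1) := pet_lt (by omega)
      exact L_congr (hsame _ (by omega)) (hsame _ (by omega)) (hsame _ (by omega))
        (hF k' j hlt hj)
    · subst heq
      set r := ρ k'
      set a := ρ (pet k' j) with ha
      set b := ρ (pet k' (j + 1)) with hb
      have hΘs : Θ (j + 1) = Θ j + ang r a b := by
        simp only [hΘ]
        rw [Finset.sum_range_succ]
        ring
      have h5 := hpet j (by omega)
      have h6 := hpet (j + 1) (by omega)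
      have h7 : u * Complex.exp (Complex.I * (Θ (j + 1) : ℂ)) =
          (u * Complex.exp (Complex.I * (Θ j : ℂ))) * Complex.exp (Complex.I * (ang r a b : ℂ)) := by
        rw [mul_assoc, ← Complex.exp_add, hΘs]
        push_cast
        ring_nf
      rw [h7] at h6
      obtain ⟨g1, g2⟩ := face_of_ang (hX k') (hL.pos k') (hL.pos (pet k' j))
        (hL.pos (pet k' (j + 1))) (L_norm hu (Θ j))
      refine ⟨?_, ?_, ?_, ?_⟩
      · unfold Tang
        rw [hk', h5]
        exact B_pt (hX k') (L_norm hu _) _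
      · unfold Tang
        rw [h5, h6]
        exact g1
      · unfold Tang
        rw [hk', h6, B_comm, add_comm]
        exact B_pt (hX k') (by rw [← h7]; exact L_norm hu _) _
      · rw [hk', h5, h6]
        exact g2

theorem L_init {ρ : ℕ → ℝ} : ∃ X, L_Good ρ 0 X := by
  have h10 : IsH ((1, 0) : M3) := by
    constructor
    · simp [B]
    · simp
  refine ⟨fun i => if i = 0 then (1, 0) else pt (1, 0) (ρ 0 + ρ 1) 1, ?_, ?_, ?_, ?_⟩
  · intro i
    by_cases hi : i = 0
    · simp only [hi, if_true]; exact h10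
    · simp only [hi, if_false]; exact isH_pt h10 (by simp) _
  · simp
  · simp only [if_true, one_ne_zero, if_false]
    exact B_pt h10 (by simp) _
  · intro k' j hk'; omega

theorem layout_exists {ρ : ℕ → ℝ} (h : Lab ρ) : ∃ X, Lay ρ X := by
  obtain ⟨X0, hX0⟩ := L_init (ρ := ρ)
  have hstep : ∀ k X, L_Good ρ k X → ∃ X', L_Good ρ (k + 1) X' ∧ ∀ i, i < n k → X' i = X i :=
    fun k X hX => L_step h hX
  choose f hf1 hf2 using hstep
  let S : ∀ k, {X : ℕ → M3 // L_Good ρ k X} := fun k =>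
    Nat.rec ⟨X0, hX0⟩ (fun k s => ⟨f k s.1 s.2, hf1 k s.1 s.2⟩) k
  have hS : ∀ k i, i < n k → (S (k + 1)).1 i = (S k).1 i := fun k i hi => hf2 k (S k).1 (S k).2 i hi
  have hmono : ∀ m k i, i < n k → (S (k + m)).1 i = (S k).1 i := by
    intro m
    induction m with
    | zero => intro k i _; rfl
    | succ m ih =>
      intro k i hi
      have h1 : n k ≤ n (k + m) := n_strictMono.monotone (by omega)
      rw [← add_assoc, hS (k + m) i (by omega), ih k i hi]
  have hdiag : ∀ k i, i < n k → (S i).1 i = (S k).1 i := by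
    intro k i hi
    rcases le_total i k with hik | hik
    · obtain ⟨m, rfl⟩ := Nat.exists_eq_add_of_le hik
      exact (hmono m i i (by have := n_ge i; omega)).symm
    · obtain ⟨m, rfl⟩ := Nat.exists_eq_add_of_le hik
      exact hmono m k _ hi
  refine ⟨fun i => (S i).1 i, h, fun i => (S i).2.1 i, (S 0).2.2.1, ?_⟩
  intro k j hj
  have hk : n k ≤ n (k + 1) := n_strictMono.monotone (by omega)
  have hnk := n_ge k
  have e1 : pet k j < n (k + 1) := pet_lt (by omega)
  have e2 : pet k (j + 1) < n (k + 1) := pet_lt (by omega)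
  exact L_congr (hdiag (k + 1) k (by omega)) (hdiag (k + 1) _ e1) (hdiag (k + 1) _ e2)
    ((S (k + 1)).2.2.2.2 k j (by omega) hj)

end Pool.Agent.H776R2.Fatou
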