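import Pool.Agent.H776R2.Fatou.Defs
import Pool.Agent.H776R2.Fatou.Ang
import Pool.Agent.H776R2.Fatou.Mink
import Pool.Agent.H776R2.Fatou.Comb
import Pool.Agent.H776R2.Fatou.Layout

/-! Task M: frames and turns. -/

open Real

noncomputable section

namespace Pool.Agent.H776R2.Fatou

theorem M_det_rot (X Y W : M3) : det3 X Y W = det3 Y W X := by
  unfold det3 cr; ring

theorem M_B_comm (X Y : M3) : B X Y = B Y X := by unfold B; ring

/-- a point tangent to `X m` in polar coordinates -/
theorem M_polar {ρ : ℕ → ℝ} {X : ℕ → M3} (hρ : ∀ v, 0 < ρ v) (hX : ∀ i, IsH (X i)) {m a : ℕ}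
    (h : Tang ρ X m a) : ∃ u : ℂ, ‖u‖ = 1 ∧ X a = pt (X m) (ρ m + ρ a) u := by
  obtain ⟨d, u, hd, hu, he⟩ := polar (hX m) (hX a)
  refine ⟨u, hu, ?_⟩
  have h1 : cosh d = cosh (ρ m + ρ a) := by
    rw [← B_pt (hX m) hu d, ← he]
    exact h
  have h2 : d = ρ m + ρ a :=
    cosh_strictMonoOn.injOn (Set.mem_Ici.mpr hd)
      (Set.mem_Ici.mpr (add_pos (hρ m) (hρ a)).le) h1
  rw [← h2]; exact he

theorem M_cr_exp {u : ℂ} (hu : ‖u‖ = 1) (a b : ℝ) :
    cr (u * Complex.exp (Complex.I * (a : ℂ))) (u * Complex.exp (Complex.I * (b : ℂ))) =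
      sin (b - a) := by
  have h1 : u * Complex.exp (Complex.I * (b : ℂ)) =
      (u * Complex.exp (Complex.I * (a : ℂ))) * Complex.exp (Complex.I * ((b - a : ℝ) : ℂ)) := by
    rw [mul_assoc, ← Complex.exp_add]
    congr 2
    push_cast
    ring
  have h2 : ‖u * Complex.exp (Complex.I * (a : ℂ))‖ = 1 := by
    rw [norm_mul, hu, C_norm_exp, one_mul]
  rw [h1]
  exact C_cr h2 _

theorem M_norm {u : ℂ} (hu : ‖u‖ = 1) (a : ℝ) :
    ‖u * Complex.exp (Complex.I * (a : ℂ))‖ = 1 := by
  rw [norm_mul, hu, C_norm_exp, one_mul]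

theorem M_exp_zero (u : ℂ) : u * Complex.exp (Complex.I * ((0 : ℝ) : ℂ)) = u := by
  simp

theorem M_asum_nonneg {ρ : ℕ → ℝ} (hρ : ∀ v, 0 < ρ v) (m : ℕ) (l : List (ℕ × ℕ)) :
    0 ≤ asum ρ m l := by
  unfold asum
  apply List.sum_nonneg
  intro x hx
  obtain ⟨p, -, rfl⟩ := List.mem_map.1 hx
  exact (ang_pos (hρ _) (hρ _) (hρ _)).le

theorem M_asum_pos {ρ : ℕ → ℝ} (hρ : ∀ v, 0 < ρ v) (m : ℕ) (l : List (ℕ × ℕ)) (hl : l ≠ []) :
    0 < asum ρ m l := by
  cases l with
  | nil => exact absurd rfl hl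
  | cons p l =>
    have h1 := M_asum_nonneg hρ m l
    have h2 := ang_pos (hρ m) (hρ p.1) (hρ p.2)
    show 0 < ((p :: l).map fun pq => ang (ρ m) (ρ pq.1) (ρ pq.2)).sum
    rw [List.map_cons, List.sum_cons]
    unfold asum at h1
    linarith

theorem M_asum_le {ρ : ℕ → ℝ} (h : Lab ρ) (m : ℕ) (l : List (ℕ × ℕ)) :
    asum ρ m l ≤ l.length * (π / 10) := by
  induction l with
  | nil => simp [asum]
  | cons p l ih =>
    have h2 : ang (ρ m) (ρ p.1) (ρ p.2) ≤ π / 10 :=
      ang_small (h.pos m) (h.pos _) (h.pos _) ((lab_exp h m).trans (by norm_num))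
    show ((p :: l).map fun pq => ang (ρ m) (ρ pq.1) (ρ pq.2)).sum ≤ _
    rw [List.map_cons, List.sum_cons, List.length_cons]
    unfold asum at ih
    push_cast
    linarith

theorem M_asum_lt {ρ : ℕ → ℝ} (h : Lab ρ) (m : ℕ) (l : List (ℕ × ℕ)) (hl : l.length ≤ 4) :
    asum ρ m l < π := by
  have h1 := M_asum_le h m l
  have h2 : (l.length : ℝ) ≤ 4 := by exact_mod_cast hl
  have h3 := pi_pos
  nlinarith

/-- a chain of faces around `m` from `a` to `b` with total angle less than `π` is a left turn -/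
theorem turn_of_chain {ρ : ℕ → ℝ} {X : ℕ → M3} (hρ : ∀ v, 0 < ρ v) (hX : ∀ i, IsH (X i)) {m : ℕ}
    (l : List (ℕ × ℕ)) (hl : l ≠ []) (a b : ℕ) (h : ChainL a l b)
    (hf : ∀ p ∈ l, FaceOK ρ X m p.1 p.2) (hs : asum ρ m l < π) :
    0 < det3 (X m) (X a) (X b) := by
  have ha : Tang ρ X m a := by
    cases l with
    | nil => exact absurd rfl hl
    | cons p l =>
      obtain ⟨h1, -⟩ := h
      have := (hf p List.mem_cons_self).1
      rwa [h1] at this
  obtain ⟨u, hu, hua⟩ := M_polar hρ hX ha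
  have hb := chain_dir hρ hX l a b h hf u hu hua
  rw [hua, hb, det_pt_pt (hX m)]
  rw [C_cr hu]
  have h1 := sinh_pos_iff.2 (add_pos (hρ m) (hρ a))
  have h2 := sinh_pos_iff.2 (add_pos (hρ m) (hρ b))
  have h3 := sin_pos_of_pos_of_lt_pi (M_asum_pos hρ m l hl) hs
  positivity

/-! ### the frame -/

/-- partial sums of the angles of the new faces -/
def M_S (ρ : ℕ → ℝ) (k j : ℕ) : ℝ :=
  ∑ l ∈ Finset.range j, ang (ρ k) (ρ (pet k l)) (ρ (pet k (l + 1)))

theorem M_S_succ (ρ : ℕ → ℝ) (k j : ℕ) :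
    M_S ρ k (j + 1) = M_S ρ k j + ang (ρ k) (ρ (pet k j)) (ρ (pet k (j + 1))) := by
  unfold M_S
  rw [Finset.sum_range_succ]

theorem M_list_sum (f : ℕ → ℝ) (m : ℕ) :
    ((List.range m).map f).sum = ∑ i ∈ Finset.range m, f i := by
  induction m with
  | zero => simp
  | succ m ih =>
    rw [List.range_succ, List.map_append, List.sum_append, ih, Finset.sum_range_succ]
    simp

theorem M_S_total {ρ : ℕ → ℝ} (h : Lab ρ) (k : ℕ) :
    asum ρ k (old k) + M_S ρ k (N k + 1) = 2 * π := by
  have h1 := h.sum k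
  unfold asum pairs at h1
  rw [List.map_append, List.sum_append] at h1
  rw [← h1]
  unfold asum M_S new
  rw [List.map_map, ← M_list_sum]
  rfl

/-- directions of the new petals -/
theorem M_new_dir {ρ : ℕ → ℝ} {X : ℕ → M3} (h : Lay ρ X) (k : ℕ) {u : ℂ} (hu : ‖u‖ = 1)
    (hL : X (n k - 1) = pt (X k) (ρ k + ρ (n k - 1)) u) :
    ∀ j, j ≤ N k + 1 → X (pet k j) = pt (X k) (ρ k + ρ (pet k j))
      (u * Complex.exp (Complex.I * (M_S ρ k j : ℂ))) := by
  intro j
  induction j with
  | zero =>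
    intro _
    rw [pet_zero]
    have h0 : M_S ρ k 0 = 0 := by simp [M_S]
    rw [h0, M_exp_zero]
    exact hL
  | succ j ih =>
    intro hj
    have h1 := ih (by omega)
    have h2 := chain_dir h.lab.pos h.isH (k := k) [(pet k j, pet k (j + 1))] (pet k j)
      (pet k (j + 1)) ⟨rfl, rfl⟩ (by
        intro p hp
        rw [List.mem_singleton] at hp
        rw [hp]
        exact h.face k j (by omega)) _ (M_norm hu _) h1
    rw [h2, mul_assoc, ← Complex.exp_add]
    congr 3
    have h3 : asum ρ k [(pet k j, pet k (j + 1))] =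
        ang (ρ k) (ρ (pet k j)) (ρ (pet k (j + 1))) := by
      simp [asum]
    rw [h3, M_S_succ]
    push_cast
    ring

/-- the old inner vertices of the polygon, in polar coordinates at `X k` -/
theorem M_old_dir {ρ : ℕ → ℝ} {X : ℕ → M3} (h : Lay ρ X) {k : ℕ} (hc : Conv X k)
    {u : ℂ} (hu : ‖u‖ = 1) (hR : X (k + 1) = pt (X k) (ρ k + ρ (k + 1)) u)
    (hL : X (n k - 1) = pt (X k) (ρ k + ρ (n k - 1))
      (u * Complex.exp (Complex.I * (asum ρ k (old k) : ℂ))))
    {i : ℕ} (h1 : k + 1 < i) (h2 : i < n k - 1) :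
    ∃ d a : ℝ, 0 < d ∧ 0 < a ∧ a < asum ρ k (old k) ∧
      X i = pt (X k) d (u * Complex.exp (Complex.I * (a : ℂ))) := by
  obtain ⟨d, v, hd, hv, he⟩ := polar (h.isH k) (h.isH i)
  -- the angle
  obtain ⟨a, ha⟩ : ∃ a : ℝ, a = Complex.arg (v / u) := ⟨_, rfl⟩
  have hu0 : u ≠ 0 := by
    intro h0; rw [h0, norm_zero] at hu; exact zero_ne_one hu
  have hva : v = u * Complex.exp (Complex.I * (a : ℂ)) := by
    have h3 : ‖v / u‖ = 1 := by rw [norm_div, hu, hv, div_one]
    have h4 := Complex.norm_mul_exp_arg_mul_I (v / u)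
    rw [h3, ← ha, mul_comm (a : ℂ)] at h4
    simp only [Complex.ofReal_one, one_mul] at h4
    rw [h4]
    field_simp
  have ha1 : -π < a := by rw [ha]; exact Complex.neg_pi_lt_arg _
  have ha2 : a ≤ π := by rw [ha]; exact Complex.arg_le_pi _
  have hsg0 : 0 ≤ asum ρ k (old k) := M_asum_nonneg h.lab.pos k _
  have hsg1 : asum ρ k (old k) < π := M_asum_lt h.lab k _ (old_len k)
  -- first edge
  have hs0 : 0 ≤ sinh d := sinh_nonneg_iff.2 hd
  have e1 : 0 < det3 (X k) (X (k + 1)) (X i) := by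
    have h3 := hc k i le_rfl (by omega) (by omega) (by omega) (by
      unfold nx; rw [if_neg (by omega)]; omega)
    have h4 : nx k k = k + 1 := by unfold nx; rw [if_neg (by omega)]
    rwa [h4] at h3
  rw [hR, he, det_pt_pt (h.isH k), hva, C_cr hu] at e1
  have hR0 : 0 < sinh (ρ k + ρ (k + 1)) :=
    sinh_pos_iff.2 (add_pos (h.lab.pos _) (h.lab.pos _))
  have hL0 : 0 < sinh (ρ k + ρ (n k - 1)) :=
    sinh_pos_iff.2 (add_pos (h.lab.pos _) (h.lab.pos _))
  have hsd : 0 < sinh d := by
    rcases hs0.eq_or_lt with h5 | h5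
    · rw [← h5] at e1; simp at e1
    · exact h5
  have hsin : 0 < sin a := (mul_pos_iff_of_pos_left (mul_pos hR0 hsd)).1 e1
  have hd0 : 0 < d := sinh_pos_iff.1 hsd
  have ha0 : 0 < a := by
    by_contra hcon
    have := sin_nonpos_of_nonpos_of_neg_pi_le (not_lt.1 hcon) ha1.le
    linarith
  -- last edge
  have e2 : 0 < det3 (X k) (X i) (X (n k - 1)) := by
    have h3 := hc (n k - 1) i (by omega) (by omega) (by omega) (by omega) (by
      unfold nx; rw [if_pos (by omega)]; omega)
    have h4 : nx k (n k - 1) = k := by unfold nx; rw [if_pos (by omega)]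
    rw [h4, M_det_rot] at h3
    exact h3
  rw [hL, he, det_pt_pt (h.isH k), hva, M_cr_exp hu] at e2
  have hsin2 : 0 < sin (asum ρ k (old k) - a) :=
    (mul_pos_iff_of_pos_left (mul_pos hsd hL0)).1 e2
  have ha3 : a < asum ρ k (old k) := by
    by_contra hcon
    have := sin_nonpos_of_nonpos_of_neg_pi_le (x := asum ρ k (old k) - a)
      (by linarith [not_lt.1 hcon]) (by linarith)
    linarith
  exact ⟨d, a, hd0, ha0, ha3, by rw [he, hva]⟩

theorem M_lt_of_step {a : ℕ} {b : ℕ} {f : ℕ → ℝ} (h : ∀ i, a ≤ i → i + 1 < b → f i < f (i + 1)) :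
    ∀ i j, a ≤ i → i < j → j < b → f i < f j := by
  intro i j hi hij hj
  induction j with
  | zero => omega
  | succ j ih =>
    rcases Nat.lt_succ_iff_lt_or_eq.1 hij with h1 | h1
    · exact (ih h1 (by omega)).trans (h j (by omega) hj)
    · subst h1; exact h i hi hj

theorem frame {ρ : ℕ → ℝ} {X : ℕ → M3} (h : Lay ρ X) (k : ℕ) (hc : k = 0 ∨ Conv X k) :
    ∃ u d α, Frame ρ X k u d α := by
  have hn := n_ge k
  have hnk1 : n (k + 1) = n k + N k := n_succ k
  have hN := N_ge k
  have hk1 : 1 ≤ k → k + 10 ^ 12 ≤ n k := n_ge' k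
  have hρ := h.lab.pos
  -- direction of the right neighbour
  have hface := h.face k (N k) le_rfl
  rw [pet_last] at hface
  have htR : Tang ρ X k (k + 1) := by
    have h1 := hface.2.2.1
    unfold Tang at h1 ⊢
    rw [M_B_comm, h1, add_comm]
  obtain ⟨u, hu, hR⟩ := M_polar hρ h.isH htR
  obtain ⟨sg, hsg⟩ : ∃ sg, sg = asum ρ k (old k) := ⟨_, rfl⟩
  have hsg0 : 0 ≤ sg := by rw [hsg]; exact M_asum_nonneg hρ k _
  have hsg1 : sg < π := by rw [hsg]; exact M_asum_lt h.lab k _ (old_len k)
  have hk0sg : k = 0 → sg = 0 := by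
    intro h0; rw [hsg, h0]; simp [asum, old]
  -- direction of the left neighbour
  have hL : X (n k - 1) = pt (X k) (ρ k + ρ (n k - 1))
      (u * Complex.exp (Complex.I * (sg : ℂ))) := by
    rcases Nat.eq_zero_or_pos k with h0 | h0
    · have h1 : n k - 1 = k + 1 := by
        rw [h0]; rfl
      rw [h1, hk0sg h0, M_exp_zero]
      exact hR
    · rw [hsg]
      exact chain_dir hρ h.isH (old k) (k + 1) (n k - 1) (old_chain h0)
        (fun p hp => pairs_faceOK h (List.mem_append_left _ hp)) u hu hR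
  have hnew := M_new_dir h k (M_norm hu sg) hL
  have hnew' : ∀ j, j ≤ N k → X (n k - 1 + j) = pt (X k) (ρ k + ρ (n k - 1 + j))
      (u * Complex.exp (Complex.I * ((sg + M_S ρ k j : ℝ) : ℂ))) := by
    intro j hj
    have h1 := hnew j (by omega)
    rw [pet_le hj, mul_assoc, ← Complex.exp_add] at h1
    rw [h1]
    congr 3
    push_cast
    ring
  -- all vertices
  have key : ∀ i, ∃ d a : ℝ, k + 1 ≤ i → i < n (k + 1) →
      0 < d ∧ X i = pt (X k) d (u * Complex.exp (Complex.I * (a : ℂ))) ∧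
      (i = k + 1 → a = 0 ∧ d = ρ k + ρ i) ∧
      (n k - 1 ≤ i → a = sg + M_S ρ k (i - (n k - 1)) ∧ d = ρ k + ρ i) ∧
      (i < n k → 0 ≤ a ∧ a ≤ sg) := by
    intro i
    by_cases hi : k + 1 ≤ i ∧ i < n (k + 1)
    swap
    · exact ⟨0, 0, fun h1 h2 => absurd ⟨h1, h2⟩ hi⟩
    obtain ⟨hi1, hi2⟩ := hi
    by_cases hb : n k - 1 ≤ i
    · obtain ⟨j, hj⟩ : ∃ j, i = n k - 1 + j := ⟨i - (n k - 1), by omega⟩
      have hjN : j ≤ N k := by omega
      refine ⟨ρ k + ρ i, sg + M_S ρ k j, fun _ _ => ⟨add_pos (hρ _) (hρ _), ?_, ?_, ?_, ?_⟩⟩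
      · rw [hj]; exact hnew' j hjN
      · intro h1
        refine ⟨?_, rfl⟩
        have h0 : k = 0 := by
          by_contra h0
          have := hk1 (by omega)
          omega
        have hj0 : j = 0 := by omega
        rw [hk0sg h0, hj0]
        simp [M_S]
      · intro _
        refine ⟨?_, rfl⟩
        congr 2
        omega
      · intro h1
        have hj0 : j = 0 := by omega
        rw [hj0]
        simp [M_S, hsg0]
    · have h0 : k ≠ 0 := by
        intro h0
        have : n k = 2 := by rw [h0]; rfl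
        omega
      have hcv : Conv X k := hc.resolve_left h0
      by_cases hi3 : i = k + 1
      · refine ⟨ρ k + ρ i, 0, fun _ _ => ⟨add_pos (hρ _) (hρ _), ?_, ?_, ?_, ?_⟩⟩
        · rw [hi3, M_exp_zero]; exact hR
        · intro _; exact ⟨rfl, rfl⟩
        · intro h1; exact absurd h1 hb
        · intro _; exact ⟨le_rfl, hsg0⟩
      · obtain ⟨d, a, hd, ha, ha2, he⟩ := M_old_dir h hcv hu hR (by rw [← hsg]; exact hL)
          (i := i) (by omega) (by omega)
        refine ⟨d, a, fun _ _ => ⟨hd, he, ?_, ?_, ?_⟩⟩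
        · intro h1; exact absurd h1 hi3
        · intro h1; exact absurd h1 hb
        · intro _; exact ⟨ha.le, by rw [hsg]; exact ha2.le⟩
  choose d α hdα using key
  have hpos : ∀ i, k + 1 ≤ i → i < n (k + 1) → 0 < d i := fun i h1 h2 => (hdα i h1 h2).1
  have hcoord : ∀ i, k + 1 ≤ i → i < n (k + 1) →
      X i = pt (X k) (d i) (u * Complex.exp (Complex.I * (α i : ℂ))) :=
    fun i h1 h2 => (hdα i h1 h2).2.1
  have hα1 : α (k + 1) = 0 ∧ d (k + 1) = ρ k + ρ (k + 1) :=
    (hdα (k + 1) le_rfl (by omega)).2.2.1 rfl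
  have hαn : ∀ j, j ≤ N k → α (n k - 1 + j) = sg + M_S ρ k j ∧
      d (n k - 1 + j) = ρ k + ρ (n k - 1 + j) := by
    intro j hj
    have h1 := (hdα (n k - 1 + j) (by omega) (by omega)).2.2.2.1 (by omega)
    have h2 : n k - 1 + j - (n k - 1) = j := by omega
    rw [h2] at h1
    exact h1
  have hαo : ∀ i, k + 1 ≤ i → i < n k → 0 ≤ α i ∧ α i ≤ sg := fun i h1 h2 =>
    (hdα i h1 (by omega)).2.2.2.2 h2
  have hstep : ∀ i, k + 1 ≤ i → i + 1 < n (k + 1) → α i < α (i + 1) := by
    intro i hi1 hi2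
    by_cases hb : n k - 1 ≤ i
    · obtain ⟨j, hj⟩ : ∃ j, i = n k - 1 + j := ⟨i - (n k - 1), by omega⟩
      have h1 := (hαn j (by omega)).1
      have h2 := (hαn (j + 1) (by omega)).1
      rw [← hj] at h1
      have h3 : n k - 1 + (j + 1) = i + 1 := by omega
      rw [h3, M_S_succ] at h2
      have h4 := ang_pos (hρ k) (hρ (pet k j)) (hρ (pet k (j + 1)))
      rw [h1, h2]
      linarith
    · have h0 : k ≠ 0 := by
        intro h0
        have : n k = 2 := by rw [h0]; rfl
        omega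
      have hcv : Conv X k := hc.resolve_left h0
      have h1 := hcv i k (by omega) (by omega) (by omega) (by omega) (by
        unfold nx; rw [if_neg (by omega)]; omega)
      have h2 : nx k i = i + 1 := by unfold nx; rw [if_neg (by omega)]
      rw [h2, ← M_det_rot, hcoord i (by omega) (by omega),
        hcoord (i + 1) (by omega) (by omega), det_pt_pt (h.isH k), M_cr_exp hu] at h1
      have h3 : 0 < sinh (d i) * sinh (d (i + 1)) :=
        mul_pos (sinh_pos_iff.2 (hpos _ (by omega) (by omega)))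
          (sinh_pos_iff.2 (hpos _ (by omega) (by omega)))
      have h4 : 0 < sin (α (i + 1) - α i) := (mul_pos_iff_of_pos_left h3).1 h1
      obtain ⟨h5, h6⟩ := hαo i hi1 (by omega)
      obtain ⟨h7, h8⟩ := hαo (i + 1) (by omega) (by omega)
      by_contra hcon
      have := sin_nonpos_of_nonpos_of_neg_pi_le (x := α (i + 1) - α i)
        (by linarith [not_lt.1 hcon]) (by linarith)
      linarith
  refine ⟨u, d, α, ⟨hu, hpos, hcoord, ?_, hα1.1, M_lt_of_step hstep, ?_, ?_, ?_, ?_⟩⟩
  · intro j hj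
    rcases Nat.lt_succ_iff_lt_or_eq.1 (Nat.lt_succ_of_le hj) with h1 | h1
    · rw [pet_le (by omega)]
      exact (hαn j (by omega)).2
    · rw [h1, pet_last]; exact hα1.2
  · have := (hαn 0 (by omega)).1
    rw [add_zero] at this
    rw [this, ← hsg]; simp [M_S]
  · have := (hαn 0 (by omega)).1
    rw [add_zero] at this
    rw [this]; simpa [M_S] using hsg1
  · intro j hj
    have e1 := (hαn j hj.le).1
    have e2 := (hαn (j + 1) (by omega)).1
    rw [M_S_succ] at e2
    rw [← pet_le hj.le] at e1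
    rw [← pet_le (show j + 1 ≤ N k by omega)] at e2
    rw [e1, e2]
    ring
  · have e1 := (hαn (N k) le_rfl).1
    rw [← pet_le le_rfl] at e1
    have e2 := M_S_total h.lab k
    rw [M_S_succ, pet_last, ← hsg] at e2
    rw [e1]
    linarith

/-! ### the turns -/

theorem turns {ρ : ℕ → ℝ} {X : ℕ → M3} (h : Lay ρ X) (k : ℕ) (hc : k = 0 ∨ Conv X k) :
    ∀ i, k + 1 ≤ i → i < n (k + 1) →
      0 < det3 (X i) (X (nx (k + 1) i)) (X (nx (k + 1) (nx (k + 1) i))) := by
  intro i hi1 hi2
  have hn := n_ge k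
  have hnk1 : n (k + 1) = n k + N k := n_succ k
  have hN := N_ge k
  have hk1 : 1 ≤ k → k + 10 ^ 12 ≤ n k := n_ge' k
  have hρ := h.lab.pos
  -- reformulation at the middle vertex
  suffices hm : ∀ m, k + 1 ≤ m → m < n (k + 1) → ∀ i, k + 1 ≤ i → i < n (k + 1) →
      nx (k + 1) i = m → 0 < det3 (X m) (X (nx (k + 1) m)) (X i) by
    have h1 : k + 1 ≤ nx (k + 1) i ∧ nx (k + 1) i < n (k + 1) := by
      unfold nx; split_ifs <;> omega
    have h2 := hm _ h1.1 h1.2 i hi1 hi2 rfl
    rw [M_det_rot]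
    exact h2
  intro m hm1 hm2 i hi1 hi2 him
  have hchain : ∀ (l : List (ℕ × ℕ)) (a b : ℕ), l ≠ [] → l.length ≤ 4 → ChainL a l b →
      (∀ p ∈ l, p ∈ pairs m) → 0 < det3 (X m) (X a) (X b) := by
    intro l a b hl hl4 hab hp
    exact turn_of_chain hρ h.isH l hl a b hab (fun p hpl => pairs_faceOK h (hp p hpl))
      (M_asum_lt h.lab m l hl4)
  by_cases hmk : m = k + 1
  · -- the vertex `k+1`
    have hi3 : i = n (k + 1) - 1 := by
      unfold nx at him
      split_ifs at him with h1 <;> omega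
    have hnx : nx (k + 1) m = k + 1 + 1 := by
      unfold nx; rw [if_neg (by omega)]; omega
    have hchk := old_chain (k := k + 1) (by omega)
    rw [hnx, hi3]
    refine hchain (old (k + 1)) _ _ ?_ (old_len _) hchk ?_
    · intro h0
      rw [h0] at hchk
      have : k + 1 + 1 = n (k + 1) - 1 := hchk
      omega
    · intro p hp
      rw [hmk]
      exact List.mem_append_left _ hp
  · have hi3 : i + 1 = m := by
      unfold nx at him
      split_ifs at him with h1 <;> omega
    by_cases hb : n k ≤ m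
    · -- new vertices
      obtain ⟨j, hj⟩ : ∃ j, m = n k - 1 + (j + 1) := ⟨m - n k, by omega⟩
      have hjN : j + 1 ≤ N k := by omega
      have hpm : pet k (j + 1) = m := by rw [pet_le hjN]; exact hj.symm
      have hpi : pet k j = i := by rw [pet_le (by omega)]; omega
      have hpn : pet k (j + 1 + 1) = nx (k + 1) m := by
        unfold nx
        split_ifs with h1
        · have : j + 1 = N k := by omega
          rw [this, pet_last]
        · rw [pet_le (by omega)]; omega
      have c1 := corner1 (k := k) (j := j + 1) hjN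
      have c2 := corner2 (k := k) (j := j) (by omega)
      rw [hpm] at c1 c2
      rw [hpn] at c1
      rw [hpi] at c2
      exact hchain [(nx (k + 1) m, k), (k, i)] _ _ (by simp) (by simp) ⟨rfl, rfl, rfl⟩ (by
        intro p hp
        simp only [List.mem_cons, List.not_mem_nil, or_false] at hp
        rcases hp with rfl | rfl
        · exact c1
        · exact c2)
    · have h0 : k ≠ 0 := by
        intro h0
        have : n k = 2 := by rw [h0]; rfl
        omega
      have hcv : Conv X k := hc.resolve_left h0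
      have hk2 := hk1 (by omega)
      have hnx : nx (k + 1) m = m + 1 := by
        unfold nx; rw [if_neg (by omega)]
      rw [hnx]
      by_cases hb2 : m = n k - 1
      · -- the left neighbour
        obtain ⟨k', rfl⟩ : ∃ k', k = k' + 1 := ⟨k - 1, by omega⟩
        have hn' := n_succ k'
        have hN' := N_ge k'
        have hn'' := n_ge k'
        have c0 := corner1 (k := k' + 1) (j := 0) (by omega)
        rw [pet_zero, pet_le (by omega), ← hb2] at c0
        have e0 : m + (0 + 1) = m + 1 := by omega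
        rw [e0] at c0
        have hpm : pet k' (N k') = m := by rw [pet_le le_rfl]; omega
        have c1 := corner1 (k := k') (j := N k') le_rfl
        rw [pet_last, hpm] at c1
        have c2 := corner2 (k := k') (j := N k' - 1) (by omega)
        have e1 : N k' - 1 + 1 = N k' := by omega
        rw [e1, hpm] at c2
        have hpi : pet k' (N k' - 1) = i := by rw [pet_le (by omega)]; omega
        rw [hpi] at c2
        exact hchain [(m + 1, k' + 1), (k' + 1, k'), (k', i)] _ _ (by simp) (by simp)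
          ⟨rfl, rfl, rfl, rfl⟩ (by
          intro p hp
          simp only [List.mem_cons, List.not_mem_nil, or_false] at hp
          rcases hp with rfl | rfl | rfl
          · exact c0
          · exact c1
          · exact c2)
      · -- old vertices
        have h1 := hcv i (m + 1) (by omega) (by omega) (by omega) (by omega) (by
          unfold nx; rw [if_neg (by omega)]; omega)
        have h2 : nx k i = m := by unfold nx; rw [if_neg (by omega)]; exact hi3
        rw [h2, M_det_rot] at h1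
        exact h1

end Pool.Agent.H776R2.Fatou
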