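import Pool.Agent.H776R2.Fatou.StarDef

/-! Task G: `star_hull`, `star_sector` (helper972). -/

open Real

noncomputable section

namespace Pool.Agent.H776R2.Fatou

theorem G_cr (s r α β : ℝ) (u : ℂ) (hu : ‖u‖ = 1) :
    cr ((s : ℂ) * (u * Complex.exp (Complex.I * (α : ℂ))))
      ((r : ℂ) * (u * Complex.exp (Complex.I * (β : ℂ)))) = s * r * sin (β - α) := by
  have h1 : u.re ^ 2 + u.im ^ 2 = 1 := by
    have h2 : Complex.normSq u = 1 := by rw [Complex.normSq_eq_norm_sq, hu]; norm_num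
    rw [Complex.normSq_apply] at h2
    linarith
  have e : ∀ x : ℝ, Complex.exp (Complex.I * (x : ℂ)) = ⟨cos x, sin x⟩ := by
    intro x
    rw [mul_comm, Complex.exp_mul_I]
    apply Complex.ext <;> simp [Complex.cos_ofReal_re, Complex.sin_ofReal_re]
  rw [e, e, sin_sub]
  unfold cr
  simp only [Complex.mul_re, Complex.mul_im, Complex.ofReal_re, Complex.ofReal_im, zero_mul,
    sub_zero, add_zero]
  linear_combination (s * r * (sin β * cos α - cos β * sin α)) * h1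

theorem G_det (X Y : M3) : det3 (1, 0) X Y = cr X.2 Y.2 := by
  unfold det3 cr
  simp

theorem G_cyc_mem (a b i : ℕ) (hab : a + 3 ≤ b) (h1 : a ≤ i) (h2 : i < b) :
    a ≤ cyc a b i ∧ cyc a b i < b := by
  unfold cyc
  split_ifs <;> omega

/-- the sine of an angle shifted by a full turn -/
theorem G_gap (a b : ℕ) (hab : a + 3 ≤ b) (α : ℕ → ℝ)
    (hmono : ∀ i j, a ≤ i → i < j → j < b → α i < α j)
    (hgap : ∀ i, a ≤ i → i + 1 < b → α (i + 1) - α i < π)
    (hlast : α (b - 1) < α a + 2 * π) (hgap' : α a + 2 * π - α (b - 1) < π) (i : ℕ)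
    (h1 : a ≤ i) (h2 : i < b) :
    ∃ γ : ℝ, 0 < γ ∧ γ < π ∧ (∀ x : ℝ, sin (α (cyc a b i) - x) = sin (α i + γ - x)) ∧
      ((cyc a b i = i + 1 ∧ i + 1 < b ∧ α i + γ = α (i + 1)) ∨ (i = b - 1 ∧ α i + γ = α a + 2 * π)) := by
  unfold cyc
  by_cases h3 : i + 1 = b
  · refine ⟨α a + 2 * π - α (b - 1), by linarith, hgap', ?_, Or.inr ⟨by omega, ?_⟩⟩
    · intro x
      have h4 : i = b - 1 := by omega
      rw [if_pos h3, h4]
      have h5 : α (b - 1) + (α a + 2 * π - α (b - 1)) - x = (α a - x) + 2 * π := by ring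
      rw [h5, sin_add_two_pi]
    · have h4 : i = b - 1 := by omega
      rw [h4]
      ring
  · have h4 : i + 1 < b := by omega
    refine ⟨α (i + 1) - α i, ?_, hgap i h1 h4, ?_, Or.inl ⟨by rw [if_neg h3], h4, by ring⟩⟩
    · have := hmono i (i + 1) h1 (by omega) h4
      linarith
    · intro x
      rw [if_neg h3]
      congr 1
      ring

/-- every direction is in one of the closed sectors -/
theorem star_sector (a b : ℕ) (hab : a + 3 ≤ b) (t s α : ℕ → ℝ) (u : ℂ) (hu : ‖u‖ = 1)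
    (ht : ∀ i, a ≤ i → i < b → 0 < t i) (hs : ∀ i, a ≤ i → i < b → 0 < s i)
    (hmono : ∀ i j, a ≤ i → i < j → j < b → α i < α j)
    (hgap : ∀ i, a ≤ i → i + 1 < b → α (i + 1) - α i < π)
    (hlast : α (b - 1) < α a + 2 * π) (hgap' : α a + 2 * π - α (b - 1) < π)
    (V : ℕ → M3) (hV : ∀ i, a ≤ i → i < b → V i = (t i, (s i : ℂ) * (u * Complex.exp (Complex.I * (α i : ℂ)))))
    (Y : M3) :
    ∃ i, a ≤ i ∧ i < b ∧ 0 ≤ det3 (1, 0) (V i) Y ∧ 0 ≤ det3 (1, 0) Y (V (cyc a b i)) := by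
  -- polar coordinates of `Y.2 / u`
  have hu0 : u ≠ 0 := by
    intro h
    rw [h, norm_zero] at hu
    exact zero_ne_one hu
  obtain ⟨r, θ, hr, hθ⟩ : ∃ (r θ : ℝ), 0 ≤ r ∧
      Y.2 = (r : ℂ) * (u * Complex.exp (Complex.I * (θ : ℂ))) := by
    refine ⟨‖Y.2 / u‖, (Y.2 / u).arg, norm_nonneg _, ?_⟩
    have h1 := Complex.norm_mul_exp_arg_mul_I (Y.2 / u)
    have h2 : Y.2 = (Y.2 / u) * u := by field_simp
    calc Y.2 = (Y.2 / u) * u := h2
      _ = ((‖Y.2 / u‖ : ℂ) * Complex.exp ((Y.2 / u).arg * Complex.I)) * u := by rw [h1]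
      _ = _ := by rw [mul_comm Complex.I]; ring
  set β : ℝ := toIcoMod Real.two_pi_pos (α a) θ with hβ
  have hβm : β ∈ Set.Ico (α a) (α a + 2 * π) := toIcoMod_mem_Ico _ _ _
  have hβe : Y.2 = (r : ℂ) * (u * Complex.exp (Complex.I * (β : ℂ))) := by
    rw [hθ]
    congr 2
    have h1 : θ = β + toIcoDiv Real.two_pi_pos (α a) θ • (2 * π) := by
      rw [hβ, toIcoMod]
      ring
    have h2 : Complex.I * (θ : ℂ) = Complex.I * (β : ℂ) +
        ((toIcoDiv Real.two_pi_pos (α a) θ : ℤ) : ℂ) * (2 * π * Complex.I) := by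
      conv_lhs => rw [h1]
      push_cast [zsmul_eq_mul]
      ring
    rw [h2, Complex.exp_add, Complex.exp_int_mul_two_pi_mul_I, mul_one]
  -- the largest `i` with `α i ≤ β`
  obtain ⟨i, hi1, hi2, hi3, hi4⟩ : ∃ i, a ≤ i ∧ i < b ∧ α i ≤ β ∧
      (i + 1 < b → β < α (i + 1)) := by
    classical
    set S : Finset ℕ := (Finset.Ico a b).filter fun i => α i ≤ β with hS
    have hSm : ∀ k, k ∈ S ↔ (a ≤ k ∧ k < b) ∧ α k ≤ β := by
      intro k
      rw [hS, Finset.mem_filter, Finset.mem_Ico]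
    have hne : S.Nonempty := ⟨a, (hSm a).mpr ⟨⟨le_refl _, by omega⟩, hβm.1⟩⟩
    have h1 := (hSm _).mp (Finset.max'_mem S hne)
    refine ⟨S.max' hne, h1.1.1, h1.1.2, h1.2, fun h2 => ?_⟩
    by_contra hc
    push Not at hc
    have h3 : S.max' hne + 1 ∈ S := (hSm _).mpr ⟨⟨by omega, h2⟩, hc⟩
    have h4 := Finset.le_max' S _ h3
    omega
  obtain ⟨γ, hγ0, hγπ, hγ1, hγ2⟩ := G_gap a b hab α hmono hgap hlast hgap' i hi1 hi2
  have hβγ : β ≤ α i + γ := by
    rcases hγ2 with ⟨_, h1, h2⟩ | ⟨_, h2⟩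
    · rw [h2]; exact (hi4 h1).le
    · rw [h2]; exact hβm.2.le
  have hcy := G_cyc_mem a b i hab hi1 hi2
  refine ⟨i, hi1, hi2, ?_, ?_⟩
  · rw [G_det, hV i hi1 hi2, hβe]
    show 0 ≤ cr ((s i : ℂ) * (u * Complex.exp (Complex.I * (α i : ℂ))))
      ((r : ℂ) * (u * Complex.exp (Complex.I * (β : ℂ))))
    rw [G_cr _ _ _ _ _ hu]
    have h1 : 0 ≤ sin (β - α i) := sin_nonneg_of_nonneg_of_le_pi (by linarith) (by linarith)
    have h2 := hs i hi1 hi2
    positivity
  · rw [G_det, hV _ hcy.1 hcy.2, hβe]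
    show 0 ≤ cr ((r : ℂ) * (u * Complex.exp (Complex.I * (β : ℂ))))
      ((s (cyc a b i) : ℂ) * (u * Complex.exp (Complex.I * (α (cyc a b i) : ℂ))))
    rw [G_cr _ _ _ _ _ hu, hγ1]
    have h1 : 0 ≤ sin (α i + γ - β) := sin_nonneg_of_nonneg_of_le_pi (by linarith) (by linarith)
    have h2 := hs _ hcy.1 hcy.2
    positivity

theorem G_two (e v w : ℂ) (h : 0 < cr v w) :
    e = ((cr e w / cr v w : ℝ) : ℂ) * v + ((cr v e / cr v w : ℝ) : ℂ) * w := by
  have h0 : cr v w ≠ 0 := h.ne'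
  apply Complex.ext
  · simp only [Complex.add_re, Complex.mul_re, Complex.ofReal_re, Complex.ofReal_im, zero_mul,
      sub_zero]
    field_simp
    unfold cr
    ring
  · simp only [Complex.add_im, Complex.mul_im, Complex.ofReal_re, Complex.ofReal_im, zero_mul,
      add_zero]
    field_simp
    unfold cr
    ring

theorem star_hull (a b : ℕ) (hab : a + 3 ≤ b) (t s α : ℕ → ℝ) (u : ℂ) (hu : ‖u‖ = 1)
    (ht : ∀ i, a ≤ i → i < b → 0 < t i) (hs : ∀ i, a ≤ i → i < b → 0 < s i)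
    (hmono : ∀ i j, a ≤ i → i < j → j < b → α i < α j)
    (hgap : ∀ i, a ≤ i → i + 1 < b → α (i + 1) - α i < π)
    (hlast : α (b - 1) < α a + 2 * π) (hgap' : α a + 2 * π - α (b - 1) < π)
    (V : ℕ → M3) (hV : ∀ i, a ≤ i → i < b → V i = (t i, (s i : ℂ) * (u * Complex.exp (Complex.I * (α i : ℂ))))) :
    InCone V (Finset.Ico a b) (1, 0) := by
  classical
  obtain ⟨i, hi1, hi2, hi3, hi4⟩ := star_sector a b hab t s α u hu ht hs hmono hgap hlast hgap'
    V hV (0, -(V a).2)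
  rw [G_det] at hi3 hi4
  have hcy := G_cyc_mem a b i hab hi1 hi2
  set j := cyc a b i with hj
  obtain ⟨γ, hγ0, hγπ, hγ1, -⟩ := G_gap a b hab α hmono hgap hlast hgap' i hi1 hi2
  have hpos : 0 < cr (V i).2 (V j).2 := by
    rw [hV i hi1 hi2, hV j hcy.1 hcy.2]
    show 0 < cr ((s i : ℂ) * (u * Complex.exp (Complex.I * (α i : ℂ))))
      ((s j : ℂ) * (u * Complex.exp (Complex.I * (α j : ℂ))))
    rw [G_cr _ _ _ _ _ hu, hγ1]
    have h1 : α i + γ - α i = γ := by ring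
    rw [h1]
    have h2 := sin_pos_of_pos_of_lt_pi hγ0 hγπ
    have h3 := hs i hi1 hi2
    have h4 := hs j hcy.1 hcy.2
    positivity
  set x : ℝ := cr (-(V a).2) (V j).2 / cr (V i).2 (V j).2 with hx
  set y : ℝ := cr (V i).2 (-(V a).2) / cr (V i).2 (V j).2 with hy
  have hx0 : 0 ≤ x := div_nonneg hi4 hpos.le
  have hy0 : 0 ≤ y := div_nonneg hi3 hpos.le
  have hdec : -(V a).2 = (x : ℂ) * (V i).2 + (y : ℂ) * (V j).2 := G_two _ _ _ hpos
  have hab' : a < b := by omega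
  have hV1 : ∀ k, a ≤ k → k < b → (V k).1 = t k := fun k h1 h2 => by rw [hV k h1 h2]
  set T : ℝ := t a + x * t i + y * t j with hT
  have hT0 : 0 < T := by
    have h1 := ht a (le_refl _) hab'
    have h2 := ht i hi1 hi2
    have h3 := ht j hcy.1 hcy.2
    positivity
  refine ⟨fun k => T⁻¹ * ((if k = a then 1 else 0) + (if k = i then x else 0) +
    (if k = j then y else 0)), ?_, ?_⟩
  · intro k
    have h1 : (0 : ℝ) ≤ (if k = a then 1 else 0) := by split_ifs <;> norm_num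
    have h2 : (0 : ℝ) ≤ (if k = i then x else 0) := by split_ifs <;> [exact hx0; exact le_refl _]
    have h3 : (0 : ℝ) ≤ (if k = j then y else 0) := by split_ifs <;> [exact hy0; exact le_refl _]
    positivity
  · have hsum : ∑ k ∈ Finset.Ico a b, (T⁻¹ * ((if k = a then 1 else 0) + (if k = i then x else 0) +
        (if k = j then y else 0))) • V k = T⁻¹ • (V a + x • V i + y • V j) := by
      have e1 : ∀ k ∈ Finset.Ico a b, (T⁻¹ * ((if k = a then 1 else 0) + (if k = i then x else 0) +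
          (if k = j then y else 0))) • V k = T⁻¹ • ((if k = a then V k else 0) +
          (if k = i then x • V k else 0) + (if k = j then y • V k else 0)) := by
        intro k _
        rw [mul_smul, add_smul, add_smul]
        simp only [ite_smul, zero_smul, one_smul]
      rw [Finset.sum_congr rfl e1, ← Finset.smul_sum, Finset.sum_add_distrib,
        Finset.sum_add_distrib, Finset.sum_ite_eq', Finset.sum_ite_eq', Finset.sum_ite_eq',
        if_pos (Finset.mem_Ico.mpr ⟨le_refl _, hab'⟩), if_pos (Finset.mem_Ico.mpr ⟨hi1, hi2⟩),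
        if_pos (Finset.mem_Ico.mpr hcy)]
    rw [hsum]
    apply Prod.ext
    · show (1 : ℝ) = T⁻¹ • ((V a).1 + x • (V i).1 + y • (V j).1)
      rw [hV1 a (le_refl _) hab', hV1 i hi1 hi2, hV1 j hcy.1 hcy.2]
      simp only [smul_eq_mul]
      rw [← hT, inv_mul_cancel₀ hT0.ne']
    · show (0 : ℂ) = T⁻¹ • ((V a).2 + x • (V i).2 + y • (V j).2)
      have e2 : (V a).2 + x • (V i).2 + y • (V j).2 = 0 := by
        rw [Complex.real_smul, Complex.real_smul, add_assoc, ← hdec, add_neg_cancel]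
      rw [e2, smul_zero]

end Pool.Agent.H776R2.Fatou
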