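import Pool.Agent.H776R2.Fatou.Defs

/-! Cyclic successor (definition of task F, shared by `StarL.lean` and `StarH.lean`). -/

open Real

noncomputable section

namespace Pool.Agent.H776R2.Fatou

/-- cyclic successor on `a, …, b-1` -/
def cyc (a b i : ℕ) : ℕ := if i + 1 = b then a else i + 1

end Pool.Agent.H776R2.Fatou
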