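import Pool.Agent.H776R2.Fatou.Defs
import Pool.Agent.H776R2.Fatou.StarDef

open Real

noncomputable section

namespace Pool.Agent.H776R2.Fatou


theorem F_cr {u : ℂ} (hu : ‖u‖ = 1) (x y p q : ℝ) :
    cr ((x : ℂ) * (u * Complex.exp (Complex.I * (p : ℂ))))
      ((y : ℂ) * (u * Complex.exp (Complex.I * (q : ℂ)))) = x * y * sin (q - p) := by
  have h1 : u.re ^ 2 + u.im ^ 2 = 1 := by
    have := Complex.sq_norm u
    rw [hu, Complex.normSq_apply] at this
    nlinarith
  have e : ∀ p : ℝ, Complex.exp (Complex.I * (p : ℂ)) = (cos p : ℂ) + (sin p : ℂ) * Complex.I := by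
    intro p
    rw [mul_comm, Complex.exp_mul_I, Complex.ofReal_cos, Complex.ofReal_sin]
  have r : ∀ p : ℝ, (Complex.exp (Complex.I * (p : ℂ))).re = cos p := by
    intro p
    rw [e, Complex.add_re, Complex.ofReal_re, Complex.re_ofReal_mul, Complex.I_re, mul_zero,
      add_zero]
  have i : ∀ p : ℝ, (Complex.exp (Complex.I * (p : ℂ))).im = sin p := by
    intro p
    rw [e, Complex.add_im, Complex.ofReal_im, Complex.im_ofReal_mul, Complex.I_im, mul_one,
      zero_add]
  unfold cr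
  simp only [Complex.mul_re, Complex.mul_im, Complex.ofReal_re, Complex.ofReal_im, r, i, sin_sub]
  linear_combination (x * y * (sin q * cos p - cos q * sin p)) * h1

/-- the trigonometric determinant -/
def F_T (A h : ℕ → ℝ) (i j k : ℕ) : ℝ :=
  h i * sin (A k - A j) - h j * sin (A k - A i) + h k * sin (A j - A i)

/-- the function `1/ρ` along the line of the edge `m, m+1` -/
def F_lam (A h : ℕ → ℝ) (m : ℕ) (θ : ℝ) : ℝ :=
  (h m * sin (A (m + 1) - θ) + h (m + 1) * sin (θ - A m)) / sin (A (m + 1) - A m)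

/-- the jump -/
def F_c (A h : ℕ → ℝ) (m : ℕ) : ℝ :=
  F_T A h m (m + 1) (m + 2) / (sin (A (m + 1) - A m) * sin (A (m + 2) - A (m + 1)))

theorem F_jump (A h : ℕ → ℝ) (h0 : ∀ m, 0 < sin (A (m + 1) - A m)) (m : ℕ) (θ : ℝ) :
    F_lam A h (m + 1) θ = F_lam A h m θ + F_c A h m * sin (θ - A (m + 1)) := by
  have h1 := h0 m
  have h2 := h0 (m + 1)
  unfold F_lam F_c F_T
  rw [show m + 1 + 1 = m + 2 from rfl] at *
  set x := A m
  set y := A (m + 1)
  set z := A (m + 2)
  have e1 : θ - x = (θ - y) + (y - x) := by ring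
  have e2 : z - θ = (z - y) - (θ - y) := by ring
  have e3 : y - θ = -(θ - y) := by ring
  have e4 : z - x = (z - y) + (y - x) := by ring
  rw [e1, e2, e3, e4]
  generalize hA : y - x = α at *
  generalize hB : z - y = β at *
  generalize hC : θ - y = γ at *
  rw [sin_add, sin_add, sin_sub, sin_neg]
  field_simp
  ring

theorem F_sum (A h : ℕ → ℝ) (h0 : ∀ m, 0 < sin (A (m + 1) - A m)) (m d : ℕ) (θ : ℝ) :
    F_lam A h (m + d) θ = F_lam A h m θ +
      ∑ j ∈ Finset.range d, F_c A h (m + j) * sin (θ - A (m + j + 1)) := by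
  induction d with
  | zero => simp
  | succ d ih =>
    rw [Finset.sum_range_succ, ← add_assoc m d 1, F_jump A h h0, ih]
    ring

theorem F_mono (A : ℕ → ℝ) (hA : ∀ m, 0 < A (m + 1) - A m) : StrictMono A :=
  strictMono_nat_of_lt_succ fun m => by linarith [hA m]

theorem F_fwd (A h : ℕ → ℝ) (hA : ∀ m, 0 < A (m + 1) - A m) (hA' : ∀ m, A (m + 1) - A m < π)
    (hT : ∀ m, 0 < F_T A h m (m + 1) (m + 2)) (m d : ℕ) (hd : A (m + d + 2) - A (m + 1) ≤ π) :
    0 < F_T A h m (m + 1) (m + d + 2) := by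
  have h0 : ∀ m, 0 < sin (A (m + 1) - A m) := fun m => sin_pos_of_pos_of_lt_pi (hA m) (hA' m)
  have hm := F_mono A hA
  have hc : ∀ m, 0 < F_c A h m := fun m => div_pos (hT m) (mul_pos (h0 m) (h0 (m + 1)))
  have h1 : F_lam A h (m + (d + 1)) (A (m + d + 2)) = h (m + d + 2) := by
    unfold F_lam
    rw [show m + (d + 1) + 1 = m + d + 2 by ring, show m + (d + 1) = m + d + 1 by ring, sub_self,
      sin_zero, mul_zero, zero_add, mul_div_assoc, div_self, mul_one]
    exact (h0 (m + d + 1)).ne'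
  have h2 := F_sum A h h0 m (d + 1) (A (m + d + 2))
  rw [h1, Finset.sum_range_succ] at h2
  have h3 : 0 ≤ ∑ j ∈ Finset.range d, F_c A h (m + j) * sin (A (m + d + 2) - A (m + j + 1)) := by
    apply Finset.sum_nonneg
    intro j hj
    rw [Finset.mem_range] at hj
    apply mul_nonneg (hc _).le
    apply sin_nonneg_of_nonneg_of_le_pi
    · have := hm (show m + j + 1 < m + d + 2 by omega)
      linarith
    · have := hm.monotone (show m + 1 ≤ m + j + 1 by omega)
      linarith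
  have h4 : 0 < F_c A h (m + d) * sin (A (m + d + 2) - A (m + d + 1)) :=
    mul_pos (hc _) (h0 (m + d + 1))
  have h5 : F_lam A h m (A (m + d + 2)) < h (m + d + 2) := by linarith
  unfold F_lam at h5
  rw [div_lt_iff₀ (h0 m)] at h5
  unfold F_T
  have h6 : sin (A (m + 1) - A (m + d + 2)) = - sin (A (m + d + 2) - A (m + 1)) := by
    rw [← sin_neg]; congr 1; ring
  rw [h6] at h5
  linarith

theorem F_bwd (A h : ℕ → ℝ) (hA : ∀ m, 0 < A (m + 1) - A m) (hA' : ∀ m, A (m + 1) - A m < π)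
    (hT : ∀ m, 0 < F_T A h m (m + 1) (m + 2)) (k d : ℕ) (hd : A (k + d + 1) - A k ≤ π) :
    0 < F_T A h k (k + d + 1) (k + d + 2) := by
  have h0 : ∀ m, 0 < sin (A (m + 1) - A m) := fun m => sin_pos_of_pos_of_lt_pi (hA m) (hA' m)
  have hm := F_mono A hA
  have hc : ∀ m, 0 < F_c A h m := fun m => div_pos (hT m) (mul_pos (h0 m) (h0 (m + 1)))
  have h1 : F_lam A h k (A k) = h k := by
    unfold F_lam
    rw [sub_self, sin_zero, mul_zero, add_zero, mul_div_assoc, div_self, mul_one]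
    exact (h0 k).ne'
  have h2 := F_sum A h h0 k (d + 1) (A k)
  rw [h1, Finset.sum_range_succ'] at h2
  have h3 : ∑ j ∈ Finset.range d, F_c A h (k + (j + 1)) * sin (A k - A (k + (j + 1) + 1)) ≤ 0 := by
    apply Finset.sum_nonpos
    intro j hj
    rw [Finset.mem_range] at hj
    apply mul_nonpos_of_nonneg_of_nonpos (hc _).le
    have : 0 ≤ sin (A (k + (j + 1) + 1) - A k) := by
      apply sin_nonneg_of_nonneg_of_le_pi
      · have := hm (show k < k + (j + 1) + 1 by omega)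
        linarith
      · have := hm.monotone (show k + (j + 1) + 1 ≤ k + d + 1 by omega)
        linarith
    rw [← neg_sub, sin_neg]
    linarith
  have h4 : F_c A h (k + 0) * sin (A k - A (k + 0 + 1)) < 0 := by
    apply mul_neg_of_pos_of_neg (hc _)
    rw [← neg_sub, sin_neg]
    have := h0 k
    simpa using this
  have h5 : F_lam A h (k + (d + 1)) (A k) < h k := by linarith
  unfold F_lam at h5
  rw [div_lt_iff₀ (h0 _)] at h5
  rw [show k + (d + 1) + 1 = k + d + 2 by ring, show k + (d + 1) = k + d + 1 by ring] at h5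
  unfold F_T
  have h6 : sin (A k - A (k + d + 1)) = - sin (A (k + d + 1) - A k) := by
    rw [← sin_neg]; congr 1; ring
  rw [h6] at h5
  linarith

/-- the periodic index -/
def F_ix (a b m : ℕ) : ℕ := a + m % (b - a)

/-- the lifted angle -/
def F_A (a b : ℕ) (α : ℕ → ℝ) (m : ℕ) : ℝ := α (F_ix a b m) + 2 * π * ((m / (b - a) : ℕ) : ℝ)

theorem F_ix_lt {a b : ℕ} (hab : a + 3 ≤ b) (m : ℕ) : a ≤ F_ix a b m ∧ F_ix a b m < b := by
  unfold F_ix
  have := Nat.mod_lt m (show 0 < b - a by omega)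
  omega

theorem F_ix_succ {a b : ℕ} (hab : a + 3 ≤ b) (m : ℕ) :
    F_ix a b (m + 1) = cyc a b (F_ix a b m) := by
  unfold F_ix cyc
  have h1 := Nat.mod_lt m (show 0 < b - a by omega)
  rw [Nat.add_mod_eq_ite, Nat.mod_eq_of_lt (show 1 < b - a by omega)]
  split_ifs <;> omega

theorem F_div_succ {n m : ℕ} (hn : 0 < n) :
    (m + 1) / n = if m % n + 1 = n then m / n + 1 else m / n := by
  have h1 := Nat.div_add_mod m n
  have h2 := Nat.mod_lt m hn
  split_ifs with h
  · have : m + 1 = n * (m / n + 1) := by rw [mul_add]; omega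
    rw [this, Nat.mul_div_cancel_left _ hn]
  · rw [Nat.div_eq_of_lt_le]
    · rw [mul_comm]; omega
    · rw [mul_comm, mul_add]; omega

theorem F_gap {a b : ℕ} (hab : a + 3 ≤ b) {α : ℕ → ℝ}
    (hmono : ∀ i j, a ≤ i → i < j → j < b → α i < α j)
    (hgap : ∀ i, a ≤ i → i + 1 < b → α (i + 1) - α i < π)
    (hlast : α (b - 1) < α a + 2 * π) (hgap' : α a + 2 * π - α (b - 1) < π) (m : ℕ) :
    0 < F_A a b α (m + 1) - F_A a b α m ∧ F_A a b α (m + 1) - F_A a b α m < π := by
  have hn : 0 < b - a := by omega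
  have h1 := Nat.mod_lt m hn
  unfold F_A
  rw [F_ix_succ hab, F_div_succ hn]
  by_cases hc : m % (b - a) + 1 = b - a
  · rw [if_pos hc]
    have h2 : F_ix a b m = b - 1 := by unfold F_ix; omega
    have h3 : cyc a b (b - 1) = a := by unfold cyc; rw [if_pos (by omega)]
    rw [h2, h3]
    push_cast
    constructor <;> linarith
  · rw [if_neg hc]
    have h2 : cyc a b (F_ix a b m) = F_ix a b m + 1 := by
      unfold cyc F_ix; rw [if_neg (by omega)]
    have h3 : a ≤ F_ix a b m := (F_ix_lt hab m).1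
    have h4 : F_ix a b m + 1 < b := by unfold F_ix; omega
    rw [h2]
    have h5 := hmono _ _ h3 (Nat.lt_succ_self _) h4
    have h6 := hgap _ h3 h4
    constructor <;> linarith

theorem F_sin (a b : ℕ) (α : ℕ → ℝ) (j k : ℕ) :
    sin (F_A a b α k - F_A a b α j) = sin (α (F_ix a b k) - α (F_ix a b j)) := by
  have : F_A a b α k - F_A a b α j = (α (F_ix a b k) - α (F_ix a b j)) +
      ((((k / (b - a) : ℕ) : ℤ) - ((j / (b - a) : ℕ) : ℤ) : ℤ) : ℝ) * (2 * π) := by
    unfold F_A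
    generalize k / (b - a) = x
    generalize j / (b - a) = y
    push_cast
    ring
  rw [this, sin_add_int_mul_two_pi]

theorem F_det {a b : ℕ} (hab : a + 3 ≤ b) {t s α : ℕ → ℝ} {u : ℂ} (hu : ‖u‖ = 1)
    (hs : ∀ i, a ≤ i → i < b → 0 < s i) {V : ℕ → M3}
    (hV : ∀ i, a ≤ i → i < b →
      V i = (t i, (s i : ℂ) * (u * Complex.exp (Complex.I * (α i : ℂ))))) (i j k : ℕ) :
    det3 (V (F_ix a b i)) (V (F_ix a b j)) (V (F_ix a b k)) =
      s (F_ix a b i) * s (F_ix a b j) * s (F_ix a b k) *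
        F_T (F_A a b α) (fun m => t (F_ix a b m) / s (F_ix a b m)) i j k := by
  obtain ⟨hi, hi'⟩ := F_ix_lt hab i
  obtain ⟨hj, hj'⟩ := F_ix_lt hab j
  obtain ⟨hk, hk'⟩ := F_ix_lt hab k
  have h1 := (hs _ hi hi').ne'
  have h2 := (hs _ hj hj').ne'
  have h3 := (hs _ hk hk').ne'
  rw [hV _ hi hi', hV _ hj hj', hV _ hk hk']
  unfold det3 F_T
  simp only [F_cr hu, F_sin]
  field_simp

theorem star_convex (a b : ℕ) (hab : a + 3 ≤ b) (t s α : ℕ → ℝ) (u : ℂ) (hu : ‖u‖ = 1)
    (ht : ∀ i, a ≤ i → i < b → 0 < t i) (hs : ∀ i, a ≤ i → i < b → 0 < s i)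
    (hmono : ∀ i j, a ≤ i → i < j → j < b → α i < α j)
    (hgap : ∀ i, a ≤ i → i + 1 < b → α (i + 1) - α i < π)
    (hlast : α (b - 1) < α a + 2 * π) (hgap' : α a + 2 * π - α (b - 1) < π)
    (V : ℕ → M3) (hV : ∀ i, a ≤ i → i < b → V i = (t i, (s i : ℂ) * (u * Complex.exp (Complex.I * (α i : ℂ)))))
    (hturn : ∀ i, a ≤ i → i < b → 0 < det3 (V i) (V (cyc a b i)) (V (cyc a b (cyc a b i)))) :
    ∀ i j, a ≤ i → i < b → a ≤ j → j < b → j ≠ i → j ≠ cyc a b i →
      0 < det3 (V i) (V (cyc a b i)) (V j) := by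
  intro i j hai hib haj hjb hji hjc
  set A := F_A a b α with hAdef
  set h : ℕ → ℝ := fun m => t (F_ix a b m) / s (F_ix a b m) with hh
  have hA : ∀ m, 0 < A (m + 1) - A m := fun m => (F_gap hab hmono hgap hlast hgap' m).1
  have hA' : ∀ m, A (m + 1) - A m < π := fun m => (F_gap hab hmono hgap hlast hgap' m).2
  have hm := F_mono A hA
  have hspos : ∀ m, 0 < s (F_ix a b m) := fun m =>
    hs _ (F_ix_lt hab m).1 (F_ix_lt hab m).2
  have hdet := fun i j k => F_det (t := t) (α := α) hab hu hs hV i j k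
  have hT : ∀ m, 0 < F_T A h m (m + 1) (m + 2) := by
    intro m
    have h1 := hturn (F_ix a b m) (F_ix_lt hab m).1 (F_ix_lt hab m).2
    rw [← F_ix_succ hab, ← F_ix_succ hab, hdet] at h1
    exact (pos_iff_pos_of_mul_pos h1).1
      (mul_pos (mul_pos (hspos _) (hspos _)) (hspos _))
  have hn : 0 < b - a := by omega
  -- positions
  have hper : ∀ m, F_ix a b (m + (b - a)) = F_ix a b m := by
    intro m
    unfold F_ix
    rw [Nat.add_mod_right]
  have hAper : ∀ m, A (m + (b - a)) = A m + 2 * π := by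
    intro m
    rw [hAdef]
    unfold F_A
    rw [hper, Nat.add_div_right _ hn]
    push_cast
    ring
  obtain ⟨k, hk1, hk2, hk3⟩ : ∃ k, (i - a) + 2 ≤ k ∧ k < (i - a) + (b - a) ∧ F_ix a b k = j := by
    have hcyc : cyc a b i = if i + 1 = b then a else i + 1 := rfl
    by_cases hlt : i < j
    · refine ⟨j - a, ?_, by omega, ?_⟩
      · rw [hcyc, if_neg (by omega)] at hjc
        omega
      · unfold F_ix
        rw [Nat.mod_eq_of_lt (by omega)]
        omega
    · refine ⟨j - a + (b - a), ?_, by omega, ?_⟩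
      · by_cases hb : i + 1 = b
        · rw [hcyc, if_pos hb] at hjc
          omega
        · omega
      · rw [hper]
        unfold F_ix
        rw [Nat.mod_eq_of_lt (by omega)]
        omega
  have hi : F_ix a b (i - a) = i := by
    unfold F_ix
    rw [Nat.mod_eq_of_lt (by omega)]
    omega
  have hi1 : F_ix a b (i - a + 1) = cyc a b i := by rw [F_ix_succ hab, hi]
  by_cases hcase : A k - A (i - a + 1) ≤ π
  · obtain ⟨d, rfl⟩ : ∃ d, k = (i - a) + d + 2 := ⟨k - (i - a) - 2, by omega⟩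
    have h1 := F_fwd A h hA hA' hT (i - a) d hcase
    have h2 := hdet (i - a) (i - a + 1) (i - a + d + 2)
    rw [hi, hi1, hk3] at h2
    rw [h2]
    have hj0 := hspos (i - a + d + 2)
    rw [hk3] at hj0
    have hi0 := hspos (i - a)
    have hi10 := hspos (i - a + 1)
    rw [hi] at hi0
    rw [hi1] at hi10
    exact mul_pos (mul_pos (mul_pos hi0 hi10) hj0) h1
  · push Not at hcase
    obtain ⟨d, hd⟩ : ∃ d, (i - a) + (b - a) = k + d + 1 := ⟨(i - a) + (b - a) - k - 1, by omega⟩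
    have h0 : A (k + d + 1) - A k ≤ π := by
      rw [← hd, hAper]
      have := hA (i - a)
      linarith
    have h1 := F_bwd A h hA hA' hT k d h0
    have h2 := hdet k (k + d + 1) (k + d + 2)
    have e1 : F_ix a b (k + d + 1) = i := by rw [← hd, hper, hi]
    have e2 : F_ix a b (k + d + 2) = cyc a b i := by
      rw [show k + d + 2 = k + d + 1 + 1 from rfl, F_ix_succ hab, e1]
    rw [e1, e2, hk3] at h2
    have h3 : det3 (V i) (V (cyc a b i)) (V j) = det3 (V j) (V i) (V (cyc a b i)) := by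
      unfold det3 cr
      ring
    rw [h3, h2]
    have hj0 := hspos k
    rw [hk3] at hj0
    have hi0 := hspos (k + d + 1)
    have hi10 := hspos (k + d + 2)
    rw [e1] at hi0
    rw [e2] at hi10
    exact mul_pos (mul_pos (mul_pos hj0 hi0) hi10) h1

theorem star_edge (a b : ℕ) (hab : a + 3 ≤ b) (t s α : ℕ → ℝ) (u : ℂ) (hu : ‖u‖ = 1)
    (ht : ∀ i, a ≤ i → i < b → 0 < t i) (hs : ∀ i, a ≤ i → i < b → 0 < s i)
    (hmono : ∀ i j, a ≤ i → i < j → j < b → α i < α j)
    (hgap : ∀ i, a ≤ i → i + 1 < b → α (i + 1) - α i < π)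
    (hlast : α (b - 1) < α a + 2 * π) (hgap' : α a + 2 * π - α (b - 1) < π)
    (V : ℕ → M3) (hV : ∀ i, a ≤ i → i < b → V i = (t i, (s i : ℂ) * (u * Complex.exp (Complex.I * (α i : ℂ))))) :
    ∀ i, a ≤ i → i < b → 0 < det3 (V i) (V (cyc a b i)) (1, 0) := by
  intro i hai hib
  have hi : F_ix a b (i - a) = i := by
    unfold F_ix
    rw [Nat.mod_eq_of_lt (by omega)]
    omega
  have hi1 : F_ix a b (i - a + 1) = cyc a b i := by rw [F_ix_succ hab, hi]
  have hc := F_ix_lt hab (i - a + 1)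
  rw [hi1] at hc
  obtain ⟨g1, g2⟩ := F_gap hab hmono hgap hlast hgap' (i - a)
  have h1 := sin_pos_of_pos_of_lt_pi g1 g2
  rw [F_sin, hi, hi1] at h1
  have h2 : det3 (V i) (V (cyc a b i)) (1, 0) = cr (V i).2 (V (cyc a b i)).2 := by
    unfold det3 cr
    simp
  rw [h2, hV i hai hib, hV _ hc.1 hc.2]
  simp only [F_cr hu]
  exact mul_pos (mul_pos (hs i hai hib) (hs _ hc.1 hc.2)) h1

end Pool.Agent.H776R2.Fatou
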