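import Pool.Agent.H776R2.Fatou.Ang
import Pool.Agent.H776R2.Fatou.Mink
import Pool.Agent.H776R2.Fatou.StarL
import Pool.Agent.H776R2.Fatou.StarH
import Pool.Agent.H776R2.Fatou.Comb
import Pool.Agent.H776R2.Fatou.FrameT

open Real

noncomputable section

namespace Pool.Agent.H776R2.Fatou

/-! Task O: convexity of all boundary polygons -/

theorem O_det_add (P Q V W : M3) : det3 P Q (V + W) = det3 P Q V + det3 P Q W := by
  simp only [det3, cr, Prod.fst_add, Prod.snd_add, Complex.add_re, Complex.add_im]
  ring

theorem O_det_smul (P Q V : M3) (c : ℝ) : det3 P Q (c • V) = c * det3 P Q V := by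
  simp only [det3, cr, Prod.smul_fst, Prod.smul_snd, Complex.smul_re, Complex.smul_im, smul_eq_mul]
  ring

theorem O_det_zero (P Q : M3) : det3 P Q 0 = 0 := by
  simp [det3, cr]

theorem O_det_left (P Q : M3) : det3 P Q P = 0 := by
  simp only [det3, cr]
  ring

theorem O_det_right (P Q : M3) : det3 P Q Q = 0 := by
  simp only [det3, cr]
  ring

theorem O_det_sum (P Q : M3) (S : Finset ℕ) (c : ℕ → ℝ) (X : ℕ → M3) :
    det3 P Q (∑ i ∈ S, c i • X i) = ∑ i ∈ S, c i * det3 P Q (X i) := by
  classical
  induction S using Finset.induction_on with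
  | empty => simp [O_det_zero]
  | insert i S hi ih => rw [Finset.sum_insert hi, Finset.sum_insert hi, O_det_add, O_det_smul, ih]

theorem O_boost_zero (X : M3) : boost X 0 = 0 := by
  simp [boost]

theorem O_boost_sum (Z : M3) (S : Finset ℕ) (c : ℕ → ℝ) (X : ℕ → M3) :
    boost Z (∑ i ∈ S, c i • X i) = ∑ i ∈ S, c i • boost Z (X i) := by
  classical
  induction S using Finset.induction_on with
  | empty => simp [O_boost_zero]
  | insert i S hi ih => rw [Finset.sum_insert hi, Finset.sum_insert hi, boost_add, boost_smul, ih]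

theorem O_cone_self (X : ℕ → M3) (S : Finset ℕ) {i : ℕ} (hi : i ∈ S) : InCone X S (X i) := by
  classical
  refine ⟨fun j => if j = i then 1 else 0, fun j => ?_, ?_⟩
  · dsimp only
    split_ifs <;> norm_num
  · rw [Finset.sum_eq_single i]
    · simp
    · intro j _ hj
      simp [hj]
    · intro hi'
      exact absurd hi hi'

theorem O_cone_zero (X : ℕ → M3) (S : Finset ℕ) : InCone X S 0 :=
  ⟨fun _ => 0, fun _ => le_rfl, by simp⟩

theorem O_cone_add {X : ℕ → M3} {S : Finset ℕ} {V W : M3} (hV : InCone X S V)
    (hW : InCone X S W) : InCone X S (V + W) := by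
  obtain ⟨c, hc, rfl⟩ := hV
  obtain ⟨e, he, rfl⟩ := hW
  refine ⟨fun i => c i + e i, fun i => add_nonneg (hc i) (he i), ?_⟩
  rw [← Finset.sum_add_distrib]
  exact Finset.sum_congr rfl fun i _ => (add_smul _ _ _).symm

theorem O_cone_smul {X : ℕ → M3} {S : Finset ℕ} {V : M3} (hV : InCone X S V) {a : ℝ}
    (ha : 0 ≤ a) : InCone X S (a • V) := by
  obtain ⟨c, hc, rfl⟩ := hV
  refine ⟨fun i => a * c i, fun i => mul_nonneg ha (hc i), ?_⟩
  rw [Finset.smul_sum]
  exact Finset.sum_congr rfl fun i _ => (mul_smul _ _ _).symm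

theorem O_cone_sum {X : ℕ → M3} {S T : Finset ℕ} {c : ℕ → ℝ} (hc : ∀ i, 0 ≤ c i)
    (h : ∀ i ∈ T, InCone X S (X i)) : InCone X S (∑ i ∈ T, c i • X i) := by
  classical
  induction T using Finset.induction_on with
  | empty => simpa using O_cone_zero X S
  | insert i T hi ih =>
    rw [Finset.sum_insert hi]
    exact O_cone_add (O_cone_smul (h i (Finset.mem_insert_self i T)) (hc i))
      (ih fun j hj => h j (Finset.mem_insert_of_mem hj))

/-- everything we know from the star lemmas at stage `k` -/
theorem O_star {ρ : ℕ → ℝ} {X : ℕ → M3} (h : Lay ρ X) (k : ℕ) (hc : k = 0 ∨ Conv X k) :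
    (∀ i j, k + 1 ≤ i → i < n (k + 1) → k + 1 ≤ j → j < n (k + 1) → j ≠ i → j ≠ nx (k + 1) i →
      0 < det3 (X i) (X (nx (k + 1) i)) (X j)) ∧
    (∀ i, k + 1 ≤ i → i < n (k + 1) → 0 < det3 (X i) (X (nx (k + 1) i)) (X k)) ∧
    InCone X (Finset.Ico (k + 1) (n (k + 1))) (X k) := by
  obtain ⟨u, d, α, F⟩ := frame h k hc
  have hT := turns h k hc
  have hN := N_ge k
  have hn := n_ge k
  have hs := n_succ k
  have hK := h.isH k
  have hab : k + 1 + 3 ≤ n (k + 1) := by omega
  have hV : ∀ i, k + 1 ≤ i → i < n (k + 1) → boost ((X k).1, -(X k).2) (X i)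
      = (cosh (d i), ((sinh (d i) : ℝ) : ℂ) * (u * Complex.exp (Complex.I * (α i : ℂ)))) := by
    intro i h1 h2
    rw [F.coord i h1 h2, pt, boost_inv hK]
  have hdet : ∀ U V W : M3, det3 (boost ((X k).1, -(X k).2) U) (boost ((X k).1, -(X k).2) V)
      (boost ((X k).1, -(X k).2) W) = det3 U V W := fun U V W => boost_det (isH_neg hK) U V W
  have hk1 : boost ((X k).1, -(X k).2) (X k) = (1, 0) := by
    conv_lhs => rw [← boost_one hK]
    rw [boost_one hK]
    have := boost_inv hK (1, 0)
    rwa [boost_one hK] at this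
  have hpet : ∀ i, n k ≤ i + 1 → i < n (k + 1) → ∃ j, j ≤ N k ∧ pet k j = i := by
    intro i h1 h2
    refine ⟨i + 1 - n k, by omega, ?_⟩
    rw [pet_le (by omega)]
    omega
  have hρ := h.lab.pos
  have hcyc : ∀ i, nx (k + 1) i = cyc (k + 1) (n (k + 1)) i := fun i => rfl
  have hgap : ∀ i, k + 1 ≤ i → i + 1 < n (k + 1) → α (i + 1) - α i < π := by
    intro i h1 h2
    rcases Nat.lt_or_ge i (n k - 1) with h3 | h3
    · have h4 : 0 ≤ α i := by
        rcases Nat.eq_or_lt_of_le h1 with h5 | h5
        · rw [← h5, F.start]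
        · have := F.mono (k + 1) i le_rfl h5 (by omega)
          rw [F.start] at this
          exact this.le
      have h6 : α (i + 1) ≤ α (n k - 1) := by
        rcases Nat.eq_or_lt_of_le (show i + 1 ≤ n k - 1 by omega) with h5 | h5
        · rw [h5]
        · exact (F.mono (i + 1) (n k - 1) (by omega) h5 (by omega)).le
      have := F.leftlt
      linarith
    · obtain ⟨j, hj, hji⟩ := hpet i (by omega) (by omega)
      have hj' : j < N k := by
        rcases Nat.eq_or_lt_of_le hj with h5 | h5
        · rw [h5, pet_le le_rfl] at hji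
          omega
        · exact h5
      have hji' : pet k (j + 1) = i + 1 := by
        rw [pet_le (by omega)]
        rw [pet_le hj] at hji
        omega
      have h7 := F.new j hj'
      rw [hji', hji] at h7
      have h8 := ang_lt_pi (hρ k) (hρ i) (hρ (i + 1))
      linarith
  have hb1 : pet k (N k) = n (k + 1) - 1 := by
    rw [pet_le le_rfl]
    omega
  have hclose := F.close
  rw [hb1] at hclose
  have hlast : α (n (k + 1) - 1) < α (k + 1) + 2 * π := by
    rw [F.start]
    have := ang_pos (hρ k) (hρ (n (k + 1) - 1)) (hρ (k + 1))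
    linarith
  have hgap' : α (k + 1) + 2 * π - α (n (k + 1) - 1) < π := by
    rw [F.start]
    have := ang_lt_pi (hρ k) (hρ (n (k + 1) - 1)) (hρ (k + 1))
    linarith
  have ht : ∀ i, k + 1 ≤ i → i < n (k + 1) → 0 < (fun i => cosh (d i)) i :=
    fun i _ _ => cosh_pos _
  have hs' : ∀ i, k + 1 ≤ i → i < n (k + 1) → 0 < (fun i => sinh (d i)) i :=
    fun i h1 h2 => sinh_pos_iff.2 (F.dpos i h1 h2)
  refine ⟨?_, ?_, ?_⟩
  · intro i j h1 h2 h3 h4 h5 h6
    have := star_convex (k + 1) (n (k + 1)) hab (fun i => cosh (d i)) (fun i => sinh (d i)) α u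
      F.unit ht hs' F.mono hgap hlast hgap' (fun i => boost ((X k).1, -(X k).2) (X i)) hV
      (by
        intro i h1 h2
        rw [hdet, ← hcyc, ← hcyc]
        exact hT i h1 h2) i j h1 h2 h3 h4 h5 h6
    rw [hdet] at this
    exact this
  · intro i h1 h2
    have := star_edge (k + 1) (n (k + 1)) hab (fun i => cosh (d i)) (fun i => sinh (d i)) α u
      F.unit ht hs' F.mono hgap hlast hgap' (fun i => boost ((X k).1, -(X k).2) (X i)) hV i h1 h2
    rw [← hk1, hdet] at this
    exact this
  · obtain ⟨c, hc0, hc1⟩ := star_hull (k + 1) (n (k + 1)) hab (fun i => cosh (d i))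
      (fun i => sinh (d i)) α u F.unit ht hs' F.mono hgap hlast hgap'
      (fun i => boost ((X k).1, -(X k).2) (X i)) hV
    refine ⟨c, hc0, ?_⟩
    have h1 : boost (X k) (1, 0) = X k := boost_one hK
    rw [hc1, O_boost_sum] at h1
    rw [← h1]
    refine Finset.sum_congr rfl fun i _ => ?_
    rw [boost_inv' hK]

theorem O_step {ρ : ℕ → ℝ} {X : ℕ → M3} (h : Lay ρ X) (k : ℕ)
    (hc : k = 0 ∨ (Conv X k ∧ Hull X k)) : Conv X (k + 1) ∧ Hull X (k + 1) := by
  have hN := N_ge k
  have hn := n_ge k
  have hs := n_succ k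
  obtain ⟨SC, SE, SH⟩ := O_star h k (hc.imp id And.left)
  constructor
  · intro i j h1 h2 h3 h4 h5
    rcases Nat.lt_trichotomy j k with hj | hj | hj
    · have hk0 : k ≠ 0 := by omega
      obtain ⟨hC, hH⟩ := hc.resolve_left hk0
      have hjn : j < n k := by omega
      rcases Nat.lt_or_ge i (n k - 1) with hi | hi
      · have e1 : nx (k + 1) i = i + 1 := by
          rw [nx, if_neg (by omega)]
        have e2 : nx k i = i + 1 := by
          rw [nx, if_neg (by omega)]
        have := hC i j (by omega) (by omega) hjn (by omega) (by rw [e2]; omega)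
        rw [e2] at this
        rw [e1]
        exact this
      · by_contra hcon
        push Not at hcon
        obtain ⟨c, hc0, hc1⟩ := hH j hjn
        -- every term of the sum vanishes
        have hterm : ∀ m ∈ Finset.Ico k (n k),
            0 ≤ c m * det3 (X i) (X (nx (k + 1) i)) (X m) := by
          intro m hm
          rw [Finset.mem_Ico] at hm
          refine mul_nonneg (hc0 m) ?_
          by_cases m1 : m = k
          · rw [m1]
            exact (SE i h1 h2).le
          by_cases m2 : m = i
          · rw [m2, O_det_left]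
          by_cases m3 : m = nx (k + 1) i
          · rw [m3, O_det_right]
          exact (SC i m h1 h2 (by omega) (by omega) m2 m3).le
        have hsum : ∑ m ∈ Finset.Ico k (n k), c m * det3 (X i) (X (nx (k + 1) i)) (X m) = 0 := by
          refine le_antisymm ?_ (Finset.sum_nonneg hterm)
          rw [← O_det_sum, ← hc1]
          exact hcon
        have hzero := (Finset.sum_eq_zero_iff_of_nonneg hterm).1 hsum
        have hcz : ∀ m, k ≤ m → m < n k → m ≠ i → m ≠ nx (k + 1) i → c m = 0 := by
          intro m m1 m2 m3 m4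
          have h6 := hzero m (Finset.mem_Ico.2 ⟨m1, m2⟩)
          have h7 : 0 < det3 (X i) (X (nx (k + 1) i)) (X m) := by
            by_cases m5 : m = k
            · rw [m5]
              exact SE i h1 h2
            · exact SC i m h1 h2 (by omega) (by omega) m3 m4
          rcases mul_eq_zero.1 h6 with h8 | h8
          · exact h8
          · exact absurd h8 h7.ne'
        rcases Nat.eq_or_lt_of_le hi with hi' | hi'
        · -- `i = n k - 1`
          have e1 : nx (k + 1) i = i + 1 := by
            rw [nx, if_neg (by omega)]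
          have e2 : nx k (n k - 1) = k := by
            rw [nx, if_pos (by omega)]
          have h8 := hC (n k - 1) j (by omega) (by omega) hjn (by omega) (by rw [e2]; omega)
          rw [e2, hc1, O_det_sum, Finset.sum_eq_zero] at h8
          · exact lt_irrefl _ h8
          · intro m hm
            rw [Finset.mem_Ico] at hm
            by_cases m2 : m = n k - 1
            · rw [m2, O_det_left, mul_zero]
            · rw [hcz m hm.1 hm.2 (by omega) (by omega), zero_mul]
        · -- `i ≥ n k`
          have e2 : nx k k = k + 1 := by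
            rw [nx, if_neg (by omega)]
          have h8 := hC k j le_rfl (by omega) hjn (by omega) (by rw [e2]; omega)
          rw [e2, hc1, O_det_sum, Finset.sum_eq_zero] at h8
          · exact lt_irrefl _ h8
          · intro m hm
            rw [Finset.mem_Ico] at hm
            by_cases m2 : m = k + 1
            · rw [m2, O_det_right, mul_zero]
            · have e3 : m ≠ nx (k + 1) i := by
                rw [nx]
                split_ifs <;> omega
              rw [hcz m hm.1 hm.2 (by omega) e3, zero_mul]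
    · rw [hj]
      exact SE i h1 h2
    · exact SC i j h1 h2 (by omega) h3 h4 h5
  · intro j hj
    rcases Nat.lt_trichotomy j k with hjk | hjk | hjk
    · have hk0 : k ≠ 0 := by omega
      obtain ⟨hC, hH⟩ := hc.resolve_left hk0
      obtain ⟨c, hc0, hc1⟩ := hH j (by omega)
      rw [hc1]
      refine O_cone_sum hc0 fun m hm => ?_
      rw [Finset.mem_Ico] at hm
      by_cases m1 : m = k
      · rw [m1]
        exact SH
      · exact O_cone_self X _ (Finset.mem_Ico.2 ⟨by omega, by omega⟩)
    · rw [hjk]
      exact SH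
    · exact O_cone_self X _ (Finset.mem_Ico.2 ⟨by omega, hj⟩)

theorem conv_hull {ρ : ℕ → ℝ} {X : ℕ → M3} (h : Lay ρ X) :
    ∀ k, 1 ≤ k → Conv X k ∧ Hull X k := by
  intro k hk
  induction k, hk using Nat.le_induction with
  | base => exact O_step h 0 (Or.inl rfl)
  | succ k _ ih => exact O_step h k (Or.inr ih)

end Pool.Agent.H776R2.Fatou
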