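import Pool.Agent.H776R2.Fatou.Ang
import Pool.Agent.H776R2.Fatou.Mink
import Pool.Agent.H776R2.Fatou.Comb
import Pool.Agent.H776R2.Fatou.StarH
import Pool.Agent.H776R2.Fatou.FrameT
import Pool.Agent.H776R2.Fatou.ConvT

open Real

noncomputable section

namespace Pool.Agent.H776R2.Fatou

/-! ### Task R: the tiling -/

/-- Cramer: a point of a positively oriented triangle is a nonnegative combination -/
theorem inTri_comb {a b c Y : M3} (hd : 0 < det3 a b c) (h : InTri a b c Y) :
    ∃ x y z : ℝ, 0 ≤ x ∧ 0 ≤ y ∧ 0 ≤ z ∧ Y = x • a + y • b + z • c := by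
  obtain ⟨h1, h2, h3⟩ := h
  refine ⟨det3 b c Y / det3 a b c, det3 c a Y / det3 a b c, det3 a b Y / det3 a b c,
    div_nonneg h2 hd.le, div_nonneg h3 hd.le, div_nonneg h1 hd.le, ?_⟩
  have hne : det3 a b c ≠ 0 := hd.ne'
  have key : det3 a b c • Y = det3 b c Y • a + det3 c a Y • b + det3 a b Y • c := by
    refine Prod.ext ?_ (Complex.ext ?_ ?_)
    · simp only [Prod.smul_fst, Prod.fst_add, smul_eq_mul, det3, cr]
      ring
    · simp only [Prod.smul_snd, Prod.snd_add, Complex.add_re, Complex.real_smul, Complex.mul_re,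
        Complex.ofReal_re, Complex.ofReal_im, det3, cr]
      ring
    · simp only [Prod.smul_snd, Prod.snd_add, Complex.add_im, Complex.real_smul, Complex.mul_im,
        Complex.ofReal_re, Complex.ofReal_im, det3, cr]
      ring
  calc Y = (det3 a b c)⁻¹ • (det3 a b c • Y) := by
        rw [smul_smul, inv_mul_cancel₀ hne, one_smul]
    _ = (det3 b c Y / det3 a b c) • a + (det3 c a Y / det3 a b c) • b +
        (det3 a b Y / det3 a b c) • c := by
        rw [key, smul_add, smul_add, smul_smul, smul_smul, smul_smul]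
        simp only [div_eq_inv_mul]

theorem R_lin (P Q a b c : M3) (x y z : ℝ) :
    det3 P Q (x • a + y • b + z • c) = x * det3 P Q a + y * det3 P Q b + z * det3 P Q c := by
  simp only [Prod.smul_fst, Prod.fst_add, smul_eq_mul, Prod.smul_snd, Prod.snd_add,
    Complex.add_re, Complex.add_im, Complex.real_smul, Complex.mul_re, Complex.mul_im,
    Complex.ofReal_re, Complex.ofReal_im, det3, cr]
  ring

theorem R_self1 (P Q : M3) : det3 P Q P = 0 := by
  simp only [det3, cr]; ring

theorem R_self2 (P Q : M3) : det3 P Q Q = 0 := by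
  simp only [det3, cr]; ring

theorem R_cyc (P Q W : M3) : det3 P Q W = det3 Q W P := by
  simp only [det3, cr]; ring

theorem R_swap (P Q W : M3) : det3 P Q W = -det3 P W Q := by
  simp only [det3, cr]; ring

/-- Plücker relation -/
theorem R_pl (P a b e w : M3) : det3 P a b * det3 P e w =
    det3 P w b * det3 P e a + det3 P a w * det3 P e b := by
  simp only [det3, cr]; ring

theorem inF_poly {ρ : ℕ → ℝ} {X : ℕ → M3} (h : Lay ρ X) {k' j k : ℕ} (hk : k' < k)
    (hj : j ≤ N k') {Y : M3} (hF : InF X k' j Y) : Poly X k Y := by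
  intro i hi1 hi2
  have hc := (conv_hull h k (by omega)).1
  obtain ⟨x, y, z, hx, hy, hz, rfl⟩ := inTri_comb (h.face k' j hj).2.2.2 hF
  have key : ∀ m, m < n k → 0 ≤ det3 (X i) (X (nx k i)) (X m) := by
    intro m hm
    by_cases h1 : m = i
    · rw [h1, R_self1]
    by_cases h2 : m = nx k i
    · rw [← h2, R_self2]
    exact (hc i m hi1 hi2 hm h1 h2).le
  have hmono : n (k' + 1) ≤ n k := n_strictMono.monotone (by omega)
  have hkn := n_ge k
  rw [R_lin]
  have h1 := key k' (by omega)
  have h2 := key (pet k' j) ((pet_lt (by omega)).trans_le hmono)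
  have h3 := key (pet k' (j + 1)) ((pet_lt (by omega)).trans_le hmono)
  positivity

/-- determinants in a frame -/
theorem R_det {ρ : ℕ → ℝ} {X : ℕ → M3} (h : Lay ρ X) {k : ℕ} {u : ℂ} {d α : ℕ → ℝ}
    (hf : Frame ρ X k u d α) {p r : ℕ} (hp : k + 1 ≤ p) (hp' : p < n (k + 1)) (hr : k + 1 ≤ r)
    (hr' : r < n (k + 1)) :
    det3 (X k) (X p) (X r) = sinh (d p) * sinh (d r) * sin (α r - α p) := by
  rw [hf.coord p hp hp', hf.coord r hr hr', det_pt_pt (h.isH k)]
  congr 1
  have hu : u.re ^ 2 + u.im ^ 2 = 1 := by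
    have h1 := hf.unit
    have h2 := Complex.sq_norm u
    rw [h1, Complex.normSq_apply] at h2
    nlinarith
  rw [sin_sub]
  have e1 : ∀ a : ℝ, (Complex.exp (Complex.I * (a : ℂ))).re = cos a := by
    intro a
    rw [Complex.exp_re]
    simp
  have e2 : ∀ a : ℝ, (Complex.exp (Complex.I * (a : ℂ))).im = sin a := by
    intro a
    rw [Complex.exp_im]
    simp
  simp only [cr, Complex.mul_re, Complex.mul_im, e1, e2]
  linear_combination (sin (α r) * cos (α p) - cos (α r) * sin (α p)) * hu

theorem R_npos {k : ℕ} : 2 ≤ n k := by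
  have := n_ge k
  omega

theorem R_petlast (k : ℕ) : pet k (N k) = n (k + 1) - 1 := by
  rw [pet_le le_rfl, n_succ]
  have := @R_npos k
  omega

theorem R_angpos {ρ : ℕ → ℝ} {X : ℕ → M3} (h : Lay ρ X) (a b c : ℕ) :
    0 < ang (ρ a) (ρ b) (ρ c) := ang_pos (h.lab.pos a) (h.lab.pos b) (h.lab.pos c)

theorem R_anglt {ρ : ℕ → ℝ} {X : ℕ → M3} (h : Lay ρ X) (a b c : ℕ) :
    ang (ρ a) (ρ b) (ρ c) < π := ang_lt_pi (h.lab.pos a) (h.lab.pos b) (h.lab.pos c)

theorem R_lt2pi {ρ : ℕ → ℝ} {X : ℕ → M3} (h : Lay ρ X) {k : ℕ} {u : ℂ} {d α : ℕ → ℝ}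
    (hf : Frame ρ X k u d α) {p : ℕ} (hp : k + 1 ≤ p) (hp' : p < n (k + 1)) : α p < 2 * π := by
  have h1 := hf.close
  have h2 := R_angpos h k (pet k (N k)) (k + 1)
  rw [R_petlast] at h1 h2
  rcases Nat.lt_or_ge p (n (k + 1) - 1) with h3 | h3
  · have := hf.mono p _ hp h3 (by omega)
    linarith
  · have : p = n (k + 1) - 1 := by omega
    rw [this]
    linarith

theorem R_nk1 (k : ℕ) : k + 1 ≤ n k - 1 := by
  have := n_ge k
  omega

theorem R_lt (k : ℕ) : n k - 1 < n (k + 1) := by
  have h1 := n_strictMono (Nat.lt_succ_self k)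
  have h2 := @R_npos k
  simp only [Nat.succ_eq_add_one] at h1
  omega

/-- the sector of `Y` -/
theorem R_sector {ρ : ℕ → ℝ} {X : ℕ → M3} (h : Lay ρ X) {k : ℕ} {u : ℂ} {d α : ℕ → ℝ}
    (hf : Frame ρ X k u d α) (Y : M3) : ∃ i, k + 1 ≤ i ∧ i < n (k + 1) ∧
      0 ≤ det3 (X k) (X i) Y ∧ 0 ≤ det3 (X k) Y (X (nx (k + 1) i)) := by
  have hX := h.isH k
  have hn := n_ge' (k + 1) (by omega)
  have hlast : n (k + 1) - 1 = pet k (N k) := (R_petlast k).symm
  have hclose := hf.close
  have hp := R_angpos h k (pet k (N k)) (k + 1)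
  have hp2 := R_anglt h k (pet k (N k)) (k + 1)
  obtain ⟨i, hi1, hi2, h1, h2⟩ := star_sector (k + 1) (n (k + 1)) (by omega)
    (fun i => cosh (d i)) (fun i => sinh (d i)) α u hf.unit
    (fun i _ _ => cosh_pos _) (fun i h1 h2 => sinh_pos_iff.2 (hf.dpos i h1 h2)) hf.mono
    (by
      intro i hi1 hi2
      rcases Nat.lt_or_ge i (n k - 1) with h3 | h3
      · have h4 : α (i + 1) ≤ α (n k - 1) := by
          rcases Nat.lt_or_ge (i + 1) (n k - 1) with h5 | h5
          · exact (hf.mono _ _ (by omega) h5 (R_lt k)).le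
          · have : i + 1 = n k - 1 := by omega
            rw [this]
        have h5 : 0 ≤ α i := by
          rcases Nat.lt_or_ge (k + 1) i with h6 | h6
          · have := hf.mono _ _ le_rfl h6 (by omega)
            rw [hf.start] at this
            exact this.le
          · have : i = k + 1 := by omega
            rw [this, hf.start]
        have := hf.leftlt
        linarith
      · obtain ⟨j, rfl⟩ : ∃ j, i = n k - 1 + j := ⟨i - (n k - 1), by omega⟩
        have hnk := @R_npos k
        have hj : j < N k := by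
          rw [n_succ] at hi2
          omega
        have h4 := hf.new j hj
        rw [pet_le hj.le, pet_le (by omega : j + 1 ≤ N k)] at h4
        have h5 := R_anglt h k (n k - 1 + j) (n k - 1 + (j + 1))
        rw [← add_assoc] at h4 h5
        linarith)
    (by
      rw [hf.start, hlast]
      linarith)
    (by
      rw [hf.start, hlast]
      linarith)
    (fun i => boost ((X k).1, -(X k).2) (X i))
    (by
      intro i hi1 hi2
      show boost ((X k).1, -(X k).2) (X i) = _
      rw [hf.coord i hi1 hi2]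
      exact boost_inv hX _)
    (boost ((X k).1, -(X k).2) Y)
  refine ⟨i, hi1, hi2, ?_, ?_⟩
  · rw [← boost_det hX, boost_one hX, boost_inv' hX, boost_inv' hX] at h1
    exact h1
  · rw [← boost_det hX, boost_one hX, boost_inv' hX, boost_inv' hX] at h2
    exact h2

theorem R_step {ρ : ℕ → ℝ} {X : ℕ → M3} (h : Lay ρ X) (k : ℕ) {Y : M3}
    (hP : Poly X (k + 1) Y) : (∃ j, j ≤ N k ∧ InF X k j Y) ∨ (1 ≤ k ∧ Poly X k Y) := by
  have hc : k = 0 ∨ Conv X k := by
    rcases Nat.eq_zero_or_pos k with h0 | h0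
    · exact Or.inl h0
    · exact Or.inr (conv_hull h k h0).1
  obtain ⟨u, d, α, hf⟩ := frame h k hc
  obtain ⟨i, hi1, hi2, h1, h2⟩ := R_sector h hf Y
  have hnk := @R_npos k
  have hlt := n_strictMono (Nat.lt_succ_self k)
  simp only [Nat.succ_eq_add_one] at hlt
  rcases Nat.lt_or_ge i (n k - 1) with h3 | h3
  · right
    have hk : 1 ≤ k := by
      rcases Nat.eq_zero_or_pos k with h0 | h0
      · exfalso
        subst h0
        have : n 0 = 2 := rfl
        omega
      · exact h0
    refine ⟨hk, ?_⟩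
    have hnx : nx (k + 1) i = i + 1 := by
      unfold nx
      rw [if_neg (by omega)]
    rw [hnx] at h2
    -- nonnegativity of determinants of old vertices
    have hpos : ∀ p r, k + 1 ≤ p → p ≤ r → r ≤ n k - 1 → 0 ≤ det3 (X k) (X p) (X r) := by
      intro p r hp hpr hr
      rw [R_det h hf hp (by omega) (by omega) (by omega)]
      have hs1 : 0 < sinh (d p) := sinh_pos_iff.2 (hf.dpos p hp (by omega))
      have hs2 : 0 < sinh (d r) := sinh_pos_iff.2 (hf.dpos r (by omega) (by omega))
      refine mul_nonneg (mul_nonneg hs1.le hs2.le) (sin_nonneg_of_nonneg_of_le_pi ?_ ?_)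
      · rcases Nat.lt_or_ge p r with h5 | h5
        · have := hf.mono _ _ hp h5 (by omega)
          linarith
        · have : p = r := by omega
          rw [this]
          linarith
      · have h4 : α r ≤ α (n k - 1) := by
          rcases Nat.lt_or_ge r (n k - 1) with h5 | h5
          · exact (hf.mono _ _ (by omega) h5 (R_lt k)).le
          · have : r = n k - 1 := by omega
            rw [this]
        have h5 : 0 ≤ α p := by
          rcases Nat.lt_or_ge (k + 1) p with h6 | h6
          · have := hf.mono _ _ le_rfl h6 (by omega)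
            rw [hf.start] at this
            exact this.le
          · have : p = k + 1 := by omega
            rw [this, hf.start]
        have := hf.leftlt
        linarith
    have hab : 0 < det3 (X k) (X i) (X (i + 1)) := by
      rw [R_det h hf hi1 hi2 (by omega) (by omega)]
      have hs1 : 0 < sinh (d i) := sinh_pos_iff.2 (hf.dpos i hi1 hi2)
      have hs2 : 0 < sinh (d (i + 1)) := sinh_pos_iff.2 (hf.dpos (i + 1) (by omega) (by omega))
      refine mul_pos (mul_pos hs1 hs2) (sin_pos_of_pos_of_lt_pi ?_ ?_)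
      · have := hf.mono i (i + 1) hi1 (by omega) (by omega)
        linarith
      · have h4 : α (i + 1) ≤ α (n k - 1) := by
          rcases Nat.lt_or_ge (i + 1) (n k - 1) with h5 | h5
          · exact (hf.mono _ _ (by omega) h5 (R_lt k)).le
          · have : i + 1 = n k - 1 := by omega
            rw [this]
        have h5 : 0 ≤ α i := by
          rcases Nat.lt_or_ge (k + 1) i with h6 | h6
          · have := hf.mono _ _ le_rfl h6 (by omega)
            rw [hf.start] at this
            exact this.le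
          · have : i = k + 1 := by omega
            rw [this, hf.start]
        have := hf.leftlt
        linarith
    have he : 0 ≤ det3 (X k) (X (k + 1)) Y := by
      have h6 := R_pl (X k) (X i) (X (i + 1)) (X (k + 1)) Y
      have h7 := hpos (k + 1) i le_rfl hi1 (by omega)
      have h8 := hpos (k + 1) (i + 1) le_rfl (by omega) (by omega)
      have h9 : 0 ≤ det3 (X k) (X i) (X (i + 1)) * det3 (X k) (X (k + 1)) Y := by
        rw [h6]
        exact add_nonneg (mul_nonneg h2 h7) (mul_nonneg h1 h8)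
      exact nonneg_of_mul_nonneg_right h9 hab
    have hff : 0 ≤ det3 (X (n k - 1)) (X k) Y := by
      have h6 := R_pl (X k) (X i) (X (i + 1)) Y (X (n k - 1))
      have h6' : det3 (X k) (X i) (X (i + 1)) * det3 (X k) Y (X (n k - 1)) =
          det3 (X k) Y (X (i + 1)) * det3 (X k) (X i) (X (n k - 1)) +
          det3 (X k) (X i) Y * det3 (X k) (X (i + 1)) (X (n k - 1)) := by
        simp only [det3, cr]; ring
      have h7 := hpos i (n k - 1) hi1 (by omega) le_rfl
      have h8 := hpos (i + 1) (n k - 1) (by omega) (by omega) le_rfl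
      have h9 : 0 ≤ det3 (X k) (X i) (X (i + 1)) * det3 (X k) Y (X (n k - 1)) := by
        rw [h6']
        exact add_nonneg (mul_nonneg h2 h7) (mul_nonneg h1 h8)
      rw [R_cyc]
      exact nonneg_of_mul_nonneg_right h9 hab
    intro m hm1 hm2
    by_cases hmk : m = k
    · subst hmk
      have : nx m m = m + 1 := by
        unfold nx
        rw [if_neg (by have := n_ge m; omega)]
      rw [this]
      exact he
    by_cases hml : m + 1 = n k
    · have : nx k m = k := by
        unfold nx
        rw [if_pos hml]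
      rw [this]
      have h10 : m = n k - 1 := by omega
      rw [h10]
      exact hff
    · have e1 : nx k m = m + 1 := by
        unfold nx
        rw [if_neg hml]
      have e2 : nx (k + 1) m = m + 1 := by
        unfold nx
        rw [if_neg (by omega)]
      rw [e1, ← e2]
      exact hP m (by omega) (by omega)
  · left
    obtain ⟨j, rfl⟩ : ∃ j, i = n k - 1 + j := ⟨i - (n k - 1), by omega⟩
    have hj : j ≤ N k := by
      rw [n_succ] at hi2
      omega
    have e1 : pet k j = n k - 1 + j := pet_le hj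
    have e2 : nx (k + 1) (n k - 1 + j) = pet k (j + 1) := by
      unfold nx
      by_cases hjN : j = N k
      · rw [hjN, pet_last, if_pos]
        rw [n_succ]
        omega
      · rw [pet_le (by omega : j + 1 ≤ N k), if_neg]
        · omega
        · rw [n_succ]
          omega
    have h5 := hP _ hi1 hi2
    rw [e2, ← e1] at h5
    rw [e2] at h2
    rw [← e1] at h1
    refine ⟨j, hj, h1, h5, ?_⟩
    rw [R_cyc]
    exact h2

theorem cover {ρ : ℕ → ℝ} {X : ℕ → M3} (h : Lay ρ X) {k : ℕ} (hk : 1 ≤ k) {Y : M3} (hY : IsH Y)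
    (hP : Poly X k Y) : ∃ k' j, k' < k ∧ j ≤ N k' ∧ InF X k' j Y := by
  have _ := hY
  induction k with
  | zero => omega
  | succ k ih =>
    rcases R_step h k hP with ⟨j, hj, hF⟩ | ⟨hk1, hP'⟩
    · exact ⟨k, j, Nat.lt_succ_self k, hj, hF⟩
    · obtain ⟨k', j, h1, h2, h3⟩ := ih hk1 hP'
      exact ⟨k', j, by omega, h2, h3⟩

/-- a point of a face of stage `k ≥ 1` is not strictly inside the old polygon -/
theorem not_strict {ρ : ℕ → ℝ} {X : ℕ → M3} (h : Lay ρ X) {k j : ℕ} (hk : 1 ≤ k) (hj : j ≤ N k)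
    {Y : M3} (hY : IsH Y) (hF : InF X k j Y) :
    det3 (X k) (X (k + 1)) Y ≤ 0 ∨ det3 (X (n k - 1)) (X k) Y ≤ 0 := by
  have _ := hY
  by_contra hcon
  rw [not_or, not_le, not_le] at hcon
  obtain ⟨hcon1, hcon2⟩ := hcon
  rw [R_cyc (X (n k - 1))] at hcon2
  obtain ⟨u, d, α, hf⟩ := frame h k (Or.inr (conv_hull h k hk).1)
  obtain ⟨hF1, hF2, hF3⟩ := hF
  rw [R_cyc] at hF3
  have hnk := n_ge' k hk
  have hlt := n_strictMono (Nat.lt_succ_self k)
  simp only [Nat.succ_eq_add_one] at hlt
  have e1 : pet k j = n k - 1 + j := pet_le hj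
  have hpj1 : k + 1 ≤ pet k j := by omega
  have hpj2 : pet k j < n (k + 1) := pet_lt (by omega)
  have hsh : ∀ p, k + 1 ≤ p → p < n (k + 1) → 0 < sinh (d p) := fun p h1 h2 =>
    sinh_pos_iff.2 (hf.dpos p h1 h2)
  have hsig : α (n k - 1) ≤ α (pet k j) := by
    rcases Nat.eq_zero_or_pos j with h0 | h0
    · rw [h0, pet_zero]
    · exact (hf.mono _ _ (by omega) (by omega) hpj2).le
  have hsig0 : 0 < α (n k - 1) := by
    have := hf.mono (k + 1) (n k - 1) le_rfl (by omega) (R_lt k)
    rwa [hf.start] at this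
  have hsigpi := hf.leftlt
  rcases lt_or_ge (α (pet k j)) π with h3 | h3
  · -- first case
    have h4 : 0 < det3 (X k) (X (k + 1)) (X (n k - 1)) := by
      rw [R_det h hf le_rfl (by omega) (by omega) (by omega)]
      refine mul_pos (mul_pos (hsh _ le_rfl (by omega)) (hsh _ (by omega) (by omega)))
        (sin_pos_of_pos_of_lt_pi ?_ ?_)
      · rw [hf.start]; linarith
      · rw [hf.start]; linarith
    have h5 : 0 < det3 (X k) (X (k + 1)) (X (pet k j)) := by
      rw [R_det h hf le_rfl (by omega) hpj1 hpj2]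
      refine mul_pos (mul_pos (hsh _ le_rfl (by omega)) (hsh _ hpj1 hpj2))
        (sin_pos_of_pos_of_lt_pi ?_ ?_)
      · rw [hf.start]; linarith
      · rw [hf.start]; linarith
    have h6 : 0 ≤ det3 (X k) (X (n k - 1)) (X (pet k j)) := by
      rw [R_det h hf (by omega) (by omega) hpj1 hpj2]
      refine mul_nonneg (mul_pos (hsh _ (by omega) (by omega)) (hsh _ hpj1 hpj2)).le
        (sin_nonneg_of_nonneg_of_le_pi ?_ ?_)
      · linarith
      · linarith
    have h7 := R_pl (X k) (X (k + 1)) (X (n k - 1)) (X (pet k j)) Y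
    rw [R_swap (X k) (X (pet k j)) (X (k + 1)), R_swap (X k) (X (pet k j)) (X (n k - 1))] at h7
    have h8 : 0 ≤ det3 (X k) (X (k + 1)) (X (n k - 1)) * det3 (X k) (X (pet k j)) Y :=
      mul_nonneg h4.le hF1
    have h9 : 0 < det3 (X k) Y (X (n k - 1)) * det3 (X k) (X (k + 1)) (X (pet k j)) :=
      mul_pos hcon2 h5
    have h10 : 0 ≤ det3 (X k) (X (k + 1)) Y * det3 (X k) (X (n k - 1)) (X (pet k j)) :=
      mul_nonneg hcon1.le h6
    linarith
  · -- second case
    have hab : 0 < det3 (X k) (X (pet k j)) (X (pet k (j + 1))) := (h.face k j hj).2.2.2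
    have hneg : ∀ p, k + 1 ≤ p → p < n (k + 1) → π ≤ α p →
        det3 (X k) (X (k + 1)) (X p) ≤ 0 := by
      intro p hp1 hp2 hp3
      rw [R_det h hf le_rfl (by omega) hp1 hp2]
      have h4 := R_lt2pi h hf hp1 hp2
      have h5 : sin (α p - α (k + 1)) ≤ 0 := by
        rw [hf.start, sub_zero]
        have := sin_nonneg_of_nonneg_of_le_pi (x := α p - π) (by linarith) (by linarith)
        rw [sin_sub_pi] at this
        linarith
      exact mul_nonpos_of_nonneg_of_nonpos
        (mul_pos (hsh _ le_rfl (by omega)) (hsh _ hp1 hp2)).le h5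
    have ha := hneg (pet k j) hpj1 hpj2 h3
    have hb : det3 (X k) (X (k + 1)) (X (pet k (j + 1))) ≤ 0 := by
      rcases Nat.lt_or_ge j (N k) with h4 | h4
      · have e2 : pet k (j + 1) = n k - 1 + (j + 1) := pet_le (by omega)
        refine hneg _ (by omega) (pet_lt (by omega)) ?_
        have := hf.mono (pet k j) (pet k (j + 1)) hpj1 (by omega) (pet_lt (by omega))
        linarith
      · have : j = N k := by omega
        rw [this, pet_last, R_self2]
    have h7 := R_pl (X k) (X (pet k j)) (X (pet k (j + 1))) (X (k + 1)) Y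
    have h8 : 0 < det3 (X k) (X (pet k j)) (X (pet k (j + 1))) * det3 (X k) (X (k + 1)) Y :=
      mul_pos hab hcon1
    have h9 : det3 (X k) Y (X (pet k (j + 1))) * det3 (X k) (X (k + 1)) (X (pet k j)) ≤ 0 :=
      mul_nonpos_of_nonneg_of_nonpos hF3 ha
    have h10 : det3 (X k) (X (pet k j)) Y * det3 (X k) (X (k + 1)) (X (pet k (j + 1))) ≤ 0 :=
      mul_nonpos_of_nonneg_of_nonpos hF1 hb
    linarith

end Pool.Agent.H776R2.Fatou
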