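import Pool.Agent.H776R2.Fatou.Defs
import Pool.Agent.H776R2.Fatou.Ang
import Pool.Agent.H776R2.Fatou.Mink
import Pool.Agent.H776R2.Fatou.Comb
import Pool.Agent.H776R2.Fatou.FrameT
import Pool.Agent.H776R2.Fatou.ConvT
import Pool.Agent.H776R2.Fatou.Tile

/-! Task S: two faces meet in the cone of the common vertices (helper190). -/

open Real

noncomputable section

namespace Pool.Agent.H776R2.Fatou

theorem S_add3 (a b U V : M3) : det3 a b (U + V) = det3 a b U + det3 a b V := by
  simp only [det3, cr, Prod.fst_add, Prod.snd_add, Complex.add_re, Complex.add_im]; ring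

theorem S_smul3 (a b V : M3) (c : ℝ) : det3 a b (c • V) = c * det3 a b V := by
  simp only [det3, cr, Prod.smul_fst, Prod.smul_snd, smul_eq_mul, Complex.real_smul,
    Complex.mul_re, Complex.mul_im, Complex.ofReal_re, Complex.ofReal_im]; ring

theorem S_rot (a b c : M3) : det3 a b c = det3 b c a := by
  simp only [det3, cr]; ring

theorem S_self1 (a b : M3) : det3 a b a = 0 := by
  simp only [det3, cr]; ring

theorem S_self2 (a b : M3) : det3 a b b = 0 := by
  simp only [det3, cr]; ring

theorem S_cone3 (X : ℕ → M3) (S : Finset ℕ) (a b c : ℕ) (x y z : ℝ) (hx : 0 ≤ x) (hy : 0 ≤ y)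
    (hz : 0 ≤ z) (ha : x ≠ 0 → a ∈ S) (hb : y ≠ 0 → b ∈ S) (hc : z ≠ 0 → c ∈ S) :
    InCone X S (x • X a + y • X b + z • X c) := by
  classical
  refine ⟨fun i => (if i = a then x else 0) + (if i = b then y else 0) + (if i = c then z else 0),
    ?_, ?_⟩
  · intro i
    have h1 : 0 ≤ (if i = a then x else 0) := by split_ifs <;> simp [hx]
    have h2 : 0 ≤ (if i = b then y else 0) := by split_ifs <;> simp [hy]
    have h3 : 0 ≤ (if i = c then z else 0) := by split_ifs <;> simp [hz]
    linarith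
  · have key : ∀ (a : ℕ) (x : ℝ), (x ≠ 0 → a ∈ S) →
        ∑ i ∈ S, (if i = a then x else 0) • X i = x • X a := by
      intro a x hxa
      by_cases hmem : a ∈ S
      · rw [Finset.sum_eq_single a]
        · simp
        · intro b _ hba; simp [hba]
        · intro h; exact absurd hmem h
      · have hx0 : x = 0 := by by_contra h; exact hmem (hxa h)
        rw [hx0]
        simp
    simp only [add_smul, Finset.sum_add_distrib]
    rw [key a x ha, key b y hb, key c z hc]

theorem S_expI (θ : ℝ) : Complex.exp (Complex.I * (θ : ℂ)) = ⟨Real.cos θ, Real.sin θ⟩ := by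
  apply Complex.ext
  · rw [mul_comm]; simp [Complex.exp_ofReal_mul_I_re]
  · rw [mul_comm]; simp [Complex.exp_ofReal_mul_I_im]

theorem S_unit {u : ℂ} (hu : ‖u‖ = 1) : u.re ^ 2 + u.im ^ 2 = 1 := by
  have h : ‖u‖ ^ 2 = 1 := by rw [hu]; norm_num
  rw [← Complex.normSq_eq_norm_sq, Complex.normSq_apply] at h
  nlinarith

theorem S_cr_exp2 {u : ℂ} (hu : ‖u‖ = 1) (β θ : ℝ) :
    cr (u * Complex.exp (Complex.I * (β : ℂ))) (u * Complex.exp (Complex.I * (θ : ℂ)))
      = Real.sin (θ - β) := by
  have h := S_unit hu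
  rw [S_expI, S_expI, Real.sin_sub]
  simp only [cr, Complex.mul_re, Complex.mul_im]
  linear_combination (Real.sin θ * Real.cos β - Real.cos θ * Real.sin β) * h

/-- every unit vector is `u e^{iβ}` with `0 ≤ β < 2π` -/
theorem S_arg {u w : ℂ} (hu : ‖u‖ = 1) (hw : ‖w‖ = 1) :
    ∃ β : ℝ, 0 ≤ β ∧ β < 2 * π ∧ w = u * Complex.exp (Complex.I * (β : ℂ)) := by
  have hu0 : u ≠ 0 := by intro h; rw [h] at hu; simp at hu
  have hz : ‖w / u‖ = 1 := by rw [norm_div, hu, hw]; norm_num
  have h1 : w / u = Complex.exp (Complex.I * ((w / u).arg : ℂ)) := by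
    have := Complex.norm_mul_exp_arg_mul_I (w / u)
    rw [hz] at this
    rw [mul_comm Complex.I]
    simpa using this.symm
  have h2 : w = u * Complex.exp (Complex.I * ((w / u).arg : ℂ)) := by
    rw [← h1]; field_simp
  have hlo := Complex.neg_pi_lt_arg (w / u)
  have hhi := Complex.arg_le_pi (w / u)
  by_cases hneg : 0 ≤ (w / u).arg
  · exact ⟨_, hneg, by linarith [Real.pi_pos], h2⟩
  · refine ⟨(w / u).arg + 2 * π, by linarith, by linarith, ?_⟩
    have : Complex.I * ((((w / u).arg + 2 * π : ℝ)) : ℂ)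
        = Complex.I * ((w / u).arg : ℂ) + 2 * π * Complex.I := by
      push_cast; ring
    rw [this, Complex.exp_add, Complex.exp_two_pi_mul_I, mul_one]
    exact h2

theorem S_sin_neg {x : ℝ} (h1 : -(2 * π) < x) (h2 : x < 0) (h : 0 ≤ Real.sin x) : x ≤ -π := by
  by_contra hc
  push Not at hc
  have := Real.sin_neg_of_neg_of_neg_pi_lt h2 hc
  linarith

theorem S_sin_pos {x : ℝ} (h1 : 0 < x) (h2 : x < 2 * π) (h : 0 ≤ Real.sin x) : x ≤ π := by
  by_contra hc
  push Not at hc
  have h3 : Real.sin (x - π) = - Real.sin x := Real.sin_sub_pi x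
  have := Real.sin_pos_of_pos_of_lt_pi (x := x - π) (by linarith) (by linarith)
  linarith

theorem S_sep {a b c : ℝ} (hab : a < b) (h1 : -(2 * π) < c - a) (h2 : c - a < 2 * π)
    (h3 : -(2 * π) < b - c) (h4 : b - c < 2 * π) (hc : c < a ∨ b < c)
    (s1 : 0 ≤ Real.sin (c - a)) (s2 : 0 ≤ Real.sin (b - c)) : False := by
  rcases hc with hc | hc
  · have e1 := S_sin_neg h1 (by linarith) s1
    have e2 := S_sin_pos (by linarith) h4 s2
    linarith
  · have e1 := S_sin_pos (by linarith) h2 s1
    have e2 := S_sin_neg h3 (by linarith) s2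
    linarith

/-- directions of all the petals of `k` -/
theorem S_dirs {ρ : ℕ → ℝ} {X : ℕ → M3} (h : Lay ρ X) (k : ℕ) :
    ∃ (u : ℂ) (A D : ℕ → ℝ), ‖u‖ = 1 ∧
      (∀ i, i ≤ N k + 1 → 0 < D i ∧
        X (pet k i) = pt (X k) (D i) (u * Complex.exp (Complex.I * (A i : ℂ)))) ∧
      0 ≤ A 0 ∧ (k ≠ 0 → 0 < A 0) ∧ A 0 < π ∧ A (N k + 1) = 2 * π ∧
      (∀ i, i ≤ N k → A i < A (i + 1)) ∧ (∀ i, i ≤ N k → A (i + 1) - A i < π) := by
  have hρ := h.lab.pos
  have hc : k = 0 ∨ Conv X k := by
    by_cases hk : k = 0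
    · exact Or.inl hk
    · exact Or.inr (conv_hull h k (by omega)).1
  obtain ⟨u, d, α, F⟩ := frame h k hc
  have hN := N_ge k
  have hn := n_ge k
  refine ⟨u, fun i => if i = N k + 1 then 2 * π else α (pet k i), fun i => d (pet k i), F.unit,
    ?_, ?_, ?_, ?_, ?_, ?_, ?_⟩
  · intro i hi
    have g1 := pet_gt (k := k) hi
    have g2 := pet_lt (k := k) hi
    refine ⟨F.dpos _ g1 g2, ?_⟩
    by_cases hi' : i = N k + 1
    · simp only [hi', if_true]
      have hlt : k + 1 < n (k + 1) := by
        have := pet_lt (k := k) (j := N k + 1) le_rfl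
        rwa [pet_last] at this
      rw [pet_last, F.coord (k + 1) le_rfl hlt, F.start]
      congr 2
      have e1 : Complex.I * ((2 * π : ℝ) : ℂ) = 2 * π * Complex.I := by push_cast; ring
      rw [e1, Complex.exp_two_pi_mul_I]
      simp
    · simp only [hi', if_false]
      exact F.coord _ g1 g2
  · have : (0 : ℕ) ≠ N k + 1 := by omega
    simp only [this, if_false]
    rw [pet_zero]
    by_cases hk : n k - 1 = k + 1
    · rw [hk, F.start]
    · have := F.mono (k + 1) (n k - 1) le_rfl (by omega)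
        (by have := n_succ k; omega)
      rw [F.start] at this
      exact this.le
  · intro hk
    have h0 : (0 : ℕ) ≠ N k + 1 := by omega
    simp only [h0, if_false]
    rw [pet_zero]
    have hn' := n_ge' k (by omega)
    have := F.mono (k + 1) (n k - 1) le_rfl (by omega) (by have := n_succ k; omega)
    rw [F.start] at this
    exact this
  · have h0 : (0 : ℕ) ≠ N k + 1 := by omega
    simp only [h0, if_false]
    rw [pet_zero]
    exact F.leftlt
  · simp
  · intro i hi
    have hi1 : i ≠ N k + 1 := by omega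
    by_cases hi' : i = N k
    · have e := F.close
      have g := ang_pos (hρ k) (hρ (pet k (N k))) (hρ (k + 1))
      simp only [hi']
      simp
      linarith
    · have hi2 : i + 1 ≠ N k + 1 := by omega
      simp only [hi1, hi2, if_false]
      have e := F.new i (by omega)
      have g := ang_pos (hρ k) (hρ (pet k i)) (hρ (pet k (i + 1)))
      linarith
  · intro i hi
    have hi1 : i ≠ N k + 1 := by omega
    by_cases hi' : i = N k
    · have e := F.close
      have g := ang_lt_pi (hρ k) (hρ (pet k (N k))) (hρ (k + 1))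
      simp only [hi']
      simp
      linarith
    · have hi2 : i + 1 ≠ N k + 1 := by omega
      simp only [hi1, hi2, if_false]
      have e := F.new i (by omega)
      have g := ang_lt_pi (hρ k) (hρ (pet k i)) (hρ (pet k (i + 1)))
      linarith

theorem S_mono {A : ℕ → ℝ} {M : ℕ} (h : ∀ i, i ≤ M → A i < A (i + 1)) {i j : ℕ} (hij : i < j)
    (hj : j ≤ M + 1) : A i < A j := by
  induction j with
  | zero => omega
  | succ j ih =>
    rcases Nat.lt_or_ge i j with h1 | h1
    · exact lt_trans (ih h1 (by omega)) (h j (by omega))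
    · have : i = j := by omega
      rw [this]; exact h j (by omega)

/-- a point of the face `(k,j)` in the cone of `k` and a petal `m` which is not in the face -/
theorem S_cone_petal {ρ : ℕ → ℝ} {X : ℕ → M3} (h : Lay ρ X) {k j m : ℕ} (hk : k ≠ 0)
    (hj : j ≤ N k) (hm : m ≤ N k + 1) (hmj : m < j ∨ j + 1 < m) {s t : ℝ} (ht : 0 < t)
    (hF : InF X k j (s • X k + t • X (pet k m))) : False := by
  obtain ⟨u, A, D, hu, hD, _, hA0, _, hA2, hAm, _⟩ := S_dirs h k
  have hA0 := hA0 hk
  obtain ⟨h1, _, h3⟩ := hF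
  rw [S_add3, S_smul3, S_smul3, S_self1] at h1
  rw [S_add3, S_smul3, S_smul3, S_self2] at h3
  obtain ⟨d1, e1⟩ := hD j (by omega)
  obtain ⟨d2, e2⟩ := hD (j + 1) (by omega)
  obtain ⟨d3, e3⟩ := hD m hm
  rw [S_rot (X (pet k (j + 1))) (X k)] at h3
  rw [e1, e3, det_pt_pt (h.isH k), S_cr_exp2 hu] at h1
  rw [e2, e3, det_pt_pt (h.isH k), S_cr_exp2 hu] at h3
  have p1 := Real.sinh_pos_iff.2 d1
  have p2 := Real.sinh_pos_iff.2 d2
  have p3 := Real.sinh_pos_iff.2 d3
  have s1 : 0 ≤ Real.sin (A m - A j) := by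
    by_contra hc
    push Not at hc
    have : t * (sinh (D j) * sinh (D m) * Real.sin (A m - A j)) < 0 :=
      mul_neg_of_pos_of_neg ht (mul_neg_of_pos_of_neg (mul_pos p1 p3) hc)
    linarith
  have s2 : 0 ≤ Real.sin (A (j + 1) - A m) := by
    by_contra hc
    push Not at hc
    have : t * (sinh (D m) * sinh (D (j + 1)) * Real.sin (A (j + 1) - A m)) < 0 :=
      mul_neg_of_pos_of_neg ht (mul_neg_of_pos_of_neg (mul_pos p3 p2) hc)
    linarith
  have lo : ∀ i, i ≤ N k + 1 → 0 < A i := by
    intro i hi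
    rcases Nat.eq_zero_or_pos i with h0 | h0
    · rw [h0]; exact hA0
    · exact lt_trans hA0 (S_mono hAm h0 hi)
  have hi : ∀ i, i ≤ N k + 1 → A i ≤ 2 * π := by
    intro i hi
    rcases Nat.lt_or_ge i (N k + 1) with h0 | h0
    · rw [← hA2]; exact (S_mono hAm h0 le_rfl).le
    · have : i = N k + 1 := by omega
      rw [this, hA2]
  have hmj' : A m < A j ∨ A (j + 1) < A m := by
    rcases hmj with hmj | hmj
    · exact Or.inl (S_mono hAm hmj (by omega))
    · exact Or.inr (S_mono hAm hmj hm)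
  exact S_sep (hAm j hj) (by linarith [lo m hm, hi j (by omega)])
    (by linarith [lo j (by omega), hi m hm]) (by linarith [lo (j + 1) (by omega), hi m hm])
    (by linarith [lo m hm, hi (j + 1) (by omega)]) hmj' s1 s2

theorem S_lt_n {k j k' : ℕ} (hkk : k' < k) (hj : j ≤ N k') {m : ℕ} (hm : m ∈ verts k' j) :
    m < n k := by
  have h1 : n (k' + 1) ≤ n k := n_strictMono.monotone (by omega)
  simp only [verts, Finset.mem_insert, Finset.mem_singleton] at hm
  have g0 := pet_gt (k := k') (j := j) (by omega)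
  have g1 := pet_lt (k := k') (j := j) (by omega)
  have g2 := pet_lt (k := k') (j := j + 1) (by omega)
  rcases hm with hm | hm | hm
  · omega
  · omega
  · omega

/-- a nonnegative combination killed by a functional is in the cone of the zeros -/
theorem S_kill {X : ℕ → M3} {P Q : M3} {a b c : ℕ} {x y z : ℝ} (hx : 0 ≤ x) (hy : 0 ≤ y)
    (hz : 0 ≤ z) (ha : 0 ≤ det3 P Q (X a)) (hb : 0 ≤ det3 P Q (X b)) (hc : 0 ≤ det3 P Q (X c))
    (h0 : det3 P Q (x • X a + y • X b + z • X c) = 0) :
    x * det3 P Q (X a) = 0 ∧ y * det3 P Q (X b) = 0 ∧ z * det3 P Q (X c) = 0 := by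
  rw [S_add3, S_add3, S_smul3, S_smul3, S_smul3] at h0
  have e1 := mul_nonneg hx ha
  have e2 := mul_nonneg hy hb
  have e3 := mul_nonneg hz hc
  exact ⟨by linarith, by linarith, by linarith⟩

/-- `c0 • X p + c1 • X q` with the coefficients vanishing off a set: rewriting of a three term
combination all of whose nonzero terms are `p` or `q`. -/
theorem S_two {X : ℕ → M3} {p q : ℕ} (hpq : p ≠ q) {a b c : ℕ} {x y z : ℝ} (hx : 0 ≤ x)
    (hy : 0 ≤ y) (hz : 0 ≤ z) (S : Finset ℕ) (ha : a ∈ S) (hb : b ∈ S) (hc : c ∈ S)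
    (ka : x ≠ 0 → a = p ∨ a = q) (kb : y ≠ 0 → b = p ∨ b = q) (kc : z ≠ 0 → c = p ∨ c = q) :
    ∃ s t : ℝ, 0 ≤ s ∧ 0 ≤ t ∧ x • X a + y • X b + z • X c = s • X p + t • X q ∧
      (s ≠ 0 → p ∈ S) ∧ (t ≠ 0 → q ∈ S) := by
  have key : ∀ (a : ℕ) (x : ℝ), 0 ≤ x → a ∈ S → (x ≠ 0 → a = p ∨ a = q) →
      ∃ s t : ℝ, 0 ≤ s ∧ 0 ≤ t ∧ x • X a = s • X p + t • X q ∧ (s ≠ 0 → p ∈ S) ∧
        (t ≠ 0 → q ∈ S) := by
    intro a x hx haS hax
    by_cases h0 : x = 0
    · exact ⟨0, 0, le_rfl, le_rfl, by simp [h0], by simp, by simp⟩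
    · rcases hax h0 with h1 | h1
      · refine ⟨x, 0, hx, le_rfl, by simp [h1], fun _ => ?_, by simp⟩
        rw [← h1]; exact haS
      · refine ⟨0, x, le_rfl, hx, by simp [h1], by simp, fun _ => ?_⟩
        rw [← h1]; exact haS
  obtain ⟨s1, t1, a1, b1, c1, d1, e1⟩ := key a x hx ha ka
  obtain ⟨s2, t2, a2, b2, c2, d2, e2⟩ := key b y hy hb kb
  obtain ⟨s3, t3, a3, b3, c3, d3, e3⟩ := key c z hz hc kc
  refine ⟨s1 + s2 + s3, t1 + t2 + t3, by positivity, by positivity, ?_, ?_, ?_⟩
  · rw [c1, c2, c3]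
    simp only [add_smul]
    abel
  · intro hs
    by_cases h1 : s1 = 0
    · by_cases h2 : s2 = 0
      · exact d3 (by intro h3; apply hs; rw [h1, h2, h3]; ring)
      · exact d2 h2
    · exact d1 h1
  · intro hs
    by_cases h1 : t1 = 0
    · by_cases h2 : t2 = 0
      · exact e3 (by intro h3; apply hs; rw [h1, h2, h3]; ring)
      · exact e2 h2
    · exact e1 h1

theorem S_comb {ρ : ℕ → ℝ} {X : ℕ → M3} (h : Lay ρ X) {k j : ℕ} (hj : j ≤ N k) {Y : M3}
    (hF : InF X k j Y) : ∃ x y z : ℝ, 0 ≤ x ∧ 0 ≤ y ∧ 0 ≤ z ∧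
      Y = x • X k + y • X (pet k j) + z • X (pet k (j + 1)) :=
  inTri_comb (h.face k j hj).2.2.2 hF

theorem S_final {X : ℕ → M3} {S : Finset ℕ} {p q : ℕ} {s t : ℝ} (hs : 0 ≤ s) (ht : 0 ≤ t)
    (h1 : s ≠ 0 → p ∈ S) (h2 : t ≠ 0 → q ∈ S) : InCone X S (s • X p + t • X q) := by
  have := S_cone3 X S p q q s t 0 hs ht le_rfl h1 h2 (by simp)
  simpa using this

/-- the case of different stages -/
theorem S_diff {ρ : ℕ → ℝ} {X : ℕ → M3} (h : Lay ρ X) {k j k' j' : ℕ} (hj : j ≤ N k)
    (hj' : j' ≤ N k') (hkk : k' < k) {Y : M3} (hY : IsH Y) (h1 : InF X k j Y)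
    (h2 : InF X k' j' Y) : InCone X (verts k j ∩ verts k' j') Y := by
  have hk1 : 1 ≤ k := by omega
  obtain ⟨hConv, _⟩ := conv_hull h k hk1
  have hPoly := inF_poly h hkk hj' h2
  have hn := n_ge k
  have hn' := n_ge' k hk1
  have nx1 : nx k k = k + 1 := by rw [nx, if_neg (by omega)]
  have nx2 : nx k (n k - 1) = k := by rw [nx, if_pos (by omega)]
  have q1 := hPoly k le_rfl (by omega)
  have q2 := hPoly (n k - 1) (by omega) (by omega)
  rw [nx1] at q1
  rw [nx2] at q2
  obtain ⟨x, y, z, hx, hy, hz, hYc⟩ := S_comb h hj' h2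
  have m1 : k' ∈ verts k' j' := by simp [verts]
  have m2 : pet k' j' ∈ verts k' j' := by simp [verts]
  have m3 : pet k' (j' + 1) ∈ verts k' j' := by simp [verts]
  have hkmem : k ∈ verts k j := by simp [verts]
  rcases not_strict h hk1 hj hY h1 with hs | hs
  · have h0 : det3 (X k) (X (k + 1)) Y = 0 := le_antisymm hs q1
    have hpos : ∀ m ∈ verts k' j', m ≠ k → m ≠ k + 1 → 0 < det3 (X k) (X (k + 1)) (X m) := by
      intro m hm e1 e2
      have := hConv k m le_rfl (by omega) (S_lt_n (j := j') hkk hj' hm) e1 (by rw [nx1]; exact e2)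
      rw [nx1] at this
      exact this
    have hnn : ∀ m ∈ verts k' j', 0 ≤ det3 (X k) (X (k + 1)) (X m) := by
      intro m hm
      by_cases e1 : m = k
      · rw [e1, S_self1]
      · by_cases e2 : m = k + 1
        · rw [e2, S_self2]
        · exact (hpos m hm e1 e2).le
    rw [hYc] at h0
    obtain ⟨z1, z2, z3⟩ := S_kill hx hy hz (hnn _ m1) (hnn _ m2) (hnn _ m3) h0
    have kk : ∀ m ∈ verts k' j', ∀ c : ℝ, c * det3 (X k) (X (k + 1)) (X m) = 0 → c ≠ 0 →
        m = k ∨ m = k + 1 := by
      intro m hm c hc hc0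
      by_contra hcon
      push Not at hcon
      have := hpos m hm hcon.1 hcon.2
      rcases mul_eq_zero.1 hc with h | h
      · exact hc0 h
      · linarith
    obtain ⟨s, t, hs0, ht0, hst, hsk, htk⟩ := S_two (X := X) (p := k) (q := k + 1) (by omega)
      hx hy hz (verts k' j') m1 m2 m3 (kk _ m1 x z1) (kk _ m2 y z2) (kk _ m3 z z3)
    rw [hYc, hst]
    refine S_final hs0 ht0 (fun e => Finset.mem_inter.2 ⟨hkmem, hsk e⟩)
      (fun e => Finset.mem_inter.2 ⟨?_, htk e⟩)
    by_contra hcon
    have hjn : j ≠ N k := by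
      intro hj0; apply hcon; rw [verts, hj0, pet_last]; simp
    have htpos : 0 < t := lt_of_le_of_ne ht0 (Ne.symm e)
    apply S_cone_petal h (k := k) (j := j) (m := N k + 1) (by omega) hj le_rfl (by omega) htpos
      (s := s)
    rw [pet_last, ← hst, ← hYc]
    exact h1
  · have h0 : det3 (X (n k - 1)) (X k) Y = 0 := le_antisymm hs q2
    have hpos : ∀ m ∈ verts k' j', m ≠ n k - 1 → m ≠ k → 0 < det3 (X (n k - 1)) (X k) (X m) := by
      intro m hm e1 e2
      have := hConv (n k - 1) m (by omega) (by omega) (S_lt_n (j := j') hkk hj' hm) e1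
        (by rw [nx2]; exact e2)
      rw [nx2] at this
      exact this
    have hnn : ∀ m ∈ verts k' j', 0 ≤ det3 (X (n k - 1)) (X k) (X m) := by
      intro m hm
      by_cases e1 : m = n k - 1
      · rw [e1, S_self1]
      · by_cases e2 : m = k
        · rw [e2, S_self2]
        · exact (hpos m hm e1 e2).le
    rw [hYc] at h0
    obtain ⟨z1, z2, z3⟩ := S_kill hx hy hz (hnn _ m1) (hnn _ m2) (hnn _ m3) h0
    have kk : ∀ m ∈ verts k' j', ∀ c : ℝ, c * det3 (X (n k - 1)) (X k) (X m) = 0 → c ≠ 0 →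
        m = k ∨ m = n k - 1 := by
      intro m hm c hc hc0
      by_contra hcon
      push Not at hcon
      have := hpos m hm hcon.2 hcon.1
      rcases mul_eq_zero.1 hc with h | h
      · exact hc0 h
      · linarith
    obtain ⟨s, t, hs0, ht0, hst, hsk, htk⟩ := S_two (X := X) (p := k) (q := n k - 1) (by omega)
      hx hy hz (verts k' j') m1 m2 m3 (kk _ m1 x z1) (kk _ m2 y z2) (kk _ m3 z z3)
    rw [hYc, hst]
    refine S_final hs0 ht0 (fun e => Finset.mem_inter.2 ⟨hkmem, hsk e⟩)
      (fun e => Finset.mem_inter.2 ⟨?_, htk e⟩)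
    by_contra hcon
    have hjn : j ≠ 0 := by
      intro hj0; apply hcon; rw [verts, hj0, pet_zero]; simp
    have htpos : 0 < t := lt_of_le_of_ne ht0 (Ne.symm e)
    apply S_cone_petal h (k := k) (j := j) (m := 0) (by omega) hj (by omega) (by omega) htpos
      (s := s)
    rw [pet_zero, ← hst, ← hYc]
    exact h1

/-- the same stage, `j < j'` -/
theorem S_same {ρ : ℕ → ℝ} {X : ℕ → M3} (h : Lay ρ X) {k j j' : ℕ} (hjj : j < j')
    (hj' : j' ≤ N k) {Y : M3} (hY : IsH Y) (h1 : InF X k j Y) (h2 : InF X k j' Y) :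
    InCone X (verts k j ∩ verts k j') Y := by
  have hX := h.isH k
  obtain ⟨u, A, D, hu, hD, hA00, hA0, hApi, hA2, hAm, hAg⟩ := S_dirs h k
  obtain ⟨e, w, he, hw, hYe⟩ := polar hX hY
  obtain ⟨β, hβ0, hβ1, hwβ⟩ := S_arg hu hw
  rw [hwβ] at hYe
  have hkmem : k ∈ verts k j ∩ verts k j' := by simp [verts]
  rcases eq_or_lt_of_le he with he0 | hepos
  · -- `Y = X k`
    have hB : B (X k) Y = 1 := by
      have hu' : ‖u * Complex.exp (Complex.I * (β : ℂ))‖ = 1 := by
        rw [← hwβ]; exact hw
      rw [hYe, B_pt hX hu', ← he0]; simp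
    have := eq_of_B_eq_one hX hY hB
    rw [← this]
    have := S_cone3 X (verts k j ∩ verts k j') k k k 1 0 0 (by norm_num) le_rfl le_rfl
      (fun _ => hkmem) (by simp) (by simp)
    simpa using this
  · have lo : ∀ i, i ≤ N k + 1 → 0 ≤ A i := by
      intro i hi
      rcases Nat.eq_zero_or_pos i with h0 | h0
      · rw [h0]; exact hA00
      · exact (lt_of_le_of_lt hA00 (S_mono hAm h0 hi)).le
    have hi : ∀ i, i ≤ N k + 1 → A i ≤ 2 * π := by
      intro i hi
      rcases Nat.lt_or_ge i (N k + 1) with h0 | h0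
      · rw [← hA2]; exact (S_mono hAm h0 le_rfl).le
      · have : i = N k + 1 := by omega
        rw [this, hA2]
    have hi' : ∀ i, i ≤ N k → A i < 2 * π := by
      intro i hi
      rw [← hA2]; exact S_mono hAm (by omega) le_rfl
    have hse := Real.sinh_pos_iff.2 hepos
    -- location of the direction
    have loc : ∀ i, i ≤ N k → InF X k i Y →
        (A i ≤ β ∧ β ≤ A (i + 1)) ∨ (β = 0 ∧ A (i + 1) = 2 * π) := by
      intro i hi2 hF
      obtain ⟨f1, _, f3⟩ := hF
      obtain ⟨d1, e1⟩ := hD i (by omega)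
      obtain ⟨d2, e2⟩ := hD (i + 1) (by omega)
      rw [S_rot (X (pet k (i + 1))) (X k)] at f3
      rw [e1, hYe, det_pt_pt hX, S_cr_exp2 hu] at f1
      rw [e2, hYe, det_pt_pt hX, S_cr_exp2 hu] at f3
      have p1 := Real.sinh_pos_iff.2 d1
      have p2 := Real.sinh_pos_iff.2 d2
      have s1 : 0 ≤ Real.sin (β - A i) := by
        by_contra hc
        push Not at hc
        have : sinh (D i) * sinh e * Real.sin (β - A i) < 0 :=
          mul_neg_of_pos_of_neg (mul_pos p1 hse) hc
        linarith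
      have s2 : 0 ≤ Real.sin (A (i + 1) - β) := by
        by_contra hc
        push Not at hc
        have : sinh e * sinh (D (i + 1)) * Real.sin (A (i + 1) - β) < 0 :=
          mul_neg_of_pos_of_neg (mul_pos hse p2) hc
        linarith
      by_cases hw2 : β = 0 ∧ A (i + 1) = 2 * π
      · exact Or.inr hw2
      · left
        by_contra hcon
        have hout : β < A i ∨ A (i + 1) < β := by
          by_contra hc2
          push Not at hc2
          exact hcon hc2
        have hlt : A (i + 1) - β < 2 * π := by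
          rcases eq_or_lt_of_le hβ0 with hb | hb
          · have : A (i + 1) ≠ 2 * π := fun hh => hw2 ⟨hb.symm, hh⟩
            have h5 := lt_of_le_of_ne (hi (i + 1) (by omega)) this
            linarith
          · linarith [hi (i + 1) (by omega)]
        exact S_sep (hAm i hi2) (by linarith [hi' i hi2]) (by linarith [lo i (by omega)])
          (by linarith [lo (i + 1) (by omega)]) hlt hout s1 s2
    have hj : j ≤ N k := by omega
    obtain ⟨x, y, z, hx, hy, hz, hYc⟩ := S_comb h hj h1
    have hDet := (h.face k j hj).2.2.2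
    rcases loc j hj h1 with ⟨a1, a2⟩ | ⟨a1, a2⟩
    · rcases loc j' hj' h2 with ⟨b1, b2⟩ | ⟨b1, b2⟩
      · -- `j' = j + 1`
        have hjj' : j' = j + 1 := by
          by_contra hne
          have : A (j + 1) < A j' := S_mono hAm (by omega) (by omega)
          linarith
        have hβ : β = A (j + 1) := by rw [hjj'] at b1; linarith
        have hy0 : y = 0 := by
          obtain ⟨d2, e2⟩ := hD (j + 1) (by omega)
          have z0 : det3 (X (pet k (j + 1))) (X k) Y = 0 := by
            rw [S_rot, e2, hYe, det_pt_pt hX, S_cr_exp2 hu, hβ]; simp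
          rw [hYc, S_add3, S_add3, S_smul3, S_smul3, S_smul3, S_self1, S_self2] at z0
          have : det3 (X (pet k (j + 1))) (X k) (X (pet k j))
              = det3 (X k) (X (pet k j)) (X (pet k (j + 1))) := by rw [S_rot]
          rw [this] at z0
          have z1 : y * det3 (X k) (X (pet k j)) (X (pet k (j + 1))) = 0 := by linarith
          rcases mul_eq_zero.1 z1 with h5 | h5
          · exact h5
          · linarith
        rw [hYc]
        refine S_cone3 X _ _ _ _ x y z hx hy hz (fun _ => hkmem) (fun e => absurd hy0 e)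
          (fun _ => ?_)
        rw [hjj']
        simp [verts]
      · -- wrap around
        have hj0 : j = 0 := by
          by_contra hne
          have : A 0 < A j := S_mono hAm (by omega) (by omega)
          rw [b1] at a1
          linarith
        have hk0 : k = 0 := by
          by_contra hne
          have := hA0 hne
          rw [b1, hj0] at a1
          linarith
        have hjN : j' = N k := by
          by_contra hne
          have := hi' (j' + 1) (by omega)
          linarith
        have hβ : β = A j := by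
          rw [b1]
          rw [b1] at a1
          exact le_antisymm (lo j (by omega)) a1
        have hz0 : z = 0 := by
          obtain ⟨d1, e1⟩ := hD j (by omega)
          have z0 : det3 (X k) (X (pet k j)) Y = 0 := by
            rw [e1, hYe, det_pt_pt hX, S_cr_exp2 hu, hβ]; simp
          rw [hYc, S_add3, S_add3, S_smul3, S_smul3, S_smul3, S_self1, S_self2] at z0
          have z1 : z * det3 (X k) (X (pet k j)) (X (pet k (j + 1))) = 0 := by linarith
          rcases mul_eq_zero.1 z1 with h5 | h5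
          · exact h5
          · linarith
        rw [hYc]
        refine S_cone3 X _ _ _ _ x y z hx hy hz (fun _ => hkmem) (fun _ => ?_)
          (fun e => absurd hz0 e)
        have e1 : pet k j = k + 1 := by rw [hj0, pet_zero, hk0]; rfl
        rw [hjN]
        rw [Finset.mem_inter]
        refine ⟨by simp [verts], ?_⟩
        rw [e1, verts, pet_last]
        simp
    · exfalso
      have : A (j + 1) < 2 * π := hi' (j + 1) (by omega)
      linarith

theorem common_face {ρ : ℕ → ℝ} {X : ℕ → M3} (h : Lay ρ X) {k j k' j' : ℕ} (hj : j ≤ N k)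
    (hj' : j' ≤ N k') {Y : M3} (hY : IsH Y) (h1 : InF X k j Y) (h2 : InF X k' j' Y) :
    InCone X (verts k j ∩ verts k' j') Y := by
  rcases lt_trichotomy k k' with hk | hk | hk
  · rw [Finset.inter_comm]
    exact S_diff h hj' hj hk hY h2 h1
  · subst hk
    rcases lt_trichotomy j j' with hjj | hjj | hjj
    · exact S_same h hjj hj' hY h1 h2
    · subst hjj
      obtain ⟨x, y, z, hx, hy, hz, hYc⟩ := S_comb h hj h1
      rw [hYc]
      exact S_cone3 X _ _ _ _ x y z hx hy hz (fun _ => by simp [verts])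
        (fun _ => by simp [verts]) (fun _ => by simp [verts])
    · rw [Finset.inter_comm]
      exact S_same h hjj hj hY h2 h1
  · exact S_diff h hj hj' hk hY h1 h2

end Pool.Agent.H776R2.Fatou
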