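import Mathlib

/-!
# Discrete Fatou theorem (MP_3555ad_an): counterexample.  Common definitions.
-/

open Real

noncomputable section

namespace Pool.Agent.H776R2.Fatou

/-! ## Minkowski space `ℝ^{2,1} = ℝ × ℂ` (time, space) -/

/-- Minkowski space. -/
abbrev M3 := ℝ × ℂ

/-- The Lorentz form, positive on time-like vectors: `B (t,z) (s,w) = t s - z·w`. -/
def B (X Y : M3) : ℝ := X.1 * Y.1 - (X.2.re * Y.2.re + X.2.im * Y.2.im)

/-- The hyperboloid model of the hyperbolic plane. -/
def IsH (X : M3) : Prop := B X X = 1 ∧ 0 < X.1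

/-- Cross product in the plane. -/
def cr (a b : ℂ) : ℝ := a.re * b.im - a.im * b.re

/-- Determinant of three vectors of Minkowski space. -/
def det3 (X Y W : M3) : ℝ := X.1 * cr Y.2 W.2 - Y.1 * cr X.2 W.2 + W.1 * cr X.2 Y.2

/-- The standard boost taking `(1,0)` to `X` (for `X` in the hyperboloid). -/
def boost (X V : M3) : M3 :=
  (X.1 * V.1 + (X.2.re * V.2.re + X.2.im * V.2.im),
   V.2 + ((V.1 + (X.2.re * V.2.re + X.2.im * V.2.im) / (1 + X.1) : ℝ) : ℂ) * X.2)

/-- The point at hyperbolic distance `d` from `X` in the direction `u` (unit complex number). -/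
def pt (X : M3) (d : ℝ) (u : ℂ) : M3 := boost X (cosh d, (sinh d : ℂ) * u)

/-- Euclidean centre (in the Poincare disc) of the hyperbolic disc with centre `X`, radius `r`. -/
def cen (X : M3) (r : ℝ) : ℂ := X.2 / ((X.1 + cosh r : ℝ) : ℂ)

/-- Euclidean radius of the hyperbolic disc with centre `X` and radius `r`. -/
def rad (X : M3) (r : ℝ) : ℝ := sinh r / (X.1 + cosh r)

/-- The point of the Poincare disc. -/
def poin (Y : M3) : ℂ := Y.2 / ((1 + Y.1 : ℝ) : ℂ)

/-- Hyperbolic angle at the centre of a circle of radius `r` between tangent circles of radii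
`a`, `b` which are tangent to each other. -/
def ang (r a b : ℝ) : ℝ :=
  2 * arcsin (sqrt (sinh a * sinh b / (sinh (r + a) * sinh (r + b))))

/-- Euclidean angle at the centre of a circle of radius `r` between tangent circles of radii
`a`, `b` which are tangent to each other. -/
def angE (r a b : ℝ) : ℝ := 2 * arcsin (sqrt (a * b / ((r + a) * (r + b))))

/-- `Y` is in the closed (positively oriented) triangle `a b c` (as a cone). -/
def InTri (a b c Y : M3) : Prop := 0 ≤ det3 a b Y ∧ 0 ≤ det3 b c Y ∧ 0 ≤ det3 c a Y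

/-- `Y` is a nonnegative combination of the `X i`, `i ∈ S`. -/
def InCone (X : ℕ → M3) (S : Finset ℕ) (Y : M3) : Prop :=
  ∃ c : ℕ → ℝ, (∀ i, 0 ≤ c i) ∧ Y = ∑ i ∈ S, c i • X i

/-! ## The spiral triangulation -/

/-- number of circles in the middle (bad) zone -/
def mB : ℕ := 64

/-- a large constant -/
def Qc : ℕ := 10 ^ 12

/-- length of a good zone at stage `k` -/
def q (k : ℕ) : ℕ := Qc * 2 ^ k

/-- number of new petals of the vertex `k` -/
def N (k : ℕ) : ℕ := 2 * q k + mB

/-- number of vertices present before stage `k`: the vertices created at stage `k` (when the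
flower of `k` is closed) are `n k, …, n (k+1) - 1`. -/
def n : ℕ → ℕ
  | 0 => 2
  | k + 1 => n k + N k

/-- `pet k 0 = n k - 1` (left neighbour `L`), `pet k j = n k - 1 + j` (new petals, `1 ≤ j ≤ N k`),
`pet k (N k + 1) = k + 1` (right neighbour `R`): counterclockwise around `k` in the exterior of
the polygon `k, k+1, …, n k - 1` (counterclockwise).
The faces of the triangulation are `(k, pet k j, pet k (j+1))`, `j ≤ N k` (positively oriented). -/
def pet (k j : ℕ) : ℕ := if j = N k + 1 then k + 1 else n k - 1 + j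

/-- The stage at which the vertex `i ≥ 2` is created: `n (par i) ≤ i < n (par i + 1)`. -/
def par (i : ℕ) : ℕ := Nat.findGreatest (fun k => n k ≤ i) i

/-- Consecutive pairs of neighbours around `k`, counterclockwise from `k+1` to `n k - 1`,
of the faces at `k` which exist before stage `k`. -/
def old (k : ℕ) : List (ℕ × ℕ) :=
  if k = 0 then []
  else if k = 1 then [(2, 0), (0, n 1 - 1)]
  else if k + 1 = n (par k + 1) then
    [(k + 1, par k + 1), (par k + 1, par k), (par k, k - 1), (k - 1, n k - 1)]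
  else [(k + 1, par k), (par k, k - 1), (k - 1, n k - 1)]

/-- Consecutive pairs of neighbours around `k` of the faces created at stage `k`,
counterclockwise from `n k - 1` to `k + 1`. -/
def new (k : ℕ) : List (ℕ × ℕ) := (List.range (N k + 1)).map fun j => (pet k j, pet k (j + 1))

/-- The whole flower of `k`. -/
def pairs (k : ℕ) : List (ℕ × ℕ) := old k ++ new k

/-- sum of the angles at a vertex with label `ρ k` over a list of pairs of neighbours -/
def asum (ρ : ℕ → ℝ) (k : ℕ) (l : List (ℕ × ℕ)) : ℝ :=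
  (l.map fun pq => ang (ρ k) (ρ pq.1) (ρ pq.2)).sum

/-- the vertices of the face `(k,j)` -/
def verts (k j : ℕ) : Finset ℕ := {k, pet k j, pet k (j + 1)}

/-- successor in the boundary polygon `k, k+1, …, n k - 1` before stage `k` -/
def nx (k i : ℕ) : ℕ := if i + 1 = n k then k else i + 1

/-- hyperbolic packing label -/
structure Lab (ρ : ℕ → ℝ) : Prop where
  pos : ∀ v, 0 < ρ v
  small : ∀ v, exp (-ρ v) ≤ 2 * π / (N v : ℝ)
  sum : ∀ v, asum ρ v (pairs v) = 2 * π

/-- tangency of the circles `a`, `b` -/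
def Tang (ρ : ℕ → ℝ) (X : ℕ → M3) (a b : ℕ) : Prop := B (X a) (X b) = cosh (ρ a + ρ b)

/-- the face `(a,b,c)` is a positively oriented mutually tangent triple -/
def FaceOK (ρ : ℕ → ℝ) (X : ℕ → M3) (a b c : ℕ) : Prop :=
  Tang ρ X a b ∧ Tang ρ X b c ∧ Tang ρ X c a ∧ 0 < det3 (X a) (X b) (X c)

/-- label together with a layout in the hyperboloid -/
structure Lay (ρ : ℕ → ℝ) (X : ℕ → M3) : Prop where
  lab : Lab ρ
  isH : ∀ i, IsH (X i)
  zero : X 0 = (1, 0)
  face : ∀ k j, j ≤ N k → FaceOK ρ X k (pet k j) (pet k (j + 1))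

/-- strict convexity of the boundary polygon before stage `k` (all vertices so far are strictly
to the left of all boundary edges, except the end points) -/
def Conv (X : ℕ → M3) (k : ℕ) : Prop :=
  ∀ i j, k ≤ i → i < n k → j < n k → j ≠ i → j ≠ nx k i →
    0 < det3 (X i) (X (nx k i)) (X j)

/-- all vertices so far are in the cone of the boundary vertices -/
def Hull (X : ℕ → M3) (k : ℕ) : Prop := ∀ j, j < n k → InCone X (Finset.Ico k (n k)) (X j)

/-- The frame at `X k` after the flower of `k` has been closed: polar coordinates of all the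
vertices `k+1, …, n (k+1) - 1` (the boundary polygon after stage `k`). -/
structure Frame (ρ : ℕ → ℝ) (X : ℕ → M3) (k : ℕ) (u : ℂ) (d α : ℕ → ℝ) : Prop where
  unit : ‖u‖ = 1
  dpos : ∀ i, k + 1 ≤ i → i < n (k + 1) → 0 < d i
  coord : ∀ i, k + 1 ≤ i → i < n (k + 1) →
    X i = pt (X k) (d i) (u * Complex.exp (Complex.I * (α i : ℂ)))
  dtan : ∀ j, j ≤ N k + 1 → d (pet k j) = ρ k + ρ (pet k j)
  start : α (k + 1) = 0
  mono : ∀ i j, k + 1 ≤ i → i < j → j < n (k + 1) → α i < α j
  left : α (n k - 1) = asum ρ k (old k)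
  leftlt : α (n k - 1) < π
  new : ∀ j, j < N k → α (pet k (j + 1)) = α (pet k j) + ang (ρ k) (ρ (pet k j)) (ρ (pet k (j + 1)))
  close : α (pet k (N k)) + ang (ρ k) (ρ (pet k (N k))) (ρ (k + 1)) = 2 * π

/-- `Y` in the (closed) boundary polygon before stage `k` -/
def Poly (X : ℕ → M3) (k : ℕ) (Y : M3) : Prop :=
  ∀ i, k ≤ i → i < n k → 0 ≤ det3 (X i) (X (nx k i)) Y

/-- `Y` is in the closed face `(k,j)` -/
def InF (X : ℕ → M3) (k j : ℕ) (Y : M3) : Prop :=
  InTri (X k) (X (pet k j)) (X (pet k (j + 1))) Y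

/-- point of the ray from the origin in the direction `ζ` -/
def ray (ζ : ℂ) (s : ℝ) : M3 := (cosh s, (sinh s : ℂ) * ζ)

/-! ## Colours: `some c` = good vertex with colour `c`, `none` = bad vertex -/

/-- colour of the `j`-th vertex (`j ≥ 1`) of a zone at a vertex with colour `c`, starting from a
neighbour with colour `c'`. -/
def zone (c c' : Option (ZMod 3)) (j : ℕ) : Option (ZMod 3) :=
  match c, c' with
  | some x, some y => if j % 2 = 1 then some (-(x + y)) else some y
  | _, _ => none

/-- specification of the colouring -/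
structure StSpec (st : ℕ → Option (ZMod 3)) : Prop where
  zero : st 0 = some 0
  one : st 1 = some 1
  left : ∀ k j, 1 ≤ j → j ≤ q k → st (pet k j) = zone (st k) (st (n k - 1)) j
  right : ∀ k j, 1 ≤ j → j ≤ q k → st (pet k (N k + 1 - j)) = zone (st k) (st (k + 1)) j
  mid : ∀ k j, q k < j → j ≤ q k + mB → st (pet k j) = none

end Pool.Agent.H776R2.Fatou
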