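import Pool.Agent.H776R2.Fatou.Defs
import Pool.Agent.H776R2.Fatou.Ang
import Pool.Agent.H776R2.Fatou.Mink
import Pool.Agent.H776R2.Fatou.Eucl
import Pool.Agent.H776R2.Fatou.Comb
import Pool.Agent.H776R2.Fatou.Layout
import Pool.Agent.H776R2.Fatou.CommonF

/-! Task U: discs (helper190). -/

open Real

noncomputable section

namespace Pool.Agent.H776R2.Fatou

theorem U_add3 (a b U V : M3) : det3 a b (U + V) = det3 a b U + det3 a b V := by
  simp only [det3, cr, Prod.fst_add, Prod.snd_add, Complex.add_re, Complex.add_im]; ring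

theorem U_smul3 (a b V : M3) (c : ℝ) : det3 a b (c • V) = c * det3 a b V := by
  simp only [det3, cr, Prod.smul_fst, Prod.smul_snd, smul_eq_mul, Complex.real_smul,
    Complex.mul_re, Complex.mul_im, Complex.ofReal_re, Complex.ofReal_im]; ring

theorem U_zero3 (a b : M3) : det3 a b 0 = 0 := by
  simp [det3, cr]

theorem U_sum3 (a b : M3) (S : Finset ℕ) (c : ℕ → ℝ) (X : ℕ → M3) :
    det3 a b (∑ i ∈ S, c i • X i) = ∑ i ∈ S, c i * det3 a b (X i) := by
  classical
  induction S using Finset.induction_on with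
  | empty => simp [U_zero3]
  | insert i S hi ih => rw [Finset.sum_insert hi, Finset.sum_insert hi, U_add3, U_smul3, ih]

theorem U_rot (a b c : M3) : det3 a b c = det3 b c a := by
  simp only [det3, cr]; ring

theorem U_swap (a b c : M3) : det3 a c b = - det3 a b c := by
  simp only [det3, cr]; ring

theorem U_self1 (a b : M3) : det3 a b a = 0 := by
  simp only [det3, cr]; ring

theorem U_self2 (a b : M3) : det3 a b b = 0 := by
  simp only [det3, cr]; ring

/-- Cramer's identity -/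
theorem U_cramer (v a b Y : M3) :
    det3 v a b • Y = det3 a b Y • v + det3 v Y b • a + det3 v a Y • b := by
  refine Prod.ext ?_ (Complex.ext ?_ ?_)
  · simp only [det3, cr, Prod.smul_fst, Prod.fst_add, smul_eq_mul]; ring
  · simp only [det3, cr, Prod.smul_snd, Prod.snd_add, Complex.real_smul, Complex.add_re,
      Complex.mul_re, Complex.ofReal_re, Complex.ofReal_im]; ring
  · simp only [det3, cr, Prod.smul_snd, Prod.snd_add, Complex.real_smul, Complex.add_im,
      Complex.mul_im, Complex.ofReal_re, Complex.ofReal_im]; ring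

theorem U_Bcomb (P : M3) (x y : ℝ) (a b : M3) :
    B P (x • a + y • b) = x * B P a + y * B P b := by
  simp only [B, Prod.smul_fst, Prod.smul_snd, Prod.fst_add, Prod.snd_add, smul_eq_mul,
    Complex.real_smul, Complex.add_re, Complex.add_im, Complex.mul_re, Complex.mul_im,
    Complex.ofReal_re, Complex.ofReal_im]; ring

theorem U_expI (θ : ℝ) : Complex.exp (Complex.I * (θ : ℂ)) = ⟨Real.cos θ, Real.sin θ⟩ := by
  apply Complex.ext
  · rw [mul_comm]; simp [Complex.exp_ofReal_mul_I_re]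
  · rw [mul_comm]; simp [Complex.exp_ofReal_mul_I_im]

theorem U_norm_expI (θ : ℝ) : ‖Complex.exp (Complex.I * (θ : ℂ))‖ = 1 := by
  rw [mul_comm]; exact Complex.norm_exp_ofReal_mul_I θ

theorem U_unit {u : ℂ} (hu : ‖u‖ = 1) : u.re ^ 2 + u.im ^ 2 = 1 := by
  have h : ‖u‖ ^ 2 = 1 := by rw [hu]; norm_num
  rw [← Complex.normSq_eq_norm_sq, Complex.normSq_apply] at h
  nlinarith

theorem U_cr_exp {u : ℂ} (hu : ‖u‖ = 1) (β : ℝ) :
    cr u (u * Complex.exp (Complex.I * (β : ℂ))) = Real.sin β := by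
  have h := U_unit hu
  rw [U_expI]
  simp only [cr, Complex.mul_re, Complex.mul_im]
  linear_combination (Real.sin β) * h

theorem U_cr_exp2 {u : ℂ} (hu : ‖u‖ = 1) (β θ : ℝ) :
    cr (u * Complex.exp (Complex.I * (β : ℂ))) (u * Complex.exp (Complex.I * (θ : ℂ)))
      = Real.sin (θ - β) := by
  have h := U_unit hu
  rw [U_expI, U_expI, Real.sin_sub]
  simp only [cr, Complex.mul_re, Complex.mul_im]
  linear_combination (Real.sin θ * Real.cos β - Real.cos θ * Real.sin β) * h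

/-- a direction between `0` and the total angle of a chain is in a sector -/
theorem U_sector {ρ : ℕ → ℝ} {X : ℕ → M3} (hρ : ∀ v, 0 < ρ v) (hX : ∀ i, IsH (X i)) {k : ℕ} :
    ∀ (l : List (ℕ × ℕ)) (a b : ℕ), ChainL a l b → (∀ p ∈ l, FaceOK ρ X k p.1 p.2) →
    ∀ (u : ℂ), ‖u‖ = 1 → X a = pt (X k) (ρ k + ρ a) u → ∀ (β e : ℝ), 0 ≤ β →
      β < asum ρ k l → 0 ≤ e →
      ∃ p ∈ l, 0 ≤ det3 (X k) (X p.1) (pt (X k) e (u * Complex.exp (Complex.I * (β : ℂ)))) ∧
        0 ≤ det3 (X k) (pt (X k) e (u * Complex.exp (Complex.I * (β : ℂ)))) (X p.2) := by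
  intro l
  induction l with
  | nil =>
    intro a b _ _ u _ _ β e h0 h1 _
    exfalso
    simp [asum] at h1
    linarith
  | cons p l ih =>
    intro a b hch hf u hu ha β e h0 h1 he
    obtain ⟨hpa, hch'⟩ := hch
    have hpf := hf p (by simp)
    have hdir := chain_dir hρ hX (k := k) [p] p.1 p.2 ⟨rfl, rfl⟩
      (by intro p' hp'; simp at hp'; rw [hp']; exact hpf) u hu (by rw [hpa]; exact ha)
    have has : asum ρ k [p] = ang (ρ k) (ρ p.1) (ρ p.2) := by simp [asum]
    have has' : asum ρ k (p :: l) = ang (ρ k) (ρ p.1) (ρ p.2) + asum ρ k l := by simp [asum]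
    rw [has] at hdir
    set θ := ang (ρ k) (ρ p.1) (ρ p.2) with hθ
    have hθ0 : 0 < θ := ang_pos (hρ k) (hρ _) (hρ _)
    have hθ1 : θ < π := ang_lt_pi (hρ k) (hρ _) (hρ _)
    by_cases hb : β ≤ θ
    · refine ⟨p, by simp, ?_, ?_⟩
      · rw [hpa, ha, det_pt_pt (hX k), U_cr_exp hu]
        have h3 : 0 ≤ sinh (ρ k + ρ a) := Real.sinh_nonneg_iff.2 (by linarith [hρ k, hρ a])
        have h4 : 0 ≤ sinh e := Real.sinh_nonneg_iff.2 he
        have h5 : 0 ≤ Real.sin β := Real.sin_nonneg_of_nonneg_of_le_pi h0 (by linarith)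
        positivity
      · rw [hdir, det_pt_pt (hX k), U_cr_exp2 hu]
        have h3 : 0 ≤ sinh (ρ k + ρ p.2) := Real.sinh_nonneg_iff.2 (by linarith [hρ k, hρ p.2])
        have h4 : 0 ≤ sinh e := Real.sinh_nonneg_iff.2 he
        have h5 : 0 ≤ Real.sin (θ - β) :=
          Real.sin_nonneg_of_nonneg_of_le_pi (by linarith) (by linarith)
        positivity
    · push Not at hb
      have hu' : ‖u * Complex.exp (Complex.I * (θ : ℂ))‖ = 1 := by
        rw [norm_mul, hu, U_norm_expI]; norm_num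
      obtain ⟨p', hp', h3, h4⟩ := ih p.2 b hch' (fun p' hp' => hf p' (by simp [hp']))
        (u * Complex.exp (Complex.I * (θ : ℂ))) hu' hdir (β - θ) e (by linarith)
        (by rw [has'] at h1; linarith) he
      have hE : u * Complex.exp (Complex.I * (θ : ℂ)) * Complex.exp (Complex.I * ((β - θ : ℝ) : ℂ))
          = u * Complex.exp (Complex.I * (β : ℂ)) := by
        rw [mul_assoc, ← Complex.exp_add]
        congr 2
        push_cast
        ring
      rw [hE] at h3 h4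
      exact ⟨p', by simp [hp'], h3, h4⟩

/-- every unit vector is `u e^{iβ}` with `0 ≤ β < 2π` -/
theorem U_arg {u w : ℂ} (hu : ‖u‖ = 1) (hw : ‖w‖ = 1) :
    ∃ β : ℝ, 0 ≤ β ∧ β < 2 * π ∧ w = u * Complex.exp (Complex.I * (β : ℂ)) := by
  have hu0 : u ≠ 0 := by intro h; rw [h] at hu; simp at hu
  have hz : ‖w / u‖ = 1 := by rw [norm_div, hu, hw]; norm_num
  have h1 : w / u = Complex.exp (Complex.I * ((w / u).arg : ℂ)) := by
    have := Complex.norm_mul_exp_arg_mul_I (w / u)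
    rw [hz] at this
    rw [mul_comm Complex.I]
    simpa using this.symm
  have h2 : w = u * Complex.exp (Complex.I * ((w / u).arg : ℂ)) := by
    rw [← h1]; field_simp
  have hlo := Complex.neg_pi_lt_arg (w / u)
  have hhi := Complex.arg_le_pi (w / u)
  by_cases hneg : 0 ≤ (w / u).arg
  · exact ⟨_, hneg, by linarith [Real.pi_pos], h2⟩
  · refine ⟨(w / u).arg + 2 * π, by linarith, by linarith, ?_⟩
    rw [h2]
    congr 1
    · have : Complex.I * ((((w / u).arg + 2 * π : ℝ)) : ℂ) = Complex.I * ((w / u).arg : ℂ) + 2 * π * Complex.I := by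
        push_cast; ring
      conv_rhs => rw [← h2]
      rw [this, Complex.exp_add, Complex.exp_two_pi_mul_I, mul_one]

theorem U_sinh_ge_one {r : ℝ} (h : exp (-r) ≤ 1 / 10 ^ 9) : 1 ≤ sinh r := by
  have h1 : 0 < exp (-r) := exp_pos _
  have h2 : exp r * exp (-r) = 1 := by rw [← Real.exp_add]; simp
  have h3 : (10 : ℝ) ≤ exp r := by
    by_contra hc
    push Not at hc
    have : exp r * exp (-r) < 10 * (1 / 10 ^ 9) := by
      calc exp r * exp (-r) < 10 * exp (-r) := by nlinarith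
        _ ≤ 10 * (1 / 10 ^ 9) := by nlinarith
    norm_num at this
    linarith
  rw [Real.sinh_eq]
  have h4 : exp (-r) ≤ 1 := le_trans h (by norm_num)
  linarith

/-- the hyperbolic triangle inequality used for the disc -/
theorem U_key {r p q x y : ℝ} (hs : 1 ≤ sinh r) (hp : 0 < p) (hq : 0 < q) (hx : 0 ≤ x)
    (hy : 0 ≤ y) (hxy : 0 < x ^ 2 + y ^ 2 + 2 * x * y * cosh (p + q)) :
    (cosh r) ^ 2 * (x ^ 2 + y ^ 2 + 2 * x * y * cosh (p + q))
      < (x * cosh (r + p) + y * cosh (r + q)) ^ 2 := by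
  have hc : 1 ≤ cosh r := Real.one_le_cosh r
  have hcp : 1 ≤ cosh p := Real.one_le_cosh p
  have hcq : 1 ≤ cosh q := Real.one_le_cosh q
  have hsp : 0 < sinh p := Real.sinh_pos_iff.2 hp
  have hsq : 0 < sinh q := Real.sinh_pos_iff.2 hq
  have hC1 : cosh (r + p) = cosh r * cosh p + sinh r * sinh p := Real.cosh_add r p
  have hC2 : cosh (r + q) = cosh r * cosh q + sinh r * sinh q := Real.cosh_add r q
  have h1 : cosh r < cosh (r + p) := by
    rw [hC1]; nlinarith [mul_pos (lt_of_lt_of_le one_pos hs) hsp]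
  have h2 : cosh r < cosh (r + q) := by
    rw [hC2]; nlinarith [mul_pos (lt_of_lt_of_le one_pos hs) hsq]
  have h3 : (cosh r) ^ 2 * cosh (p + q) < cosh (r + p) * cosh (r + q) := by
    have e1 : cosh (r + p) * cosh (r + q) - (cosh r) ^ 2 * cosh (p + q)
        = cosh r * sinh r * (sinh p * cosh q + cosh p * sinh q) - sinh p * sinh q := by
      rw [hC1, hC2, Real.cosh_add p q]
      have := Real.cosh_sq r
      linear_combination (-(sinh p * sinh q)) * this
    have e2 : sinh q ≤ cosh q := (Real.sinh_lt_cosh q).le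
    have e3 : sinh p ≤ cosh p := (Real.sinh_lt_cosh p).le
    have e4 : 1 ≤ cosh r * sinh r := by nlinarith
    have e5 : 0 < sinh p * sinh q := mul_pos hsp hsq
    have e6 : sinh p * sinh q ≤ sinh p * cosh q := by nlinarith
    have e7 : sinh p * sinh q ≤ cosh p * sinh q := by nlinarith
    nlinarith
  have hc0 : 0 < cosh r := by linarith
  have h4 : (cosh r) ^ 2 < (cosh (r + p)) ^ 2 := by nlinarith
  have h5 : (cosh r) ^ 2 < (cosh (r + q)) ^ 2 := by nlinarith
  have hne : x ≠ 0 ∨ y ≠ 0 := by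
    by_contra hcon
    push Not at hcon
    obtain ⟨hx0, hy0⟩ := hcon
    rw [hx0, hy0] at hxy
    simp at hxy
  have hx2 : 0 ≤ x ^ 2 * ((cosh (r + p)) ^ 2 - (cosh r) ^ 2) :=
    mul_nonneg (sq_nonneg _) (by linarith)
  have hy2 : 0 ≤ y ^ 2 * ((cosh (r + q)) ^ 2 - (cosh r) ^ 2) :=
    mul_nonneg (sq_nonneg _) (by linarith)
  have hxy2 : 0 ≤ 2 * (x * y) * (cosh (r + p) * cosh (r + q) - (cosh r) ^ 2 * cosh (p + q)) :=
    mul_nonneg (by positivity) (by linarith)
  have hpos : 0 < x ^ 2 * ((cosh (r + p)) ^ 2 - (cosh r) ^ 2)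
      + y ^ 2 * ((cosh (r + q)) ^ 2 - (cosh r) ^ 2) := by
    rcases hne with h | h
    · have : 0 < x ^ 2 * ((cosh (r + p)) ^ 2 - (cosh r) ^ 2) :=
        mul_pos (by positivity) (by linarith)
      linarith
    · have : 0 < y ^ 2 * ((cosh (r + q)) ^ 2 - (cosh r) ^ 2) :=
        mul_pos (by positivity) (by linarith)
      linarith
  nlinarith

theorem U_final {b τ Q c : ℝ} (h1 : (b + τ) ^ 2 = Q + b ^ 2 - 1) (hb : 1 ≤ b) (hQ : 1 ≤ Q)
    (hbc : b ≤ c) (hkey : c ^ 2 * Q < (b + τ) ^ 2) : False := by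
  have hb2 : 0 ≤ b ^ 2 - 1 := by nlinarith
  have e2 : Q + b ^ 2 - 1 ≤ b ^ 2 * Q := by
    nlinarith [mul_nonneg hb2 (by linarith : (0:ℝ) ≤ Q - 1)]
  have e3 : b ^ 2 ≤ c ^ 2 := by nlinarith
  have e4 : b ^ 2 * Q ≤ c ^ 2 * Q := mul_le_mul_of_nonneg_right e3 (by linarith)
  linarith

theorem star_disc {ρ : ℕ → ℝ} {X : ℕ → M3} (h : Lay ρ X) (v : ℕ) {Y : M3} (hY : IsH Y)
    (hB : B (X v) Y ≤ cosh (ρ v)) :
    ∃ p ∈ pairs v, 0 ≤ det3 (X v) (X p.1) Y ∧ 0 ≤ det3 (X v) Y (X p.2) ∧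
      0 < det3 (X p.1) (X p.2) Y := by
  have hρ := h.lab.pos
  have hX := h.isH
  have hch := pairs_chain v
  have hF : ∀ p ∈ pairs v, FaceOK ρ X v p.1 p.2 := fun p hp => pairs_faceOK h hp
  -- the first neighbour
  have hsum := h.lab.sum v
  have htan : B (X v) (X (v + 1)) = cosh (ρ v + ρ (v + 1)) := by
    cases hl : pairs v with
    | nil =>
      rw [hl] at hsum
      simp [asum] at hsum
    | cons p l =>
      rw [hl] at hch
      obtain ⟨hpa, _⟩ := hch
      have := (hF p (by rw [hl]; simp)).1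
      rw [hpa] at this
      exact this
  obtain ⟨d, u, hd, hu, hXv1⟩ := polar (hX v) (hX (v + 1))
  have hdd : d = ρ v + ρ (v + 1) := by
    rw [hXv1, B_pt (hX v) hu] at htan
    have h1 : 0 ≤ ρ v + ρ (v + 1) := by linarith [hρ v, hρ (v + 1)]
    have := Real.cosh_le_cosh.1 htan.le
    have h2 := Real.cosh_le_cosh.1 htan.ge
    rw [abs_of_nonneg hd, abs_of_nonneg h1] at this h2
    linarith
  rw [hdd] at hXv1
  obtain ⟨e, w, he, hw, hYe⟩ := polar (hX v) hY
  obtain ⟨β, hβ0, hβ1, hwβ⟩ := U_arg hu hw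
  rw [hwβ] at hYe
  obtain ⟨p, hp, h1, h2⟩ := U_sector hρ hX (k := v) (pairs v) (v + 1) (v + 1) hch hF u hu hXv1 β e
    hβ0 (by rw [hsum]; exact hβ1) he
  rw [← hYe] at h1 h2
  refine ⟨p, hp, h1, h2, ?_⟩
  obtain ⟨t1, t2, t3, hD⟩ := hF p hp
  by_contra hneg
  push Not at hneg
  set D := det3 (X v) (X p.1) (X p.2) with hDdef
  set τ := - det3 (X p.1) (X p.2) Y / D with hτ
  set x := det3 (X v) Y (X p.2) / D with hx
  set y := det3 (X v) (X p.1) Y / D with hy
  have hτ0 : 0 ≤ τ := div_nonneg (by linarith) hD.le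
  have hx0 : 0 ≤ x := div_nonneg h2 hD.le
  have hy0 : 0 ≤ y := div_nonneg h1 hD.le
  have hW : Y + τ • X v = x • X p.1 + y • X p.2 := by
    have hcr := U_cramer (X v) (X p.1) (X p.2) Y
    rw [← hDdef] at hcr
    have hD' : D ≠ 0 := hD.ne'
    have hY' : Y = (det3 (X p.1) (X p.2) Y / D) • X v + x • X p.1 + y • X p.2 := by
      have := congrArg (fun Z => D⁻¹ • Z) hcr
      simp only [smul_add, smul_smul, inv_mul_cancel₀ hD', one_smul] at this
      rw [hx, hy, div_eq_inv_mul, div_eq_inv_mul, div_eq_inv_mul]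
      exact this
    have hτ' : det3 (X p.1) (X p.2) Y / D = -τ := by rw [hτ]; ring
    calc Y + τ • X v = ((det3 (X p.1) (X p.2) Y / D) • X v + x • X p.1 + y • X p.2) + τ • X v :=
          congrArg (fun Z => Z + τ • X v) hY'
      _ = x • X p.1 + y • X p.2 := by rw [hτ', neg_smul]; abel
  set W := Y + τ • X v with hWdef
  have hYY := hY.1
  have hVV := (hX v).1
  have hp1 := (hX p.1).1
  have hp2 := (hX p.2).1
  set b := B (X v) Y with hb
  have hb1 : 1 ≤ b := one_le_B (hX v) hY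
  have hWW : B W W = 1 + 2 * τ * b + τ ^ 2 := by
    have : W = (1 : ℝ) • Y + τ • X v := by rw [one_smul]
    rw [this]
    have e := U_Bcomb ((1 : ℝ) • Y + τ • X v) 1 τ Y (X v)
    rw [e, B_comm _ Y, B_comm _ (X v), U_Bcomb, U_Bcomb, hYY, hVV, B_comm Y (X v), ← hb]
    ring
  have hVW : B (X v) W = b + τ := by
    have : W = (1 : ℝ) • Y + τ • X v := by rw [one_smul]
    rw [this, U_Bcomb, hVV, ← hb]
    ring
  have hVW' : B (X v) W = x * cosh (ρ v + ρ p.1) + y * cosh (ρ v + ρ p.2) := by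
    rw [hW, U_Bcomb]
    have e1 : B (X v) (X p.1) = cosh (ρ v + ρ p.1) := t1
    have e3 : B (X v) (X p.2) = cosh (ρ v + ρ p.2) := by
      rw [B_comm, add_comm]; exact t3
    rw [e1, e3]
  have hWW' : B W W = x ^ 2 + y ^ 2 + 2 * x * y * cosh (ρ p.1 + ρ p.2) := by
    have e2 : B (X p.1) (X p.2) = cosh (ρ p.1 + ρ p.2) := t2
    rw [hW]
    rw [U_Bcomb, B_comm _ (X p.1), B_comm _ (X p.2), U_Bcomb, U_Bcomb, hp1, hp2,
      B_comm (X p.2) (X p.1), e2]
    ring
  have hWW1 : 1 ≤ B W W := by rw [hWW]; nlinarith [mul_nonneg hτ0 (by linarith : (0:ℝ) ≤ b)]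
  have hkey := U_key (r := ρ v) (p := ρ p.1) (q := ρ p.2) (x := x) (y := y)
    (U_sinh_ge_one (lab_exp h.lab v)) (hρ _) (hρ _) hx0 hy0 (by rw [← hWW']; linarith)
  rw [← hWW', ← hVW', hVW] at hkey
  exact U_final (by rw [hWW]; ring) hb1 hWW1 hB hkey

theorem U_star_face {ρ : ℕ → ℝ} {X : ℕ → M3} (h : Lay ρ X) (v : ℕ) {Y : M3} (hY : IsH Y)
    (hB : B (X v) Y ≤ cosh (ρ v)) :
    ∃ k j a b, j ≤ N k ∧ verts k j = {v, a, b} ∧ InF X k j Y ∧ 0 < det3 (X a) (X b) Y := by
  obtain ⟨p, hp, h1, h2, h3⟩ := star_disc h v hY hB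
  have h2' : 0 ≤ det3 (X p.2) (X v) Y := by
    have := U_rot (X v) Y (X p.2)
    have h4 := U_rot Y (X p.2) (X v)
    rw [this, h4] at h2
    exact h2
  rw [pairs, List.mem_append] at hp
  rcases hp with hp | hp
  · obtain ⟨k', j, hk', hj, hc | hc⟩ := old_face hp
    · obtain ⟨c1, c2, c3⟩ := hc
      refine ⟨k', j, p.1, p.2, hj, ?_, ?_, h3⟩
      · rw [verts, ← c1, ← c2, c3]
        ext z; simp only [Finset.mem_insert, Finset.mem_singleton]; tauto
      · rw [InF, ← c1, ← c2, ← c3]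
        exact ⟨h2', h1, h3.le⟩
    · obtain ⟨c1, c2, c3⟩ := hc
      refine ⟨k', j, p.1, p.2, hj, ?_, ?_, h3⟩
      · rw [verts, ← c1, ← c3, ← c2]
        ext z; simp only [Finset.mem_insert, Finset.mem_singleton]; tauto
      · rw [InF, ← c1, ← c3, ← c2]
        exact ⟨h3.le, h2', h1⟩
  · obtain ⟨j, hj, c1, c2⟩ := new_face hp
    refine ⟨v, j, p.1, p.2, hj, ?_, ?_, h3⟩
    · rw [verts, ← c1, ← c2]
    · rw [InF, ← c1, ← c2]
      exact ⟨h1, h3.le, h2'⟩

/-- a closed disc only meets the faces at its centre -/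
theorem disc_face {ρ : ℕ → ℝ} {X : ℕ → M3} (h : Lay ρ X) {v k j : ℕ} (hj : j ≤ N k) {Y : M3}
    (hY : IsH Y) (hB : B (X v) Y ≤ cosh (ρ v)) (hF : InF X k j Y) : v ∈ verts k j := by
  obtain ⟨k', j', a, b, hj', hv, hF', hpos⟩ := U_star_face h v hY hB
  obtain ⟨c, hc, hYc⟩ := common_face h hj hj' hY hF hF'
  by_contra hnot
  have h0 : det3 (X a) (X b) Y = 0 := by
    rw [hYc, U_sum3]
    apply Finset.sum_eq_zero
    intro i hi
    rw [Finset.mem_inter, hv] at hi
    obtain ⟨hi1, hi2⟩ := hi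
    simp only [Finset.mem_insert, Finset.mem_singleton] at hi2
    rcases hi2 with hi2 | hi2 | hi2
    · exfalso; apply hnot; rw [← hi2]; exact hi1
    · rw [hi2, U_self1, mul_zero]
    · rw [hi2, U_self2, mul_zero]
  linarith

theorem face_tang {ρ : ℕ → ℝ} {X : ℕ → M3} (h : Lay ρ X) {k j a b : ℕ} (hj : j ≤ N k)
    (ha : a ∈ verts k j) (hb : b ∈ verts k j) (hab : a ≠ b) : Tang ρ X a b := by
  obtain ⟨t1, t2, t3, _⟩ := h.face k j hj
  have hs : ∀ x y, Tang ρ X x y → Tang ρ X y x := by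
    intro x y hxy
    unfold Tang at *
    rw [B_comm, add_comm]; exact hxy
  simp only [verts, Finset.mem_insert, Finset.mem_singleton] at ha hb
  rcases ha with ha | ha | ha <;> rcases hb with hb | hb | hb
  · exact absurd (ha.trans hb.symm) hab
  · rw [ha, hb]; exact t1
  · rw [ha, hb]; exact hs _ _ t3
  · rw [ha, hb]; exact hs _ _ t1
  · exact absurd (ha.trans hb.symm) hab
  · rw [ha, hb]; exact t2
  · rw [ha, hb]; exact t3
  · rw [ha, hb]; exact hs _ _ t2
  · exact absurd (ha.trans hb.symm) hab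

theorem discs_disjoint {ρ : ℕ → ℝ} {X : ℕ → M3} (h : Lay ρ X) {u v : ℕ} (huv : u ≠ v) :
    cosh (ρ u + ρ v) ≤ B (X u) (X v) := by
  have hρ := h.lab.pos
  have hX := h.isH
  by_contra hcon
  have hlt : ¬ (rad (X u) (ρ u) + rad (X v) (ρ v) ≤ ‖cen (X u) (ρ u) - cen (X v) (ρ v)‖) := by
    rw [cen_disj (hX u) (hX v) (hρ u) (hρ v)]
    exact hcon
  push Not at hlt
  set cu := cen (X u) (ρ u)
  set cv := cen (X v) (ρ v)
  set ru := rad (X u) (ρ u)
  set rv := rad (X v) (ρ v)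
  have hru : 0 < ru := rad_pos (hX u) (hρ u)
  have hrv : 0 < rv := rad_pos (hX v) (hρ v)
  set t : ℝ := ru / (ru + rv) with ht
  have ht0 : 0 ≤ t := by positivity
  have htr : t * (ru + rv) = ru := by rw [ht]; field_simp
  have ht1 : (1 - t) * (ru + rv) = rv := by rw [sub_mul, htr]; ring
  have ht2 : 0 ≤ 1 - t := by
    have : 0 < ru + rv := by linarith
    by_contra hc
    push Not at hc
    nlinarith
  set y : ℂ := cu + (t : ℂ) * (cv - cu) with hy
  have h1 : ‖y - cu‖ ≤ ru := by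
    have : y - cu = (t : ℂ) * (cv - cu) := by rw [hy]; ring
    rw [this, norm_mul, Complex.norm_real, Real.norm_of_nonneg ht0, norm_sub_rev]
    calc t * ‖cu - cv‖ ≤ t * (ru + rv) := by nlinarith
      _ = ru := htr
  have h2 : ‖y - cv‖ ≤ rv := by
    have : y - cv = ((1 - t : ℝ) : ℂ) * (cu - cv) := by rw [hy]; push_cast; ring
    rw [this, norm_mul, Complex.norm_real, Real.norm_of_nonneg ht2]
    calc (1 - t) * ‖cu - cv‖ ≤ (1 - t) * (ru + rv) := by nlinarith
      _ = rv := ht1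
  have h3 : ‖y‖ < 1 := by
    have := cen_lt (hX u) (hρ u)
    calc ‖y‖ = ‖cu + (y - cu)‖ := by congr 1; ring
      _ ≤ ‖cu‖ + ‖y - cu‖ := norm_add_le _ _
      _ ≤ ‖cu‖ + ru := by linarith
      _ < 1 := this
  obtain ⟨Y, hY, hYy⟩ := poin_surj h3
  rw [← hYy] at h1 h2
  have b1 := (poin_mem (hX u) hY (hρ u)).1 h1
  have b2 := (poin_mem (hX v) hY (hρ v)).1 h2
  obtain ⟨k, j, a, b, hj, hv, hF, _⟩ := U_star_face h u hY b1
  have hvm := disc_face h hj hY b2 hF
  have hum : u ∈ verts k j := by rw [hv]; simp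
  have := face_tang h hj hum hvm huv
  exact hcon (le_of_eq this.symm)

end Pool.Agent.H776R2.Fatou
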