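import Pool.Agent.H776R2.Fatou.ExhA
import Pool.Agent.H776R2.Fatou.Comb
import Pool.Agent.H776R2.Fatou.Layout
import Pool.Agent.H776R2.Fatou.ConvT
import Pool.Agent.H776R2.Fatou.Tile
import Pool.Agent.H776R2.Fatou.DiscT

/-!
Task V: exhaustion and local finiteness.
-/

open Real

noncomputable section

namespace Pool.Agent.H776R2.Fatou

theorem V_bound_n (k : ℕ) (hk : 1 ≤ k) : k + 3 ≤ n k := by
  have := n_ge' k hk
  omega

theorem finite_discs {ρ : ℕ → ℝ} {X : ℕ → M3} (h : Lay ρ X) (T : ℝ) :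
    ∃ i0, ∀ i, i0 ≤ i → ∀ Y, IsH Y → B (X i) Y ≤ cosh (ρ i) → T < Y.1 :=
  V_finite_discs h (fun _ _ huv => discs_disjoint h huv) (lab_exp h.lab) T

theorem exhaust {ρ : ℕ → ℝ} {X : ℕ → M3} (h : Lay ρ X) (T : ℝ) :
    ∃ k0, 1 ≤ k0 ∧ ∀ k, k0 ≤ k → ∀ Y, IsH Y → Y.1 ≤ T → ∀ i, k ≤ i → i < n k →
      0 < det3 (X i) (X (nx k i)) Y :=
  V_exhaust h (fun _ _ huv => discs_disjoint h huv) (lab_exp h.lab) V_bound_n
    (fun k hk => (conv_hull h k hk).1) (fun _ _ hk h1 h2 => bd_edge hk h1 h2) T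

theorem exists_face {ρ : ℕ → ℝ} {X : ℕ → M3} (h : Lay ρ X) {Y : M3} (hY : IsH Y) :
    ∃ k j, j ≤ N k ∧ InF X k j Y := by
  obtain ⟨k0, hk0, hex⟩ := exhaust h Y.1
  obtain ⟨k', j, -, hj, hF⟩ := cover h hk0 hY
    (fun i h1 h2 => (hex k0 le_rfl Y hY le_rfl i h1 h2).le)
  exact ⟨k', j, hj, hF⟩

theorem loc_fin {ρ : ℕ → ℝ} {X : ℕ → M3} (h : Lay ρ X) (T : ℝ) :
    ∃ k0, ∀ k j, k0 ≤ k → j ≤ N k → ∀ Y, IsH Y → InF X k j Y → T < Y.1 := by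
  obtain ⟨k0, hk0, hex⟩ := exhaust h T
  refine ⟨k0, fun k j hk hj Y hY hF => ?_⟩
  by_contra hlt
  push Not at hlt
  have hk1 : 1 ≤ k := hk0.trans hk
  have hn := V_bound_n k hk1
  have h1 := hex k hk Y hY hlt k le_rfl (by omega)
  have h2 := hex k hk Y hY hlt (n k - 1) (by omega) (by omega)
  have e1 : nx k k = k + 1 := by
    unfold nx
    rw [if_neg (by omega)]
  have e2 : nx k (n k - 1) = k := by
    unfold nx
    rw [if_pos (by omega)]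
  rw [e1] at h1
  rw [e2] at h2
  rcases not_strict h hk1 hj hY hF with h3 | h3
  · linarith
  · linarith

theorem rad_zero {ρ : ℕ → ℝ} {X : ℕ → M3} (h : Lay ρ X) (ε : ℝ) (hε : 0 < ε) :
    ∃ i0, ∀ i, i0 ≤ i → rad (X i) (ρ i) < ε :=
  V_rad_zero h (fun _ _ huv => discs_disjoint h huv) ε hε

end Pool.Agent.H776R2.Fatou
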