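import Pool.Agent.H776R2.Fatou.Defs
import Pool.Agent.H776R2.Fatou.Mink
import Pool.Agent.H776R2.Fatou.Eucl

/-!
Task V, part A: exhaustion and local finiteness; the theorems of the other tasks which are used
are hypotheses.
-/

open Real

noncomputable section

namespace Pool.Agent.H776R2.Fatou

/-! ### the radii tend to zero -/

theorem V_rad_zero {ρ : ℕ → ℝ} {X : ℕ → M3} (h : Lay ρ X)
    (hdd : ∀ u v : ℕ, u ≠ v → cosh (ρ u + ρ v) ≤ B (X u) (X v)) (ε : ℝ) (hε : 0 < ε) :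
    ∃ i0, ∀ i, i0 ≤ i → rad (X i) (ρ i) < ε := by
  have hfin : {i : ℕ | ε ≤ rad (X i) (ρ i)}.Finite := by
    by_contra hinf
    have htb := (isCompact_closedBall (0:ℂ) 1).totallyBounded
    rw [Metric.totallyBounded_iff] at htb
    obtain ⟨t, ht, hcov⟩ := htb ε hε
    have hmem : ∀ i, ∃ y ∈ t, cen (X i) (ρ i) ∈ Metric.ball y ε := by
      intro i
      have h1 := cen_lt (h.isH i) (h.lab.pos i)
      have h2 := rad_pos (h.isH i) (h.lab.pos i)
      have h3 : cen (X i) (ρ i) ∈ Metric.closedBall (0:ℂ) 1 := by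
        rw [mem_closedBall_zero_iff]; linarith
      simpa using hcov h3
    choose f hft hfb using hmem
    obtain ⟨i, hi, j, hj, hij, hf⟩ := Set.Infinite.exists_ne_map_eq_of_mapsTo hinf (f := f)
      (t := t) (fun i _ => hft i) ht
    have h1 := (cen_disj (h.isH i) (h.isH j) (h.lab.pos i) (h.lab.pos j)).2 (hdd i j hij)
    have h2 : dist (cen (X i) (ρ i)) (cen (X j) (ρ j)) < ε + ε := by
      calc _ ≤ dist (cen (X i) (ρ i)) (f i) + dist (f i) (cen (X j) (ρ j)) := dist_triangle _ _ _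
        _ < ε + ε := by
          apply add_lt_add
          · exact hfb i
          · rw [hf, dist_comm]; exact hfb j
    rw [dist_eq_norm] at h2
    have hi' : ε ≤ rad (X i) (ρ i) := hi
    have hj' : ε ≤ rad (X j) (ρ j) := hj
    linarith
  obtain ⟨b, hb⟩ := hfin.bddAbove
  refine ⟨b + 1, fun i hi => ?_⟩
  by_contra hlt
  have := hb (show i ∈ {i : ℕ | ε ≤ rad (X i) (ρ i)} from not_lt.1 hlt)
  omega

/-! ### far discs are far -/

theorem V_time {X Y : M3} (hX : IsH X) (hY : IsH Y) : X.1 ≤ 2 * Y.1 * B X Y := by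
  obtain ⟨hx, hx1⟩ := D_isH hX
  obtain ⟨hy, hy1⟩ := D_isH hY
  have hc : (X.2.re * Y.2.re + X.2.im * Y.2.im) ^ 2 ≤ (X.1 ^ 2 - 1) * (Y.1 ^ 2 - 1) := by
    rw [← hx, ← hy]
    nlinarith [sq_nonneg (X.2.re * Y.2.im - X.2.im * Y.2.re)]
  unfold B
  set c := X.2.re * Y.2.re + X.2.im * Y.2.im
  set a := X.1
  set b := Y.1
  have h1 : (2 * b * c) ^ 2 ≤ (a * (2 * b ^ 2 - 1)) ^ 2 := by
    have h2 : 4 * b ^ 2 * c ^ 2 ≤ 4 * b ^ 2 * ((a ^ 2 - 1) * (b ^ 2 - 1)) :=
      mul_le_mul_of_nonneg_left hc (by positivity)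
    have h3 : 0 ≤ b ^ 2 * (b ^ 2 - 1) := mul_nonneg (sq_nonneg _) (by nlinarith)
    nlinarith [sq_nonneg a]
  have h2 : |2 * b * c| ≤ a * (2 * b ^ 2 - 1) :=
    abs_le_of_sq_le_sq h1 (mul_nonneg (by linarith) (by nlinarith))
  have h3 := (le_abs_self _).trans h2
  nlinarith

theorem V_cosh_le {r : ℝ} (h : exp (-r) ≤ 1 / 10 ^ 9) : cosh r ≤ 2 * sinh r := by
  have h1 : exp r * exp (-r) = 1 := by rw [← Real.exp_add]; simp
  have h0 : 0 < exp (-r) := Real.exp_pos _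
  have h2 : (10 ^ 9 : ℝ) ≤ exp r := by
    by_contra hlt
    push Not at hlt
    have : exp r * exp (-r) < 10 ^ 9 * (1 / 10 ^ 9) := by
      calc exp r * exp (-r) < 10 ^ 9 * exp (-r) := mul_lt_mul_of_pos_right hlt h0
        _ ≤ _ := mul_le_mul_of_nonneg_left h (by norm_num)
    rw [h1] at this
    norm_num at this
  rw [Real.cosh_eq, Real.sinh_eq]
  norm_num at h h2
  linarith

theorem V_finite_discs {ρ : ℕ → ℝ} {X : ℕ → M3} (h : Lay ρ X)
    (hdd : ∀ u v : ℕ, u ≠ v → cosh (ρ u + ρ v) ≤ B (X u) (X v))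
    (hexp : ∀ v, exp (-ρ v) ≤ 1 / 10 ^ 9) (T : ℝ) :
    ∃ i0, ∀ i, i0 ≤ i → ∀ Y, IsH Y → B (X i) Y ≤ cosh (ρ i) → T < Y.1 := by
  obtain ⟨i0, hi0⟩ := V_rad_zero h hdd (1 / (2 * (2 * |T| + 1))) (by positivity)
  refine ⟨i0, fun i hi Y hY hB => ?_⟩
  by_contra hlt
  push Not at hlt
  have hY1 : 1 ≤ Y.1 := (D_isH hY).2
  have hT : 1 ≤ T := hY1.trans hlt
  have hr := hi0 i hi
  rw [abs_of_nonneg (by linarith)] at hr
  have hc : cosh (ρ i) ≤ 2 * sinh (ρ i) := V_cosh_le (hexp i)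
  have hc0 : 0 < cosh (ρ i) := Real.cosh_pos _
  have hX1 : (X i).1 ≤ 2 * T * cosh (ρ i) := by
    refine (V_time (h.isH i) hY).trans ?_
    have hB0 : 1 ≤ B (X i) Y := one_le_B (h.isH i) hY
    calc 2 * Y.1 * B (X i) Y ≤ 2 * T * B (X i) Y :=
          mul_le_mul_of_nonneg_right (by linarith) (by linarith)
      _ ≤ _ := mul_le_mul_of_nonneg_left hB (by linarith)
  have hX0 : 0 < (X i).1 := (h.isH i).2
  unfold rad at hr
  rw [div_lt_div_iff₀ (by linarith) (by positivity)] at hr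
  nlinarith [mul_le_mul_of_nonneg_left hc (show 0 ≤ 2 * T + 1 by linarith)]

/-! ### linear algebra -/

theorem V_comb {a b c Z : M3} (hd : 0 < det3 a b c) (h0 : det3 a b Z = 0) :
    ∃ x y : ℝ, Z = x • a + y • b := by
  have hne : det3 a b c ≠ 0 := hd.ne'
  refine ⟨det3 Z b c / det3 a b c, det3 a Z c / det3 a b c, ?_⟩
  apply C_ext
  · have key : det3 a b c * Z.1 = det3 Z b c * a.1 + det3 a Z c * b.1 + det3 a b Z * c.1 := by
      unfold det3 cr
      ring
    rw [h0] at key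
    simp only [Prod.fst_add, Prod.smul_fst, smul_eq_mul]
    field_simp
    linarith
  · have key : det3 a b c * Z.2.re = det3 Z b c * a.2.re + det3 a Z c * b.2.re +
        det3 a b Z * c.2.re := by
      unfold det3 cr
      ring
    rw [h0] at key
    simp only [Prod.snd_add, Prod.smul_snd, Complex.add_re, Complex.real_smul, Complex.re_ofReal_mul]
    field_simp
    linarith
  · have key : det3 a b c * Z.2.im = det3 Z b c * a.2.im + det3 a Z c * b.2.im +
        det3 a b Z * c.2.im := by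
      unfold det3 cr
      ring
    rw [h0] at key
    simp only [Prod.snd_add, Prod.smul_snd, Complex.add_im, Complex.real_smul, Complex.im_ofReal_mul]
    field_simp
    linarith

theorem V_det_lin (u v a b : M3) (x y : ℝ) :
    det3 u v (x • a + y • b) = x * det3 u v a + y * det3 u v b := by
  unfold det3 cr
  simp only [Prod.snd_add, Prod.smul_snd, Complex.add_im, Complex.real_smul,
    Complex.im_ofReal_mul, Complex.add_re, Complex.re_ofReal_mul, Prod.fst_add, Prod.smul_fst,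
    smul_eq_mul]
  ring

theorem V_det_self1 (u v : M3) : det3 u v u = 0 := by
  unfold det3 cr
  ring

theorem V_det_self2 (u v : M3) : det3 u v v = 0 := by
  unfold det3 cr
  ring

theorem V_B_lin (u a b : M3) (x y : ℝ) : B u (x • a + y • b) = x * B u a + y * B u b := by
  unfold B
  simp only [Prod.snd_add, Prod.smul_snd, Complex.add_im, Complex.real_smul,
    Complex.im_ofReal_mul, Complex.add_re, Complex.re_ofReal_mul, Prod.fst_add, Prod.smul_fst,
    smul_eq_mul]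
  ring

theorem V_B_smul (u a : M3) (x : ℝ) : B u (x • a) = x * B u a := by
  have h := V_B_lin u a a x 0
  rwa [zero_smul, add_zero, zero_mul, add_zero] at h

theorem V_B_one (Y : M3) : B (1, 0) Y = Y.1 := by
  unfold B
  simp

/-- a segment is covered by the two discs -/
theorem V_seg {a b E : M3} (ha : IsH a) (hb : IsH b) (hE : IsH E) {r s : ℝ} (hr : 0 < r)
    (hs : 0 < s) (hab : B a b = cosh (r + s)) {x y : ℝ} (hx : 0 ≤ x) (hy : 0 ≤ y)
    (hxy : E = x • a + y • b) : B a E ≤ cosh r ∨ B b E ≤ cosh s := by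
  have hp : B a E = x + y * cosh (r + s) := by
    rw [hxy, V_B_lin, ha.1, hab]; ring
  have hq : B b E = x * cosh (r + s) + y := by
    rw [hxy, V_B_lin, hb.1, B_comm, hab]; ring
  have h1 : 1 = x ^ 2 + y ^ 2 + 2 * x * y * cosh (r + s) := by
    have h2 : B E E = x * B E a + y * B E b := by
      have h3 := V_B_lin E a b x y
      rwa [← hxy] at h3
    rw [hE.1, B_comm E a, B_comm E b, hp, hq] at h2
    linarith
  obtain ⟨θ, u, hθ, hu, hpt⟩ := polar ha hE
  have hpθ : B a E = cosh θ := by rw [hpt, B_pt ha hu]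
  have hS : 0 < sinh (r + s) := Real.sinh_pos_iff.2 (by linarith)
  have hCS : cosh (r + s) ^ 2 = sinh (r + s) ^ 2 + 1 := Real.cosh_sq _
  have hθS : cosh θ ^ 2 = sinh θ ^ 2 + 1 := Real.cosh_sq _
  have hsθ : 0 ≤ sinh θ := Real.sinh_nonneg_iff.2 hθ
  have hsin : sinh θ = y * sinh (r + s) := by
    have h3 : sinh θ ^ 2 = (y * sinh (r + s)) ^ 2 := by
      have h4 : cosh θ ^ 2 = (x + y * cosh (r + s)) ^ 2 := by rw [← hpθ, hp]
      nlinarith
    exact (pow_left_inj₀ hsθ (mul_nonneg hy hS.le) two_ne_zero).1 h3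
  have hqφ : B b E = cosh (r + s - θ) := by
    rw [Real.cosh_sub, hsin, ← hpθ, hp, hq]
    nlinarith
  have hφ : 0 ≤ r + s - θ := by
    have h3 : sinh (r + s - θ) * sinh (r + s) = x * sinh (r + s) ^ 2 := by
      have h4 : cosh θ = cosh ((r + s) - (r + s - θ)) := by congr 1; ring
      rw [Real.cosh_sub, ← hqφ, ← hpθ, hp, hq] at h4
      nlinarith
    have h5 : 0 ≤ sinh (r + s - θ) := by
      by_contra hneg
      push Not at hneg
      have h6 : sinh (r + s - θ) * sinh (r + s) < 0 := mul_neg_of_neg_of_pos hneg hS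
      have h7 : 0 ≤ x * sinh (r + s) ^ 2 := by positivity
      linarith
    exact Real.sinh_nonneg_iff.1 h5
  rcases le_or_gt θ r with h | h
  · left
    rw [hpθ, Real.cosh_le_cosh, abs_of_nonneg hθ, abs_of_pos hr]
    exact h
  · right
    rw [hqφ, Real.cosh_le_cosh, abs_of_nonneg hφ, abs_of_pos hs]
    linarith

theorem V_nx {k i : ℕ} (hk : k + 3 ≤ n k) (h1 : k ≤ i) (h2 : i < n k) :
    (∃ p, k ≤ p ∧ p < n k ∧ nx k p = i ∧ p ≠ i ∧ p ≠ nx k i) ∧ k ≤ nx k i ∧ nx k i < n k ∧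
      i ≠ nx k i ∧ i ≠ nx k (nx k i) := by
  refine ⟨⟨if i = k then n k - 1 else i - 1, ?_⟩, ?_⟩
  · unfold nx
    split_ifs <;> omega
  · unfold nx
    split_ifs <;> omega

theorem V_exhaust {ρ : ℕ → ℝ} {X : ℕ → M3} (h : Lay ρ X)
    (hdd : ∀ u v : ℕ, u ≠ v → cosh (ρ u + ρ v) ≤ B (X u) (X v))
    (hexp : ∀ v, exp (-ρ v) ≤ 1 / 10 ^ 9)
    (hn : ∀ k, 1 ≤ k → k + 3 ≤ n k)
    (hconv : ∀ k, 1 ≤ k → Conv X k)
    (hbd : ∀ k i : ℕ, 1 ≤ k → k ≤ i → i < n k →
      ∃ k' j, k' < k ∧ j ≤ N k' ∧ i = pet k' j ∧ nx k i = pet k' (j + 1)) (T : ℝ) :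
    ∃ k0, 1 ≤ k0 ∧ ∀ k, k0 ≤ k → ∀ Y, IsH Y → Y.1 ≤ T → ∀ i, k ≤ i → i < n k →
      0 < det3 (X i) (X (nx k i)) Y := by
  obtain ⟨i0, hi0⟩ := V_finite_discs h hdd hexp T
  refine ⟨max i0 1, le_max_right _ _, fun k hk Y hY hYT => ?_⟩
  have hk1 : 1 ≤ k := (le_max_right _ _).trans hk
  have hki : i0 ≤ k := (le_max_left _ _).trans hk
  have hC := hconv k hk1
  have hnk := hn k hk1
  by_contra hcon
  push Not at hcon
  obtain ⟨i₁, hi₁, hi₁', hbad⟩ := hcon
  have hY1 : 1 ≤ Y.1 := (D_isH hY).2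
  -- the values at (1,0) and at Y
  let f0 : ℕ → ℝ := fun i => det3 (X i) (X (nx k i)) (1, 0)
  let f1 : ℕ → ℝ := fun i => det3 (X i) (X (nx k i)) Y
  have hf0 : ∀ i, k ≤ i → i < n k → 0 < f0 i := by
    intro i h1 h2
    obtain ⟨-, h3, h4, -⟩ := V_nx hnk h1 h2
    have := hC i 0 h1 h2 (by omega) (by omega) (by omega)
    rw [h.zero] at this
    exact this
  let S : Finset ℕ := (Finset.Ico k (n k)).filter fun i => f1 i ≤ 0
  have hSne : S.Nonempty := ⟨i₁, by
    simp only [S, Finset.mem_filter, Finset.mem_Ico]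
    exact ⟨⟨hi₁, hi₁'⟩, hbad⟩⟩
  let τ : ℕ → ℝ := fun i => f0 i / (f0 i - f1 i)
  obtain ⟨i, hiS, hmin⟩ := Finset.exists_min_image S τ hSne
  have hi : (k ≤ i ∧ i < n k) ∧ f1 i ≤ 0 := by
    simpa only [S, Finset.mem_filter, Finset.mem_Ico] using hiS
  obtain ⟨⟨hi1, hi2⟩, hi3⟩ := hi
  set t := τ i with ht
  have hden : 0 < f0 i - f1 i := by linarith [hf0 i hi1 hi2]
  have ht0 : 0 < t := div_pos (hf0 i hi1 hi2) hden
  have ht1 : t ≤ 1 := by
    rw [ht]
    change f0 i / (f0 i - f1 i) ≤ 1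
    rw [div_le_one hden]
    linarith
  have hti : (1 - t) * f0 i + t * f1 i = 0 := by
    have : t * (f0 i - f1 i) = f0 i := by
      rw [ht]
      exact div_mul_cancel₀ _ hden.ne'
    linarith
  have htj : ∀ j, k ≤ j → j < n k → 0 ≤ (1 - t) * f0 j + t * f1 j := by
    intro j h1 h2
    have h0 := hf0 j h1 h2
    rcases lt_or_ge 0 (f1 j) with h3 | h3
    · exact add_nonneg (mul_nonneg (by linarith) h0.le) (mul_nonneg ht0.le h3.le)
    · have hjS : j ∈ S := by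
        simp only [S, Finset.mem_filter, Finset.mem_Ico]
        exact ⟨⟨h1, h2⟩, h3⟩
      have h4 := hmin j hjS
      have h5 : 0 < f0 j - f1 j := by linarith
      have h6 : t ≤ f0 j / (f0 j - f1 j) := h4
      rw [le_div_iff₀ h5] at h6
      linarith
  -- the point
  let Z : M3 := (1 - t) • ((1, 0) : M3) + t • Y
  have hdetZ : ∀ j, det3 (X j) (X (nx k j)) Z = (1 - t) * f0 j + t * f1 j := fun j =>
    V_det_lin _ _ _ _ _ _
  obtain ⟨⟨p, hp1, hp2, hp3, hp4, hp5⟩, hn1, hn2, hn3, hn4⟩ := V_nx hnk hi1 hi2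
  obtain ⟨x, y, hxy⟩ := V_comb (Z := Z) (hf0 i hi1 hi2) ((hdetZ i).trans hti)
  -- x, y ≥ 0
  have hx : 0 ≤ x := by
    have h1 := htj (nx k i) hn1 hn2
    rw [← hdetZ, hxy, V_det_lin, V_det_self1, mul_zero, add_zero] at h1
    have h2 := hC (nx k i) i hn1 hn2 hi2 hn3 hn4
    by_contra hneg
    push Not at hneg
    have := mul_neg_of_neg_of_pos hneg h2
    linarith
  have hy : 0 ≤ y := by
    have h1 := htj p hp1 hp2
    rw [← hdetZ, hxy, V_det_lin] at h1
    rw [hp3, V_det_self2, mul_zero, zero_add] at h1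
    have h2 := hC p (nx k i) hp1 hp2 hn2 hp5.symm (by rw [hp3]; exact hn3.symm)
    rw [hp3] at h2
    by_contra hneg
    push Not at hneg
    have := mul_neg_of_neg_of_pos hneg h2
    linarith
  -- normalisation
  have hZ1 : Z.1 = (1 - t) + t * Y.1 := by
    simp only [Z, Prod.fst_add, Prod.smul_fst, smul_eq_mul]
    ring
  have hZge : 1 ≤ Z.1 := by rw [hZ1]; nlinarith
  have hZle : Z.1 ≤ T := by rw [hZ1]; nlinarith
  have hBZ : B Z Z = (1 - t) ^ 2 + 2 * t * (1 - t) * Y.1 + t ^ 2 := by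
    have e1 : B Z Z = (1 - t) * B Z (1, 0) + t * B Z Y := V_B_lin _ _ _ _ _
    have e2 : B Z (1, 0) = Z.1 := by rw [B_comm, V_B_one]
    have e3 : B Z Y = (1 - t) * Y.1 + t := by
      rw [B_comm]
      have : B Y Z = (1 - t) * B Y (1, 0) + t * B Y Y := V_B_lin _ _ _ _ _
      rw [this, B_comm Y, V_B_one, hY.1]
      ring
    rw [e1, e2, e3, hZ1]
    ring
  have hBge : 1 ≤ B Z Z := by
    rw [hBZ]
    nlinarith [mul_nonneg (mul_nonneg ht0.le (by linarith : 0 ≤ 1 - t)) (by linarith : 0 ≤ Y.1 - 1)]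
  set β := Real.sqrt (B Z Z) with hβ
  have hβ1 : 1 ≤ β := by rw [hβ, Real.one_le_sqrt]; exact hBge
  have hβ2 : β ^ 2 = B Z Z := Real.sq_sqrt (by linarith)
  let E : M3 := β⁻¹ • Z
  have hE1 : E.1 = β⁻¹ * Z.1 := rfl
  have hβi : β⁻¹ ≤ 1 := inv_le_one_of_one_le₀ hβ1
  have hβp : 0 < β⁻¹ := inv_pos.2 (by linarith)
  have hE : IsH E := by
    constructor
    · have e1 : B E E = β⁻¹ * B E Z := V_B_smul E Z β⁻¹
      have e2 : B Z E = β⁻¹ * B Z Z := V_B_smul Z Z β⁻¹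
      rw [e1, B_comm E Z, e2, ← hβ2]
      field_simp
    · rw [hE1]
      exact mul_pos hβp (by linarith)
  have hET : E.1 ≤ T := by
    rw [hE1]
    calc β⁻¹ * Z.1 ≤ 1 * Z.1 := mul_le_mul_of_nonneg_right hβi (by linarith)
      _ ≤ T := by linarith
  have hExy : E = (β⁻¹ * x) • X i + (β⁻¹ * y) • X (nx k i) := by
    change β⁻¹ • Z = _
    rw [hxy, smul_add, smul_smul, smul_smul]
  obtain ⟨k', j, hk', hj, hij, hij'⟩ := hbd k i hk1 hi1 hi2
  have htan : B (X i) (X (nx k i)) = cosh (ρ i + ρ (nx k i)) := by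
    have := (h.face k' j hj).2.1
    rw [← hij, ← hij'] at this
    exact this
  rcases V_seg (h.isH i) (h.isH (nx k i)) hE (h.lab.pos i) (h.lab.pos (nx k i)) htan
    (mul_nonneg hβp.le hx) (mul_nonneg hβp.le hy) hExy with h1 | h1
  · have := hi0 i (by omega) E hE h1
    linarith
  · have := hi0 (nx k i) (by omega) E hE h1
    linarith

end Pool.Agent.H776R2.Fatou
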