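import Pool.Agent.H776R2.Fatou.Defs

/-!
# Discrete Fatou theorem: definitions of the final statement

Combinatorial open discs, circle packings, the maximal packing, nontangential convergence.
-/

open Real Filter Topology

noncomputable section

namespace Pool.Agent.H776R2.Fatou

/-- An oriented 2-complex with vertex set `V`, given by its positively oriented faces `(a,b,c)`
(closed under cyclic rotation); its edges are the pairs contained in faces. -/
structure Cx (V : Type) where
  face : V → V → V → Prop
  rot : ∀ {a b c}, face a b c → face b c a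

variable {V : Type}

/-- the closed straight triangle with vertices `z a, z b, z c` -/
def tri (z : V → ℂ) (a b c : V) : Set ℂ := convexHull ℝ {z a, z b, z c}

/-- `K` is a combinatorial open disc: it is the complex of a locally finite triangulation of the
open unit disc by (positively oriented) triangles. -/
def Cx.IsOpenDisc (K : Cx V) : Prop :=
  ∃ z : V → ℂ, Function.Injective z ∧
    (∀ v, ∃ a b, K.face v a b) ∧
    (∀ a b c, K.face a b c → 0 < ((z b - z a).re * (z c - z a).im - (z b - z a).im * (z c - z a).re)) ∧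
    (∀ a b c a' b' c', K.face a b c → K.face a' b' c' →
      tri z a b c ∩ tri z a' b' c' = convexHull ℝ (z '' (({a, b, c} : Set V) ∩ {a', b', c'}))) ∧
    {w : ℂ | ∃ a b c, K.face a b c ∧ w ∈ tri z a b c} = Metric.ball 0 1 ∧
    (∀ s : ℝ, s < 1 → {p : V × V × V | K.face p.1 p.2.1 p.2.2 ∧
      (tri z p.1 p.2.1 p.2.2 ∩ Metric.closedBall 0 s).Nonempty}.Finite)

/-- `(c, r)` (centres and radii) is a circle packing for `K`: circles of adjacent vertices are
externally tangent and positively oriented faces give positively oriented triples. -/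
structure Cx.IsPacking (K : Cx V) (c : V → ℂ) (r : V → ℝ) : Prop where
  pos : ∀ v, 0 < r v
  tangent : ∀ a b d, K.face a b d → ‖c a - c b‖ = r a + r b
  orient : ∀ a b d, K.face a b d →
    0 < ((c b - c a).re * (c d - c a).im - (c b - c a).im * (c d - c a).re)

/-- the closed interstice of three mutually tangent circles -/
def interstice (c : V → ℂ) (r : V → ℝ) (a b d : V) : Set ℂ :=
  {w | w ∈ tri c a b d ∧ r a ≤ ‖w - c a‖ ∧ r b ≤ ‖w - c b‖ ∧ r d ≤ ‖w - c d‖}

/-- `(c, r)` is the maximal packing of `K`: a univalent packing (the open discs are pairwise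
disjoint) whose carrier (the union of the closed discs and of the interstices of the faces) is the
open unit disc. -/
structure Cx.IsMaximal (K : Cx V) (c : V → ℂ) (r : V → ℝ) : Prop where
  packing : K.IsPacking c r
  univalent : ∀ u v, u ≠ v → Disjoint (Metric.ball (c u) (r u)) (Metric.ball (c v) (r v))
  carrier : (⋃ v, Metric.closedBall (c v) (r v)) ∪
    {w | ∃ a b d, K.face a b d ∧ w ∈ interstice c r a b d} = Metric.ball 0 1

/-- nontangential convergence of a sequence in the unit disc to the point `ζ` of the circle -/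
def Nontangential (Z : ℕ → ℂ) (ζ : ℂ) : Prop :=
  Tendsto Z atTop (𝓝 ζ) ∧ ∃ M : ℝ, ∀ j, ‖ζ - Z j‖ ≤ M * (1 - ‖Z j‖)

/-- The spiral complex. -/
def Kf : Cx ℕ where
  face a b c := ∃ k j, j ≤ N k ∧
    ((a = k ∧ b = pet k j ∧ c = pet k (j + 1)) ∨
     (a = pet k j ∧ b = pet k (j + 1) ∧ c = k) ∨
     (a = pet k (j + 1) ∧ b = k ∧ c = pet k j))
  rot := by
    rintro a b c ⟨k, j, hj, h | h | h⟩
    · exact ⟨k, j, hj, Or.inr (Or.inl ⟨h.2.1, h.2.2, h.1⟩)⟩
    · exact ⟨k, j, hj, Or.inr (Or.inr ⟨h.2.1, h.2.2, h.1⟩)⟩
    · exact ⟨k, j, hj, Or.inl ⟨h.2.1, h.2.2, h.1⟩⟩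

end Pool.Agent.H776R2.Fatou
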