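import Pool.Agent.H776R2.Fatou.Defs

/-!
# Task P1: closing a flower with equal small circles (euclidean)
-/

open Real

noncomputable section

namespace Pool.Agent.H776R2.Fatou

/-- the argument of the square root in `angE` -/
theorem P1_x_pos {r a b : ℝ} (hr : 0 < r) (ha : 0 < a) (hb : 0 < b) :
    0 < a * b / ((r + a) * (r + b)) := by positivity

theorem P1_x_lt {r a b : ℝ} (hr : 0 < r) (ha : 0 < a) (hb : 0 < b) :
    a * b / ((r + a) * (r + b)) < 1 := by
  rw [div_lt_one (by positivity)]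
  nlinarith [mul_pos hr ha, mul_pos hr hb, mul_pos ha hb]

theorem P1_sin_half {r a b : ℝ} (hr : 0 < r) (ha : 0 < a) (hb : 0 < b) :
    sin (angE r a b / 2) ^ 2 = a * b / ((r + a) * (r + b)) := by
  have h1 := P1_x_pos hr ha hb
  have h2 := P1_x_lt hr ha hb
  unfold angE
  rw [mul_div_cancel_left₀ _ (two_ne_zero), sin_arcsin, sq_sqrt h1.le]
  · linarith [sqrt_nonneg (a * b / ((r + a) * (r + b)))]
  · rw [sqrt_le_one]
    exact h2.le

theorem P1_cos {r a b : ℝ} (hr : 0 < r) (ha : 0 < a) (hb : 0 < b) :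
    cos (angE r a b) = 1 - 2 * (a * b / ((r + a) * (r + b))) := by
  have h := P1_sin_half hr ha hb
  have h2 : cos (angE r a b) = cos (2 * (angE r a b / 2)) := by
    congr 1; ring
  rw [h2, cos_two_mul, cos_sq']
  rw [h]; ring

theorem P1_ang_pos {r a b : ℝ} (hr : 0 < r) (ha : 0 < a) (hb : 0 < b) : 0 < angE r a b := by
  unfold angE
  have : 0 < arcsin (sqrt (a * b / ((r + a) * (r + b)))) :=
    arcsin_pos.mpr (sqrt_pos.mpr (P1_x_pos hr ha hb))
  linarith

theorem P1_ang_lt_pi {r a b : ℝ} (hr : 0 < r) (ha : 0 < a) (hb : 0 < b) : angE r a b < π := by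
  unfold angE
  have h1 : sqrt (a * b / ((r + a) * (r + b))) < 1 := by
    rw [sqrt_lt' one_pos]
    simpa using P1_x_lt hr ha hb
  have : arcsin (sqrt (a * b / ((r + a) * (r + b)))) < π / 2 := arcsin_lt_pi_div_two.mpr h1
  linarith

theorem P1_dist {P : ℂ} (hP : ‖P‖ = 1) {r a b : ℝ} (hr : 0 < r) (ha : 0 < a) (hb : 0 < b) :
    ‖((r + b : ℝ) : ℂ) * (P * Complex.exp (Complex.I * (angE r a b : ℝ))) -
      ((r + a : ℝ) : ℂ) * P‖ = a + b := by
  have e : ((r + b : ℝ) : ℂ) * (P * Complex.exp (Complex.I * (angE r a b : ℝ))) -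
      ((r + a : ℝ) : ℂ) * P = P * (((r + b : ℝ) : ℂ) * Complex.exp (Complex.I * (angE r a b : ℝ)) -
        ((r + a : ℝ) : ℂ)) := by ring
  rw [e, norm_mul, hP, one_mul]
  have hsq : ‖((r + b : ℝ) : ℂ) * Complex.exp (Complex.I * (angE r a b : ℝ)) -
        ((r + a : ℝ) : ℂ)‖ ^ 2 = (a + b) ^ 2 := by
    rw [← Complex.normSq_eq_norm_sq, Complex.normSq_apply, mul_comm Complex.I,
      Complex.exp_mul_I, ← Complex.ofReal_cos, ← Complex.ofReal_sin]
    simp only [Complex.sub_re, Complex.sub_im, Complex.mul_re, Complex.mul_im, Complex.add_re,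
      Complex.add_im, Complex.ofReal_re, Complex.ofReal_im, Complex.I_re, Complex.I_im]
    have hc := P1_cos hr ha hb
    have hs := sin_sq_add_cos_sq (angE r a b)
    set s := sin (angE r a b)
    set c := cos (angE r a b)
    have h1 : (r + a) * (r + b) * c = (r + a) * (r + b) - 2 * (a * b) := by
      rw [hc]
      field_simp
    have h2 : ((r + b) * s) ^ 2 = (r + b) ^ 2 - ((r + b) * c) ^ 2 := by
      have : s ^ 2 = 1 - c ^ 2 := by linarith
      rw [mul_pow, this]; ring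
    nlinarith [h1, h2]
  have h0 : 0 ≤ a + b := by positivity
  exact (sq_eq_sq₀ (norm_nonneg _) h0).mp hsq

theorem P1_cr {P : ℂ} (hP : ‖P‖ = 1) {r a b : ℝ} (hr : 0 < r) (ha : 0 < a) (hb : 0 < b) :
    0 < cr (((r + a : ℝ) : ℂ) * P)
      (((r + b : ℝ) : ℂ) * (P * Complex.exp (Complex.I * (angE r a b : ℝ)))) := by
  have hs : 0 < sin (angE r a b) := sin_pos_of_pos_of_lt_pi (P1_ang_pos hr ha hb)
    (P1_ang_lt_pi hr ha hb)
  have hP2 : P.re * P.re + P.im * P.im = 1 := by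
    rw [← Complex.normSq_apply, Complex.normSq_eq_norm_sq, hP]; norm_num
  unfold cr
  rw [mul_comm Complex.I, Complex.exp_mul_I, ← Complex.ofReal_cos, ← Complex.ofReal_sin]
  simp only [Complex.mul_re, Complex.mul_im, Complex.add_re,
      Complex.add_im, Complex.ofReal_re, Complex.ofReal_im, Complex.I_re, Complex.I_im]
  set s := sin (angE r a b)
  set c := cos (angE r a b)
  have e : 0 < (r + a) * (r + b) * s := by positivity
  have e2 : (r + a) * (r + b) * s = (r + a) * (r + b) * s * (P.re * P.re + P.im * P.im) := by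
    rw [hP2, mul_one]
  rw [e2] at e
  refine lt_of_lt_of_eq e ?_
  ring

/-- total angle -/
def P1_S (r₀ rl rr : ℝ) (M : ℕ) (t : ℝ) : ℝ :=
  angE r₀ rl t + ((M : ℝ) - 1) * angE r₀ t t + angE r₀ t rr

theorem P1_cont {r₀ : ℝ} (h0 : 0 < r₀) {f g : ℝ → ℝ} (hf : Continuous f) (hg : Continuous g)
    (hf0 : ∀ t, 0 ≤ t → 0 ≤ f t) (hg0 : ∀ t, 0 ≤ t → 0 ≤ g t) :
    ContinuousOn (fun t => angE r₀ (f t) (g t)) (Set.Ici 0) := by
  unfold angE
  refine continuousOn_const.mul ?_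
  refine continuous_arcsin.comp_continuousOn ?_
  refine continuous_sqrt.comp_continuousOn ?_
  refine ContinuousOn.div (hf.mul hg).continuousOn
    ((continuous_const.add hf).mul (continuous_const.add hg)).continuousOn ?_
  intro t ht
  have h1 := hf0 t ht
  have h2 := hg0 t ht
  positivity

theorem P1_exists (r₀ rl rr : ℝ) (h0 : 0 < r₀) (hl : 0 < rl) (hr : 0 < rr) (M : ℕ) (hM : 64 ≤ M)
    (Φ : ℝ) (hΦ : 0 < Φ) (hΦ2 : Φ ≤ 2 * π) :
    ∃ t : ℝ, 0 < t ∧ t ≤ r₀ / 8 ∧ P1_S r₀ rl rr M t = Φ := by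
  have hcont : ContinuousOn (P1_S r₀ rl rr M) (Set.Icc 0 (r₀ / 8)) := by
    refine ContinuousOn.mono ?_ (Set.Icc_subset_Ici_self)
    unfold P1_S
    refine ((P1_cont h0 continuous_const continuous_id (fun _ _ => hl.le) (fun _ h => h)).add
      (continuousOn_const.mul (P1_cont h0 continuous_id continuous_id (fun _ h => h)
        (fun _ h => h)))).add
      (P1_cont h0 continuous_id continuous_const (fun _ h => h) (fun _ _ => hr.le))
  have hS0 : P1_S r₀ rl rr M 0 = 0 := by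
    unfold P1_S angE
    simp
  have hMr : (64 : ℝ) ≤ M := by exact_mod_cast hM
  have ht8 : 0 < r₀ / 8 := by positivity
  have hS1 : 2 * π ≤ P1_S r₀ rl rr M (r₀ / 8) := by
    unfold P1_S
    have a1 := P1_ang_pos h0 hl ht8
    have a2 := P1_ang_pos h0 ht8 hr
    have e1 : r₀ / 8 * (r₀ / 8) / ((r₀ + r₀ / 8) * (r₀ + r₀ / 8)) = (1 / 9 : ℝ) ^ 2 := by
      field_simp
      norm_num
    have a3 : (2 / 9 : ℝ) ≤ angE r₀ (r₀ / 8) (r₀ / 8) := by
      unfold angE
      rw [e1, sqrt_sq (by norm_num)]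
      have : (1 / 9 : ℝ) ≤ arcsin (1 / 9) := by
        rw [le_arcsin_iff_sin_le']
        · exact sin_le (by norm_num)
        · constructor
          · linarith [pi_gt_three]
          · linarith [pi_gt_three]
      linarith
    have a4 : (63 : ℝ) * (2 / 9) ≤ ((M : ℝ) - 1) * angE r₀ (r₀ / 8) (r₀ / 8) := by
      have : (63 : ℝ) ≤ (M : ℝ) - 1 := by linarith
      exact mul_le_mul this a3 (by norm_num) (by linarith)
    linarith [pi_lt_four]
  have hmem : Φ ∈ Set.Icc (P1_S r₀ rl rr M 0) (P1_S r₀ rl rr M (r₀ / 8)) :=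
    ⟨by rw [hS0]; exact hΦ.le, hΦ2.trans hS1⟩
  obtain ⟨t, ht, hSt⟩ := intermediate_value_Icc ht8.le hcont hmem
  refine ⟨t, ?_, ht.2, hSt⟩
  rcases eq_or_lt_of_le ht.1 with h | h
  · rw [← h, hS0] at hSt
    linarith
  · exact h

/-- `c₀` centre and `r₀` radius of the circle whose flower is closed; `cl, rl` the left
neighbour, `cr', rr` the right one. There are `M` equal circles of radius `t ≤ r₀/8` filling the
gap counterclockwise from the left to the right neighbour. `c 0 = cl`, `c (M+1) = cr'`. -/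
theorem fan (c₀ cl cr' : ℂ) (r₀ rl rr : ℝ) (h0 : 0 < r₀) (hl : 0 < rl) (hr : 0 < rr)
    (hcl : ‖cl - c₀‖ = r₀ + rl) (hcr : ‖cr' - c₀‖ = r₀ + rr) (M : ℕ) (hM : 64 ≤ M) :
    ∃ (t : ℝ) (c : ℕ → ℂ) (r : ℕ → ℝ), 0 < t ∧ t ≤ r₀ / 8 ∧ c 0 = cl ∧ r 0 = rl ∧
      c (M + 1) = cr' ∧ r (M + 1) = rr ∧ (∀ j, 1 ≤ j → j ≤ M → r j = t) ∧
      (∀ j, j ≤ M + 1 → ‖c j - c₀‖ = r₀ + r j) ∧
      (∀ j, j ≤ M → ‖c (j + 1) - c j‖ = r j + r (j + 1)) ∧
      (∀ j, j ≤ M → 0 < cr (c j - c₀) (c (j + 1) - c₀)) := by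
  have hAl : 0 < r₀ + rl := by positivity
  have hAr : 0 < r₀ + rr := by positivity
  set ul : ℂ := (cl - c₀) / ((r₀ + rl : ℝ) : ℂ) with hul
  set ur : ℂ := (cr' - c₀) / ((r₀ + rr : ℝ) : ℂ) with hur
  have hAl' : ((r₀ + rl : ℝ) : ℂ) ≠ 0 := by exact_mod_cast hAl.ne'
  have hAr' : ((r₀ + rr : ℝ) : ℂ) ≠ 0 := by exact_mod_cast hAr.ne'
  have hul1 : ‖ul‖ = 1 := by
    rw [hul, norm_div, hcl, Complex.norm_real, Real.norm_of_nonneg hAl.le, div_self hAl.ne']
  have hur1 : ‖ur‖ = 1 := by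
    rw [hur, norm_div, hcr, Complex.norm_real, Real.norm_of_nonneg hAr.le, div_self hAr.ne']
  have hul0 : ul ≠ 0 := by
    intro h; rw [h, norm_zero] at hul1; norm_num at hul1
  set w : ℂ := ur / ul with hw
  have hw1 : ‖w‖ = 1 := by rw [hw, norm_div, hul1, hur1, div_one]
  -- the angle
  obtain ⟨Φ, hΦ, hΦ2, hΦw⟩ : ∃ Φ : ℝ, 0 < Φ ∧ Φ ≤ 2 * π ∧ Complex.exp (Complex.I * (Φ : ℝ)) = w := by
    have harg : Complex.exp (Complex.I * (Complex.arg w : ℝ)) = w := by
      have := Complex.norm_mul_exp_arg_mul_I w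
      rw [hw1, Complex.ofReal_one, one_mul, mul_comm] at this
      exact this
    have h1 := Complex.neg_pi_lt_arg w
    have h2 := Complex.arg_le_pi w
    have hpi := pi_pos
    rcases lt_or_ge 0 (Complex.arg w) with h | h
    · exact ⟨Complex.arg w, h, by linarith, harg⟩
    · refine ⟨Complex.arg w + 2 * π, by linarith, by linarith, ?_⟩
      have e : Complex.I * ((Complex.arg w + 2 * π : ℝ) : ℂ) =
          Complex.I * (Complex.arg w : ℝ) + 2 * π * Complex.I := by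
        push_cast; ring
      rw [e, Complex.exp_add, Complex.exp_two_pi_mul_I, mul_one, harg]
  obtain ⟨t, ht0, ht8, hSt⟩ := P1_exists r₀ rl rr h0 hl hr M hM Φ hΦ hΦ2
  -- radii
  set r : ℕ → ℝ := fun j => if j = 0 then rl else if j ≤ M then t else rr with hrdef
  have hrpos : ∀ j, 0 < r j := by
    intro j
    simp only [hrdef]
    split_ifs <;> assumption
  have r0 : r 0 = rl := by simp [hrdef]
  have rM : r (M + 1) = rr := by simp [hrdef]
  have rj : ∀ j, 1 ≤ j → j ≤ M → r j = t := by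
    intro j h1 h2
    simp only [hrdef]
    rw [if_neg (by omega), if_pos h2]
  -- angles
  set φ : ℕ → ℝ := fun j => ∑ i ∈ Finset.range j, angE r₀ (r i) (r (i + 1)) with hφdef
  have φ0 : φ 0 = 0 := by simp [hφdef]
  have φs : ∀ j, φ (j + 1) = φ j + angE r₀ (r j) (r (j + 1)) := by
    intro j
    simp only [hφdef]
    rw [Finset.sum_range_succ]
  have φj : ∀ m, m + 1 ≤ M → φ (m + 1) = angE r₀ rl t + (m : ℝ) * angE r₀ t t := by
    intro m
    induction m with
    | zero =>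
      intro h
      rw [φs, φ0, r0, rj 1 le_rfl h]
      simp
    | succ m ih =>
      intro h
      rw [φs, ih (by omega), rj (m + 1) (by omega) (by omega), rj (m + 1 + 1) (by omega) h]
      push_cast
      ring
  have φM : φ (M + 1) = Φ := by
    obtain ⟨m, rfl⟩ : ∃ m, M = m + 1 := ⟨M - 1, by omega⟩
    rw [φs, φj m le_rfl, rM, rj (m + 1) (by omega) le_rfl, ← hSt]
    unfold P1_S
    push_cast
    ring
  set c : ℕ → ℂ := fun j => c₀ + ((r₀ + r j : ℝ) : ℂ) * (ul * Complex.exp (Complex.I * (φ j : ℝ)))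
    with hcdef
  have hc : ∀ j, c j - c₀ = ((r₀ + r j : ℝ) : ℂ) * (ul * Complex.exp (Complex.I * (φ j : ℝ))) := by
    intro j
    simp only [hcdef]
    ring
  have hunit : ∀ j, ‖ul * Complex.exp (Complex.I * (φ j : ℝ))‖ = 1 := by
    intro j
    rw [norm_mul, hul1, mul_comm Complex.I, Complex.norm_exp_ofReal_mul_I, one_mul]
  have hstep : ∀ j, c (j + 1) - c₀ = ((r₀ + r (j + 1) : ℝ) : ℂ) *
      ((ul * Complex.exp (Complex.I * (φ j : ℝ))) *
        Complex.exp (Complex.I * (angE r₀ (r j) (r (j + 1)) : ℝ))) := by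
    intro j
    rw [hc, φs]
    have e : Complex.I * ((φ j + angE r₀ (r j) (r (j + 1)) : ℝ) : ℂ) =
        Complex.I * (φ j : ℝ) + Complex.I * (angE r₀ (r j) (r (j + 1)) : ℝ) := by
      push_cast; ring
    rw [e, Complex.exp_add]
    ring
  refine ⟨t, c, r, ht0, ht8, ?_, r0, ?_, rM, rj, ?_, ?_, ?_⟩
  · simp only [hcdef]
    rw [r0, φ0]
    simp only [Complex.ofReal_zero, mul_zero, Complex.exp_zero, mul_one]
    rw [hul, mul_div_cancel₀ _ hAl']
    ring
  · simp only [hcdef]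
    rw [rM, φM, hΦw, hw, mul_div_cancel₀ _ hul0, hur, mul_div_cancel₀ _ hAr']
    ring
  · intro j _
    rw [hc, norm_mul, hunit, mul_one, Complex.norm_real, Real.norm_of_nonneg]
    have := hrpos j
    positivity
  · intro j _
    have e : c (j + 1) - c j = (c (j + 1) - c₀) - (c j - c₀) := by ring
    rw [e, hstep, hc]
    exact P1_dist (hunit j) h0 (hrpos j) (hrpos (j + 1))
  · intro j _
    rw [hstep, hc]
    exact P1_cr (hunit j) h0 (hrpos j) (hrpos (j + 1))

end Pool.Agent.H776R2.Fatou
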