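import Pool.Agent.H776R2.Fatou.Defs
import Pool.Agent.H776R2.Fatou.Ang

/-!
# Discrete Fatou theorem (MP_3555ad_an), task B: existence of hyperbolic labels
-/

open Real

noncomputable section

namespace Pool.Agent.H776R2.Fatou

/-- angle sum at `v` with radius `r` -/
def B_S (P : ℕ → List (ℕ × ℕ)) (v : ℕ) (r : ℝ) (ρ : ℕ → ℝ) : ℝ :=
  ((P v).map fun pq => ang r (ρ pq.1) (ρ pq.2)).sum

theorem B_sum_le (l : List (ℕ × ℕ)) (f g : ℕ × ℕ → ℝ) (h : ∀ x ∈ l, f x ≤ g x) :
    (l.map f).sum ≤ (l.map g).sum := List.sum_le_sum h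

theorem B_sum_le_const (l : List (ℕ × ℕ)) (f : ℕ × ℕ → ℝ) (c : ℝ) (h : ∀ x ∈ l, f x ≤ c) :
    (l.map f).sum ≤ l.length * c := by
  refine (B_sum_le l f (fun _ => c) h).trans (le_of_eq ?_)
  simp

theorem B_const_le_sum (l : List (ℕ × ℕ)) (f : ℕ × ℕ → ℝ) (c : ℝ) (h : ∀ x ∈ l, c ≤ f x) :
    l.length * c ≤ (l.map f).sum := by
  refine (le_of_eq ?_).trans (B_sum_le l (fun _ => c) f h)
  simp

theorem B_mono (P : ℕ → List (ℕ × ℕ)) (v : ℕ) {r : ℝ} (hr : 0 < r) {ρ ρ' : ℕ → ℝ}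
    (hρ : ∀ w, 0 < ρ w) (h : ∀ w, ρ w ≤ ρ' w) : B_S P v r ρ ≤ B_S P v r ρ' :=
  B_sum_le _ _ _ fun _ _ => ang_mono hr (hρ _) (hρ _) (h _) (h _)

theorem B_cont (P : ℕ → List (ℕ × ℕ)) (v : ℕ) {ρ : ℕ → ℝ} (hρ : ∀ w, 0 < ρ w) :
    ContinuousOn (fun r => B_S P v r ρ) (Set.Ioi 0) := by
  unfold B_S
  induction P v with
  | nil => simpa using continuousOn_const
  | cons a l ih =>
    simp only [List.map_cons, List.sum_cons]
    exact (ang_cont (hρ _) (hρ _)).add ih

theorem label_exists (P : ℕ → List (ℕ × ℕ)) (hP : ∀ v, 100 ≤ (P v).length) :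
    ∃ ρ : ℕ → ℝ, (∀ v, 0 < ρ v) ∧ (∀ v, exp (-ρ v) ≤ 2 * sin (π / ((P v).length : ℝ))) ∧
      ∀ v, ((P v).map fun pq => ang (ρ v) (ρ pq.1) (ρ pq.2)).sum = 2 * π := by
  have hd : ∀ v, (100 : ℝ) ≤ ((P v).length : ℝ) := fun v => by exact_mod_cast hP v
  have hd0 : ∀ v, (0 : ℝ) < ((P v).length : ℝ) := fun v => by linarith [hd v]
  have hx0 : ∀ v, 0 < π / ((P v).length : ℝ) := fun v => div_pos pi_pos (hd0 v)
  have hx1 : ∀ v, π / ((P v).length : ℝ) ≤ 1 / 25 := by
    intro v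
    rw [div_le_iff₀ (hd0 v)]
    have := hd v
    have h4 := pi_le_four
    linarith
  have hs0 : ∀ v, 0 < sin (π / ((P v).length : ℝ)) := fun v =>
    sin_pos_of_pos_of_lt_pi (hx0 v) (by
      have := hx1 v
      have := pi_gt_three
      linarith)
  have hs1 : ∀ v, sin (π / ((P v).length : ℝ)) ≤ 1 / 25 := fun v =>
    (sin_lt (hx0 v)).le.trans (hx1 v)
  obtain ⟨lo, hlo⟩ : ∃ lo : ℕ → ℝ, lo = fun v => -log (2 * sin (π / ((P v).length : ℝ))) :=
    ⟨_, rfl⟩
  obtain ⟨hi, hhi⟩ : ∃ hi : ℕ → ℝ, hi = fun v => -log (sin (π / ((P v).length : ℝ))) :=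
    ⟨_, rfl⟩
  have elo : ∀ v, exp (-lo v) = 2 * sin (π / ((P v).length : ℝ)) := by
    intro v
    rw [hlo]
    simp only [neg_neg]
    exact exp_log (by linarith [hs0 v])
  have ehi : ∀ v, exp (-hi v) = sin (π / ((P v).length : ℝ)) := by
    intro v
    rw [hhi]
    simp only [neg_neg]
    exact exp_log (hs0 v)
  have lopos : ∀ v, 0 < lo v := by
    intro v
    have h1 : exp (-lo v) < exp 0 := by
      rw [elo, exp_zero]
      linarith [hs1 v]
    have := exp_lt_exp.1 h1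
    linarith
  have lolt : ∀ v, lo v < hi v := by
    intro v
    have h1 : exp (-hi v) < exp (-lo v) := by
      rw [elo, ehi]
      linarith [hs0 v]
    have := exp_lt_exp.1 h1
    linarith
  have lohalf : ∀ v, exp (-2 * lo v) ≤ 1 / 2 := by
    intro v
    have h1 : exp (-2 * lo v) = exp (-lo v) * exp (-lo v) := by
      rw [← exp_add]
      congr 1
      ring
    rw [h1, elo]
    have := hs0 v
    have := hs1 v
    nlinarith
  have half : ∀ v r, lo v ≤ r → exp (-2 * r) ≤ 1 / 2 := fun v r h =>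
    (exp_le_exp.2 (by linarith)).trans (lohalf v)
  -- angle sums at the lower and upper ends
  have hasin : ∀ v, arcsin (sin (π / ((P v).length : ℝ))) = π / ((P v).length : ℝ) := fun v =>
    arcsin_sin (by linarith [hx0 v, pi_pos]) (by
      have := hx1 v
      have := pi_gt_three
      linarith)
  have Slo : ∀ v, ∀ ρ : ℕ → ℝ, (∀ w, lo w ≤ ρ w) → 2 * π ≤ B_S P v (lo v) ρ := by
    intro v ρ hρ
    refine le_trans (le_of_eq ?_) (B_const_le_sum (P v) _ (2 * (π / ((P v).length : ℝ))) ?_)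
    · field_simp [(hd0 v).ne']
    · intro x _
      have := ang_ge (lopos v) ((lopos x.1).trans_le (hρ x.1)) ((lopos x.2).trans_le (hρ x.2))
        (half _ _ (hρ x.1)) (half _ _ (hρ x.2))
      have e : exp (-lo v) / 2 = sin (π / ((P v).length : ℝ)) := by
        rw [elo]
        ring
      rw [e, hasin] at this
      exact this
  have Shi : ∀ v, ∀ ρ : ℕ → ℝ, (∀ w, lo w ≤ ρ w) → B_S P v (hi v) ρ ≤ 2 * π := by
    intro v ρ hρ
    refine le_trans (B_sum_le_const (P v) _ (2 * (π / ((P v).length : ℝ))) ?_) (le_of_eq ?_)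
    · intro x _
      have := ang_le ((lopos v).trans (lolt v)) ((lopos x.1).trans_le (hρ x.1))
        ((lopos x.2).trans_le (hρ x.2))
      rw [ehi, hasin] at this
      exact this
    · field_simp [(hd0 v).ne']
  -- the supremum of all admissible labels
  obtain ⟨T, hT⟩ : ∃ T : Set (ℕ → ℝ), T = {ρ | (∀ v, lo v ≤ ρ v) ∧ (∀ v, ρ v ≤ hi v) ∧
      ∀ v, 2 * π ≤ B_S P v (ρ v) ρ} := ⟨_, rfl⟩
  have hloT : lo ∈ T := by
    rw [hT]
    exact ⟨fun _ => le_rfl, fun v => (lolt v).le, fun v => Slo v lo fun _ => le_rfl⟩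
  have hbdd : ∀ v, BddAbove ((fun ρ : ℕ → ℝ => ρ v) '' T) := by
    intro v
    refine ⟨hi v, ?_⟩
    rintro _ ⟨ρ, hρ, rfl⟩
    rw [hT] at hρ
    exact hρ.2.1 v
  obtain ⟨s, hs⟩ : ∃ s : ℕ → ℝ, s = fun v => sSup ((fun ρ : ℕ → ℝ => ρ v) '' T) := ⟨_, rfl⟩
  have hle : ∀ ρ ∈ T, ∀ v, ρ v ≤ s v := by
    intro ρ hρ v
    rw [hs]
    exact le_csSup (hbdd v) ⟨ρ, hρ, rfl⟩
  have hslo : ∀ v, lo v ≤ s v := hle lo hloT
  have hshi : ∀ v, s v ≤ hi v := by
    intro v
    rw [hs]
    refine csSup_le ⟨_, lo, hloT, rfl⟩ ?_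
    rintro _ ⟨ρ, hρ, rfl⟩
    rw [hT] at hρ
    exact hρ.2.1 v
  have hspos : ∀ v, 0 < s v := fun v => (lopos v).trans_le (hslo v)
  have hge : ∀ v, 2 * π ≤ B_S P v (s v) s := by
    intro v
    have hcl : IsClosed {r : ℝ | r ∈ Set.Icc (lo v) (hi v) ∧ 2 * π ≤ B_S P v r s} := by
      have h1 : ContinuousOn (fun r => B_S P v r s) (Set.Icc (lo v) (hi v)) :=
        (B_cont P v hspos).mono fun r hr => (lopos v).trans_le hr.1
      exact h1.preimage_isClosed_of_isClosed isClosed_Icc isClosed_Ici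
    have hmem : s v ∈ {r : ℝ | r ∈ Set.Icc (lo v) (hi v) ∧ 2 * π ≤ B_S P v r s} := by
      have hsub : (fun ρ : ℕ → ℝ => ρ v) '' T ⊆
          {r : ℝ | r ∈ Set.Icc (lo v) (hi v) ∧ 2 * π ≤ B_S P v r s} := by
        rintro _ ⟨ρ, hρ, rfl⟩
        have hρ' := hρ
        rw [hT] at hρ'
        refine ⟨⟨hρ'.1 v, hρ'.2.1 v⟩, (hρ'.2.2 v).trans ?_⟩
        exact B_mono P v ((lopos v).trans_le (hρ'.1 v)) (fun w => (lopos w).trans_le (hρ'.1 w))
          (hle ρ hρ)
      have h2 := csSup_mem_closure (s := (fun ρ : ℕ → ℝ => ρ v) '' T) ⟨_, lo, hloT, rfl⟩ (hbdd v)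
      have h3 := closure_minimal hsub hcl h2
      rw [hs]
      rw [hs] at h3
      exact h3
    exact hmem.2
  refine ⟨s, hspos, ?_, ?_⟩
  · intro v
    rw [← elo]
    exact exp_le_exp.2 (by linarith [hslo v])
  · intro v
    by_contra hne
    have hgt : 2 * π < B_S P v (s v) s := lt_of_le_of_ne (hge v) fun h => hne h.symm
    have hlt : s v < hi v := by
      refine lt_of_le_of_ne (hshi v) fun h => ?_
      have := Shi v s hslo
      rw [← h] at this
      linarith
    -- a slightly larger radius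
    have hcont : ContinuousAt (fun r => B_S P v r s) (s v) :=
      (B_cont P v hspos).continuousAt (Ioi_mem_nhds (hspos v))
    have hev : ∀ᶠ r in nhds (s v), 2 * π < B_S P v r s := hcont.eventually (lt_mem_nhds hgt)
    have hev2 : ∀ᶠ r in nhdsWithin (s v) (Set.Ioi (s v)), 2 * π < B_S P v r s :=
      hev.filter_mono nhdsWithin_le_nhds
    have hev3 : ∀ᶠ r in nhdsWithin (s v) (Set.Ioi (s v)), r ∈ Set.Ioo (s v) (hi v) :=
      Ioo_mem_nhdsGT hlt
    obtain ⟨r, hr1, hr2⟩ := (hev2.and hev3).exists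
    have hupd : ∀ w, s w ≤ Function.update s v r w := by
      intro w
      by_cases hw : w = v
      · subst hw
        rw [Function.update_self]
        exact hr2.1.le
      · rw [Function.update_of_ne hw]
    have hmem : Function.update s v r ∈ T := by
      rw [hT]
      refine ⟨fun w => (hslo w).trans (hupd w), fun w => ?_, fun w => ?_⟩
      · by_cases hw : w = v
        · subst hw
          rw [Function.update_self]
          exact hr2.2.le
        · rw [Function.update_of_ne hw]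
          exact hshi w
      · by_cases hw : w = v
        · subst hw
          rw [Function.update_self]
          exact hr1.le.trans (B_mono P w ((hspos w).trans hr2.1) hspos hupd)
        · rw [Function.update_of_ne hw]
          exact (hge w).trans (B_mono P w (hspos w) hspos hupd)
    have := hle _ hmem v
    rw [Function.update_self] at this
    linarith [hr2.1]

theorem B_N_ge (v : ℕ) : 100 ≤ N v := by
  have h1 : 1 ≤ 2 ^ v := Nat.one_le_two_pow
  have h2 : 18 ≤ q v := by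
    unfold q Qc
    calc 18 ≤ 10 ^ 12 * 1 := by norm_num
      _ ≤ 10 ^ 12 * 2 ^ v := Nat.mul_le_mul_left _ h1
  unfold N mB
  omega

theorem lab_exists : ∃ ρ : ℕ → ℝ, Lab ρ := by
  have hlen : ∀ v, N v + 1 ≤ (pairs v).length := by
    intro v
    unfold pairs new
    rw [List.length_append, List.length_map, List.length_range]
    omega
  obtain ⟨ρ, h1, h2, h3⟩ := label_exists pairs fun v => by
    have := hlen v
    have := B_N_ge v
    omega
  refine ⟨ρ, h1, fun v => (h2 v).trans ?_, h3⟩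
  have hN : (0 : ℝ) < N v := by
    have := B_N_ge v
    exact_mod_cast (by omega : 0 < N v)
  have hl : (N v : ℝ) ≤ ((pairs v).length : ℝ) := by
    have := hlen v
    exact_mod_cast (by omega : N v ≤ (pairs v).length)
  have hl0 : (0 : ℝ) < ((pairs v).length : ℝ) := hN.trans_le hl
  calc 2 * sin (π / ((pairs v).length : ℝ)) ≤ 2 * (π / ((pairs v).length : ℝ)) :=
        mul_le_mul_of_nonneg_left (sin_lt (div_pos pi_pos hl0)).le (by norm_num)
    _ ≤ 2 * (π / (N v : ℝ)) :=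
        mul_le_mul_of_nonneg_left (div_le_div_of_nonneg_left pi_pos.le hN hl) (by norm_num)
    _ = 2 * π / (N v : ℝ) := by ring

end Pool.Agent.H776R2.Fatou
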