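import Pool.Agent.H776R2.Fatou.Defs

/-!
# Task PB: placing a good zone (euclidean)
-/

open Real MeasureTheory

noncomputable section

namespace Pool.Agent.H776R2.Fatou

/-- ideal positions of the three colours -/
def ideal (x : ZMod 3) : ℂ := if x = 0 then -1 else if x = 1 then 1 else 0

/-- square root of the radius of a pebble -/
def wp (i : ℕ) : ℝ := 1 / (1000 * 2 ^ i * ((N i : ℝ) + 1))

/-- one step: a circle tangent to two given tangent circles -/
theorem PB_step0 {r₀ A R : ℝ} (h0 : 0 < r₀) (hA : 0 < A) (hR : 0 < R) (u : ℂ)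
    (h : ‖u‖ = r₀ + A) : ∃ v : ℂ, ‖v‖ = r₀ + R ∧ ‖v - u‖ = A + R ∧ 0 < cr u v := by
  -- cosine of the angle
  set c : ℝ := 1 - 2 * (A * R / ((r₀ + A) * (r₀ + R))) with hc
  have hP : 0 < (r₀ + A) * (r₀ + R) := by positivity
  have hx0 : 0 < A * R / ((r₀ + A) * (r₀ + R)) := by positivity
  have hx1 : A * R / ((r₀ + A) * (r₀ + R)) < 1 := by
    rw [div_lt_one hP]
    nlinarith [mul_pos h0 hA, mul_pos h0 hR, mul_pos hA hR]
  have hcc : (r₀ + A) * (r₀ + R) * c = (r₀ + A) * (r₀ + R) - 2 * (A * R) := by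
    rw [hc]; field_simp
  have hc1 : 0 < 1 - c ^ 2 := by
    have e : 1 - c ^ 2 = (1 - c) * (1 + c) := by ring
    rw [e, hc]
    have : 0 < 2 * (A * R / ((r₀ + A) * (r₀ + R))) := by linarith
    apply mul_pos <;> linarith
  set s : ℝ := √(1 - c ^ 2) with hs
  have hs0 : 0 < s := Real.sqrt_pos.mpr hc1
  have hs2 : s ^ 2 = 1 - c ^ 2 := Real.sq_sqrt hc1.le
  have hrA : 0 < r₀ + A := by positivity
  have hrR : 0 < r₀ + R := by positivity
  set t : ℝ := (r₀ + R) / (r₀ + A) with ht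
  have ht0 : 0 < t := by positivity
  have htm : t * (r₀ + A) = r₀ + R := by rw [ht]; field_simp
  have hu2 : u.re * u.re + u.im * u.im = (r₀ + A) ^ 2 := by
    rw [← Complex.normSq_apply, Complex.normSq_eq_norm_sq, h]
  refine ⟨⟨t * (c * u.re - s * u.im), t * (s * u.re + c * u.im)⟩, ?_, ?_, ?_⟩
  · have hn : ‖(⟨t * (c * u.re - s * u.im), t * (s * u.re + c * u.im)⟩ : ℂ)‖ ^ 2
        = (r₀ + R) ^ 2 := by
      rw [← Complex.normSq_eq_norm_sq, Complex.normSq_apply]
      simp only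
      have : t * (c * u.re - s * u.im) * (t * (c * u.re - s * u.im)) +
          t * (s * u.re + c * u.im) * (t * (s * u.re + c * u.im))
          = t ^ 2 * (s ^ 2 + c ^ 2) * (u.re * u.re + u.im * u.im) := by ring
      rw [this, hs2, hu2, ← htm]; ring
    exact (sq_eq_sq₀ (norm_nonneg _) hrR.le).mp hn
  · have hn : ‖(⟨t * (c * u.re - s * u.im), t * (s * u.re + c * u.im)⟩ : ℂ) - u‖ ^ 2
        = (A + R) ^ 2 := by
      rw [← Complex.normSq_eq_norm_sq, Complex.normSq_apply]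
      simp only [Complex.sub_re, Complex.sub_im]
      have : (t * (c * u.re - s * u.im) - u.re) * (t * (c * u.re - s * u.im) - u.re) +
          (t * (s * u.re + c * u.im) - u.im) * (t * (s * u.re + c * u.im) - u.im)
          = (t ^ 2 * (s ^ 2 + c ^ 2) - 2 * t * c + 1) * (u.re * u.re + u.im * u.im) := by ring
      rw [this, hs2, hu2]
      have e : (t ^ 2 * (1 - c ^ 2 + c ^ 2) - 2 * t * c + 1) * (r₀ + A) ^ 2
          = (t * (r₀ + A)) ^ 2 - 2 * ((r₀ + A) * (t * (r₀ + A)) * c) + (r₀ + A) ^ 2 := by ring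
      rw [e, htm, hcc]; ring
    exact (sq_eq_sq₀ (norm_nonneg _) (by positivity)).mp hn
  · unfold cr
    simp only
    have : u.re * (t * (s * u.re + c * u.im)) - u.im * (t * (c * u.re - s * u.im))
        = t * s * (u.re * u.re + u.im * u.im) := by ring
    rw [this, hu2]
    positivity

theorem PB_step {σ : ℝ} (hσ : σ = 1 ∨ σ = -1) {r₀ A R : ℝ} (h0 : 0 < r₀) (hA : 0 < A)
    (hR : 0 < R) (c₀ a : ℂ) (h : ‖a - c₀‖ = r₀ + A) :
    ∃ b : ℂ, ‖b - c₀‖ = r₀ + R ∧ ‖b - a‖ = A + R ∧ 0 < σ * cr (a - c₀) (b - c₀) := by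
  rcases hσ with rfl | rfl
  · obtain ⟨v, h1, h2, h3⟩ := PB_step0 h0 hA hR (a - c₀) h
    refine ⟨v + c₀, by simpa using h1, ?_, by simpa using h3⟩
    rw [← h2]; congr 1; ring
  · have hc : ‖(starRingEnd ℂ) (a - c₀)‖ = r₀ + A := by rw [Complex.norm_conj, h]
    obtain ⟨v, h1, h2, h3⟩ := PB_step0 h0 hA hR _ hc
    refine ⟨(starRingEnd ℂ) v + c₀, ?_, ?_, ?_⟩
    · rw [add_sub_cancel_right, Complex.norm_conj, h1]
    · rw [← h2, ← Complex.norm_conj]
      congr 1
      simp only [map_sub, map_add, Complex.conj_conj]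
      ring
    · have e : (-1 : ℝ) * cr (a - c₀) ((starRingEnd ℂ) v + c₀ - c₀)
          = cr ((starRingEnd ℂ) (a - c₀)) v := by
        rw [add_sub_cancel_right]
        unfold cr
        simp only [Complex.conj_re, Complex.conj_im]
        ring
      rw [e]; exact h3

/-- EL1: position of a pebble tangent to two tangent unit circles -/
theorem PB_el1 {a b p : ℂ} {s : ℝ} (hs0 : 0 < s) (hs1 : s ≤ 1) (hab : ‖a - b‖ = 2)
    (hpa : ‖p - a‖ = 1 + s ^ 2) (hpb : ‖p - b‖ = 1 + s ^ 2) :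
    ‖p - (a + b) / 2‖ ≤ 2 * s := by
  have par := parallelogram_law_with_norm ℝ (p - a) (p - b)
  have e1 : (p - a) + (p - b) = (2 : ℂ) * (p - (a + b) / 2) := by ring
  have e2 : (p - a) - (p - b) = -(a - b) := by ring
  rw [e1, e2, norm_neg, hab, hpa, hpb, norm_mul] at par
  have h2 : ‖(2 : ℂ)‖ = 2 := by norm_num
  rw [h2] at par
  have hsq : ‖p - (a + b) / 2‖ ^ 2 ≤ (2 * s) ^ 2 := by
    have : ‖p - (a + b) / 2‖ ^ 2 = 2 * s ^ 2 + (s ^ 2) ^ 2 := by nlinarith
    rw [this]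
    have hs2 : s ^ 2 ≤ 1 := by nlinarith
    nlinarith [sq_nonneg s]
  exact (sq_le_sq₀ (norm_nonneg _) (by positivity)).mp hsq

/-- EL2 -/
theorem PB_el2 {a a' b p : ℂ} {s : ℝ} (hs0 : 0 < s) (hs1 : s ≤ 1) (hab : ‖a - b‖ = 2)
    (hpa : ‖p - a‖ = 1 + s ^ 2) (hpb : ‖p - b‖ = 1 + s ^ 2) (hab' : ‖a' - b‖ = 2)
    (hpa' : ‖p - a'‖ = 1 + s ^ 2) : ‖a - a'‖ ≤ 8 * s := by
  have h1 := PB_el1 hs0 hs1 hab hpa hpb
  have h2 := PB_el1 hs0 hs1 hab' hpa' hpb
  have e : a - a' = (2 : ℂ) * ((p - (a' + b) / 2) - (p - (a + b) / 2)) := by ring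
  rw [e, norm_mul]
  have h3 : ‖(2 : ℂ)‖ = 2 := by norm_num
  rw [h3]
  have := norm_sub_le (p - (a' + b) / 2) (p - (a + b) / 2)
  linarith

theorem PB_two : ∀ x y : ZMod 3, x ≠ 2 → y ≠ 2 → y ≠ x → (x = 0 ∧ y = 1) ∨ (x = 1 ∧ y = 0) := by
  decide

theorem PB_ideal_sum (x y : ZMod 3) (h1 : x ≠ 2) (h2 : y ≠ 2) (h3 : y ≠ x) :
    ideal x + ideal y = 0 := by
  have h10 : (1 : ZMod 3) ≠ 0 := by decide
  rcases PB_two x y h1 h2 h3 with ⟨rfl, rfl⟩ | ⟨rfl, rfl⟩
  · unfold ideal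
    rw [if_pos rfl, if_neg h10, if_pos rfl]; ring
  · unfold ideal
    rw [if_pos rfl, if_neg h10, if_pos rfl]; ring

theorem PB_third : ∀ x y z : ZMod 3, y ≠ x → z ≠ x → z ≠ y → z ≠ 2 → (x = 2 ∧ y ≠ 2) ∨ (y = 2 ∧ x ≠ 2) := by
  decide

theorem PB_same : ∀ x y z t : ZMod 3, y ≠ x → z ≠ x → z ≠ y → t ≠ x → t ≠ y → t = z := by
  decide

theorem zone_place (σ : ℝ) (hσ : σ = 1 ∨ σ = -1) (m : ℕ) (x : ZMod 3) (col : ℕ → ZMod 3)
    (w : ℕ → ℝ) (wk : ℝ) (hw : ∀ j, 0 < w j ∧ w j ≤ 1) (hwk : 0 < wk ∧ wk ≤ 1)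
    (hx : ∀ j, j ≤ m → col j ≠ x) (hc : ∀ j, j < m → col (j + 1) ≠ col j)
    (c₀ a₀ : ℂ) (r₀ : ℝ) (hr : r₀ = if x = 2 then wk ^ 2 else 1)
    (R : ℕ → ℝ) (hR : ∀ j, j ≤ m → R j = if col j = 2 then (w j) ^ 2 else 1)
    (h0 : ‖a₀ - c₀‖ = r₀ + R 0) (D : ℝ) (hD0 : ‖c₀ - ideal x‖ ≤ D) (hD1 : ‖a₀ - ideal (col 0)‖ ≤ D)
    (hold : 1 ≤ m → col 1 ≠ 2 → ∃ a' : ℂ, ‖a' - c₀‖ = r₀ + 1 ∧ ‖a' - a₀‖ = R 0 + 1 ∧
      ‖a' - ideal (col 1)‖ ≤ D) :
    ∃ a : ℕ → ℂ, a 0 = a₀ ∧
      (∀ j, j ≤ m → ‖a j - c₀‖ = r₀ + R j) ∧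
      (∀ j, j < m → ‖a (j + 1) - a j‖ = R j + R (j + 1)) ∧
      (∀ j, j < m → 0 < σ * cr (a j - c₀) (a (j + 1) - c₀)) ∧
      (∀ j, j ≤ m → ‖a j - ideal (col j)‖ ≤
        D + 8 * (∑ i ∈ Finset.range (j + 1), w i) + 8 * j * wk) := by
  have hr0 : 0 < r₀ := by
    rw [hr]; split_ifs
    · have := hwk.1; positivity
    · exact one_pos
  set R' : ℕ → ℝ := fun j => if col j = 2 then (w j) ^ 2 else 1 with hR'
  have hRR : ∀ j, j ≤ m → R j = R' j := fun j hj => hR j hj
  have hR'0 : ∀ j, 0 < R' j := by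
    intro j
    simp only [hR']
    split_ifs
    · have := (hw j).1; positivity
    · exact one_pos
  have hstep : ∀ (j : ℕ) (a : ℂ), ∃ b : ℂ, ‖a - c₀‖ = r₀ + R' j →
      (‖b - c₀‖ = r₀ + R' (j + 1) ∧ ‖b - a‖ = R' j + R' (j + 1) ∧
        0 < σ * cr (a - c₀) (b - c₀)) := by
    intro j a
    by_cases h : ‖a - c₀‖ = r₀ + R' j
    · obtain ⟨b, hb⟩ := PB_step hσ hr0 (hR'0 j) (hR'0 (j + 1)) c₀ a h
      exact ⟨b, fun _ => hb⟩
    · exact ⟨0, fun h' => absurd h' h⟩
  choose nxt hnxt using hstep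
  obtain ⟨a, ha0, haS⟩ : ∃ a : ℕ → ℂ, a 0 = a₀ ∧ ∀ j, a (j + 1) = nxt j (a j) :=
    ⟨fun j => Nat.rec a₀ (fun j b => nxt j b) j, rfl, fun j => rfl⟩
  have hcirc : ∀ j, ‖a j - c₀‖ = r₀ + R' j := by
    intro j
    induction j with
    | zero => rw [ha0, h0, hRR 0 (Nat.zero_le _)]
    | succ j ih => rw [haS]; exact (hnxt j (a j) ih).1
  have hdist : ∀ j, ‖a (j + 1) - a j‖ = R' j + R' (j + 1) := by
    intro j; rw [haS]; exact (hnxt j (a j) (hcirc j)).2.1
  have hor : ∀ j, 0 < σ * cr (a j - c₀) (a (j + 1) - c₀) := by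
    intro j; rw [haS]; exact (hnxt j (a j) (hcirc j)).2.2
  have hsum0 : ∀ j, 0 ≤ ∑ i ∈ Finset.range j, w i := fun j =>
    Finset.sum_nonneg fun i _ => (hw i).1.le
  refine ⟨a, ha0, fun j hj => by rw [hcirc, hRR j hj],
    fun j hj => by rw [hdist, hRR j hj.le, hRR (j + 1) hj], fun j _ => hor j, ?_⟩
  have hD : 0 ≤ D := (norm_nonneg _).trans hD0
  have key : ∀ j, j ≤ m → ∀ i, i ≤ j → ‖a i - ideal (col i)‖ ≤
        D + 8 * (∑ l ∈ Finset.range (i + 1), w l) + 8 * i * wk := by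
    intro j
    induction j with
    | zero =>
      intro _ i hi
      obtain rfl : i = 0 := by omega
      rw [ha0]
      have := hsum0 (0 + 1)
      push_cast
      nlinarith
    | succ j ih =>
      intro hjm i hi
      have hjm' : j ≤ m := by omega
      rcases Nat.lt_or_ge i (j + 1) with h | h
      · exact ih hjm' i (by omega)
      obtain rfl : i = j + 1 := by omega
      clear h hi
      have ihj := ih hjm' j le_rfl
      have hwj := hw j
      have hwj1 := hw (j + 1)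
      have hs0 := hsum0 j
      have hj0 : (0 : ℝ) ≤ (j : ℝ) * wk := mul_nonneg (Nat.cast_nonneg _) hwk.1.le
      have hsum1 : ∑ l ∈ Finset.range (j + 1), w l = ∑ l ∈ Finset.range j, w l + w j :=
        Finset.sum_range_succ _ _
      have hsum2 : ∑ l ∈ Finset.range (j + 1 + 1), w l
          = ∑ l ∈ Finset.range j, w l + w j + w (j + 1) := by
        rw [Finset.sum_range_succ, Finset.sum_range_succ]
      rw [hsum2]
      rw [hsum1] at ihj
      have hcx := hx j hjm'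
      have hcx1 := hx (j + 1) hjm
      have hcc := hc j (by omega)
      by_cases h2 : col (j + 1) = 2
      · -- new pebble
        have hx2 : x ≠ 2 := fun h => hcx1 (h2.trans h.symm)
        have hcj2 : col j ≠ 2 := fun h => hcc (h2.trans h.symm)
        have hid := PB_ideal_sum x (col j) hx2 hcj2 hcx
        have hRj : R' j = 1 := by simp only [hR', if_neg hcj2]
        have hRj1 : R' (j + 1) = (w (j + 1)) ^ 2 := by simp only [hR', if_pos h2]
        have hr1 : r₀ = 1 := by rw [hr, if_neg hx2]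
        have e1 : ‖a j - c₀‖ = 2 := by rw [hcirc, hRj, hr1]; norm_num
        have e2 : ‖a (j + 1) - a j‖ = 1 + w (j + 1) ^ 2 := by rw [hdist, hRj, hRj1]
        have e3 : ‖a (j + 1) - c₀‖ = 1 + w (j + 1) ^ 2 := by rw [hcirc, hRj1, hr1]
        have h3 := PB_el1 hwj1.1 hwj1.2 e1 e2 e3
        have hid2 : ideal (col (j + 1)) = 0 := by
          rw [h2]; unfold ideal
          rw [if_neg (by decide), if_neg (by decide)]
        rw [hid2]
        have e4 : a (j + 1) - 0 = (a (j + 1) - (a j + c₀) / 2) +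
            ((a j - ideal (col j)) + (c₀ - ideal x)) / 2 := by
          have : (a (j + 1) - (a j + c₀) / 2) +
            ((a j - ideal (col j)) + (c₀ - ideal x)) / 2
            = a (j + 1) - (ideal x + ideal (col j)) / 2 := by ring
          rw [this, hid]; ring
        rw [e4]
        have e5 : ‖((a j - ideal (col j)) + (c₀ - ideal x)) / 2‖ ≤
            (‖a j - ideal (col j)‖ + ‖c₀ - ideal x‖) / 2 := by
          rw [norm_div]
          have : ‖(2 : ℂ)‖ = 2 := by norm_num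
          rw [this]
          have := norm_add_le (a j - ideal (col j)) (c₀ - ideal x)
          linarith
        have e6 := norm_add_le (a (j + 1) - (a j + c₀) / 2)
          (((a j - ideal (col j)) + (c₀ - ideal x)) / 2)
        push_cast
        nlinarith [hwk.1, hwj.1, hwj1.1]
      · -- new macro
        have hRj1 : R' (j + 1) = 1 := by simp only [hR', if_neg h2]
        have hprev : ∃ a' : ℂ, ‖a' - c₀‖ = r₀ + 1 ∧ ‖a' - a j‖ = R' j + 1 ∧
            ‖a' - ideal (col (j + 1))‖ ≤ D + 8 * (∑ l ∈ Finset.range j, w l) + 8 * (j * wk) := by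
          rcases Nat.eq_zero_or_pos j with hj | hj
          · subst hj
            obtain ⟨a', h1, h3, h4⟩ := hold (by omega) h2
            refine ⟨a', h1, ?_, ?_⟩
            · rw [ha0, h3, hRR 0 (Nat.zero_le _)]
            · have : D ≤ D + 8 * (∑ l ∈ Finset.range 0, w l) + 8 * (((0 : ℕ) : ℝ) * wk) := by
                simp
              exact h4.trans this
          · obtain ⟨j', rfl⟩ : ∃ j', j = j' + 1 := ⟨j - 1, by omega⟩
            have hcc' := hc j' (by omega)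
            have hcx' := hx j' (by omega)
            have hsame : col j' = col (j' + 1 + 1) :=
              PB_same x (col (j' + 1)) (col (j' + 1 + 1)) (col j') hcx hcx1 hcc hcx'
                (Ne.symm hcc')
            have hRj' : R' j' = 1 := by simp only [hR', hsame, if_neg h2]
            refine ⟨a j', by rw [hcirc, hRj'], ?_, ?_⟩
            · rw [norm_sub_rev, hdist, hRj', add_comm]
            · rw [← hsame]
              have := ih (by omega) j' (by omega)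
              push_cast
              nlinarith [hwk.1]
        obtain ⟨a', p1, p2, p3⟩ := hprev
        have q1 := hcirc (j + 1)
        have q2 := hdist j
        rw [hRj1] at q1 q2
        have q3 := hcirc j
        have tri : ‖a (j + 1) - ideal (col (j + 1))‖ ≤
            ‖a (j + 1) - a'‖ + ‖a' - ideal (col (j + 1))‖ := by
          have := norm_add_le (a (j + 1) - a') (a' - ideal (col (j + 1)))
          simpa using this
        rcases PB_third x (col j) (col (j + 1)) hcx hcx1 hcc h2 with ⟨hx2, hc2⟩ | ⟨hc2, hx2⟩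
        · have hRj : R' j = 1 := by simp only [hR', if_neg hc2]
          have hr1 : r₀ = wk ^ 2 := by rw [hr, if_pos hx2]
          have := PB_el2 (a := a (j + 1)) (a' := a') (b := a j) (p := c₀) hwk.1 hwk.2
            (by rw [q2, hRj]; norm_num) (by rw [norm_sub_rev, q1, hr1]; ring)
            (by rw [norm_sub_rev, q3, hr1, hRj]; ring) (by rw [p2, hRj]; norm_num)
            (by rw [norm_sub_rev, p1, hr1]; ring)
          push_cast
          nlinarith [hwk.1, hwj.1, hwj1.1]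
        · have hRj : R' j = (w j) ^ 2 := by simp only [hR', if_pos hc2]
          have hr1 : r₀ = 1 := by rw [hr, if_neg hx2]
          have := PB_el2 (a := a (j + 1)) (a' := a') (b := c₀) (p := a j) hwj.1 hwj.2
            (by rw [q1, hr1]; norm_num) (by rw [norm_sub_rev, q2, hRj]; ring)
            (by rw [q3, hr1, hRj]) (by rw [p1, hr1]; norm_num)
            (by rw [norm_sub_rev, p2, hRj]; ring)
          push_cast
          nlinarith [hwk.1, hwj.1, hwj1.1]
  exact fun j hj => key j hj j le_rfl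

end Pool.Agent.H776R2.Fatou
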