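import Pool.Agent.H776R2.Fatou.Comb
import Pool.Agent.H776R2.Fatou.Fan
import Pool.Agent.H776R2.Fatou.Col
import Pool.Agent.H776R2.Fatou.Zone

/-!
# Task PC: one stage of the packing `P` (helper99)
-/

open Real

noncomputable section

namespace Pool.Agent.H776R2.Fatou

/-- the face `(k,j)` is a positively oriented mutually tangent triple of `P` -/
def PFace (c : ℕ → ℂ) (r : ℕ → ℝ) (k j : ℕ) : Prop :=
  ‖c (pet k j) - c k‖ = r k + r (pet k j) ∧
  ‖c (pet k (j + 1)) - c k‖ = r k + r (pet k (j + 1)) ∧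
  ‖c (pet k (j + 1)) - c (pet k j)‖ = r (pet k j) + r (pet k (j + 1)) ∧
  0 < cr (c (pet k j) - c k) (c (pet k (j + 1)) - c k)

/-- invariant before stage `K` -/
structure PInv (st : ℕ → Option (ZMod 3)) (K : ℕ) (c : ℕ → ℂ) (r : ℕ → ℝ) : Prop where
  pos : ∀ i, i < n K → 0 < r i
  face : ∀ k j, k < K → j ≤ N k → PFace c r k j
  edge : ‖c 1 - c 0‖ = r 0 + r 1
  rad : ∀ i x, i < n K → st i = some x → r i = if x = 2 then (wp i) ^ 2 else 1
  err : ∀ i x, i < n K → st i = some x → ‖c i - ideal x‖ ≤ 1 / 10 * (1 - 1 / 2 ^ K)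
  bdd : ∀ i, i < n K → ‖c i‖ + 2 * r i ≤ 4

/-! ### pebble sizes -/

theorem PC_wp_den (i : ℕ) : 1 ≤ 1000 * (2 : ℝ) ^ i * ((N i : ℝ) + 1) := by
  have h1 : (1 : ℝ) ≤ 2 ^ i := one_le_pow₀ (by norm_num)
  have h2 : (0 : ℝ) ≤ (N i : ℝ) := Nat.cast_nonneg _
  nlinarith [mul_nonneg (by linarith : (0:ℝ) ≤ 2 ^ i) h2]

theorem PC_wp_pos (i : ℕ) : 0 < wp i := by
  unfold wp
  exact div_pos one_pos (by linarith [PC_wp_den i])

theorem PC_wp_le_one (i : ℕ) : wp i ≤ 1 := by
  unfold wp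
  rw [div_le_one (by linarith [PC_wp_den i])]
  exact PC_wp_den i

theorem PC_N_mono {a b : ℕ} (h : a ≤ b) : N a ≤ N b := by
  unfold N q
  have h1 : 2 ^ a ≤ 2 ^ b := Nat.pow_le_pow_right (by norm_num) h
  have h2 : Qc * 2 ^ a ≤ Qc * 2 ^ b := Nat.mul_le_mul_left _ h1
  omega

theorem PC_wp_gt {K i : ℕ} (h : K < i) :
    wp i ≤ 1 / (1000 * 2 ^ (K + 1) * ((N K : ℝ) + 1)) := by
  unfold wp
  have h0 : (0 : ℝ) ≤ (N K : ℝ) := Nat.cast_nonneg _
  have h1 : (2 : ℝ) ^ (K + 1) ≤ 2 ^ i := pow_le_pow_right₀ (by norm_num) h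
  have h2 : (N K : ℝ) ≤ (N i : ℝ) := by exact_mod_cast PC_N_mono h.le
  have h3 : (0 : ℝ) < 2 ^ (K + 1) := by positivity
  apply one_div_le_one_div_of_le
  · positivity
  · apply mul_le_mul
    · linarith
    · linarith
    · linarith
    · positivity

/-! ### colours -/

/-- the colours of a zone, starting from the neighbour (`j = 0`) -/
def PCcol (x y : ZMod 3) (j : ℕ) : ZMod 3 := if j % 2 = 1 then -(x + y) else y

theorem PC_zmod : ∀ x y : ZMod 3, x ≠ y → -(x + y) ≠ x ∧ -(x + y) ≠ y := by decide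

theorem PC_col_ne {x y : ZMod 3} (h : x ≠ y) (j : ℕ) : PCcol x y j ≠ x := by
  unfold PCcol
  split_ifs
  · exact (PC_zmod x y h).1
  · exact h.symm

theorem PC_col_succ {x y : ZMod 3} (h : x ≠ y) (j : ℕ) : PCcol x y (j + 1) ≠ PCcol x y j := by
  unfold PCcol
  rcases Nat.mod_two_eq_zero_or_one j with h1 | h1
  · have h2 : (j + 1) % 2 = 1 := by omega
    rw [if_pos h2, if_neg (by omega)]
    exact (PC_zmod x y h).2
  · have h2 : ¬ (j + 1) % 2 = 1 := by omega
    rw [if_neg h2, if_pos h1]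
    exact (PC_zmod x y h).2.symm

theorem PC_zone_some (x y : ZMod 3) (j : ℕ) :
    zone (some x) (some y) j = some (PCcol x y j) := by
  unfold zone PCcol
  simp only
  split_ifs <;> rfl

theorem PC_zone_none_left (c : Option (ZMod 3)) (j : ℕ) : zone none c j = none := by
  unfold zone
  cases c <;> rfl

theorem PC_zone_none_right (c : Option (ZMod 3)) (j : ℕ) : zone c none j = none := by
  unfold zone
  cases c <;> rfl

/-! ### one good zone -/

theorem PC_R_pos (x : ZMod 3) (i : ℕ) : 0 < (if x = 2 then (wp i) ^ 2 else (1 : ℝ)) := by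
  split_ifs
  · exact pow_pos (PC_wp_pos i) 2
  · exact one_pos

theorem PC_err (K j : ℕ) (hj : j ≤ N K) (w : ℕ → ℝ)
    (hw : ∀ i, i ≤ j → w i ≤ 1 / (1000 * 2 ^ (K + 1) * ((N K : ℝ) + 1))) :
    1 / 10 * (1 - 1 / 2 ^ K) + 8 * (∑ i ∈ Finset.range (j + 1), w i) + 8 * j * wp K ≤
      1 / 10 * (1 - 1 / 2 ^ (K + 1)) := by
  have hN : (0 : ℝ) ≤ (N K : ℝ) := Nat.cast_nonneg _
  have hjN : (j : ℝ) ≤ (N K : ℝ) := by exact_mod_cast hj
  have hp : (0 : ℝ) < 2 ^ K := by positivity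
  have h1 : ∑ i ∈ Finset.range (j + 1), w i ≤ 1 / (2000 * 2 ^ K) := by
    calc ∑ i ∈ Finset.range (j + 1), w i
        ≤ ∑ _i ∈ Finset.range (j + 1), 1 / (1000 * 2 ^ (K + 1) * ((N K : ℝ) + 1)) := by
          apply Finset.sum_le_sum
          intro i hi
          rw [Finset.mem_range] at hi
          exact hw i (by omega)
      _ = ((j : ℝ) + 1) * (1 / (1000 * 2 ^ (K + 1) * ((N K : ℝ) + 1))) := by
          rw [Finset.sum_const, Finset.card_range, nsmul_eq_mul]
          push_cast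
          ring
      _ ≤ ((N K : ℝ) + 1) * (1 / (1000 * 2 ^ (K + 1) * ((N K : ℝ) + 1))) := by
          apply mul_le_mul_of_nonneg_right (by linarith)
          positivity
      _ = 1 / (2000 * 2 ^ K) := by
          rw [pow_succ]
          field_simp
          norm_num
  have h2 : 8 * (j : ℝ) * wp K ≤ 8 / (1000 * 2 ^ K) := by
    unfold wp
    have h3 : (j : ℝ) / ((N K : ℝ) + 1) ≤ 1 := by
      rw [div_le_one (by linarith)]
      linarith
    have h4 : 8 * (j : ℝ) * (1 / (1000 * 2 ^ K * ((N K : ℝ) + 1))) =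
        (8 / (1000 * 2 ^ K)) * ((j : ℝ) / ((N K : ℝ) + 1)) := by
      field_simp
    rw [h4]
    calc (8 / (1000 * (2 : ℝ) ^ K)) * ((j : ℝ) / ((N K : ℝ) + 1)) ≤ (8 / (1000 * (2 : ℝ) ^ K)) * 1 := by
          apply mul_le_mul_of_nonneg_left h3
          positivity
      _ = _ := mul_one _
  have h5 : (1 : ℝ) / 2 ^ (K + 1) = (1 / 2) * (1 / 2 ^ K) := by
    rw [pow_succ]
    field_simp
  have h6 : (1 : ℝ) / (2000 * 2 ^ K) = (1 / 2000) * (1 / 2 ^ K) := by
    field_simp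
  have h7 : (8 : ℝ) / (1000 * 2 ^ K) = (8 / 1000) * (1 / 2 ^ K) := by
    field_simp
  rw [h5]
  rw [h6] at h1
  rw [h7] at h2
  have hq : (0 : ℝ) < 1 / 2 ^ K := by positivity
  linarith

theorem PC_zone_good (K : ℕ) (σ : ℝ) (hσ : σ = 1 ∨ σ = -1) (m : ℕ) (hm : m ≤ N K)
    (x y : ZMod 3) (hxy : x ≠ y) (idx : ℕ → ℕ) (hidx : ∀ j, j ≤ m → K < idx j)
    (c₀ a₀ : ℂ) (r₀ ra : ℝ) (hr : r₀ = if x = 2 then (wp K) ^ 2 else 1)
    (hra : ra = if y = 2 then (wp (idx 0)) ^ 2 else 1)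
    (h0 : ‖a₀ - c₀‖ = r₀ + ra) (hD0 : ‖c₀ - ideal x‖ ≤ 1 / 10 * (1 - 1 / 2 ^ K))
    (hD1 : ‖a₀ - ideal y‖ ≤ 1 / 10 * (1 - 1 / 2 ^ K))
    (hold : -(x + y) ≠ 2 → ∃ a' : ℂ, ‖a' - c₀‖ = r₀ + 1 ∧ ‖a' - a₀‖ = ra + 1 ∧
      ‖a' - ideal (-(x + y))‖ ≤ 1 / 10 * (1 - 1 / 2 ^ K)) :
    ∃ (a : ℕ → ℂ) (R : ℕ → ℝ), a 0 = a₀ ∧ R 0 = ra ∧ (∀ j, 0 < R j) ∧
      (∀ j, R j = if PCcol x y j = 2 then (wp (idx j)) ^ 2 else 1) ∧
      (∀ j, j ≤ m → ‖a j - c₀‖ = r₀ + R j) ∧
      (∀ j, j < m → ‖a (j + 1) - a j‖ = R j + R (j + 1)) ∧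
      (∀ j, j < m → 0 < σ * cr (a j - c₀) (a (j + 1) - c₀)) ∧
      (∀ j, j ≤ m → ‖a j - ideal (PCcol x y j)‖ ≤ 1 / 10 * (1 - 1 / 2 ^ (K + 1))) := by
  have hcol0 : PCcol x y 0 = y := rfl
  have hcol1 : PCcol x y 1 = -(x + y) := rfl
  have hR0 : (if PCcol x y 0 = 2 then (wp (idx 0)) ^ 2 else (1 : ℝ)) = ra := by
    rw [hcol0, hra]
  obtain ⟨a, ha0, ha1, ha2, ha3, ha4⟩ := zone_place σ hσ m x (PCcol x y) (fun j => wp (idx j))
    (wp K) (fun j => ⟨PC_wp_pos _, PC_wp_le_one _⟩) ⟨PC_wp_pos _, PC_wp_le_one _⟩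
    (fun j _ => PC_col_ne hxy j) (fun j _ => PC_col_succ hxy j) c₀ a₀ r₀ hr
    (fun j => if PCcol x y j = 2 then (wp (idx j)) ^ 2 else 1) (fun j _ => rfl)
    (by rw [hR0]; exact h0) (1 / 10 * (1 - 1 / 2 ^ K)) hD0 (by rw [hcol0]; exact hD1)
    (by
      intro _ hc2
      rw [hcol1] at hc2 ⊢
      rw [hR0]
      exact hold hc2)
  refine ⟨a, fun j => if PCcol x y j = 2 then (wp (idx j)) ^ 2 else 1, ha0, hR0,
    fun j => PC_R_pos _ _, fun j => rfl, ha1, ha2, ha3, ?_⟩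
  intro j hj
  refine (ha4 j hj).trans (PC_err K j (hj.trans hm) _ ?_)
  intro i hi
  exact PC_wp_gt (hidx i (hi.trans hj))

theorem PC_q_le (K : ℕ) : 2 * q K + 64 = N K := rfl

/-- one side of the flower -/
theorem PC_side {st : ℕ → Option (ZMod 3)} {K : ℕ} {c : ℕ → ℂ} {r : ℕ → ℝ}
    (h : PInv st K c r) (σ : ℝ) (hσ : σ = 1 ∨ σ = -1) (idx : ℕ → ℕ)
    (hidx : ∀ j, j ≤ q K → K < idx j) (hid0 : idx 0 < n K)
    (hz : ∀ j, 1 ≤ j → j ≤ q K → st (idx j) = zone (st K) (st (idx 0)) j)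
    (hne : ∀ x y, st K = some x → st (idx 0) = some y → x ≠ y)
    (ht : ‖c (idx 0) - c K‖ = r K + r (idx 0))
    (hold : ∀ x y, st K = some x → st (idx 0) = some y → -(x + y) ≠ 2 → ∃ a' : ℂ,
      ‖a' - c K‖ = r K + 1 ∧ ‖a' - c (idx 0)‖ = r (idx 0) + 1 ∧
      ‖a' - ideal (-(x + y))‖ ≤ 1 / 10 * (1 - 1 / 2 ^ K)) :
    ∃ (l : ℕ) (a : ℕ → ℂ) (R : ℕ → ℝ), l ≤ q K ∧ a 0 = c (idx 0) ∧ R 0 = r (idx 0) ∧
      (∀ j, j ≤ l → 0 < R j) ∧ (∀ j, j ≤ l → ‖a j - c K‖ = r K + R j) ∧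
      (∀ j, j < l → ‖a (j + 1) - a j‖ = R j + R (j + 1)) ∧
      (∀ j, j < l → 0 < σ * cr (a j - c K) (a (j + 1) - c K)) ∧
      (∀ j, 1 ≤ j → j ≤ l → ∃ x, st (idx j) = some x ∧
        R j = (if x = 2 then (wp (idx j)) ^ 2 else 1) ∧
        ‖a j - ideal x‖ ≤ 1 / 10 * (1 - 1 / 2 ^ (K + 1))) ∧
      (∀ j, l < j → j ≤ q K → st (idx j) = none) := by
  have hKn : K < n K := by
    have := n_ge K
    omega
  have htriv : (∀ j, 1 ≤ j → j ≤ q K → st (idx j) = none) →
    ∃ (l : ℕ) (a : ℕ → ℂ) (R : ℕ → ℝ), l ≤ q K ∧ a 0 = c (idx 0) ∧ R 0 = r (idx 0) ∧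
      (∀ j, j ≤ l → 0 < R j) ∧ (∀ j, j ≤ l → ‖a j - c K‖ = r K + R j) ∧
      (∀ j, j < l → ‖a (j + 1) - a j‖ = R j + R (j + 1)) ∧
      (∀ j, j < l → 0 < σ * cr (a j - c K) (a (j + 1) - c K)) ∧
      (∀ j, 1 ≤ j → j ≤ l → ∃ x, st (idx j) = some x ∧
        R j = (if x = 2 then (wp (idx j)) ^ 2 else 1) ∧
        ‖a j - ideal x‖ ≤ 1 / 10 * (1 - 1 / 2 ^ (K + 1))) ∧
      (∀ j, l < j → j ≤ q K → st (idx j) = none) := by
    intro hn
    refine ⟨0, fun _ => c (idx 0), fun _ => r (idx 0), Nat.zero_le _, rfl, rfl, ?_, ?_, ?_, ?_,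
      ?_, ?_⟩
    · intro j _
      exact h.pos _ hid0
    · intro j _
      exact ht
    · intro j hj
      exact absurd hj (Nat.not_lt_zero j)
    · intro j hj
      exact absurd hj (Nat.not_lt_zero j)
    · intro j hj hj'
      omega
    · intro j hj hj'
      exact hn j hj hj'
  rcases hK : st K with _ | x
  · apply htriv
    intro j h1 h2
    rw [hz j h1 h2, hK, PC_zone_none_left]
  · rcases hL : st (idx 0) with _ | y
    · apply htriv
      intro j h1 h2
      rw [hz j h1 h2, hL, PC_zone_none_right]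
    · have hxy := hne x y hK hL
      obtain ⟨a, R, ha0, hR0, hRp, hR, ha1, ha2, ha3, ha4⟩ := PC_zone_good K σ hσ (q K)
        (by have := PC_q_le K; omega) x y hxy idx hidx (c K) (c (idx 0)) (r K) (r (idx 0))
        (h.rad K x hKn hK) (h.rad (idx 0) y hid0 hL) ht (h.err K x hKn hK)
        (h.err (idx 0) y hid0 hL) (hold x y hK hL)
      refine ⟨q K, a, R, le_rfl, ha0, hR0, fun j _ => hRp j, ha1, ha2, ha3, ?_, ?_⟩
      · intro j h1 h2
        refine ⟨PCcol x y j, ?_, hR j, ha4 j h2⟩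
        rw [hz j h1 h2, hK, hL, PC_zone_some]
      · intro j h1 h2
        omega

theorem PC_left {st : ℕ → Option (ZMod 3)} (hst : StSpec st) {K : ℕ} {c : ℕ → ℂ} {r : ℕ → ℝ}
    (h : PInv st K c r) :
    ∃ (l : ℕ) (a : ℕ → ℂ) (R : ℕ → ℝ), l ≤ q K ∧ a 0 = c (n K - 1) ∧ R 0 = r (n K - 1) ∧
      (∀ j, j ≤ l → 0 < R j) ∧ (∀ j, j ≤ l → ‖a j - c K‖ = r K + R j) ∧
      (∀ j, j < l → ‖a (j + 1) - a j‖ = R j + R (j + 1)) ∧
      (∀ j, j < l → 0 < (1 : ℝ) * cr (a j - c K) (a (j + 1) - c K)) ∧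
      (∀ j, 1 ≤ j → j ≤ l → ∃ x, st (pet K j) = some x ∧
        R j = (if x = 2 then (wp (pet K j)) ^ 2 else 1) ∧
        ‖a j - ideal x‖ ≤ 1 / 10 * (1 - 1 / 2 ^ (K + 1))) ∧
      (∀ j, l < j → j ≤ q K → st (pet K j) = none) := by
  have hnK := n_ge K
  have hqN := PC_q_le K
  have hn0 : n 0 = 2 := rfl
  have h0 : pet K 0 = n K - 1 := pet_zero K
  have hst0 := hst.zero
  have hst1 := hst.one
  rcases Nat.eq_zero_or_pos K with hK0 | hK1
  · subst hK0
    have h01 : pet 0 0 = 1 := by rw [h0, hn0]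
    have hmain := PC_side h 1 (Or.inl rfl) (pet 0) (fun j hj => pet_gt (by omega))
      (by rw [h0]; omega) (fun j h1 h2 => by rw [h0]; exact hst.left 0 j h1 h2)
      (fun x y hx hy => by
        rw [hst0] at hx
        rw [h01, hst1] at hy
        rw [← Option.some.inj hx, ← Option.some.inj hy]
        decide)
      (by rw [h01]; exact h.edge)
      (fun x y hx hy hxy => by
        exfalso
        apply hxy
        rw [hst0] at hx
        rw [h01, hst1] at hy
        rw [← Option.some.inj hx, ← Option.some.inj hy]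
        decide)
    rw [h0] at hmain
    exact hmain
  · have hface : PFace c r (K - 1) (N (K - 1)) := h.face (K - 1) (N (K - 1)) (by omega) le_rfl
    have hp1 : pet (K - 1) (N (K - 1)) = n K - 1 := by
      rw [pet_le le_rfl]
      have h1 := n_succ (K - 1)
      have h2 := n_ge (K - 1)
      rw [show K - 1 + 1 = K by omega] at h1
      omega
    have hp2 : pet (K - 1) (N (K - 1) + 1) = K := by
      rw [pet_last]
      omega
    unfold PFace at hface
    rw [hp1, hp2] at hface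
    obtain ⟨hf1, hf2, hf3, -⟩ := hface
    have hmain := PC_side h 1 (Or.inl rfl) (pet K) (fun j hj => pet_gt (by omega))
      (by rw [h0]; omega) (fun j h1 h2 => by rw [h0]; exact hst.left K j h1 h2)
      (fun x y hx hy => by
        have h1 := face_colour_ne hst (k := K - 1) (j := N (K - 1)) (a := K) (b := n K - 1) le_rfl
          (by unfold verts; rw [hp1, hp2]; simp) (by unfold verts; rw [hp1, hp2]; simp)
          (by omega) (by rw [hx]; simp) (by rw [h0] at hy; rw [hy]; simp)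
        intro hxy
        apply h1
        rw [h0] at hy
        rw [hx, hy, hxy])
      (by rw [h0, norm_sub_rev, hf3]; ring)
      (fun x y hx hy hxy => by
        rw [h0] at hy
        have hc := left_old hst hK1 hx hy
        have hr1 : r (K - 1) = 1 := by
          rw [h.rad (K - 1) _ (by omega) hc, if_neg hxy]
        refine ⟨c (K - 1), ?_, ?_, h.err (K - 1) _ (by omega) hc⟩
        · rw [norm_sub_rev, hf2, hr1]; ring
        · rw [h0, norm_sub_rev, hf1, hr1]; ring)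
    rw [h0] at hmain
    exact hmain

theorem PC_right {st : ℕ → Option (ZMod 3)} (hst : StSpec st) {K : ℕ} {c : ℕ → ℂ} {r : ℕ → ℝ}
    (h : PInv st K c r) :
    ∃ (l : ℕ) (a : ℕ → ℂ) (R : ℕ → ℝ), l ≤ q K ∧ a 0 = c (K + 1) ∧ R 0 = r (K + 1) ∧
      (∀ j, j ≤ l → 0 < R j) ∧ (∀ j, j ≤ l → ‖a j - c K‖ = r K + R j) ∧
      (∀ j, j < l → ‖a (j + 1) - a j‖ = R j + R (j + 1)) ∧
      (∀ j, j < l → 0 < (-1 : ℝ) * cr (a j - c K) (a (j + 1) - c K)) ∧
      (∀ j, 1 ≤ j → j ≤ l → ∃ x, st (pet K (N K + 1 - j)) = some x ∧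
        R j = (if x = 2 then (wp (pet K (N K + 1 - j))) ^ 2 else 1) ∧
        ‖a j - ideal x‖ ≤ 1 / 10 * (1 - 1 / 2 ^ (K + 1))) ∧
      (∀ j, l < j → j ≤ q K → st (pet K (N K + 1 - j)) = none) := by
  have hnK := n_ge K
  have hqN := PC_q_le K
  have h0 : pet K (N K + 1 - 0) = K + 1 := pet_last K
  have hst0 := hst.zero
  have hst1 := hst.one
  rcases Nat.eq_zero_or_pos K with hK0 | hK1
  · subst hK0
    have h01 : pet 0 (N 0 + 1 - 0) = 1 := h0
    have hmain := PC_side h (-1) (Or.inr rfl) (fun j => pet 0 (N 0 + 1 - j))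
      (fun j hj => pet_gt (by omega))
      (by rw [h01]; omega)
      (fun j h1 h2 => by rw [h01]; exact hst.right 0 j h1 h2)
      (fun x y hx hy => by
        rw [hst0] at hx
        rw [h01, hst1] at hy
        rw [← Option.some.inj hx, ← Option.some.inj hy]
        decide)
      (by rw [h01]; exact h.edge)
      (fun x y hx hy hxy => by
        exfalso
        apply hxy
        rw [hst0] at hx
        rw [h01, hst1] at hy
        rw [← Option.some.inj hx, ← Option.some.inj hy]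
        decide)
    rw [h01] at hmain
    exact hmain
  · obtain ⟨k', j0, hk', hj0, hp1, hp2⟩ := bd_edge hK1 (le_refl K) (by omega : K < n K)
    have hnx : nx K K = K + 1 := by
      unfold nx
      rw [if_neg (by omega)]
    rw [hnx] at hp2
    have hface : PFace c r k' j0 := h.face k' j0 hk' hj0
    unfold PFace at hface
    rw [← hp1, ← hp2] at hface
    obtain ⟨hf1, hf2, hf3, -⟩ := hface
    have hmain := PC_side h (-1) (Or.inr rfl) (fun j => pet K (N K + 1 - j))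
      (fun j hj => pet_gt (by omega))
      (by rw [h0]; omega)
      (fun j h1 h2 => by rw [h0]; exact hst.right K j h1 h2)
      (fun x y hx hy => by
        rw [h0] at hy
        have h1 := face_colour_ne hst (k := k') (j := j0) (a := K) (b := K + 1) hj0
          (by unfold verts; rw [← hp1, ← hp2]; simp) (by unfold verts; rw [← hp1, ← hp2]; simp)
          (by omega) (by rw [hx]; simp) (by rw [hy]; simp)
        intro hxy
        apply h1
        rw [hx, hy, hxy])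
      (by rw [h0]; exact hf3)
      (fun x y hx hy hxy => by
        rw [h0] at hy
        have hc := face_third hst hj0 (x := x) (y := y) (by rw [← hp1]; exact hx)
          (by rw [← hp2]; exact hy)
        have hkn : k' < n K := by omega
        have hr1 : r k' = 1 := by
          rw [h.rad k' _ hkn hc, if_neg hxy]
        refine ⟨c k', ?_, ?_, h.err k' _ hkn hc⟩
        · rw [norm_sub_rev, hf1, hr1]; ring
        · rw [h0, norm_sub_rev, hf2, hr1]; ring)
    rw [h0] at hmain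
    exact hmain

theorem PC_geom {st : ℕ → Option (ZMod 3)} (hst : StSpec st) {K : ℕ} {c : ℕ → ℂ} {r : ℕ → ℝ}
    (h : PInv st K c r) :
    ∃ (P : ℕ → ℂ) (Q : ℕ → ℝ), P 0 = c (n K - 1) ∧ Q 0 = r (n K - 1) ∧
      P (N K + 1) = c (K + 1) ∧ Q (N K + 1) = r (K + 1) ∧
      (∀ j, j ≤ N K + 1 → 0 < Q j) ∧ (∀ j, j ≤ N K + 1 → ‖P j - c K‖ = r K + Q j) ∧
      (∀ j, j ≤ N K → ‖P (j + 1) - P j‖ = Q j + Q (j + 1) ∧
        0 < cr (P j - c K) (P (j + 1) - c K)) ∧
      (∀ j, 1 ≤ j → j ≤ N K →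
        (∃ x, st (pet K j) = some x ∧ Q j = (if x = 2 then (wp (pet K j)) ^ 2 else 1) ∧
          ‖P j - ideal x‖ ≤ 1 / 10 * (1 - 1 / 2 ^ (K + 1))) ∨
        (st (pet K j) = none ∧ Q j ≤ r K / 8)) := by
  have hqN := PC_q_le K
  have hnK := n_ge K
  obtain ⟨l, a, R, hl, ha0, hR0, hRp, ha1, ha2, ha3, ha4, ha5⟩ := PC_left hst h
  obtain ⟨l', b, S, hl', hb0, hS0, hSp, hb1, hb2, hb3, hb4, hb5⟩ := PC_right hst h
  obtain ⟨M, hM⟩ : ∃ M, N K = l + M + l' := ⟨N K - l - l', by omega⟩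
  have hM64 : 64 ≤ M := by omega
  obtain ⟨t, F, T, ht0, ht8, hF0, hT0, hFM, hTM, hTj, hF1, hF2, hF3⟩ :=
    fan (c K) (a l) (b l') (r K) (R l) (S l') (h.pos K (by omega)) (hRp l le_rfl)
      (hSp l' le_rfl) (ha1 l le_rfl) (hb1 l' le_rfl) M hM64
  set P : ℕ → ℂ := fun j => if j ≤ l then a j else if j ≤ l + M then F (j - l) else
    b (N K + 1 - j) with hP
  set Q : ℕ → ℝ := fun j => if j ≤ l then R j else if j ≤ l + M then T (j - l) else
    S (N K + 1 - j) with hQ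
  have hP1 : ∀ j, j ≤ l → P j = a j ∧ Q j = R j := by
    intro j hj
    simp only [hP, hQ, if_pos hj, and_self]
  have hP2 : ∀ i, i ≤ M + 1 → P (l + i) = F i ∧ Q (l + i) = T i := by
    intro i hi
    rcases Nat.eq_zero_or_pos i with h1 | h1
    · subst h1
      rw [Nat.add_zero, (hP1 l le_rfl).1, (hP1 l le_rfl).2, hF0, hT0]
      exact ⟨rfl, rfl⟩
    · rcases Nat.lt_or_ge M i with h2 | h2
      · have h3 : i = M + 1 := by omega
        subst h3
        have h4 : ¬ (l + (M + 1) ≤ l) := by omega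
        have h5 : ¬ (l + (M + 1) ≤ l + M) := by omega
        have h6 : N K + 1 - (l + (M + 1)) = l' := by omega
        simp only [hP, hQ, if_neg h4, if_neg h5, h6]
        exact ⟨hFM.symm, hTM.symm⟩
      · have h4 : ¬ (l + i ≤ l) := by omega
        have h5 : l + i ≤ l + M := by omega
        have h6 : l + i - l = i := by omega
        simp only [hP, hQ, if_neg h4, if_pos h5, h6, and_self]
  have hP3 : ∀ s, s ≤ l' → P (N K + 1 - s) = b s ∧ Q (N K + 1 - s) = S s := by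
    intro s hs
    have h4 : ¬ (N K + 1 - s ≤ l) := by omega
    have h5 : ¬ (N K + 1 - s ≤ l + M) := by omega
    have h6 : N K + 1 - (N K + 1 - s) = s := by omega
    simp only [hP, hQ, if_neg h4, if_neg h5, h6, and_self]
  have hQfan : ∀ i, 1 ≤ i → i ≤ M → Q (l + i) = t := by
    intro i h1 h2
    rw [(hP2 i (by omega)).2, hTj i h1 h2]
  refine ⟨P, Q, ?_, ?_, ?_, ?_, ?_, ?_, ?_, ?_⟩
  · rw [(hP1 0 (Nat.zero_le _)).1, ha0]
  · rw [(hP1 0 (Nat.zero_le _)).2, hR0]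
  · have := (hP3 0 (Nat.zero_le _)).1
    rw [Nat.sub_zero] at this
    rw [this, hb0]
  · have := (hP3 0 (Nat.zero_le _)).2
    rw [Nat.sub_zero] at this
    rw [this, hS0]
  · intro j hj
    rcases Nat.lt_or_ge l j with h1 | h1
    · rcases Nat.lt_or_ge (l + M) j with h2 | h2
      · obtain ⟨s, hs⟩ : ∃ s, j = N K + 1 - s ∧ s ≤ l' := ⟨N K + 1 - j, by omega⟩
        rw [hs.1, (hP3 s hs.2).2]
        exact hSp s hs.2
      · obtain ⟨i, hi⟩ : ∃ i, j = l + i ∧ 1 ≤ i ∧ i ≤ M := ⟨j - l, by omega⟩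
        rw [hi.1, hQfan i hi.2.1 hi.2.2]
        exact ht0
    · rw [(hP1 j h1).2]
      exact hRp j h1
  · intro j hj
    rcases Nat.lt_or_ge l j with h1 | h1
    · rcases Nat.lt_or_ge (l + M) j with h2 | h2
      · obtain ⟨s, hs⟩ : ∃ s, j = N K + 1 - s ∧ s ≤ l' := ⟨N K + 1 - j, by omega⟩
        rw [hs.1, (hP3 s hs.2).1, (hP3 s hs.2).2]
        exact hb1 s hs.2
      · obtain ⟨i, hi⟩ : ∃ i, j = l + i ∧ 1 ≤ i ∧ i ≤ M := ⟨j - l, by omega⟩
        rw [hi.1, (hP2 i (by omega)).1, (hP2 i (by omega)).2]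
        exact hF1 i (by omega)
    · rw [(hP1 j h1).1, (hP1 j h1).2]
      exact ha1 j h1
  · intro j hj
    rcases Nat.lt_or_ge j l with h1 | h1
    · rw [(hP1 j h1.le).1, (hP1 j h1.le).2, (hP1 (j + 1) h1).1, (hP1 (j + 1) h1).2]
      refine ⟨ha2 j h1, ?_⟩
      have := ha3 j h1
      rwa [one_mul] at this
    · rcases Nat.lt_or_ge (l + M) j with h2 | h2
      · obtain ⟨s, hs1, hs2, hs3⟩ : ∃ s, j = N K + 1 - (s + 1) ∧ j + 1 = N K + 1 - s ∧ s < l' :=
          ⟨N K - j, by omega⟩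
        have e1 := hP3 (s + 1) hs3
        have e2 := hP3 s hs3.le
        rw [hs2, e2.1, e2.2, hs1, e1.1, e1.2]
        constructor
        · rw [norm_sub_rev, hb2 s hs3]
          ring
        · have := hb3 s hs3
          have e3 : cr (b (s + 1) - c K) (b s - c K) = -cr (b s - c K) (b (s + 1) - c K) := by
            unfold cr
            ring
          rw [e3]
          linarith
      · obtain ⟨i, hi1, hi2⟩ : ∃ i, j = l + i ∧ i ≤ M := ⟨j - l, by omega⟩
        have e1 := hP2 i (by omega)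
        have e2 := hP2 (i + 1) (by omega)
        rw [hi1, Nat.add_assoc, e1.1, e1.2, e2.1, e2.2]
        exact ⟨hF2 i hi2, hF3 i hi2⟩
  · intro j hj1 hj2
    rcases Nat.lt_or_ge l j with h1 | h1
    · rcases Nat.lt_or_ge (l + M) j with h2 | h2
      · left
        obtain ⟨s, hs1, hs2, hs3⟩ : ∃ s, j = N K + 1 - s ∧ 1 ≤ s ∧ s ≤ l' :=
          ⟨N K + 1 - j, by omega⟩
        obtain ⟨x, hx1, hx2, hx3⟩ := hb4 s hs2 hs3
        refine ⟨x, ?_, ?_, ?_⟩
        · rw [hs1]; exact hx1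
        · rw [hs1, (hP3 s hs3).2]; exact hx2
        · rw [hs1, (hP3 s hs3).1]; exact hx3
      · right
        obtain ⟨i, hi⟩ : ∃ i, j = l + i ∧ 1 ≤ i ∧ i ≤ M := ⟨j - l, by omega⟩
        refine ⟨?_, ?_⟩
        · rcases Nat.lt_or_ge (q K) j with h3 | h3
          · rcases Nat.lt_or_ge (q K + mB) j with h4 | h4
            · have h5 := hb5 (N K + 1 - j) (by omega) (by have : mB = 64 := rfl; omega)
              rwa [show N K + 1 - (N K + 1 - j) = j by omega] at h5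
            · exact hst.mid K j h3 h4
          · exact ha5 j h1 h3
        · rw [hi.1, hQfan i hi.2.1 hi.2.2]
          exact ht8
    · left
      obtain ⟨x, hx1, hx2, hx3⟩ := ha4 j hj1 h1
      refine ⟨x, hx1, ?_, ?_⟩
      · rw [(hP1 j h1).2]; exact hx2
      · rw [(hP1 j h1).1]; exact hx3

theorem PC_ideal_norm (x : ZMod 3) : ‖ideal x‖ ≤ 1 := by
  unfold ideal
  split_ifs <;> simp

theorem p_step {st : ℕ → Option (ZMod 3)} (hst : StSpec st) {K : ℕ} {c : ℕ → ℂ} {r : ℕ → ℝ}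
    (h : PInv st K c r) :
    ∃ c' r', (∀ i, i < n K → c' i = c i ∧ r' i = r i) ∧ PInv st (K + 1) c' r' := by
  have hnK := n_ge K
  have hns := n_succ K
  obtain ⟨P, Q, hP0, hQ0, hPL, hQL, hQp, hP1, hP2, hP3⟩ := PC_geom hst h
  set c' : ℕ → ℂ := fun i => if i < n K then c i else P (i + 1 - n K) with hc'
  set r' : ℕ → ℝ := fun i => if i < n K then r i else Q (i + 1 - n K) with hr'
  have hold : ∀ i, i < n K → c' i = c i ∧ r' i = r i := by
    intro i hi
    simp only [hc', hr', if_pos hi, and_self]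
  have hpet : ∀ j, j ≤ N K + 1 → c' (pet K j) = P j ∧ r' (pet K j) = Q j := by
    intro j hj
    rcases Nat.eq_zero_or_pos j with h1 | h1
    · subst h1
      rw [pet_zero, (hold (n K - 1) (by omega)).1, (hold (n K - 1) (by omega)).2, hP0, hQ0]
      exact ⟨rfl, rfl⟩
    · rcases Nat.lt_or_ge (N K) j with h2 | h2
      · have h3 : j = N K + 1 := by omega
        subst h3
        rw [pet_last, (hold (K + 1) (by omega)).1, (hold (K + 1) (by omega)).2, hPL, hQL]
        exact ⟨rfl, rfl⟩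
      · rw [pet_le h2]
        have h3 : ¬ (n K - 1 + j < n K) := by omega
        have h4 : n K - 1 + j + 1 - n K = j := by omega
        simp only [hc', hr', if_neg h3, h4, and_self]
  have hnew : ∀ i, i < n (K + 1) → i < n K ∨ ∃ j, 1 ≤ j ∧ j ≤ N K ∧ pet K j = i := by
    intro i hi
    rcases Nat.lt_or_ge i (n K) with h1 | h1
    · exact Or.inl h1
    · exact Or.inr (pet_surj h1 hi)
  have hnmono : ∀ k, k < K → n (k + 1) ≤ n K := fun k hk => n_strictMono.monotone hk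
  refine ⟨c', r', hold, ?_, ?_, ?_, ?_, ?_, ?_⟩
  · intro i hi
    rcases hnew i hi with h1 | ⟨j, hj1, hj2, rfl⟩
    · rw [(hold i h1).2]
      exact h.pos i h1
    · rw [(hpet j (by omega)).2]
      exact hQp j (by omega)
  · intro k j hk hj
    rcases Nat.lt_or_ge k K with h1 | h1
    · have hn1 := hnmono k h1
      have e0 := hold k (by omega)
      have e1 := hold (pet k j) (lt_of_lt_of_le (pet_lt (by omega)) hn1)
      have e2 := hold (pet k (j + 1)) (lt_of_lt_of_le (pet_lt (by omega)) hn1)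
      unfold PFace
      rw [e0.1, e0.2, e1.1, e1.2, e2.1, e2.2]
      exact h.face k j h1 hj
    · have hkK : k = K := by omega
      subst hkK
      have e0 := hold k (by omega)
      have e1 := hpet j (by omega)
      have e2 := hpet (j + 1) (by omega)
      unfold PFace
      rw [e0.1, e0.2, e1.1, e1.2, e2.1, e2.2]
      exact ⟨hP1 j (by omega), hP1 (j + 1) (by omega), (hP2 j hj).1, (hP2 j hj).2⟩
  · rw [(hold 0 (by omega)).1, (hold 0 (by omega)).2, (hold 1 (by omega)).1,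
      (hold 1 (by omega)).2]
    exact h.edge
  · intro i x hi hx
    rcases hnew i hi with h1 | ⟨j, hj1, hj2, rfl⟩
    · rw [(hold i h1).2]
      exact h.rad i x h1 hx
    · rw [(hpet j (by omega)).2]
      rcases hP3 j hj1 hj2 with ⟨y, hy1, hy2, -⟩ | ⟨hn, -⟩
      · rw [hx] at hy1
        rw [Option.some.inj hy1]
        exact hy2
      · rw [hx] at hn
        exact absurd hn (by simp)
  · intro i x hi hx
    rcases hnew i hi with h1 | ⟨j, hj1, hj2, rfl⟩
    · rw [(hold i h1).1]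
      refine (h.err i x h1 hx).trans ?_
      have h2 : (1 : ℝ) / 2 ^ (K + 1) ≤ 1 / 2 ^ K := by
        apply one_div_le_one_div_of_le (by positivity)
        exact pow_le_pow_right₀ (by norm_num) (Nat.le_succ K)
      linarith
    · rw [(hpet j (by omega)).1]
      rcases hP3 j hj1 hj2 with ⟨y, hy1, -, hy3⟩ | ⟨hn, -⟩
      · rw [hx] at hy1
        rw [Option.some.inj hy1]
        exact hy3
      · rw [hx] at hn
        exact absurd hn (by simp)
  · intro i hi
    rcases hnew i hi with h1 | ⟨j, hj1, hj2, rfl⟩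
    · rw [(hold i h1).1, (hold i h1).2]
      exact h.bdd i h1
    · rw [(hpet j (by omega)).1, (hpet j (by omega)).2]
      rcases hP3 j hj1 hj2 with ⟨y, -, hy2, hy3⟩ | ⟨-, hn⟩
      · have h1 : Q j ≤ 1 := by
          rw [hy2]
          split_ifs
          · exact pow_le_one₀ (PC_wp_pos _).le (PC_wp_le_one _)
          · exact le_rfl
        have h2 : ‖P j‖ ≤ ‖P j - ideal y‖ + ‖ideal y‖ := by
          have := norm_add_le (P j - ideal y) (ideal y)
          rwa [sub_add_cancel] at this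
        have h3 := PC_ideal_norm y
        have h4 : (0 : ℝ) < 1 / 2 ^ (K + 1) := by positivity
        linarith
      · have h1 := hP1 j (by omega)
        have h2 : ‖P j‖ ≤ ‖P j - c K‖ + ‖c K‖ := by
          have := norm_add_le (P j - c K) (c K)
          rwa [sub_add_cancel] at this
        have h3 := h.bdd K (by omega)
        have h4 := h.pos K (by omega)
        linarith

end Pool.Agent.H776R2.Fatou
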