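import Pool.Agent.H776R2.Fatou.FDefs
import Pool.Agent.H776R2.Fatou.Mink
import Pool.Agent.H776R2.Fatou.Eucl
import Pool.Agent.H776R2.Fatou.Carr
import Pool.Agent.H776R2.Fatou.Comb
import Pool.Agent.H776R2.Fatou.Layout
import Pool.Agent.H776R2.Fatou.DiscT
import Pool.Agent.H776R2.Fatou.Exh
import Pool.Agent.H776R2.Fatou.PStep

/-! Task FB: the maximal packing of the spiral complex (helper778 for helper776). -/

open Real Filter Topology

noncomputable section

namespace Pool.Agent.H776R2.Fatou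

theorem FB_face {ρ : ℕ → ℝ} {X : ℕ → M3} (h : Lay ρ X) {a b d : ℕ} (hf : Kf.face a b d) :
    FaceOK ρ X a b d := by
  obtain ⟨k, j, hj, ⟨rfl, rfl, rfl⟩ | ⟨rfl, rfl, rfl⟩ | ⟨rfl, rfl, rfl⟩⟩ := hf
  · exact h.face _ _ hj
  · exact face_rot (h.face _ _ hj)
  · exact face_rot (face_rot (h.face _ _ hj))

theorem FB_packing {ρ : ℕ → ℝ} {X : ℕ → M3} (h : Lay ρ X) :
    Kf.IsPacking (fun i => cen (X i) (ρ i)) (fun i => rad (X i) (ρ i)) where
  pos v := rad_pos (h.isH v) (h.lab.pos v)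
  tangent a b d hf :=
    (cen_tang (h.isH a) (h.isH b) (h.lab.pos a) (h.lab.pos b)).2 (FB_face h hf).1
  orient a b d hf := by
    obtain ⟨h1, h2, h3, h4⟩ := FB_face h hf
    exact cen_orient (h.isH a) (h.isH b) (h.isH d) (h.lab.pos a) (h.lab.pos b) (h.lab.pos d)
      h1 h2 h3 h4

theorem maximal {ρ : ℕ → ℝ} {X : ℕ → M3} (h : Lay ρ X) :
    Kf.IsMaximal (fun i => cen (X i) (ρ i)) (fun i => rad (X i) (ρ i)) where
  packing := FB_packing h
  univalent u v huv := by
    apply Metric.ball_disjoint_ball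
    rw [dist_eq_norm]
    exact (cen_disj (h.isH u) (h.isH v) (h.lab.pos u) (h.lab.pos v)).2 (discs_disjoint h huv)
  carrier := by
    have hlt : ∀ v, ‖cen (X v) (ρ v)‖ + rad (X v) (ρ v) < 1 := fun v =>
      cen_lt (h.isH v) (h.lab.pos v)
    have hrp : ∀ v, 0 < rad (X v) (ρ v) := fun v => rad_pos (h.isH v) (h.lab.pos v)
    apply Set.Subset.antisymm
    · rintro w (hw | ⟨a, b, d, hf, hw, -⟩)
      · obtain ⟨v, hv⟩ := Set.mem_iUnion.1 hw
        rw [mem_closedBall_iff_norm] at hv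
        rw [mem_ball_zero_iff]
        have h1 : ‖w‖ ≤ ‖w - cen (X v) (ρ v)‖ + ‖cen (X v) (ρ v)‖ := by
          simpa using norm_add_le (w - cen (X v) (ρ v)) (cen (X v) (ρ v))
        have := hlt v
        linarith
      · have hsub : convexHull ℝ {cen (X a) (ρ a), cen (X b) (ρ b), cen (X d) (ρ d)} ⊆
            Metric.ball (0 : ℂ) 1 := by
          apply convexHull_min _ (convex_ball _ _)
          intro z hz
          rw [mem_ball_zero_iff]
          rcases hz with rfl | rfl | rfl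
          · have := hlt a; have := hrp a; linarith
          · have := hlt b; have := hrp b; linarith
          · have := hlt d; have := hrp d; linarith
        exact hsub hw
    · intro w hw
      rw [mem_ball_zero_iff] at hw
      obtain ⟨Y, hY, rfl⟩ := poin_surj hw
      obtain ⟨k, j, hj, hF⟩ := exists_face h hY
      by_cases hex : ∃ v, B (X v) Y ≤ cosh (ρ v)
      · obtain ⟨v, hv⟩ := hex
        left
        refine Set.mem_iUnion.2 ⟨v, ?_⟩
        rw [mem_closedBall_iff_norm]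
        exact (poin_mem (h.isH v) hY (h.lab.pos v)).2 hv
      · push Not at hex
        right
        obtain ⟨h1, h2, h3, h4⟩ := h.face k j hj
        have hge : ∀ v, rad (X v) (ρ v) ≤ ‖poin Y - cen (X v) (ρ v)‖ := by
          intro v
          by_contra hlt'
          push Not at hlt'
          have := (poin_mem_lt (h.isH v) hY (h.lab.pos v)).1 hlt'
          exact absurd this (not_lt.2 (hex v).le)
        refine ⟨k, pet k j, pet k (j + 1), ⟨k, j, hj, Or.inl ⟨rfl, rfl, rfl⟩⟩, ?_, hge _, hge _,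
          hge _⟩
        exact carrier_pt (h.isH _) (h.isH _) (h.isH _) (h.lab.pos _) (h.lab.pos _) (h.lab.pos _)
          h1 h2 h3 h4 hY hF (hex _).le (hex _).le (hex _).le

theorem packing_of_PFace {c : ℕ → ℂ} {r : ℕ → ℝ} (h0 : ∀ i, 0 < r i)
    (h1 : ∀ k j, j ≤ N k → PFace c r k j) : Kf.IsPacking c r where
  pos := h0
  tangent a b d hf := by
    obtain ⟨k, j, hj, ⟨rfl, rfl, rfl⟩ | ⟨rfl, rfl, rfl⟩ | ⟨rfl, rfl, rfl⟩⟩ := hf
    · rw [norm_sub_rev]
      exact (h1 _ _ hj).1
    · rw [norm_sub_rev]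
      exact (h1 _ _ hj).2.2.1
    · rw [(h1 _ _ hj).2.1, add_comm]
  orient a b d hf := by
    obtain ⟨k, j, hj, ⟨rfl, rfl, rfl⟩ | ⟨rfl, rfl, rfl⟩ | ⟨rfl, rfl, rfl⟩⟩ := hf
    · exact (h1 _ _ hj).2.2.2
    · have h2 := (h1 _ _ hj).2.2.2
      unfold cr at h2
      simp only [Complex.sub_re, Complex.sub_im] at h2 ⊢
      linarith
    · have h2 := (h1 _ _ hj).2.2.2
      unfold cr at h2
      simp only [Complex.sub_re, Complex.sub_im] at h2 ⊢
      linarith

end Pool.Agent.H776R2.Fatou
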