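import Pool.Agent.H776R2.Fatou.Ray
import Pool.Agent.H776R2.Fatou.Eucl
import Pool.Agent.H776R2.Fatou.Layout
import Pool.Agent.H776R2.Fatou.DiscT

open Real MeasureTheory

noncomputable section

namespace Pool.Agent.H776R2.Fatou

/-! ### the angle -/

theorem RC_small {y R : ℝ} (h1 : |y| ≤ π) (hc : 0 < cos y) (hs : |sin y| ≤ 2 * R) :
    |y| ≤ π * R := by
  have hy : |y| < π / 2 := by
    by_contra hcon
    push Not at hcon
    have h2 := cos_nonpos_of_pi_div_two_le_of_le hcon (by linarith [pi_pos])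
    rw [cos_abs] at h2
    linarith
  have h3 := mul_le_sin (abs_nonneg y) hy.le
  have h4 : sin |y| ≤ |sin y| := by
    rcases abs_cases y with ⟨h, -⟩ | ⟨h, -⟩
    · rw [h]
      exact le_abs_self _
    · rw [h, sin_neg]
      exact neg_le_abs _
  have h5 : 2 / π * |y| ≤ 2 * R := h3.trans (h4.trans hs)
  have hpi := pi_pos
  have h6 : 2 / π * |y| * (π / 2) ≤ 2 * R * (π / 2) := mul_le_mul_of_nonneg_right h5 (by positivity)
  have h7 : 2 / π * |y| * (π / 2) = |y| := by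
    field_simp
  rw [h7] at h6
  linarith

theorem RC_angle {x R : ℝ} (h1 : |x| < 2 * π) (hc : 0 < cos x) (hs : |sin x| ≤ 2 * R) :
    |x + 2 * π| ≤ π * R ∨ |x| ≤ π * R ∨ |x - 2 * π| ≤ π * R := by
  have hpi := pi_pos
  rw [abs_lt] at h1
  rcases lt_or_ge x (-π) with h | h
  · left
    refine RC_small ?_ ?_ ?_
    · rw [abs_le]
      constructor <;> linarith
    · rw [cos_add_two_pi]
      exact hc
    · rw [sin_add_two_pi]
      exact hs
  · rcases lt_or_ge π x with h' | h'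
    · right; right
      refine RC_small ?_ ?_ ?_
      · rw [abs_le]
        constructor <;> linarith
      · rw [cos_sub_two_pi]
        exact hc
      · rw [sin_sub_two_pi]
        exact hs
    · right; left
      exact RC_small (abs_le.2 ⟨h, h'⟩) hc hs

/-! ### geometry of a disc met by a ray -/

theorem RC_rad0 {ρ : ℕ → ℝ} {X : ℕ → M3} (h : Lay ρ X) : 1 / 2 ≤ rad (X 0) (ρ 0) := by
  rw [h.zero]
  unfold rad
  have h1 := lab_exp h.lab 0
  have h2 := exp_pos (-ρ 0)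
  have h3 : exp (ρ 0) * exp (-ρ 0) = 1 := by rw [← exp_add, add_neg_cancel, exp_zero]
  have h4 := exp_pos (ρ 0)
  have h5 : exp (-ρ 0) ≤ 1 / 3 := h1.trans (by norm_num)
  have h6 : 3 ≤ exp (ρ 0) := by nlinarith
  rw [le_div_iff₀ (by have := cosh_pos (ρ 0); simp only; linarith)]
  rw [sinh_eq, cosh_eq]
  simp only
  linarith

theorem RC_cen0 {ρ : ℕ → ℝ} {X : ℕ → M3} (h : Lay ρ X) : cen (X 0) (ρ 0) = 0 := by
  rw [h.zero]
  unfold cen
  simp

theorem RC_far {ρ : ℕ → ℝ} {X : ℕ → M3} (h : Lay ρ X) {i : ℕ} (hi : 1 ≤ i) :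
    1 / 2 + rad (X i) (ρ i) ≤ ‖cen (X i) (ρ i)‖ := by
  have h1 := discs_disjoint h (u := 0) (v := i) (by omega)
  rw [← cen_disj (h.isH 0) (h.isH i) (h.lab.pos 0) (h.lab.pos i), RC_cen0 h, zero_sub, norm_neg]
    at h1
  have h2 := RC_rad0 h
  linarith

theorem RC_poin {ζ : ℂ} {s : ℝ} (hs : 0 ≤ s) : ∃ t : ℝ, 0 ≤ t ∧ t ≤ 1 ∧ poin (ray ζ s) = (t : ℂ) * ζ := by
  refine ⟨sinh s / (1 + cosh s), ?_, ?_, ?_⟩
  · have h1 := sinh_nonneg_iff.2 hs
    have h2 := cosh_pos s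
    positivity
  · have h2 := cosh_pos s
    rw [div_le_one (by linarith)]
    have := sinh_lt_cosh s
    linarith
  · unfold poin ray
    push_cast
    ring

/-- The numbers `a = Re (Z conj ζ)`, `b = Im (Z conj ζ)`. -/
theorem RC_ab {ρ : ℕ → ℝ} {X : ℕ → M3} (h : Lay ρ X) {ζ : ℂ} (hζ : ‖ζ‖ = 1) {i : ℕ} (hi : 1 ≤ i)
    {s : ℝ} (hs : 0 ≤ s) (hB : B (X i) (ray ζ s) ≤ cosh (ρ i)) :
    0 < (cen (X i) (ρ i) * (starRingEnd ℂ) ζ).re ∧
      |(cen (X i) (ρ i) * (starRingEnd ℂ) ζ).im| ≤ rad (X i) (ρ i) := by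
  obtain ⟨t, ht0, ht1, ht⟩ := RC_poin (ζ := ζ) hs
  have h1 := (poin_mem (h.isH i) (ray_isH hζ s) (h.lab.pos i)).2 hB
  rw [ht] at h1
  have hR := rad_pos (h.isH i) (h.lab.pos i)
  have hfar := RC_far h hi
  set Z := cen (X i) (ρ i) with hZ
  set R := rad (X i) (ρ i) with hRd
  set w := Z * (starRingEnd ℂ) ζ with hw
  have hcz : ζ * (starRingEnd ℂ) ζ = 1 := by
    rw [Complex.mul_conj, Complex.normSq_eq_norm_sq, hζ]
    simp
  have h2 : ‖(t : ℂ) - w‖ ≤ R := by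
    have h3 : (t : ℂ) - w = ((t : ℂ) * ζ - Z) * (starRingEnd ℂ) ζ := by
      rw [sub_mul, mul_assoc, hcz, mul_one]
    rw [h3, norm_mul, RCLike.norm_conj, hζ, mul_one]
    exact h1
  have hwn : ‖w‖ = ‖Z‖ := by
    rw [hw, norm_mul, RCLike.norm_conj, hζ, mul_one]
  have h4 : ‖(t : ℂ) - w‖ ^ 2 = (t - w.re) ^ 2 + w.im ^ 2 := by
    rw [← Complex.normSq_eq_norm_sq, Complex.normSq_apply]
    simp
    ring
  have h5 : ‖w‖ ^ 2 = w.re ^ 2 + w.im ^ 2 := by
    rw [← Complex.normSq_eq_norm_sq, Complex.normSq_apply]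
    ring
  have h6 : ‖(t : ℂ) - w‖ ^ 2 ≤ R ^ 2 := pow_le_pow_left₀ (norm_nonneg _) h2 2
  rw [h4] at h6
  rw [hwn] at h5
  have h7 : R ^ 2 < ‖Z‖ ^ 2 := by
    apply pow_lt_pow_left₀ _ hR.le two_ne_zero
    linarith
  constructor
  · by_contra hcon
    push Not at hcon
    nlinarith
  · apply abs_le_of_sq_le_sq _ hR.le
    nlinarith

theorem seen {ρ : ℕ → ℝ} {X : ℕ → M3} (h : Lay ρ X) {ζ : ℂ} (hζ : ‖ζ‖ = 1) {i : ℕ} (hi : 1 ≤ i)
    {s : ℝ} (hs : 0 ≤ s) (hB : B (X i) (ray ζ s) ≤ cosh (ρ i)) :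
    ‖ζ - cen (X i) (ρ i)‖ ≤ 10 * (1 - ‖cen (X i) (ρ i)‖) := by
  obtain ⟨ha, hb⟩ := RC_ab h hζ hi hs hB
  have hR := rad_pos (h.isH i) (h.lab.pos i)
  have hfar := RC_far h hi
  have hlt := cen_lt (h.isH i) (h.lab.pos i)
  set Z := cen (X i) (ρ i) with hZ
  set R := rad (X i) (ρ i) with hRd
  set w := Z * (starRingEnd ℂ) ζ with hw
  have hcz : ζ * (starRingEnd ℂ) ζ = 1 := by
    rw [Complex.mul_conj, Complex.normSq_eq_norm_sq, hζ]
    simp
  have hwn : ‖w‖ = ‖Z‖ := by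
    rw [hw, norm_mul, RCLike.norm_conj, hζ, mul_one]
  have h5 : ‖w‖ ^ 2 = w.re ^ 2 + w.im ^ 2 := by
    rw [← Complex.normSq_eq_norm_sq, Complex.normSq_apply]
    ring
  rw [hwn] at h5
  have h2 : ‖ζ - Z‖ = ‖1 - w‖ := by
    have h3 : 1 - w = (ζ - Z) * (starRingEnd ℂ) ζ := by
      rw [sub_mul, hcz]
    rw [h3, norm_mul, RCLike.norm_conj, hζ, mul_one]
  have h4 : ‖1 - w‖ ^ 2 = (1 - w.re) ^ 2 + w.im ^ 2 := by
    rw [← Complex.normSq_eq_norm_sq, Complex.normSq_apply]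
    simp
    ring
  rw [h2]
  have hb2 : w.im ^ 2 ≤ R ^ 2 := sq_le_sq.2 (by rwa [abs_of_pos hR])
  have hδ : R < 1 - ‖Z‖ := by linarith
  have hδ2 : 1 - ‖Z‖ ≤ 1 / 2 := by linarith
  have hZn : 1 / 2 ≤ ‖Z‖ := by linarith
  have hre : w.re ≤ ‖Z‖ := by
    have := Complex.re_le_norm w
    rwa [hwn] at this
  -- `‖Z‖ - a ≤ 2 R ^ 2`
  have h6 : (‖Z‖ - w.re) * (‖Z‖ + w.re) ≤ R ^ 2 := by nlinarith
  have h7 : ‖Z‖ - w.re ≤ 2 * R ^ 2 := by nlinarith
  have h8 : 1 - w.re ≤ 2 * (1 - ‖Z‖) := by nlinarith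
  have h9 : 0 ≤ 1 - w.re := by linarith
  apply abs_le_of_sq_le_sq' _ (by linarith) |>.2
  rw [h4]
  nlinarith

/-! ### measure of the shadows -/

/-- the shadow of the disc `i` -/
def Shad (ρ : ℕ → ℝ) (X : ℕ → M3) (i : ℕ) : Set ℝ :=
  {θ | θ ∈ Set.Ioc (-π) π ∧
    ∃ s, 0 ≤ s ∧ B (X i) (ray (Complex.exp (Complex.I * (θ : ℂ))) s) ≤ cosh (ρ i)}

theorem shad_meas {ρ : ℕ → ℝ} {X : ℕ → M3} (h : Lay ρ X) {i : ℕ} (hi : 1 ≤ i) :
    ∃ J : Set ℝ, MeasurableSet J ∧ Shad ρ X i ⊆ J ∧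
      volume J ≤ ENNReal.ofReal (20 * rad (X i) (ρ i)) := by
  have hR := rad_pos (h.isH i) (h.lab.pos i)
  have hfar := RC_far h hi
  set Z := cen (X i) (ρ i) with hZ
  set R := rad (X i) (ρ i) with hRd
  set φ := Complex.arg Z with hφ
  have hpi := pi_pos
  refine ⟨Set.Icc (φ - 2 * π - π * R) (φ - 2 * π + π * R) ∪ Set.Icc (φ - π * R) (φ + π * R) ∪
    Set.Icc (φ + 2 * π - π * R) (φ + 2 * π + π * R),
    (measurableSet_Icc.union measurableSet_Icc).union measurableSet_Icc, ?_, ?_⟩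
  · rintro θ ⟨hθ, s, hs, hB⟩
    have hζ : ‖Complex.exp (Complex.I * (θ : ℂ))‖ = 1 := by
      rw [mul_comm]
      exact Complex.norm_exp_ofReal_mul_I θ
    obtain ⟨ha, hb⟩ := RC_ab h hζ hi hs hB
    have hw : Z * (starRingEnd ℂ) (Complex.exp (Complex.I * (θ : ℂ))) =
        ((‖Z‖ : ℝ) : ℂ) * Complex.exp (((φ - θ : ℝ) : ℂ) * Complex.I) := by
      have h1 : Z = ((‖Z‖ : ℝ) : ℂ) * Complex.exp ((φ : ℂ) * Complex.I) :=
        (Complex.norm_mul_exp_arg_mul_I Z).symm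
      have h2 : (starRingEnd ℂ) (Complex.exp (Complex.I * (θ : ℂ))) =
          Complex.exp (-(θ : ℂ) * Complex.I) := by
        rw [← Complex.exp_conj, map_mul, Complex.conj_I, Complex.conj_ofReal]
        congr 1
        ring
      rw [h2]
      conv_lhs => rw [h1]
      rw [mul_assoc, ← Complex.exp_add]
      congr 2
      push_cast
      ring
    rw [← hZ, hw] at ha hb
    rw [Complex.re_ofReal_mul, Complex.exp_ofReal_mul_I_re] at ha
    rw [Complex.im_ofReal_mul, Complex.exp_ofReal_mul_I_im, abs_mul,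
      abs_of_nonneg (norm_nonneg Z)] at hb
    have hc : 0 < cos (θ - φ) := by
      rw [← cos_neg, neg_sub]
      by_contra hcon
      push Not at hcon
      have := mul_nonpos_of_nonneg_of_nonpos (norm_nonneg Z) hcon
      linarith
    have hsn : |sin (θ - φ)| ≤ 2 * R := by
      rw [← abs_neg, ← sin_neg, neg_sub]
      have h3 : 1 / 2 ≤ ‖Z‖ := by linarith
      have h4 := abs_nonneg (sin (φ - θ))
      nlinarith
    have hx : |θ - φ| < 2 * π := by
      have h5 := Complex.neg_pi_lt_arg Z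
      have h6 := Complex.arg_le_pi Z
      rw [abs_lt]
      constructor
      · linarith [hθ.1]
      · linarith [hθ.2]
    rcases RC_angle hx hc hsn with h7 | h7 | h7
    · left; left
      rw [abs_le] at h7
      constructor <;> linarith [h7.1, h7.2]
    · left; right
      rw [abs_le] at h7
      constructor <;> linarith [h7.1, h7.2]
    · right
      rw [abs_le] at h7
      constructor <;> linarith [h7.1, h7.2]
  · have h1 : ∀ c : ℝ, volume (Set.Icc (c - π * R) (c + π * R)) = ENNReal.ofReal (2 * π * R) := by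
      intro c
      rw [Real.volume_Icc]
      congr 1
      ring
    refine (measure_union_le _ _).trans ?_
    refine (add_le_add (measure_union_le _ _) le_rfl).trans ?_
    rw [h1, h1, h1, ← ENNReal.ofReal_add (by positivity) (by positivity),
      ← ENNReal.ofReal_add (by positivity) (by positivity)]
    apply ENNReal.ofReal_le_ofReal
    have := pi_lt_d2
    nlinarith

end Pool.Agent.H776R2.Fatou
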