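import Pool.Agent.H776R2.Fatou.FDefs
import Pool.Agent.H776R2.Fatou.Mink
import Pool.Agent.H776R2.Fatou.Comb
import Pool.Agent.H776R2.Fatou.Layout
import Pool.Agent.H776R2.Fatou.ConvT
import Pool.Agent.H776R2.Fatou.Tile
import Pool.Agent.H776R2.Fatou.CommonF
import Pool.Agent.H776R2.Fatou.DiscT
import Pool.Agent.H776R2.Fatou.Exh

open Real Filter Topology

noncomputable section

namespace Pool.Agent.H776R2.Fatou

/-- the point of the Klein disc -/
def FA_z (X : ℕ → M3) (i : ℕ) : ℂ := (X i).2 / ((X i).1 : ℂ)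

theorem FA_isH {Y : M3} (h : IsH Y) : Y.1 ^ 2 - (Y.2.re ^ 2 + Y.2.im ^ 2) = 1 ∧ 0 < Y.1 := by
  obtain ⟨h1, h2⟩ := h
  refine ⟨?_, h2⟩
  unfold B at h1
  nlinarith

theorem FA_smul {X : ℕ → M3} {i : ℕ} (h : 0 < (X i).1) : (X i).2 = ((X i).1 : ℂ) * FA_z X i := by
  unfold FA_z
  have : ((X i).1 : ℂ) ≠ 0 := by exact_mod_cast h.ne'
  field_simp

theorem FA_X {X : ℕ → M3} {i : ℕ} (h : 0 < (X i).1) : X i = (X i).1 • ((1 : ℝ), FA_z X i) := by
  refine Prod.ext ?_ ?_
  · simp
  · rw [Prod.smul_snd, FA_smul h, Complex.real_smul]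

theorem FA_norm {X : ℕ → M3} {i : ℕ} (h : IsH (X i)) : ‖FA_z X i‖ < 1 := by
  obtain ⟨h1, h2⟩ := FA_isH h
  have h3 : ‖FA_z X i‖ ^ 2 = ((X i).2.re ^ 2 + (X i).2.im ^ 2) / (X i).1 ^ 2 := by
    unfold FA_z
    rw [norm_div, div_pow, Complex.norm_real, Real.norm_eq_abs, sq_abs, Complex.sq_norm,
      Complex.normSq_apply]
    ring
  have h4 : ‖FA_z X i‖ ^ 2 < 1 := by
    rw [h3, div_lt_one (by positivity)]
    linarith
  nlinarith [norm_nonneg (FA_z X i)]

/-- the point of the hyperboloid over a point of the Klein disc -/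
def FA_Y (w : ℂ) : M3 := (1 / sqrt (1 - ‖w‖ ^ 2)) • ((1 : ℝ), w)

theorem FA_pos {w : ℂ} (hw : ‖w‖ < 1) : 0 < 1 - ‖w‖ ^ 2 := by
  nlinarith [norm_nonneg w]

theorem FA_Y_isH {w : ℂ} (hw : ‖w‖ < 1) : IsH (FA_Y w) := by
  have h1 := FA_pos hw
  have h2 : 0 < sqrt (1 - ‖w‖ ^ 2) := sqrt_pos.2 h1
  have h3 : sqrt (1 - ‖w‖ ^ 2) ^ 2 = 1 - ‖w‖ ^ 2 := sq_sqrt h1.le
  have h4 : w.re * w.re + w.im * w.im = ‖w‖ ^ 2 := by
    rw [Complex.sq_norm, Complex.normSq_apply]
  have h5 : 0 < 1 / sqrt (1 - ‖w‖ ^ 2) := by positivity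
  refine ⟨?_, ?_⟩
  · unfold B FA_Y
    simp only [Prod.smul_fst, Prod.smul_snd, smul_eq_mul, mul_one, Complex.real_smul,
      Complex.re_ofReal_mul, Complex.im_ofReal_mul]
    have hq : ∀ q : ℝ, 0 < q → 1 / q * (1 / q) * q ^ 2 = 1 := by
      intro q hq
      field_simp
    have : 1 / sqrt (1 - ‖w‖ ^ 2) * (1 / sqrt (1 - ‖w‖ ^ 2)) * (1 - ‖w‖ ^ 2) = 1 := by
      have := hq _ h2
      rwa [h3] at this
    linear_combination this + (1 / sqrt (1 - ‖w‖ ^ 2) * (1 / sqrt (1 - ‖w‖ ^ 2))) * (-h4)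
  · unfold FA_Y
    simp only [Prod.smul_fst, smul_eq_mul, mul_one]
    exact h5

theorem FA_cone_smul {X : ℕ → M3} {S : Finset ℕ} {Y : M3} {l : ℝ} (hl : 0 ≤ l)
    (h : InCone X S Y) : InCone X S (l • Y) := by
  obtain ⟨c, hc, rfl⟩ := h
  refine ⟨fun i => l * c i, fun i => mul_nonneg hl (hc i), ?_⟩
  rw [Finset.smul_sum]
  apply Finset.sum_congr rfl
  intro i _
  rw [smul_smul]

theorem FA_cone_Y {X : ℕ → M3} {S : Finset ℕ} {w : ℂ} (hw : ‖w‖ < 1) :
    InCone X S (FA_Y w) ↔ InCone X S ((1 : ℝ), w) := by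
  have h2 : 0 < sqrt (1 - ‖w‖ ^ 2) := sqrt_pos.2 (FA_pos hw)
  constructor
  · intro h
    have := FA_cone_smul h2.le h
    unfold FA_Y at this
    rwa [smul_smul, mul_one_div_cancel h2.ne', one_smul] at this
  · intro h
    exact FA_cone_smul (by positivity) h

theorem FA_hull {X : ℕ → M3} (hX : ∀ i, 0 < (X i).1) (S : Finset ℕ) (w : ℂ) :
    w ∈ convexHull ℝ (FA_z X '' (S : Set ℕ)) ↔ InCone X S ((1 : ℝ), w) := by
  constructor
  · intro h
    have hconv : Convex ℝ {w : ℂ | InCone X S ((1 : ℝ), w)} := by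
      rintro w1 ⟨c1, hc1, e1⟩ w2 ⟨c2, hc2, e2⟩ a b ha hb hab
      refine ⟨fun i => a * c1 i + b * c2 i, fun i => ?_, ?_⟩
      · have := mul_nonneg ha (hc1 i)
        have := mul_nonneg hb (hc2 i)
        linarith
      · have : ((1 : ℝ), a • w1 + b • w2) = a • ((1 : ℝ), w1) + b • ((1 : ℝ), w2) := by
          rw [Prod.smul_mk, Prod.smul_mk, Prod.mk_add_mk, smul_eq_mul, smul_eq_mul, mul_one, mul_one,
            hab]
        rw [this, e1, e2, Finset.smul_sum, Finset.smul_sum, ← Finset.sum_add_distrib]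
        apply Finset.sum_congr rfl
        intro i _
        rw [smul_smul, smul_smul, ← add_smul]
    have hsub : FA_z X '' (S : Set ℕ) ⊆ {w : ℂ | InCone X S ((1 : ℝ), w)} := by
      rintro _ ⟨i, hi, rfl⟩
      refine ⟨fun j => if j = i then 1 / (X i).1 else 0, fun j => ?_, ?_⟩
      · dsimp only
        split_ifs
        · have := hX i
          positivity
        · exact le_rfl
      · rw [Finset.sum_eq_single i]
        · dsimp only
          rw [if_pos rfl]
          conv_rhs => rw [FA_X (hX i)]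
          rw [smul_smul]
          simp only [Prod.smul_fst, smul_eq_mul, mul_one]
          rw [one_div_mul_cancel (hX i).ne', one_smul]
        · intro b _ hb
          dsimp only
          rw [if_neg hb, zero_smul]
        · intro h
          exact absurd hi h
    exact convexHull_min hsub hconv h
  · rintro ⟨c, hc, e⟩
    have e1 : (1 : ℝ) = ∑ i ∈ S, c i * (X i).1 := by
      have := congrArg Prod.fst e
      rw [Prod.fst_sum] at this
      simpa using this
    have e2 : w = ∑ i ∈ S, (c i * (X i).1) • FA_z X i := by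
      have := congrArg Prod.snd e
      rw [Prod.snd_sum] at this
      simp only [Prod.smul_snd] at this
      rw [this]
      apply Finset.sum_congr rfl
      intro i _
      rw [FA_smul (hX i), Complex.real_smul, Complex.real_smul]
      push_cast
      ring
    rw [e2]
    apply (convex_convexHull ℝ _).sum_mem
    · intro i _
      exact mul_nonneg (hc i) (hX i).le
    · exact e1.symm
    · intro i hi
      exact subset_convexHull ℝ _ ⟨i, hi, rfl⟩

theorem FA_ne {X : ℕ → M3} {a b c : ℕ} (h : 0 < det3 (X a) (X b) (X c)) :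
    a ≠ b ∧ b ≠ c ∧ a ≠ c := by
  refine ⟨?_, ?_, ?_⟩
  · rintro rfl
    unfold det3 cr at h
    nlinarith
  · rintro rfl
    unfold det3 cr at h
    nlinarith
  · rintro rfl
    unfold det3 cr at h
    nlinarith

theorem FA_inF {ρ : ℕ → ℝ} {X : ℕ → M3} (h : Lay ρ X) {k j : ℕ} (hj : j ≤ N k) (Y : M3) :
    InF X k j Y ↔ InCone X (verts k j) Y := by
  have hd := (h.face k j hj).2.2.2
  obtain ⟨h1, h2, h3⟩ := FA_ne hd
  have hsum : ∀ f : ℕ → M3, ∑ i ∈ verts k j, f i = f k + f (pet k j) + f (pet k (j + 1)) := by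
    intro f
    unfold verts
    rw [Finset.sum_insert, Finset.sum_insert, Finset.sum_singleton, add_assoc]
    · simpa using h2
    · simp [h1, h3]
  constructor
  · intro hF
    obtain ⟨x, y, z, hx, hy, hz, rfl⟩ := inTri_comb hd hF
    refine ⟨fun i => if i = k then x else if i = pet k j then y else z, ?_, ?_⟩
    · intro i
      dsimp only
      split_ifs <;> assumption
    · rw [hsum]
      simp only [if_true]
      rw [if_neg h1.symm, if_neg h3.symm, if_neg h2.symm]
  · rintro ⟨c, hc, rfl⟩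
    rw [hsum]
    have k1 := mul_nonneg (hc (pet k (j + 1))) hd.le
    have k2 := mul_nonneg (hc k) hd.le
    have k3 := mul_nonneg (hc (pet k j)) hd.le
    unfold InF InTri
    unfold det3 cr at *
    simp only [Prod.fst_add, Prod.snd_add, Prod.smul_fst, Prod.smul_snd, smul_eq_mul,
      Complex.add_re, Complex.add_im, Complex.real_smul, Complex.re_ofReal_mul,
      Complex.im_ofReal_mul]
    refine ⟨?_, ?_, ?_⟩
    · refine le_of_le_of_eq k1 ?_
      ring
    · refine le_of_le_of_eq k2 ?_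
      ring
    · refine le_of_le_of_eq k3 ?_
      ring

theorem FA_face {ρ : ℕ → ℝ} {X : ℕ → M3} (h : Lay ρ X) {a b c : ℕ} (hf : Kf.face a b c) :
    ∃ k j, j ≤ N k ∧ ({a, b, c} : Set ℕ) = ((verts k j : Finset ℕ) : Set ℕ) ∧
      0 < det3 (X a) (X b) (X c) ∧ ((a = k ∧ b = pet k j ∧ c = pet k (j + 1)) ∨
     (a = pet k j ∧ b = pet k (j + 1) ∧ c = k) ∨
     (a = pet k (j + 1) ∧ b = k ∧ c = pet k j)) := by
  obtain ⟨k, j, hj, hh⟩ := hf
  refine ⟨k, j, hj, ?_, ?_, hh⟩
  · unfold verts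
    rcases hh with ⟨rfl, rfl, rfl⟩ | ⟨rfl, rfl, rfl⟩ | ⟨rfl, rfl, rfl⟩
    · push_cast
      rfl
    · ext x
      simp only [Set.mem_insert_iff, Set.mem_singleton_iff, Finset.coe_insert,
        Finset.coe_singleton]
      tauto
    · ext x
      simp only [Set.mem_insert_iff, Set.mem_singleton_iff, Finset.coe_insert,
        Finset.coe_singleton]
      tauto
  · have hd := (h.face k j hj).2.2.2
    rcases hh with ⟨rfl, rfl, rfl⟩ | ⟨rfl, rfl, rfl⟩ | ⟨rfl, rfl, rfl⟩
    · exact hd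
    · refine lt_of_lt_of_eq hd ?_
      unfold det3 cr
      ring
    · refine lt_of_lt_of_eq hd ?_
      unfold det3 cr
      ring

theorem FA_tri {X : ℕ → M3} {a b c : ℕ} {S : Finset ℕ} (hS : ({a, b, c} : Set ℕ) = (S : Set ℕ)) :
    tri (FA_z X) a b c = convexHull ℝ (FA_z X '' (S : Set ℕ)) := by
  unfold tri
  rw [← hS, Set.image_insert_eq, Set.image_insert_eq, Set.image_singleton]

theorem open_disc {ρ : ℕ → ℝ} {X : ℕ → M3} (h : Lay ρ X) : Kf.IsOpenDisc := by
  have hX : ∀ i, 0 < (X i).1 := fun i => (h.isH i).2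
  have hball : ∀ S : Finset ℕ, convexHull ℝ (FA_z X '' (S : Set ℕ)) ⊆ Metric.ball 0 1 := by
    intro S
    apply convexHull_min _ (convex_ball 0 1)
    rintro _ ⟨i, _, rfl⟩
    rw [mem_ball_zero_iff]
    exact FA_norm (h.isH i)
  have hmem : ∀ k j, j ≤ N k → ∀ w : ℂ, ‖w‖ < 1 →
      (w ∈ convexHull ℝ (FA_z X '' ((verts k j : Finset ℕ) : Set ℕ)) ↔ InF X k j (FA_Y w)) := by
    intro k j hj w hw
    rw [FA_hull hX, FA_inF h hj, FA_cone_Y hw]
  refine ⟨FA_z X, ?_, ?_, ?_, ?_, ?_, ?_⟩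
  · intro u v huv
    by_contra hne
    have h1 := discs_disjoint h hne
    have h2 : 1 < cosh (ρ u + ρ v) := by
      rw [one_lt_cosh]
      have := h.lab.pos u
      have := h.lab.pos v
      linarith
    obtain ⟨hu1, hu2⟩ := FA_isH (h.isH u)
    obtain ⟨hv1, hv2⟩ := FA_isH (h.isH v)
    have eu := FA_smul hu2
    have ev := FA_smul hv2
    rw [huv] at eu
    have eur : (X u).2.re = (X u).1 * (FA_z X v).re := by rw [eu, Complex.re_ofReal_mul]
    have eui : (X u).2.im = (X u).1 * (FA_z X v).im := by rw [eu, Complex.im_ofReal_mul]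
    have evr : (X v).2.re = (X v).1 * (FA_z X v).re := by
      conv_lhs => rw [ev, Complex.re_ofReal_mul]
    have evi : (X v).2.im = (X v).1 * (FA_z X v).im := by
      conv_lhs => rw [ev, Complex.im_ofReal_mul]
    unfold B at h1
    rw [eur, eui] at hu1 h1
    rw [evr, evi] at hv1 h1
    generalize (FA_z X v).re = x at *
    generalize (FA_z X v).im = y at *
    generalize (X u).1 = s at *
    generalize (X v).1 = t at *
    have e1 : s ^ 2 * (1 - x ^ 2 - y ^ 2) = 1 := by linear_combination hu1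
    have e2 : t ^ 2 * (1 - x ^ 2 - y ^ 2) = 1 := by linear_combination hv1
    have hq : 1 - x ^ 2 - y ^ 2 ≠ 0 := by
      intro h0
      rw [h0, mul_zero] at e1
      exact zero_ne_one e1
    have e3 : s ^ 2 = t ^ 2 := mul_right_cancel₀ hq (e1.trans e2.symm)
    have e4 : s = t := by
      rcases sq_eq_sq_iff_eq_or_eq_neg.1 e3 with e | e
      · exact e
      · linarith
    rw [e4] at h1
    have : t * t - (t * x * (t * x) + t * y * (t * y)) = 1 := by linear_combination e2
    linarith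
  · intro v
    exact ⟨pet v 0, pet v 1, v, 0, Nat.zero_le _, Or.inl ⟨rfl, rfl, rfl⟩⟩
  · intro a b c hf
    obtain ⟨k, j, hj, hS, hd, -⟩ := FA_face h hf
    have ea := FA_smul (hX a)
    have eb := FA_smul (hX b)
    have ec := FA_smul (hX c)
    have ear : (X a).2.re = (X a).1 * (FA_z X a).re := by
      conv_lhs => rw [ea, Complex.re_ofReal_mul]
    have eai : (X a).2.im = (X a).1 * (FA_z X a).im := by
      conv_lhs => rw [ea, Complex.im_ofReal_mul]
    have ebr : (X b).2.re = (X b).1 * (FA_z X b).re := by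
      conv_lhs => rw [eb, Complex.re_ofReal_mul]
    have ebi : (X b).2.im = (X b).1 * (FA_z X b).im := by
      conv_lhs => rw [eb, Complex.im_ofReal_mul]
    have ecr : (X c).2.re = (X c).1 * (FA_z X c).re := by
      conv_lhs => rw [ec, Complex.re_ofReal_mul]
    have eci : (X c).2.im = (X c).1 * (FA_z X c).im := by
      conv_lhs => rw [ec, Complex.im_ofReal_mul]
    unfold det3 cr at hd
    rw [ear, eai, ebr, ebi, ecr, eci] at hd
    have ha := hX a
    have hb := hX b
    have hc := hX c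
    rw [Complex.sub_re, Complex.sub_im, Complex.sub_re, Complex.sub_im]
    generalize (FA_z X a).re = a1 at *
    generalize (FA_z X a).im = a2 at *
    generalize (FA_z X b).re = b1 at *
    generalize (FA_z X b).im = b2 at *
    generalize (FA_z X c).re = c1 at *
    generalize (FA_z X c).im = c2 at *
    have e : (X a).1 * (X b).1 * (X c).1 * ((b1 - a1) * (c2 - a2) - (b2 - a2) * (c1 - a1)) =
        (X a).1 * ((X b).1 * b1 * ((X c).1 * c2) - (X b).1 * b2 * ((X c).1 * c1)) -
        (X b).1 * ((X a).1 * a1 * ((X c).1 * c2) - (X a).1 * a2 * ((X c).1 * c1)) +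
        (X c).1 * ((X a).1 * a1 * ((X b).1 * b2) - (X a).1 * a2 * ((X b).1 * b1)) := by ring
    rw [← e] at hd
    exact (pos_iff_pos_of_mul_pos hd).1 (by positivity)
  · intro a b c a' b' c' hf hf'
    obtain ⟨k, j, hj, hS, -, -⟩ := FA_face h hf
    obtain ⟨k', j', hj', hS', -, -⟩ := FA_face h hf'
    rw [FA_tri hS, FA_tri hS', hS, hS', ← Finset.coe_inter]
    apply Set.Subset.antisymm
    · rintro w ⟨hw1, hw2⟩
      have hw : ‖w‖ < 1 := by
        have := hball _ hw1
        rwa [mem_ball_zero_iff] at this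
      rw [hmem k j hj w hw] at hw1
      rw [hmem k' j' hj' w hw] at hw2
      have := common_face h hj hj' (FA_Y_isH hw) hw1 hw2
      rw [FA_hull hX]
      exact (FA_cone_Y hw).1 this
    · apply Set.subset_inter
      · apply convexHull_mono
        apply Set.image_mono
        exact_mod_cast Finset.inter_subset_left
      · apply convexHull_mono
        apply Set.image_mono
        exact_mod_cast Finset.inter_subset_right
  · apply Set.Subset.antisymm
    · rintro w ⟨a, b, c, hf, hw⟩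
      obtain ⟨k, j, hj, hS, -, -⟩ := FA_face h hf
      rw [FA_tri hS] at hw
      exact hball _ hw
    · intro w hw
      rw [mem_ball_zero_iff] at hw
      obtain ⟨k, j, hj, hF⟩ := exists_face h (FA_Y_isH hw)
      have hf : Kf.face k (pet k j) (pet k (j + 1)) := ⟨k, j, hj, Or.inl ⟨rfl, rfl, rfl⟩⟩
      refine ⟨k, pet k j, pet k (j + 1), hf, ?_⟩
      have hS : ({k, pet k j, pet k (j + 1)} : Set ℕ) = ((verts k j : Finset ℕ) : Set ℕ) := by
        unfold verts
        push_cast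
        rfl
      rw [FA_tri hS, hmem k j hj w hw]
      exact hF
  · intro s hs
    obtain ⟨k0, hk0⟩ := loc_fin h (1 / sqrt (1 - s ^ 2))
    have hfin : (⋃ k ∈ Set.Iio k0, ⋃ j ∈ Set.Iic (N k),
        ({(k, pet k j, pet k (j + 1)), (pet k j, pet k (j + 1), k),
          (pet k (j + 1), k, pet k j)} : Set (ℕ × ℕ × ℕ))).Finite := by
      apply (Set.finite_Iio k0).biUnion
      intro k _
      apply (Set.finite_Iic (N k)).biUnion
      intro j _
      exact (Set.finite_singleton _).insert _ |>.insert _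
    apply hfin.subset
    rintro ⟨a, b, c⟩ ⟨hf, w, hw1, hw2⟩
    obtain ⟨k, j, hj, hS, -, hc⟩ := FA_face h hf
    rw [FA_tri hS] at hw1
    have hw : ‖w‖ < 1 := by
      have := hball _ hw1
      rwa [mem_ball_zero_iff] at this
    rw [hmem k j hj w hw] at hw1
    rw [mem_closedBall_zero_iff] at hw2
    have hk : k < k0 := by
      by_contra hk
      have h1 := hk0 k j (not_lt.1 hk) hj _ (FA_Y_isH hw) hw1
      have h2 : (FA_Y w).1 = 1 / sqrt (1 - ‖w‖ ^ 2) := by
        unfold FA_Y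
        simp
      rw [h2] at h1
      have hs0 : 0 ≤ s := le_trans (norm_nonneg w) hw2
      have h3 : 0 < 1 - s ^ 2 := by nlinarith
      have h4 : sqrt (1 - s ^ 2) ≤ sqrt (1 - ‖w‖ ^ 2) := by
        apply sqrt_le_sqrt
        nlinarith [norm_nonneg w]
      have h5 : 1 / sqrt (1 - ‖w‖ ^ 2) ≤ 1 / sqrt (1 - s ^ 2) :=
        one_div_le_one_div_of_le (sqrt_pos.2 h3) h4
      linarith
    simp only [Set.mem_iUnion]
    refine ⟨k, hk, j, hj, ?_⟩
    dsimp only at hc
    rcases hc with ⟨e1, e2, e3⟩ | ⟨e1, e2, e3⟩ | ⟨e1, e2, e3⟩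
    · rw [e1, e2, e3]
      exact Or.inl rfl
    · rw [e1, e2, e3]
      exact Or.inr (Or.inl rfl)
    · rw [e1, e2, e3]
      exact Or.inr (Or.inr rfl)

end Pool.Agent.H776R2.Fatou
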