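import Pool.Agent.H776R2.Fatou.PStep

/-!
# Task PD: existence of the packing `P` (helper99)
-/

open Real

noncomputable section

namespace Pool.Agent.H776R2.Fatou

theorem PD_start {st : ℕ → Option (ZMod 3)} (hst : StSpec st) :
    PInv st 0 (fun i => if i = 0 then (-1 : ℂ) else 1) (fun _ => 1) := by
  have hn0 : n 0 = 2 := rfl
  have hcase : ∀ i x, i < n 0 → st i = some x → (i = 0 ∧ x = 0) ∨ (i = 1 ∧ x = 1) := by
    intro i x hi hx
    rw [hn0] at hi
    have h1 : i = 0 ∨ i = 1 := by omega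
    rcases h1 with h1 | h1
    · left
      subst h1
      rw [hst.zero] at hx
      exact ⟨rfl, (Option.some.inj hx).symm⟩
    · right
      subst h1
      rw [hst.one] at hx
      exact ⟨rfl, (Option.some.inj hx).symm⟩
  refine ⟨?_, ?_, ?_, ?_, ?_, ?_⟩
  · intro i _
    exact one_pos
  · intro k j hk _
    exact absurd hk (Nat.not_lt_zero k)
  · simp only [if_neg one_ne_zero, if_true]
    norm_num
  · intro i x hi hx
    rcases hcase i x hi hx with ⟨-, rfl⟩ | ⟨-, rfl⟩
    · rw [if_neg (by decide)]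
    · rw [if_neg (by decide)]
  · intro i x hi hx
    rcases hcase i x hi hx with ⟨rfl, rfl⟩ | ⟨rfl, rfl⟩
    · unfold ideal
      simp
    · unfold ideal
      rw [if_neg one_ne_zero, if_neg (by decide : (1 : ZMod 3) ≠ 0), if_pos rfl]
      simp
  · intro i _
    split_ifs
    · norm_num
    · norm_num

/-- the sequence of packings -/
def PDseq {st : ℕ → Option (ZMod 3)} (hst : StSpec st) :
    (K : ℕ) → {p : (ℕ → ℂ) × (ℕ → ℝ) // PInv st K p.1 p.2}
  | 0 => ⟨(fun i => if i = 0 then (-1 : ℂ) else 1, fun _ => 1), PD_start hst⟩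
  | K + 1 => ⟨((p_step hst (PDseq hst K).2).choose, (p_step hst (PDseq hst K).2).choose_spec.choose),
      (p_step hst (PDseq hst K).2).choose_spec.choose_spec.2⟩

theorem PD_stable_succ {st : ℕ → Option (ZMod 3)} (hst : StSpec st) (K i : ℕ) (hi : i < n K) :
    (PDseq hst (K + 1)).1.1 i = (PDseq hst K).1.1 i ∧
    (PDseq hst (K + 1)).1.2 i = (PDseq hst K).1.2 i :=
  (p_step hst (PDseq hst K).2).choose_spec.choose_spec.1 i hi

theorem PD_stable {st : ℕ → Option (ZMod 3)} (hst : StSpec st) (K i d : ℕ) (hi : i < n K) :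
    (PDseq hst (K + d)).1.1 i = (PDseq hst K).1.1 i ∧
    (PDseq hst (K + d)).1.2 i = (PDseq hst K).1.2 i := by
  induction d with
  | zero => exact ⟨rfl, rfl⟩
  | succ d ih =>
    have h1 : i < n (K + d) := lt_of_lt_of_le hi (n_strictMono.monotone (Nat.le_add_right K d))
    have h2 := PD_stable_succ hst (K + d) i h1
    rw [← Nat.add_assoc, h2.1, h2.2]
    exact ih

theorem PD_val {st : ℕ → Option (ZMod 3)} (hst : StSpec st) (K i : ℕ) (hi : i < n K) :
    (PDseq hst i).1.1 i = (PDseq hst K).1.1 i ∧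
    (PDseq hst i).1.2 i = (PDseq hst K).1.2 i := by
  have hni := n_ge i
  rcases le_total K i with h | h
  · obtain ⟨d, rfl⟩ := Nat.exists_eq_add_of_le h
    exact PD_stable hst K (K + d) d hi
  · obtain ⟨d, rfl⟩ := Nat.exists_eq_add_of_le h
    have := PD_stable hst i i d (by omega)
    exact ⟨this.1.symm, this.2.symm⟩

theorem p_exists {st : ℕ → Option (ZMod 3)} (hst : StSpec st) :
    ∃ (c : ℕ → ℂ) (r : ℕ → ℝ), (∀ i, 0 < r i) ∧ (∀ k j, j ≤ N k → PFace c r k j) ∧
      (∀ i x, st i = some x → x ≠ 2 → r i = 1) ∧ (∀ i, ‖c i‖ + r i ≤ 4) := by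
  have hni : ∀ i, i < n i := fun i => by have := n_ge i; omega
  refine ⟨fun i => (PDseq hst i).1.1 i, fun i => (PDseq hst i).1.2 i, ?_, ?_, ?_, ?_⟩
  · intro i
    exact (PDseq hst i).2.pos i (hni i)
  · intro k j hj
    have h1 := (PDseq hst (k + 1)).2.face k j (Nat.lt_succ_self k) hj
    have hk : k < n (k + 1) := by
      have := n_ge (k + 1)
      omega
    have e0 := PD_val hst (k + 1) k hk
    have e1 := PD_val hst (k + 1) (pet k j) (pet_lt (by omega))
    have e2 := PD_val hst (k + 1) (pet k (j + 1)) (pet_lt (by omega))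
    unfold PFace at h1 ⊢
    simp only
    rw [e0.1, e0.2, e1.1, e1.2, e2.1, e2.2]
    exact h1
  · intro i x hx hx2
    have := (PDseq hst i).2.rad i x (hni i) hx
    rwa [if_neg hx2] at this
  · intro i
    have h1 := (PDseq hst i).2.bdd i (hni i)
    have h2 := (PDseq hst i).2.pos i (hni i)
    simp only
    linarith

/-- adjacent good vertices have images at distance at least 1 -/
theorem p_dist {st : ℕ → Option (ZMod 3)} (hst : StSpec st) {c : ℕ → ℂ} {r : ℕ → ℝ}
    (h0 : ∀ i, 0 < r i) (h1 : ∀ k j, j ≤ N k → PFace c r k j)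
    (h2 : ∀ i x, st i = some x → x ≠ 2 → r i = 1) {k j a b : ℕ} (hj : j ≤ N k)
    (ha : a ∈ verts k j) (hb : b ∈ verts k j) (hab : a ≠ b) (h3 : st a ≠ none)
    (h4 : st b ≠ none) : 1 ≤ ‖c a - c b‖ := by
  have hne := face_colour_ne hst hj ha hb hab h3 h4
  obtain ⟨x, hx⟩ := Option.ne_none_iff_exists'.1 h3
  obtain ⟨y, hy⟩ := Option.ne_none_iff_exists'.1 h4
  have htan : ‖c a - c b‖ = r a + r b := by
    obtain ⟨f1, f2, f3, -⟩ := h1 k j hj
    unfold verts at ha hb
    simp only [Finset.mem_insert, Finset.mem_singleton] at ha hb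
    rcases ha with rfl | rfl | rfl <;> rcases hb with rfl | rfl | rfl
    · exact absurd rfl hab
    · rw [norm_sub_rev, f1]
    · rw [norm_sub_rev, f2]
    · rw [f1]; ring
    · exact absurd rfl hab
    · rw [norm_sub_rev, f3]
    · rw [f2]; ring
    · rw [f3]; ring
    · exact absurd rfl hab
  rw [htan]
  have hxy : x ≠ y := by
    intro h
    apply hne
    rw [hx, hy, h]
  have ha0 := h0 a
  have hb0 := h0 b
  by_cases hx2 : x = 2
  · have hy2 : y ≠ 2 := by
      intro h
      exact hxy (hx2.trans h.symm)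
    rw [h2 b y hy hy2]
    linarith
  · rw [h2 a x hx hx2]
    linarith

end Pool.Agent.H776R2.Fatou
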