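import Pool.Agent.H776R2.Fatou.Ang
import Pool.Agent.H776R2.Fatou.Mink
import Pool.Agent.H776R2.Fatou.Comb
import Pool.Agent.H776R2.Fatou.Layout
import Pool.Agent.H776R2.Fatou.FrameT
import Pool.Agent.H776R2.Fatou.ConvT
import Pool.Agent.H776R2.Fatou.DiscT

/-! Task W: Euclidean radii of the petals. -/

open Real

noncomputable section

namespace Pool.Agent.H776R2.Fatou

theorem W_sinh_add {a b : ℝ} (hb : 0 ≤ b) : exp b * sinh a ≤ sinh (b + a) := by
  rw [Real.sinh_add, ← Real.cosh_add_sinh]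
  have h1 : sinh a ≤ cosh a := (Real.sinh_lt_cosh a).le
  have h2 : 0 ≤ sinh b := Real.sinh_nonneg_iff.2 hb
  nlinarith

theorem W_conj {u : ℂ} (hu : ‖u‖ = 1) (a b : ℝ) :
    (starRingEnd ℂ) (u * Complex.exp (Complex.I * (a : ℂ))) *
      (u * Complex.exp (Complex.I * (b : ℂ))) = Complex.exp (((b - a : ℝ) : ℂ) * Complex.I) := by
  have h1 : (starRingEnd ℂ) u * u = 1 := by
    rw [← Complex.normSq_eq_conj_mul_self, Complex.normSq_eq_norm_sq, hu]
    norm_num
  rw [map_mul, ← Complex.exp_conj, map_mul, Complex.conj_I, Complex.conj_ofReal]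
  have e : ∀ p q r s : ℂ, p * q * (r * s) = (p * r) * (q * s) := fun p q r s => by ring
  rw [e, h1, one_mul, ← Complex.exp_add]
  congr 1
  push_cast
  ring

theorem W_cr {u : ℂ} (hu : ‖u‖ = 1) (a b : ℝ) :
    cr (u * Complex.exp (Complex.I * (a : ℂ))) (u * Complex.exp (Complex.I * (b : ℂ))) =
      sin (b - a) := by
  have h1 : ∀ x y : ℂ, cr x y = ((starRingEnd ℂ) x * y).im := by
    intro x y
    unfold cr
    rw [Complex.mul_im, Complex.conj_re, Complex.conj_im]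
    ring
  rw [h1, W_conj hu, Complex.exp_ofReal_mul_I_im]

theorem W_dot {u : ℂ} (hu : ‖u‖ = 1) (a b : ℝ) :
    (u * Complex.exp (Complex.I * (a : ℂ))).re * (u * Complex.exp (Complex.I * (b : ℂ))).re +
    (u * Complex.exp (Complex.I * (a : ℂ))).im * (u * Complex.exp (Complex.I * (b : ℂ))).im =
      cos (b - a) := by
  have h1 : ∀ x y : ℂ, x.re * y.re + x.im * y.im = ((starRingEnd ℂ) x * y).re := by
    intro x y
    rw [Complex.mul_re, Complex.conj_re, Complex.conj_im]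
    ring
  rw [h1, W_conj hu, Complex.exp_ofReal_mul_I_re]

theorem W_arg {u v : ℂ} (hu : ‖u‖ = 1) (hv : ‖v‖ = 1) :
    ∃ β : ℝ, -π < β ∧ β ≤ π ∧ v = u * Complex.exp (Complex.I * (β : ℂ)) := by
  have hu0 : u ≠ 0 := by
    intro h
    rw [h, norm_zero] at hu
    exact zero_ne_one hu
  refine ⟨Complex.arg (v / u), Complex.neg_pi_lt_arg _, Complex.arg_le_pi _, ?_⟩
  have h1 := Complex.norm_mul_exp_arg_mul_I (v / u)
  rw [norm_div, hu, hv, div_one, Complex.ofReal_one, one_mul] at h1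
  rw [mul_comm Complex.I, h1, mul_div_cancel₀ _ hu0]

theorem W_det_cyc (A C D : M3) : det3 A C D = det3 C D A := by
  unfold det3 cr
  ring

theorem W_B_one (Y : M3) : B (1, 0) Y = Y.1 := by
  unfold B
  simp

theorem W_cos {θ x : ℝ} (h0 : 0 ≤ θ) (h1 : θ ≤ x) (h2 : x ≤ 2 * π - θ) : cos x ≤ cos θ := by
  rcases le_total x π with h | h
  · exact Real.cos_le_cos_of_nonneg_of_le_pi h0 h h1
  · have e : cos x = cos (2 * π - x) := by
      rw [Real.cos_two_pi_sub]
    rw [e]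
    exact Real.cos_le_cos_of_nonneg_of_le_pi h0 (by linarith) (by linarith)

theorem W_half {ρ : ℕ → ℝ} (h : Lab ρ) (v : ℕ) : exp (-2 * ρ v) ≤ 1 / 2 := by
  have h1 := lab_exp h v
  have h2 : exp (-2 * ρ v) = exp (-ρ v) * exp (-ρ v) := by
    rw [← Real.exp_add]
    congr 1
    ring
  rw [h2]
  have h3 := (Real.exp_pos (-ρ v)).le
  nlinarith

theorem W_step {ρ : ℕ → ℝ} {X : ℕ → M3} (h : Lay ρ X) {k : ℕ} {u : ℂ} {d α : ℕ → ℝ}
    (F : Frame ρ X k u d α) (j : ℕ) : ∀ l, j + l ≤ N k →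
      α (pet k j) + l * exp (-ρ k) ≤ α (pet k (j + l)) := by
  intro l
  induction l with
  | zero => intro _; simp
  | succ l ih =>
    intro hl
    have h1 := ih (by omega)
    have h2 := F.new (j + l) (by omega)
    have h3 := ang_ge_exp (h.lab.pos k) (h.lab.pos (pet k (j + l))) (h.lab.pos (pet k (j + l + 1)))
      (W_half h.lab _) (W_half h.lab _)
    rw [← add_assoc, h2]
    push_cast
    linarith

/-- the final computation -/
theorem W_fin {S x1 c1 rk d0 m e Ck : ℝ} (hS : 0 < S) (hc1 : 0 < c1) (hm : 0 < m)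
    (he : e = exp (-rk)) (he9 : e ≤ 1 / 10 ^ 9) (hd : rk ≤ d0)
    (hx : sinh d0 * S * m ^ 2 * e / (2 * π ^ 2) ≤ x1) (hCk : Ck = cosh d0) (hrk : 0 < rk) :
    S / (x1 + c1) ≤ 100 * (sinh rk / (Ck + cosh rk)) / m ^ 2 := by
  have he0 : 0 < e := by rw [he]; exact Real.exp_pos _
  have hd0 : 0 < d0 := by linarith
  have hsd : 0 < sinh d0 := Real.sinh_pos_iff.2 hd0
  have hcd : 1 ≤ cosh d0 := Real.one_le_cosh _
  have hsr : 0 < sinh rk := Real.sinh_pos_iff.2 hrk
  have hcr : cosh rk ≤ cosh d0 := by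
    rw [Real.cosh_le_cosh, abs_of_pos hrk, abs_of_pos hd0]
    exact hd
  -- `sinh rk * e ≥ 0.49`
  have h1 : 49 / 100 ≤ sinh rk * e := by
    have h2 : sinh rk * e = (1 - e ^ 2) / 2 := by
      rw [Real.sinh_eq, he, ← Real.exp_nat_mul]
      have e1 : exp rk * exp (-rk) = 1 := by rw [← Real.exp_add]; simp
      have e2 : exp (-rk) * exp (-rk) = exp ((2 : ℕ) * -rk) := by
        rw [← Real.exp_add]
        congr 1
        push_cast
        ring
      rw [← e2]
      linear_combination (1 / 2) * e1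
    rw [h2]
    nlinarith
  -- `sinh d0 ≥ 0.99 cosh d0`
  have h3 : 99 / 100 * cosh d0 ≤ sinh d0 := by
    have h4 : cosh d0 - sinh d0 = exp (-d0) := by rw [Real.cosh_sub_sinh]
    have h5 : exp (-d0) ≤ e := by rw [he]; exact Real.exp_le_exp.2 (by linarith)
    nlinarith
  have hpi : π ^ 2 < 10 := by
    have := Real.pi_lt_d2
    have h0 := Real.pi_pos
    nlinarith
  have hpi0 : 0 < π ^ 2 := by positivity
  have key : 4 * π ^ 2 * cosh d0 ≤ 100 * (sinh rk * e * sinh d0) := by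
    have h6 : 49 / 100 * (99 / 100 * cosh d0) ≤ sinh rk * e * sinh d0 :=
      mul_le_mul h1 h3 (by positivity) (by linarith)
    nlinarith
  have hx0 : 0 < sinh d0 * S * m ^ 2 * e / (2 * π ^ 2) := by positivity
  have hx1 : 0 < x1 := by linarith
  have h7 : S / (x1 + c1) ≤ S / (sinh d0 * S * m ^ 2 * e / (2 * π ^ 2)) :=
    div_le_div_of_nonneg_left hS.le hx0 (by linarith)
  refine h7.trans ?_
  have h8 : S / (sinh d0 * S * m ^ 2 * e / (2 * π ^ 2)) = 2 * π ^ 2 / (sinh d0 * e) / m ^ 2 := by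
    field_simp
  rw [h8]
  apply div_le_div_of_nonneg_right _ (by positivity)
  rw [← mul_div_assoc, div_le_div_iff₀ (by positivity) (by rw [hCk]; positivity), hCk]
  nlinarith [mul_pos hpi0 hsd]

theorem rad_bound {ρ : ℕ → ℝ} {X : ℕ → M3} (h : Lay ρ X) {k j : ℕ} (hk : 1 ≤ k) (h1 : 1 ≤ j)
    (h2 : j ≤ N k) :
    rad (X (pet k j)) (ρ (pet k j)) ≤
      100 * rad (X k) (ρ k) / ((min j (N k + 1 - j) : ℕ) : ℝ) ^ 2 := by
  have hc := (conv_hull h k hk).1
  obtain ⟨u, d, α, F⟩ := frame h k (Or.inr hc)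
  have hu := F.unit
  have hXk := h.isH k
  have hX0 := h.isH 0
  obtain ⟨d0, v, hd0, hv, h0⟩ := polar hXk hX0
  obtain ⟨β, hβ1, hβ2, hvβ⟩ := W_arg hu hv
  have nk := n_ge k
  have nk1 := n_succ k
  have Nk := N_ge k
  have hNk : 0 < N k := by
    have : 0 < 2 * 10 ^ 12 + 64 := by norm_num
    omega
  have hk1 : k + 1 < n (k + 1) := by omega
  have D1 := hc k 0 le_rfl (by omega) (by omega) (by omega)
    (by unfold nx; rw [if_neg (by omega)]; omega)
  have e1 : nx k k = k + 1 := by unfold nx; rw [if_neg (by omega)]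
  rw [e1] at D1
  have D2 := hc (n k - 1) 0 (by omega) (by omega) (by omega) (by omega)
    (by unfold nx; rw [if_pos (by omega)]; omega)
  have e2 : nx k (n k - 1) = k := by unfold nx; rw [if_pos (by omega)]
  rw [e2, W_det_cyc] at D2
  have c1 := F.coord (k + 1) le_rfl hk1
  have c2 := F.coord (n k - 1) (by omega) (by omega)
  have dp1 := F.dpos (k + 1) le_rfl hk1
  have dp2 := F.dpos (n k - 1) (by omega) (by omega)
  rw [c1, h0, hvβ, det_pt_pt hXk, W_cr hu, F.start, sub_zero] at D1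
  rw [c2, h0, hvβ, det_pt_pt hXk, W_cr hu] at D2
  have hs1 : 0 < sinh (d (k + 1)) := Real.sinh_pos_iff.2 dp1
  have hs2 : 0 < sinh (d (n k - 1)) := Real.sinh_pos_iff.2 dp2
  have hd0' : 0 < d0 := by
    rcases hd0.lt_or_eq with h3 | h3
    · exact h3
    · rw [← h3, Real.sinh_zero] at D1
      simp at D1
  have hs0 : 0 < sinh d0 := Real.sinh_pos_iff.2 hd0'
  have S1 : 0 < sin β := by
    by_contra hh
    push Not at hh
    have := mul_nonpos_of_nonneg_of_nonpos (mul_pos hs1 hs0).le hh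
    linarith
  have S2 : 0 < sin (α (n k - 1) - β) := by
    by_contra hh
    push Not at hh
    have := mul_nonpos_of_nonneg_of_nonpos (mul_pos hs0 hs2).le hh
    linarith
  have hsg : 0 ≤ α (n k - 1) := by
    rcases Nat.eq_or_lt_of_le (show k + 1 ≤ n k - 1 by omega) with h3 | h3
    · rw [← h3, F.start]
    · have := F.mono (k + 1) (n k - 1) le_rfl h3 (by omega)
      rw [F.start] at this
      exact this.le
  have hsgπ := F.leftlt
  have hβ0 : 0 < β := by
    by_contra hh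
    push Not at hh
    have := Real.sin_nonpos_of_nonpos_of_neg_pi_le hh hβ1.le
    linarith
  have hβs : β < α (n k - 1) := by
    by_contra hh
    push Not at hh
    have := Real.sin_nonpos_of_nonpos_of_neg_pi_le (x := α (n k - 1) - β) (by linarith)
      (by linarith)
    linarith
  -- the angles
  set e := exp (-ρ k) with hed
  have he0 : 0 < e := Real.exp_pos _
  have he9 : e ≤ 1 / 10 ^ 9 := lab_exp h.lab k
  have L1 := W_step h F 0 j (by omega)
  rw [zero_add, pet_zero] at L1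
  have L2 := W_step h F j (N k - j) (by omega)
  rw [show j + (N k - j) = N k by omega, Nat.cast_sub h2] at L2
  have L3 := F.close
  have L4 := ang_ge_exp (h.lab.pos k) (h.lab.pos (pet k (N k))) (h.lab.pos (k + 1))
      (W_half h.lab _) (W_half h.lab _)
  set m : ℕ := min j (N k + 1 - j) with hm
  have hm1 : 1 ≤ m := by omega
  have hmj : m ≤ j := min_le_left _ _
  have hmN : m ≤ N k + 1 - j := min_le_right _ _
  have hm1' : (1 : ℝ) ≤ m := by exact_mod_cast hm1
  have hm0 : (0 : ℝ) < m := by linarith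
  have hmj' : (m : ℝ) ≤ j := by exact_mod_cast hmj
  have hmN' : (m : ℝ) ≤ (N k : ℝ) + 1 - j := by
    have h3 : m + j ≤ N k + 1 := by omega
    have h4 : ((m + j : ℕ) : ℝ) ≤ ((N k + 1 : ℕ) : ℝ) := by exact_mod_cast h3
    push_cast at h4
    linarith
  have hNk' : (0 : ℝ) < N k := by exact_mod_cast hNk
  have hsm := h.lab.small k
  rw [← hed, le_div_iff₀ hNk'] at hsm
  have hθ1 : (m : ℝ) * e ≤ 2 * π := by
    have h3 : (m : ℝ) ≤ N k := hmj'.trans (by exact_mod_cast h2)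
    have h4 : (m : ℝ) * e ≤ N k * e := mul_le_mul_of_nonneg_right h3 he0.le
    linarith
  set θ : ℝ := m * e / 2 with hθ
  have hθ0 : 0 < θ := by positivity
  have hθπ : θ ≤ π := by linarith
  have hje : (m : ℝ) * e ≤ j * e := mul_le_mul_of_nonneg_right hmj' he0.le
  have hNe : (m : ℝ) * e ≤ ((N k : ℝ) + 1 - j) * e := mul_le_mul_of_nonneg_right hmN' he0.le
  have hcos : cos (α (pet k j) - β) ≤ cos θ := by
    apply W_cos hθ0.le
    · linarith
    · have : (N k - j : ℝ) * e + e = ((N k : ℝ) + 1 - j) * e := by ring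
      linarith
  have hq := Real.cos_le_one_sub_mul_cos_sq (x := θ) (by rw [abs_of_pos hθ0]; exact hθπ)
  have hcos2 : m ^ 2 * e ^ 2 / (2 * π ^ 2) ≤ 1 - cos (α (pet k j) - β) := by
    have h3 : 2 / π ^ 2 * θ ^ 2 = m ^ 2 * e ^ 2 / (2 * π ^ 2) := by
      rw [hθ]
      have : π ≠ 0 := Real.pi_ne_zero
      field_simp
    linarith
  -- the height of the petal
  have pg := pet_gt (k := k) (j := j) (by omega)
  have pl := pet_lt (k := k) (j := j) (by omega)
  have c3 := F.coord (pet k j) (by omega) pl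
  rw [F.dtan j (by omega)] at c3
  set i := pet k j with hi
  have hx1 : (X i).1 = cosh d0 * cosh (ρ k + ρ i) -
      sinh d0 * sinh (ρ k + ρ i) * cos (α i - β) := by
    rw [← W_B_one (X i), ← h.zero]
    nth_rewrite 1 [h0]
    nth_rewrite 1 [c3]
    rw [hvβ, B_pt_pt hXk (by rw [← hvβ]; exact hv)
      (by rw [norm_mul, hu, mul_comm Complex.I, Complex.norm_exp_ofReal_mul_I, one_mul]),
      W_dot hu]
  have hρi := h.lab.pos i
  have hρk := h.lab.pos k
  have hSi : 0 < sinh (ρ i) := Real.sinh_pos_iff.2 hρi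
  have hT0 : 0 < sinh (ρ k + ρ i) := Real.sinh_pos_iff.2 (by linarith)
  have hT : exp (ρ k) * sinh (ρ i) ≤ sinh (ρ k + ρ i) := W_sinh_add hρk.le
  have hee : exp (ρ k) * e = 1 := by rw [hed, ← Real.exp_add]; simp
  have hx2 : sinh d0 * sinh (ρ i) * m ^ 2 * e / (2 * π ^ 2) ≤ (X i).1 := by
    have h3 : sinh d0 * sinh (ρ k + ρ i) ≤ cosh d0 * cosh (ρ k + ρ i) :=
      mul_le_mul (Real.sinh_lt_cosh _).le (Real.sinh_lt_cosh _).le hT0.le (Real.cosh_pos _).le
    have h4 : sinh d0 * sinh (ρ k + ρ i) * (m ^ 2 * e ^ 2 / (2 * π ^ 2)) ≤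
        sinh d0 * sinh (ρ k + ρ i) * (1 - cos (α i - β)) :=
      mul_le_mul_of_nonneg_left hcos2 (mul_pos hs0 hT0).le
    have h5 : sinh d0 * (exp (ρ k) * sinh (ρ i)) * (m ^ 2 * e ^ 2 / (2 * π ^ 2)) ≤
        sinh d0 * sinh (ρ k + ρ i) * (m ^ 2 * e ^ 2 / (2 * π ^ 2)) := by
      apply mul_le_mul_of_nonneg_right _ (by positivity)
      exact mul_le_mul_of_nonneg_left hT hs0.le
    have h6 : sinh d0 * (exp (ρ k) * sinh (ρ i)) * (m ^ 2 * e ^ 2 / (2 * π ^ 2)) =
        sinh d0 * sinh (ρ i) * m ^ 2 * e / (2 * π ^ 2) * (exp (ρ k) * e) := by ring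
    rw [h6, hee, mul_one] at h5
    rw [hx1]
    linarith
  -- the height of `k`
  have hXk1 : (X k).1 = cosh d0 := by
    rw [← W_B_one (X k), ← h.zero, B_comm, h0, B_pt hXk hv]
  have hdk : ρ k ≤ d0 := by
    have h3 := discs_disjoint h (u := k) (v := 0) (by omega)
    rw [h0, B_pt hXk hv, Real.cosh_le_cosh, abs_of_pos hd0',
      abs_of_pos (add_pos hρk (h.lab.pos 0))] at h3
    linarith [h.lab.pos 0]
  unfold rad
  exact W_fin hSi (Real.cosh_pos _) hm0 hed he9 hdk hx2 hXk1 hρk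

theorem rad_bound0 {ρ : ℕ → ℝ} {X : ℕ → M3} (h : Lay ρ X) {i : ℕ} (h1 : 1 ≤ i) (h2 : i < n 1) :
    rad (X i) (ρ i) ≤ 2 * π / (N 0 : ℝ) := by
  have n0 : n 0 = 2 := rfl
  have n1 : n 1 = 2 + N 0 := by rw [n_succ 0, n0]
  have hp : pet 0 (i - 1) = i := by
    rw [pet_le (by omega), n0]
    omega
  have hf := (h.face 0 (i - 1) (by omega)).1
  rw [hp] at hf
  unfold Tang at hf
  rw [h.zero, W_B_one] at hf
  have hρi := h.lab.pos i
  have hρ0 := h.lab.pos 0
  have hSi : 0 < sinh (ρ i) := Real.sinh_pos_iff.2 hρi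
  have hT : exp (ρ 0) * sinh (ρ i) ≤ sinh (ρ 0 + ρ i) := W_sinh_add hρ0.le
  have hT2 := (Real.sinh_lt_cosh (ρ 0 + ρ i)).le
  have hsm := h.lab.small 0
  refine le_trans ?_ hsm
  unfold rad
  rw [hf, div_le_iff₀ (by positivity)]
  have e1 : exp (-ρ 0) * exp (ρ 0) = 1 := by rw [← Real.exp_add]; simp
  have h3 : exp (-ρ 0) * (exp (ρ 0) * sinh (ρ i)) ≤ exp (-ρ 0) * cosh (ρ 0 + ρ i) :=
    mul_le_mul_of_nonneg_left (hT.trans hT2) (Real.exp_pos _).le
  rw [← mul_assoc, e1, one_mul] at h3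
  have h4 : 0 < exp (-ρ 0) * cosh (ρ i) := by positivity
  linarith

end Pool.Agent.H776R2.Fatou
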