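import Pool.Agent.H776R2.Fatou.Defs
import Pool.Agent.H776R2.Fatou.Mink
import Pool.Agent.H776R2.Fatou.Comb
import Pool.Agent.H776R2.Fatou.Layout
import Pool.Agent.H776R2.Fatou.FrameT
import Pool.Agent.H776R2.Fatou.ConvT
import Pool.Agent.H776R2.Fatou.Tile
import Pool.Agent.H776R2.Fatou.CommonF
import Pool.Agent.H776R2.Fatou.DiscT
import Pool.Agent.H776R2.Fatou.Exh

open Real

noncomputable section

namespace Pool.Agent.H776R2.Fatou

/-! ### Task RA (Ray.lean): discs and faces along a ray -/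

open Filter Topology Set

theorem RA_fst (ζ : ℂ) (s : ℝ) : (ray ζ s).1 = cosh s := rfl

theorem RA_re (ζ : ℂ) (s : ℝ) : (ray ζ s).2.re = sinh s * ζ.re := by
  show (((sinh s : ℝ) : ℂ) * ζ).re = _
  rw [Complex.re_ofReal_mul]

theorem RA_im (ζ : ℂ) (s : ℝ) : (ray ζ s).2.im = sinh s * ζ.im := by
  show (((sinh s : ℝ) : ℂ) * ζ).im = _
  rw [Complex.im_ofReal_mul]

theorem RA_unit {ζ : ℂ} (hζ : ‖ζ‖ = 1) : ζ.re ^ 2 + ζ.im ^ 2 = 1 := by
  have h := Complex.sq_norm ζ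
  rw [hζ, Complex.normSq_apply] at h
  nlinarith

theorem ray_isH {ζ : ℂ} (hζ : ‖ζ‖ = 1) (s : ℝ) : IsH (ray ζ s) := by
  refine ⟨?_, cosh_pos s⟩
  unfold B
  rw [RA_fst, RA_re, RA_im]
  have h1 := RA_unit hζ
  have h2 := cosh_sq s
  have h3 : sinh s * ζ.re * (sinh s * ζ.re) + sinh s * ζ.im * (sinh s * ζ.im) =
      sinh s ^ 2 * (ζ.re ^ 2 + ζ.im ^ 2) := by ring
  rw [h3, h1]
  nlinarith

theorem RA_zero (ζ : ℂ) : ray ζ 0 = (1, 0) := by
  simp [ray]

theorem RA_contB (P : M3) (ζ : ℂ) : Continuous fun s => B P (ray ζ s) := by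
  unfold B
  simp only [RA_fst, RA_re, RA_im]
  fun_prop

theorem RA_contdet (P Q : M3) (ζ : ℂ) : Continuous fun s => det3 P Q (ray ζ s) := by
  unfold det3 cr
  simp only [RA_fst, RA_re, RA_im]
  fun_prop

/-- the form along the ray is large -/
theorem RA_grow {P : M3} (hP : IsH P) {ζ : ℂ} (hζ : ‖ζ‖ = 1) :
    ∃ e : ℝ, 0 < e ∧ ∀ s, e * cosh s ≤ B P (ray ζ s) := by
  obtain ⟨h1, h0⟩ := hP
  have hu := RA_unit hζ
  set C := P.2.re * ζ.re + P.2.im * ζ.im with hC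
  have h2 : C ^ 2 ≤ P.2.re ^ 2 + P.2.im ^ 2 := by
    have : C ^ 2 + (P.2.re * ζ.im - P.2.im * ζ.re) ^ 2 =
        (P.2.re ^ 2 + P.2.im ^ 2) * (ζ.re ^ 2 + ζ.im ^ 2) := by rw [hC]; ring
    rw [hu, mul_one] at this
    nlinarith [sq_nonneg (P.2.re * ζ.im - P.2.im * ζ.re)]
  have h3 : P.1 ^ 2 = 1 + (P.2.re ^ 2 + P.2.im ^ 2) := by
    unfold B at h1
    nlinarith
  have h4 : |C| < P.1 := by
    apply abs_lt_of_sq_lt_sq _ h0.le
    linarith
  refine ⟨P.1 - |C|, by linarith, fun s => ?_⟩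
  unfold B
  rw [RA_fst, RA_re, RA_im]
  have h5 : |sinh s| ≤ cosh s := by
    apply abs_le_of_sq_le_sq _ (cosh_pos s).le
    rw [cosh_sq]; linarith
  have h6 : C * sinh s ≤ |C| * cosh s := by
    calc C * sinh s ≤ |C * sinh s| := le_abs_self _
      _ = |C| * |sinh s| := abs_mul _ _
      _ ≤ |C| * cosh s := mul_le_mul_of_nonneg_left h5 (abs_nonneg _)
  have h7 : P.2.re * (sinh s * ζ.re) + P.2.im * (sinh s * ζ.im) = C * sinh s := by
    rw [hC]; ring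
  rw [h7]
  linarith

theorem RA_le_cosh {s K : ℝ} (h : cosh s ≤ K) : s ≤ 2 * K := by
  have h1 := add_one_le_exp s
  have h2 := exp_pos (-s)
  rw [cosh_eq] at h
  linarith

/-- a point of the geodesic between two tangent discs is in one of them -/
theorem RA_edge2 {a b Y : M3} (ha : IsH a) (hb : IsH b) (hY : IsH Y) {r t : ℝ} (hr : 0 < r)
    (ht : 0 < t) (hab : B a b = cosh (r + t)) {x y : ℝ} (hx : 0 ≤ x) (hy : 0 ≤ y)
    (h : Y = x • a + y • b) : B a Y ≤ cosh r ∨ B b Y ≤ cosh t := by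
  have hD : 0 < r + t := by linarith
  have haY : B a Y = x + y * cosh (r + t) := by
    rw [h, ← hab]
    have h1 := ha.1
    unfold B at h1 ⊢
    simp only [Prod.fst_add, Prod.snd_add, Prod.smul_fst, Prod.smul_snd, Complex.add_re,
      Complex.add_im, Complex.real_smul, Complex.mul_re, Complex.mul_im, Complex.ofReal_re,
      Complex.ofReal_im, smul_eq_mul]
    linear_combination x * h1
  have hbY : B b Y = x * cosh (r + t) + y := by
    rw [h, ← hab]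
    have h1 := hb.1
    unfold B at h1 ⊢
    simp only [Prod.fst_add, Prod.snd_add, Prod.smul_fst, Prod.smul_snd, Complex.add_re,
      Complex.add_im, Complex.real_smul, Complex.mul_re, Complex.mul_im, Complex.ofReal_re,
      Complex.ofReal_im, smul_eq_mul]
    linear_combination y * h1
  have hYY : x ^ 2 + y ^ 2 + 2 * x * y * cosh (r + t) = 1 := by
    rw [← hY.1, h, ← hab]
    have h1 := ha.1
    have h2 := hb.1
    unfold B at h1 h2 ⊢
    simp only [Prod.fst_add, Prod.snd_add, Prod.smul_fst, Prod.smul_snd, Complex.add_re,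
      Complex.add_im, Complex.real_smul, Complex.mul_re, Complex.mul_im, Complex.ofReal_re,
      Complex.ofReal_im, smul_eq_mul]
    linear_combination (-x ^ 2) * h1 - y ^ 2 * h2
  have hge := one_le_B ha hY
  set d := arcosh (B a Y) with hd
  have hd0 : 0 ≤ d := arcosh_nonneg hge
  have hdc : cosh d = B a Y := cosh_arcosh hge
  have hS : 0 < sinh (r + t) := sinh_pos_iff.2 hD
  have hc := cosh_sq (r + t)
  have hcd := cosh_sq d
  have hys : y * sinh (r + t) = sinh d := by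
    have h1 : (y * sinh (r + t)) ^ 2 = sinh d ^ 2 := by
      have h2 : cosh d = x + y * cosh (r + t) := hdc.trans haY
      have h3 : cosh d ^ 2 = (x + y * cosh (r + t)) ^ 2 := by rw [h2]
      nlinarith
    exact (pow_left_inj₀ (by positivity) (sinh_nonneg_iff.2 hd0) two_ne_zero).1 h1
  by_cases hdr : d ≤ r
  · left
    rw [← hdc, cosh_le_cosh, abs_of_nonneg hd0, abs_of_pos hr]
    exact hdr
  · right
    push Not at hdr
    have h2 : x + y * cosh (r + t) = cosh d := (hdc.trans haY).symm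
    have hxs : x * sinh (r + t) = sinh (r + t - d) := by
      rw [sinh_sub]
      have : x = cosh d - y * cosh (r + t) := by linarith
      rw [this]
      linear_combination (-cosh (r + t)) * hys
    have hdD : d ≤ r + t := by
      have h3 : 0 ≤ sinh (r + t - d) := by rw [← hxs]; positivity
      have := sinh_nonneg_iff.1 h3
      linarith
    have hbd : B b Y = cosh (r + t - d) := by
      have h4 : sinh (r + t) * B b Y = sinh (r + t) * cosh (r + t - d) := by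
        rw [hbY]
        have h5 : sinh (r + t) * (x * cosh (r + t) + y) =
            (x * sinh (r + t)) * cosh (r + t) + y * sinh (r + t) := by ring
        rw [h5, hxs, hys, sinh_sub, cosh_sub]
        have h6 : cosh (r + t) ^ 2 = sinh (r + t) ^ 2 + 1 := hc
        linear_combination (-sinh d) * h6
      exact mul_left_cancel₀ hS.ne' h4
    rw [hbd, cosh_le_cosh, abs_of_nonneg (by linarith), abs_of_pos ht]
    linarith

theorem RA_det1 (a b c : M3) (x y z : ℝ) :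
    det3 a b (x • a + y • b + z • c) = z * det3 a b c := by
  unfold det3 cr
  simp only [Prod.fst_add, Prod.snd_add, Prod.smul_fst, Prod.smul_snd, Complex.add_re,
    Complex.add_im, Complex.real_smul, Complex.mul_re, Complex.mul_im, Complex.ofReal_re,
    Complex.ofReal_im, smul_eq_mul]
  ring

theorem RA_det2 (a b c : M3) (x y z : ℝ) :
    det3 b c (x • a + y • b + z • c) = x * det3 a b c := by
  unfold det3 cr
  simp only [Prod.fst_add, Prod.snd_add, Prod.smul_fst, Prod.smul_snd, Complex.add_re,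
    Complex.add_im, Complex.real_smul, Complex.mul_re, Complex.mul_im, Complex.ofReal_re,
    Complex.ofReal_im, smul_eq_mul]
  ring

theorem RA_det3 (a b c : M3) (x y z : ℝ) :
    det3 c a (x • a + y • b + z • c) = y * det3 a b c := by
  unfold det3 cr
  simp only [Prod.fst_add, Prod.snd_add, Prod.smul_fst, Prod.smul_snd, Complex.add_re,
    Complex.add_im, Complex.real_smul, Complex.mul_re, Complex.mul_im, Complex.ofReal_re,
    Complex.ofReal_im, smul_eq_mul]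
  ring

theorem RA_mem0 (k j : ℕ) : k ∈ verts k j := by simp [verts]

theorem RA_mem1 (k j : ℕ) : pet k j ∈ verts k j := by simp [verts]

theorem RA_mem2 (k j : ℕ) : pet k (j + 1) ∈ verts k j := by simp [verts]

/-- EDGE -/
theorem RA_edge {ρ : ℕ → ℝ} {X : ℕ → M3} (h : Lay ρ X) {k j : ℕ} (hj : j ≤ N k) {Y : M3}
    (hY : IsH Y) (hF : InF X k j Y)
    (h0 : det3 (X k) (X (pet k j)) Y = 0 ∨ det3 (X (pet k j)) (X (pet k (j + 1))) Y = 0 ∨
      det3 (X (pet k (j + 1))) (X k) Y = 0) :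
    ∃ a ∈ verts k j, B (X a) Y ≤ cosh (ρ a) := by
  obtain ⟨t1, t2, t3, hd⟩ := h.face k j hj
  obtain ⟨x, y, z, hx, hy, hz, rfl⟩ := inTri_comb hd hF
  have hp := h.lab.pos
  rcases h0 with h0 | h0 | h0
  · rw [RA_det1] at h0
    have hz0 : z = 0 := (mul_eq_zero.1 h0).resolve_right hd.ne'
    rcases RA_edge2 (h.isH k) (h.isH (pet k j)) hY (hp k) (hp (pet k j)) t1 hx hy
      (by rw [hz0]; simp) with h1 | h1
    · exact ⟨_, RA_mem0 k j, h1⟩
    · exact ⟨_, RA_mem1 k j, h1⟩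
  · rw [RA_det2] at h0
    have hz0 : x = 0 := (mul_eq_zero.1 h0).resolve_right hd.ne'
    rcases RA_edge2 (h.isH (pet k j)) (h.isH (pet k (j + 1))) hY (hp _) (hp _) t2 hy hz
      (by rw [hz0]; simp) with h1 | h1
    · exact ⟨_, RA_mem1 k j, h1⟩
    · exact ⟨_, RA_mem2 k j, h1⟩
  · rw [RA_det3] at h0
    have hz0 : y = 0 := (mul_eq_zero.1 h0).resolve_right hd.ne'
    rcases RA_edge2 (h.isH (pet k (j + 1))) (h.isH k) hY (hp _) (hp _) t3 hz hx
      (by rw [hz0]; simp [add_comm]) with h1 | h1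
    · exact ⟨_, RA_mem2 k j, h1⟩
    · exact ⟨_, RA_mem0 k j, h1⟩

/-- faces are bounded -/
theorem RA_bdd {ρ : ℕ → ℝ} {X : ℕ → M3} (h : Lay ρ X) {k j : ℕ} (hj : j ≤ N k) :
    ∃ K : ℝ, ∀ Y, IsH Y → InF X k j Y → Y.1 ≤ K := by
  obtain ⟨t1, t2, t3, hd⟩ := h.face k j hj
  refine ⟨(X k).1 + (X (pet k j)).1 + (X (pet k (j + 1))).1, fun Y hY hF => ?_⟩
  obtain ⟨x, y, z, hx, hy, hz, rfl⟩ := inTri_comb hd hF
  have ha := h.isH k
  have hb := h.isH (pet k j)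
  have hc := h.isH (pet k (j + 1))
  have b1 := one_le_B ha hb
  have b2 := one_le_B hb hc
  have b3 := one_le_B hc ha
  have hYY : x ^ 2 + y ^ 2 + z ^ 2 + 2 * x * y * B (X k) (X (pet k j)) +
      2 * y * z * B (X (pet k j)) (X (pet k (j + 1))) +
      2 * z * x * B (X (pet k (j + 1))) (X k) = 1 := by
    rw [← hY.1]
    have h1 := ha.1
    have h2 := hb.1
    have h3 := hc.1
    unfold B at h1 h2 h3 ⊢
    simp only [Prod.fst_add, Prod.snd_add, Prod.smul_fst, Prod.smul_snd, Complex.add_re,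
      Complex.add_im, Complex.real_smul, Complex.mul_re, Complex.mul_im, Complex.ofReal_re,
      Complex.ofReal_im, smul_eq_mul]
    linear_combination (-x ^ 2) * h1 - y ^ 2 * h2 - z ^ 2 * h3
  have e1 : 0 ≤ 2 * x * y * B (X k) (X (pet k j)) := by
    have : 0 ≤ B (X k) (X (pet k j)) := by linarith
    positivity
  have e2 : 0 ≤ 2 * y * z * B (X (pet k j)) (X (pet k (j + 1))) := by
    have : 0 ≤ B (X (pet k j)) (X (pet k (j + 1))) := by linarith
    positivity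
  have e3 : 0 ≤ 2 * z * x * B (X (pet k (j + 1))) (X k) := by
    have : 0 ≤ B (X (pet k (j + 1))) (X k) := by linarith
    positivity
  have x1 : x ≤ 1 := by nlinarith
  have y1 : y ≤ 1 := by nlinarith
  have z1 : z ≤ 1 := by nlinarith
  have a0 := ha.2
  have b0 := hb.2
  have c0 := hc.2
  show x * (X k).1 + y * (X (pet k j)).1 + z * (X (pet k (j + 1))).1 ≤ _
  nlinarith

theorem RA_closedF (X : ℕ → M3) (k j : ℕ) (ζ : ℂ) : IsClosed {s | InF X k j (ray ζ s)} := by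
  have : {s | InF X k j (ray ζ s)} = {s | 0 ≤ det3 (X k) (X (pet k j)) (ray ζ s)} ∩
      ({s | 0 ≤ det3 (X (pet k j)) (X (pet k (j + 1))) (ray ζ s)} ∩
        {s | 0 ≤ det3 (X (pet k (j + 1))) (X k) (ray ζ s)}) := rfl
  rw [this]
  exact (isClosed_le continuous_const (RA_contdet _ _ ζ)).inter
    ((isClosed_le continuous_const (RA_contdet _ _ ζ)).inter
      (isClosed_le continuous_const (RA_contdet _ _ ζ)))

theorem RA_bddF {ρ : ℕ → ℝ} {X : ℕ → M3} (h : Lay ρ X) {ζ : ℂ} (hζ : ‖ζ‖ = 1) {k j : ℕ}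
    (hj : j ≤ N k) : BddAbove {s | InF X k j (ray ζ s)} := by
  obtain ⟨K, hK⟩ := RA_bdd h hj
  exact ⟨2 * K, fun s hs => RA_le_cosh (hK _ (ray_isH hζ s) hs)⟩

/-- if no det vanishes, the ray stays in the face -/
theorem RA_stay {X : ℕ → M3} {k j : ℕ} {ζ : ℂ} {s : ℝ} (hF : InF X k j (ray ζ s))
    (h0 : ¬ (det3 (X k) (X (pet k j)) (ray ζ s) = 0 ∨
      det3 (X (pet k j)) (X (pet k (j + 1))) (ray ζ s) = 0 ∨
      det3 (X (pet k (j + 1))) (X k) (ray ζ s) = 0)) :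
    ∀ᶠ s' in 𝓝 s, InF X k j (ray ζ s') := by
  push Not at h0
  obtain ⟨n1, n2, n3⟩ := h0
  obtain ⟨f1, f2, f3⟩ := hF
  have g1 := ((RA_contdet (X k) (X (pet k j)) ζ).tendsto s).eventually
    (lt_mem_nhds (lt_of_le_of_ne f1 n1.symm))
  have g2 := ((RA_contdet (X (pet k j)) (X (pet k (j + 1))) ζ).tendsto s).eventually
    (lt_mem_nhds (lt_of_le_of_ne f2 n2.symm))
  have g3 := ((RA_contdet (X (pet k (j + 1))) (X k) ζ).tendsto s).eventually
    (lt_mem_nhds (lt_of_le_of_ne f3 n3.symm))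
  filter_upwards [g1, g2, g3] with s' h1 h2 h3
  exact ⟨h1.le, h2.le, h3.le⟩

/-- leaving a face forwards -/
theorem RA_last {ρ : ℕ → ℝ} {X : ℕ → M3} (h : Lay ρ X) {ζ : ℂ} (hζ : ‖ζ‖ = 1) {k j : ℕ}
    (hj : j ≤ N k) {s0 : ℝ} (hF : InF X k j (ray ζ s0)) :
    ∃ a ∈ verts k j, ∃ s2, s0 ≤ s2 ∧ B (X a) (ray ζ s2) ≤ cosh (ρ a) := by
  set S := {s | InF X k j (ray ζ s)} with hS
  have hne : S.Nonempty := ⟨s0, hF⟩
  have hb : BddAbove S := RA_bddF h hζ hj
  have hmem : sSup S ∈ S := (RA_closedF X k j ζ).csSup_mem hne hb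
  have hle : s0 ≤ sSup S := le_csSup hb hF
  have hdet : det3 (X k) (X (pet k j)) (ray ζ (sSup S)) = 0 ∨
      det3 (X (pet k j)) (X (pet k (j + 1))) (ray ζ (sSup S)) = 0 ∨
      det3 (X (pet k (j + 1))) (X k) (ray ζ (sSup S)) = 0 := by
    by_contra hcon
    have h1 := RA_stay hmem hcon
    have h2 : ∀ᶠ s' in 𝓝[>] (sSup S), InF X k j (ray ζ s') := h1.filter_mono nhdsWithin_le_nhds
    obtain ⟨s', h3, h4⟩ := (h2.and self_mem_nhdsWithin).exists
    exact absurd (le_csSup hb h3) (not_le.2 h4)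
  obtain ⟨a, ha, hB⟩ := RA_edge h hj (ray_isH hζ _) hmem hdet
  exact ⟨a, ha, _, hle, hB⟩

/-- leaving a face backwards -/
theorem RA_first {ρ : ℕ → ℝ} {X : ℕ → M3} (h : Lay ρ X) {ζ : ℂ} (hζ : ‖ζ‖ = 1) {k j : ℕ}
    (hj : j ≤ N k) {s0 : ℝ} (hs0 : 0 ≤ s0) (hF : InF X k j (ray ζ s0)) :
    ∃ a ∈ verts k j, ∃ s2, 0 ≤ s2 ∧ s2 ≤ s0 ∧ B (X a) (ray ζ s2) ≤ cosh (ρ a) := by
  set S := Ici (0 : ℝ) ∩ {s | InF X k j (ray ζ s)} with hS
  have hne : S.Nonempty := ⟨s0, hs0, hF⟩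
  have hb : BddBelow S := ⟨0, fun s hs => hs.1⟩
  have hmem : sInf S ∈ S := (isClosed_Ici.inter (RA_closedF X k j ζ)).csInf_mem hne hb
  have hle : sInf S ≤ s0 := csInf_le hb ⟨hs0, hF⟩
  have hnn : (0 : ℝ) ≤ sInf S := hmem.1
  rcases hnn.eq_or_lt with h0 | h0
  · have hX0 : ray ζ (sInf S) = X 0 := by rw [← h0, RA_zero, h.zero]
    have hB : B (X 0) (ray ζ (sInf S)) ≤ cosh (ρ 0) := by
      rw [hX0, (h.isH 0).1]
      exact one_le_cosh _
    exact ⟨0, disc_face h hj (ray_isH hζ _) hB hmem.2, _, hmem.1, hle, hB⟩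
  · have hdet : det3 (X k) (X (pet k j)) (ray ζ (sInf S)) = 0 ∨
        det3 (X (pet k j)) (X (pet k (j + 1))) (ray ζ (sInf S)) = 0 ∨
        det3 (X (pet k (j + 1))) (X k) (ray ζ (sInf S)) = 0 := by
      by_contra hcon
      have h1 := RA_stay hmem.2 hcon
      have h2 : ∀ᶠ s' in 𝓝[<] (sInf S), InF X k j (ray ζ s') :=
        h1.filter_mono nhdsWithin_le_nhds
      have h5 : ∀ᶠ s' in 𝓝[<] (sInf S), 0 < s' :=
        (lt_mem_nhds h0).filter_mono nhdsWithin_le_nhds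
      obtain ⟨s', ⟨h3, h6⟩, h4⟩ := ((h2.and h5).and self_mem_nhdsWithin).exists
      exact absurd (csInf_le hb ⟨h6.le, h3⟩) (not_le.2 h4)
    obtain ⟨a, ha, hB⟩ := RA_edge h hj (ray_isH hζ _) hmem.2 hdet
    exact ⟨a, ha, _, hmem.1, hle, hB⟩

/-- a face which contains points of the ray arbitrarily near `s1` -/
theorem RA_freq {ρ : ℕ → ℝ} {X : ℕ → M3} (h : Lay ρ X) {ζ : ℂ} (hζ : ‖ζ‖ = 1) (s1 : ℝ)
    (l : Filter ℝ) [l.NeBot] (hl : l ≤ 𝓝 s1) :
    ∃ k j, j ≤ N k ∧ ∃ᶠ s in l, InF X k j (ray ζ s) := by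
  by_contra hcon
  push Not at hcon
  obtain ⟨k0, hk0⟩ := loc_fin h (cosh s1 + 1)
  have h1 : ∀ p ∈ (Finset.range k0).sigma (fun k => Finset.range (N k + 1)),
      ∀ᶠ s in l, ¬ InF X p.1 p.2 (ray ζ s) := by
    rintro ⟨k, j⟩ hp
    rw [Finset.mem_sigma, Finset.mem_range, Finset.mem_range] at hp
    exact hcon k j (by have := hp.2; simp only at this; omega)
  have h2 := (Filter.eventually_all_finset _).2 h1
  have h3 : ∀ᶠ s in l, cosh s < cosh s1 + 1 :=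
    ((continuous_cosh.tendsto s1).eventually (gt_mem_nhds (lt_add_one _))).filter_mono hl
  obtain ⟨s, h4, h5⟩ := (h2.and h3).exists
  obtain ⟨k, j, hj, hF⟩ := exists_face h (ray_isH hζ s)
  by_cases hk : k0 ≤ k
  · have := hk0 k j hk hj _ (ray_isH hζ s) hF
    rw [RA_fst] at this
    linarith
  · exact h4 ⟨k, j⟩ (by
      rw [Finset.mem_sigma, Finset.mem_range, Finset.mem_range]
      exact ⟨not_le.1 hk, Nat.lt_succ_of_le hj⟩) hF

theorem RA_closedB (P : M3) (c : ℝ) (ζ : ℂ) : IsClosed {s | B P (ray ζ s) ≤ c} :=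
  isClosed_le (RA_contB P ζ) continuous_const

theorem RA_bddB {P : M3} (hP : IsH P) {ζ : ℂ} (hζ : ‖ζ‖ = 1) (c : ℝ) :
    BddAbove {s | B P (ray ζ s) ≤ c} := by
  obtain ⟨e, he, hg⟩ := RA_grow hP hζ
  refine ⟨2 * (c / e), fun s hs => RA_le_cosh ?_⟩
  rw [le_div_iff₀ he, mul_comm]
  exact (hg s).trans hs

theorem next_disc {ρ : ℕ → ℝ} {X : ℕ → M3} (h : Lay ρ X) {ζ : ℂ} (hζ : ‖ζ‖ = 1) {i : ℕ}
    {s0 : ℝ} (hs : 0 ≤ s0) (hi : B (X i) (ray ζ s0) ≤ cosh (ρ i)) :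
    ∃ k j a s1 s2, j ≤ N k ∧ i ∈ verts k j ∧ a ∈ verts k j ∧ a ≠ i ∧ s0 ≤ s1 ∧ s1 < s2 ∧
      B (X i) (ray ζ s1) ≤ cosh (ρ i) ∧ (∀ s, s1 < s → cosh (ρ i) < B (X i) (ray ζ s)) ∧
      B (X a) (ray ζ s2) ≤ cosh (ρ a) := by
  set S := {s | B (X i) (ray ζ s) ≤ cosh (ρ i)} with hS
  have hb : BddAbove S := RA_bddB (h.isH i) hζ _
  have hmem : sSup S ∈ S := (RA_closedB (X i) _ ζ).csSup_mem ⟨s0, hi⟩ hb
  have hlast : ∀ s, sSup S < s → cosh (ρ i) < B (X i) (ray ζ s) := by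
    intro s hs1
    by_contra hcon
    push Not at hcon
    exact absurd (le_csSup hb hcon) (not_le.2 hs1)
  obtain ⟨k, j, hj, hfr⟩ := RA_freq h hζ (sSup S) (𝓝[>] (sSup S)) nhdsWithin_le_nhds
  have hF1 : InF X k j (ray ζ (sSup S)) :=
    (RA_closedF X k j ζ).mem_of_frequently_of_tendsto hfr
      (tendsto_id.mono_left nhdsWithin_le_nhds)
  obtain ⟨s', hF', hs'⟩ := (hfr.and_eventually self_mem_nhdsWithin).exists
  obtain ⟨a, ha, s2, hs2, hB⟩ := RA_last h hζ hj hF'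
  have hlt : sSup S < s2 := lt_of_lt_of_le hs' hs2
  refine ⟨k, j, a, sSup S, s2, hj, disc_face h hj (ray_isH hζ _) hmem hF1, ha, ?_,
    le_csSup hb hi, hlt, hmem, hlast, hB⟩
  rintro rfl
  exact absurd hB (not_le.2 (hlast s2 hlt))

theorem prev_disc {ρ : ℕ → ℝ} {X : ℕ → M3} (h : Lay ρ X) {ζ : ℂ} (hζ : ‖ζ‖ = 1) {i : ℕ}
    (hi0 : i ≠ 0) {s0 : ℝ} (hs : 0 ≤ s0) (hi : B (X i) (ray ζ s0) ≤ cosh (ρ i)) :
    ∃ k j a s1 s2, j ≤ N k ∧ i ∈ verts k j ∧ a ∈ verts k j ∧ a ≠ i ∧ 0 ≤ s2 ∧ s2 < s1 ∧ s1 ≤ s0 ∧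
      B (X i) (ray ζ s1) ≤ cosh (ρ i) ∧ (∀ s, 0 ≤ s → s < s1 → cosh (ρ i) < B (X i) (ray ζ s)) ∧
      B (X a) (ray ζ s2) ≤ cosh (ρ a) := by
  set S := Ici (0 : ℝ) ∩ {s | B (X i) (ray ζ s) ≤ cosh (ρ i)} with hS
  have hb : BddBelow S := ⟨0, fun s hs => hs.1⟩
  have hmem : sInf S ∈ S :=
    (isClosed_Ici.inter (RA_closedB (X i) _ ζ)).csInf_mem ⟨s0, hs, hi⟩ hb
  have hfirst : ∀ s, 0 ≤ s → s < sInf S → cosh (ρ i) < B (X i) (ray ζ s) := by
    intro s hs0 hs1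
    by_contra hcon
    push Not at hcon
    exact absurd (csInf_le hb ⟨hs0, hcon⟩) (not_le.2 hs1)
  have hpos : 0 < sInf S := by
    have hnn : (0 : ℝ) ≤ sInf S := hmem.1
    rcases hnn.eq_or_lt with h0 | h0
    · exfalso
      have h1 : B (X i) (ray ζ (sInf S)) ≤ cosh (ρ i) := hmem.2
      rw [← h0, RA_zero, ← h.zero] at h1
      have h2 := discs_disjoint h hi0
      have h3 : cosh (ρ i) < cosh (ρ i + ρ 0) := by
        rw [cosh_lt_cosh, abs_of_pos (h.lab.pos i),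
          abs_of_pos (add_pos (h.lab.pos i) (h.lab.pos 0))]
        linarith [h.lab.pos 0]
      linarith
    · exact h0
  obtain ⟨k, j, hj, hfr⟩ := RA_freq h hζ (sInf S) (𝓝[<] (sInf S)) nhdsWithin_le_nhds
  have hF1 : InF X k j (ray ζ (sInf S)) :=
    (RA_closedF X k j ζ).mem_of_frequently_of_tendsto hfr
      (tendsto_id.mono_left nhdsWithin_le_nhds)
  have h5 : ∀ᶠ s' in 𝓝[<] (sInf S), 0 < s' :=
    (lt_mem_nhds hpos).filter_mono nhdsWithin_le_nhds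
  have h6 : ∀ᶠ s' in 𝓝[<] (sInf S), s' < sInf S := self_mem_nhdsWithin
  obtain ⟨s', hF', hs', hs'0⟩ := (hfr.and_eventually (h6.and h5)).exists
  obtain ⟨a, ha, s2, hs20, hs2, hB⟩ := RA_first h hζ hj hs'0.le hF'
  have hlt : s2 < sInf S := lt_of_le_of_lt hs2 hs'
  refine ⟨k, j, a, sInf S, s2, hj, disc_face h hj (ray_isH hζ _) hmem.2 hF1, ha, ?_,
    hs20, hlt, csInf_le hb ⟨hs, hi⟩, hmem.2, hfirst, hB⟩
  rintro rfl
  exact absurd hB (not_le.2 (hfirst s2 hs20 hlt))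

/-- discs are met arbitrarily far along the ray -/
theorem far_disc {ρ : ℕ → ℝ} {X : ℕ → M3} (h : Lay ρ X) {ζ : ℂ} (hζ : ‖ζ‖ = 1) (S : ℝ) :
    ∃ i s, S ≤ s ∧ 0 ≤ s ∧ B (X i) (ray ζ s) ≤ cosh (ρ i) := by
  obtain ⟨k, j, hj, hF⟩ := exists_face h (ray_isH hζ (max S 0))
  obtain ⟨a, -, s2, hs2, hB⟩ := RA_last h hζ hj hF
  exact ⟨a, s2, (le_max_left S 0).trans hs2, (le_max_right S 0).trans hs2, hB⟩

end Pool.Agent.H776R2.Fatou
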