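import Pool.Agent.H776R2.Fatou.Ray
import Pool.Agent.H776R2.Fatou.Col
import Pool.Agent.H776R2.Fatou.Exh

open Real MeasureTheory

noncomputable section

namespace Pool.Agent.H776R2.Fatou

theorem RB_key {ρ : ℕ → ℝ} {X : ℕ → M3} (h : Lay ρ X) {st : ℕ → Option (ZMod 3)}
    (hst : StSpec st) {ζ : ℂ} (hζ : ‖ζ‖ = 1) {s : ℝ} (b : ℕ) (hb : st b = none)
    (hm : ∃ s', 0 ≤ s' ∧ s' ≤ s ∧ B (X b) (ray ζ s') ≤ cosh (ρ b)) :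
    ∃ s1, s1 ≤ s ∧ 0 ≤ s1 ∧ (∀ s', 0 ≤ s' → s' < s1 → cosh (ρ b) < B (X b) (ray ζ s')) ∧
      B (X b) (ray ζ s1) ≤ cosh (ρ b) ∧
      ∃ k j a s2, j ≤ N k ∧ b ∈ verts k j ∧ a ∈ verts k j ∧ 0 ≤ s2 ∧ s2 < s1 ∧
        B (X a) (ray ζ s2) ≤ cosh (ρ a) := by
  obtain ⟨s', hs0, hs1, hB⟩ := hm
  have hb0 : b ≠ 0 := by
    rintro rfl
    rw [hst.zero] at hb
    exact absurd hb (by simp)
  obtain ⟨k, j, a, s1, s2, hj, hb1, ha, -, h0, h12, h1s, hm1, hbef, hm2⟩ :=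
    prev_disc h hζ hb0 hs0 hB
  exact ⟨s1, h1s.trans hs1, (h0.trans_lt h12).le, hbef, hm1, k, j, a, s2, hj, hb1, ha, h0, h12,
    hm2⟩

theorem all_good {ρ : ℕ → ℝ} {X : ℕ → M3} (h : Lay ρ X) {st : ℕ → Option (ZMod 3)}
    (hst : StSpec st) {ζ : ℂ} (hζ : ‖ζ‖ = 1)
    (hE : ∀ i ∈ Bad1 st, ∀ s, 0 ≤ s → cosh (ρ i) < B (X i) (ray ζ s)) {i : ℕ} {s : ℝ}
    (hs : 0 ≤ s) (hi : B (X i) (ray ζ s) ≤ cosh (ρ i)) : st i ≠ none := by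
  classical
  intro hnone
  have key := fun b hb hm => RB_key h hst hζ (s := s) b hb hm
  choose! f hf using key
  obtain ⟨i0, hi0⟩ := finite_discs h (cosh s)
  have hmem : ∀ b, st b = none → (∃ s', 0 ≤ s' ∧ s' ≤ s ∧ B (X b) (ray ζ s') ≤ cosh (ρ b)) →
      b ∈ (Finset.range i0).filter (fun b => st b = none ∧
        ∃ s', 0 ≤ s' ∧ s' ≤ s ∧ B (X b) (ray ζ s') ≤ cosh (ρ b)) := by
    intro b hb hm
    rw [Finset.mem_filter, Finset.mem_range]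
    refine ⟨?_, hb, hm⟩
    by_contra hcon
    obtain ⟨s', hs0, hs1, hB⟩ := hm
    have h1 := hi0 b (Nat.le_of_not_lt hcon) (ray ζ s') (ray_isH hζ s') hB
    have h2 : cosh s' ≤ cosh s := by
      rw [cosh_le_cosh, abs_of_nonneg hs0, abs_of_nonneg hs]
      exact hs1
    exact absurd h1 (not_lt.2 h2)
  obtain ⟨b, hbS, hmin⟩ := Finset.exists_min_image _ f ⟨i, hmem i hnone ⟨s, hs, le_rfl, hi⟩⟩
  rw [Finset.mem_filter] at hbS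
  obtain ⟨-, hb, hbm⟩ := hbS
  obtain ⟨h1, h2, h3, h4, k, j, a, s2, hj, hbv, hav, h5, h6, h7⟩ := hf b hb hbm
  by_cases ha : st a = none
  · have ham : ∃ s', 0 ≤ s' ∧ s' ≤ s ∧ B (X a) (ray ζ s') ≤ cosh (ρ a) :=
      ⟨s2, h5, (h6.le).trans h1, h7⟩
    have h8 := hmin a (hmem a ha ham)
    obtain ⟨-, -, h9, -⟩ := hf a ha ham
    exact absurd h7 (not_le.2 (h9 s2 h5 (h6.trans_le h8)))
  · exact absurd h4 (not_le.2 (hE b ⟨hb, k, j, a, hj, hbv, hav, ha⟩ (f b) h2))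

theorem vis {ρ : ℕ → ℝ} {X : ℕ → M3} (h : Lay ρ X) {st : ℕ → Option (ZMod 3)}
    (hst : StSpec st) {ζ : ℂ} (hζ : ‖ζ‖ = 1)
    (hE : ∀ i ∈ Bad1 st, ∀ s, 0 ≤ s → cosh (ρ i) < B (X i) (ray ζ s)) (S : ℝ) :
    ∃ k j a b s s', j ≤ N k ∧ a ∈ verts k j ∧ b ∈ verts k j ∧ a ≠ b ∧ st a ≠ none ∧
      st b ≠ none ∧ S ≤ s ∧ 0 ≤ s ∧ S ≤ s' ∧ 0 ≤ s' ∧ B (X a) (ray ζ s) ≤ cosh (ρ a) ∧
      B (X b) (ray ζ s') ≤ cosh (ρ b) := by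
  obtain ⟨i, s0, hS, h0, hi⟩ := far_disc h hζ S
  obtain ⟨k, j, a, s1, s2, hj, hiv, hav, hai, h01, h12, hm1, -, hm2⟩ := next_disc h hζ h0 hi
  have h1 : 0 ≤ s1 := h0.trans h01
  have h2 : 0 ≤ s2 := h1.trans h12.le
  exact ⟨k, j, i, a, s1, s2, hj, hiv, hav, hai.symm, all_good h hst hζ hE h1 hm1,
    all_good h hst hζ hE h2 hm2, hS.trans h01, h1, (hS.trans h01).trans h12.le, h2, hm1, hm2⟩

end Pool.Agent.H776R2.Fatou
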