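import Pool.Agent.H776R2.Fatou.FDefs
import Pool.Agent.H776R2.Fatou.Mink
import Pool.Agent.H776R2.Fatou.Eucl
import Pool.Agent.H776R2.Fatou.Comb
import Pool.Agent.H776R2.Fatou.Layout
import Pool.Agent.H776R2.Fatou.DiscT
import Pool.Agent.H776R2.Fatou.Exh
import Pool.Agent.H776R2.Fatou.Col
import Pool.Agent.H776R2.Fatou.PEx
import Pool.Agent.H776R2.Fatou.Ray
import Pool.Agent.H776R2.Fatou.Vis
import Pool.Agent.H776R2.Fatou.Meas
import Pool.Agent.H776R2.Fatou.Sum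

open Real MeasureTheory Filter Topology

noncomputable section

namespace Pool.Agent.H776R2.Fatou

/-- the product with a point of the ray tends to infinity -/
theorem FC_far {X : M3} (hX : IsH X) {ζ : ℂ} (hζ : ‖ζ‖ = 1) (C : ℝ) :
    ∀ᶠ s : ℝ in atTop, C < B X (ray ζ s) := by
  obtain ⟨h1, h2⟩ := hX
  have hz : ζ.re ^ 2 + ζ.im ^ 2 = 1 := by
    have h3 := Complex.sq_norm ζ
    rw [hζ, Complex.normSq_apply] at h3
    nlinarith
  have hB : X.1 * X.1 - (X.2.re * X.2.re + X.2.im * X.2.im) = 1 := h1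
  obtain ⟨D, hD⟩ : ∃ D, D = X.2.re * ζ.re + X.2.im * ζ.im := ⟨_, rfl⟩
  have hD2 : D ^ 2 ≤ X.1 ^ 2 - 1 := by
    rw [hD]
    nlinarith [sq_nonneg (X.2.re * ζ.im - X.2.im * ζ.re)]
  have hDX : D < X.1 := by
    by_contra hcon
    push Not at hcon
    nlinarith
  have hDX' : 0 < X.1 - D := by linarith
  have hform : ∀ s : ℝ, B X (ray ζ s) = X.1 * cosh s - D * sinh s := by
    intro s
    have e1 : ((sinh s : ℂ) * ζ).re = sinh s * ζ.re := Complex.re_ofReal_mul _ _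
    have e2 : ((sinh s : ℂ) * ζ).im = sinh s * ζ.im := Complex.im_ofReal_mul _ _
    unfold B ray
    simp only
    rw [e1, e2, hD]
    ring
  have hlow : ∀ s : ℝ, (X.1 - D) * (exp s / 2) ≤ B X (ray ζ s) := by
    intro s
    rw [hform s, cosh_eq, sinh_eq]
    have h3 : 0 < exp (-s) := exp_pos _
    have h4 : -X.1 < D := by
      by_contra hcon
      push Not at hcon
      nlinarith
    nlinarith
  have ht : Tendsto (fun s : ℝ => (X.1 - D) * (exp s / 2)) atTop atTop :=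
    (tendsto_exp_atTop.atTop_div_const (by norm_num)).const_mul_atTop hDX'
  filter_upwards [ht.eventually_gt_atTop C] with s hs
  exact hs.trans_le (hlow s)

/-- the points of the ray tend to `ζ` -/
theorem FC_ray {ζ : ℂ} (hζ : ‖ζ‖ = 1) {ε : ℝ} (hε : 0 < ε) :
    ∀ᶠ s : ℝ in atTop, ‖ζ - poin (ray ζ s)‖ < ε := by
  have ht : Tendsto (fun s : ℝ => exp s / 2) atTop atTop :=
    tendsto_exp_atTop.atTop_div_const (by norm_num)
  filter_upwards [ht.eventually_gt_atTop (2 / ε), eventually_ge_atTop (0 : ℝ)] with s hs hs0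
  have hc : 0 < 1 + cosh s := by
    have := cosh_pos s
    linarith
  have e1 : ζ - poin (ray ζ s) = (((1 + cosh s - sinh s) / (1 + cosh s) : ℝ) : ℂ) * ζ := by
    unfold poin ray
    simp only
    have hc' : ((1 + cosh s : ℝ) : ℂ) ≠ 0 := by
      exact_mod_cast hc.ne'
    rw [Complex.ofReal_div]
    field_simp
    push_cast
    ring
  rw [e1, norm_mul, hζ, mul_one, Complex.norm_real]
  have e2 : cosh s - sinh s = exp (-s) := by
    rw [cosh_eq, sinh_eq]
    ring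
  have h3 : exp (-s) ≤ 1 := by
    rw [exp_le_one_iff]
    linarith
  have h4 : 0 < exp (-s) := exp_pos _
  have h5 : exp s / 2 ≤ cosh s := by
    rw [cosh_eq]
    linarith
  rw [Real.norm_of_nonneg (div_nonneg (by linarith) hc.le), div_lt_iff₀ hc]
  have h6 : 2 < ε * (1 + cosh s) := by
    have h7 : 2 / ε < 1 + cosh s := by linarith
    rw [div_lt_iff₀ hε] at h7
    linarith
  linarith

theorem seq_exists {ρ : ℕ → ℝ} {X : ℕ → M3} (h : Lay ρ X) {st : ℕ → Option (ZMod 3)}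
    (hst : StSpec st) {c : ℕ → ℂ} {r : ℕ → ℝ}
    (h0 : ∀ i, 0 < r i) (h1 : ∀ k j, j ≤ N k → PFace c r k j)
    (h2 : ∀ i x, st i = some x → x ≠ 2 → r i = 1) {ζ : ℂ} (hζ : ‖ζ‖ = 1)
    (hE : ∀ i ∈ Bad1 st, ∀ s, 0 ≤ s → cosh (ρ i) < B (X i) (ray ζ s)) :
    ∃ v : ℕ → ℕ, Nontangential (fun j => cen (X (v j)) (ρ (v j))) ζ ∧
      ¬ ∃ w, Tendsto (fun j => c (v j)) atTop (𝓝 w) := by
  choose k j a b s s' hj ha hb hab hsa hsb hs hs0 hs' hs0' hBa hBb using
    fun m : ℕ => vis h hst hζ hE (m : ℝ)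
  -- the sequence
  obtain ⟨v, hv0, hv1⟩ : ∃ v : ℕ → ℕ, (∀ m, v (2 * m) = a m) ∧ ∀ m, v (2 * m + 1) = b m := by
    refine ⟨fun i => if i % 2 = 0 then a (i / 2) else b (i / 2), fun m => ?_, fun m => ?_⟩
    · simp only
      rw [if_pos (by omega), show 2 * m / 2 = m by omega]
    · simp only
      rw [if_neg (by omega), show (2 * m + 1) / 2 = m by omega]
  have hv : ∀ i : ℕ, ∃ t : ℝ, ((i / 2 : ℕ) : ℝ) ≤ t ∧ 0 ≤ t ∧
      B (X (v i)) (ray ζ t) ≤ cosh (ρ (v i)) := by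
    intro i
    rcases Nat.even_or_odd' i with ⟨m, rfl | rfl⟩
    · refine ⟨s m, ?_, hs0 m, ?_⟩
      · rw [show 2 * m / 2 = m by omega]
        exact hs m
      · rw [hv0]
        exact hBa m
    · refine ⟨s' m, ?_, hs0' m, ?_⟩
      · rw [show (2 * m + 1) / 2 = m by omega]
        exact hs' m
      · rw [hv1]
        exact hBb m
  refine ⟨v, ⟨?_, 10, fun i => ?_⟩, ?_⟩
  · rw [Metric.tendsto_atTop]
    intro ε hε
    obtain ⟨i0, hi0⟩ := rad_zero h (ε / 2) (by positivity)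
    have hev : ∀ᶠ t : ℝ in atTop, ‖ζ - poin (ray ζ t)‖ < ε / 2 ∧
        ∀ i ∈ Finset.range i0, cosh (ρ i) < B (X i) (ray ζ t) := by
      refine (FC_ray hζ (by positivity)).and ?_
      rw [Finset.eventually_all]
      intro i _
      exact FC_far (h.isH i) hζ _
    obtain ⟨S, hS⟩ := eventually_atTop.1 hev
    obtain ⟨m0, hm0⟩ := exists_nat_ge S
    refine ⟨2 * m0, fun i hi => ?_⟩
    obtain ⟨t, ht1, ht2, ht3⟩ := hv i
    have hSt : S ≤ t := by
      have h3 : (m0 : ℝ) ≤ ((i / 2 : ℕ) : ℝ) := by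
        exact_mod_cast (by omega : m0 ≤ i / 2)
      linarith
    obtain ⟨h4, h5⟩ := hS t hSt
    have hvi : i0 ≤ v i := by
      by_contra hcon
      push Not at hcon
      exact absurd ht3 (not_le.2 (h5 (v i) (Finset.mem_range.2 hcon)))
    have h6 := (poin_mem (h.isH (v i)) (ray_isH hζ t) (h.lab.pos (v i))).2 ht3
    have h7 := hi0 (v i) hvi
    rw [dist_eq_norm]
    calc ‖cen (X (v i)) (ρ (v i)) - ζ‖
        = ‖(ζ - poin (ray ζ t)) + (poin (ray ζ t) - cen (X (v i)) (ρ (v i)))‖ := by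
          rw [← norm_neg]
          congr 1
          ring
      _ ≤ ‖ζ - poin (ray ζ t)‖ + ‖poin (ray ζ t) - cen (X (v i)) (ρ (v i))‖ := norm_add_le _ _
      _ < ε := by linarith
  · obtain ⟨t, ht1, ht2, ht3⟩ := hv i
    rcases Nat.eq_zero_or_pos (v i) with hvi | hvi
    · have h3 : cen (X (v i)) (ρ (v i)) = 0 := by
        rw [hvi, h.zero]
        unfold cen
        simp
      change ‖ζ - cen (X (v i)) (ρ (v i))‖ ≤ 10 * (1 - ‖cen (X (v i)) (ρ (v i))‖)
      rw [h3, sub_zero, hζ, norm_zero]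
      norm_num
    · exact seen h hζ hvi ht2 ht3
  · rintro ⟨w, hw⟩
    rw [Metric.tendsto_atTop] at hw
    obtain ⟨M, hM⟩ := hw (1 / 2) (by norm_num)
    have h3 := hM (2 * M) (by omega)
    have h4 := hM (2 * M + 1) (by omega)
    rw [hv0, dist_eq_norm] at h3
    rw [hv1, dist_eq_norm] at h4
    have h5 := p_dist hst h0 h1 h2 (hj M) (ha M) (hb M) (hab M) (hsa M) (hsb M)
    have h6 : ‖c (a M) - c (b M)‖ ≤ ‖c (a M) - w‖ + ‖c (b M) - w‖ := by
      calc ‖c (a M) - c (b M)‖ = ‖(c (a M) - w) - (c (b M) - w)‖ := by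
            congr 1
            ring
        _ ≤ _ := norm_sub_le _ _
    linarith

end Pool.Agent.H776R2.Fatou
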