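import Pool.Agent.H776R2.Fatou.Defs

open Real

noncomputable section

namespace Pool.Agent.H776R2.Fatou

/-! ### Task A (Ang.lean): the angle function -/

theorem ang_comm (r a b : ℝ) : ang r a b = ang r b a := sorry

theorem ang_pos {r a b : ℝ} (hr : 0 < r) (ha : 0 < a) (hb : 0 < b) : 0 < ang r a b := sorry

theorem ang_lt_pi {r a b : ℝ} (hr : 0 < r) (ha : 0 < a) (hb : 0 < b) : ang r a b < π := sorry

theorem ang_anti {r r' a b : ℝ} (hr : 0 < r) (h : r ≤ r') (ha : 0 < a) (hb : 0 < b) :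
    ang r' a b ≤ ang r a b := sorry

theorem ang_mono {r a a' b b' : ℝ} (hr : 0 < r) (ha : 0 < a) (hb : 0 < b) (haa : a ≤ a')
    (hbb : b ≤ b') : ang r a b ≤ ang r a' b' := sorry

theorem ang_cont {a b : ℝ} (ha : 0 < a) (hb : 0 < b) :
    ContinuousOn (fun r => ang r a b) (Set.Ioi 0) := sorry

theorem ang_le {r a b : ℝ} (hr : 0 < r) (ha : 0 < a) (hb : 0 < b) :
    ang r a b ≤ 2 * arcsin (exp (-r)) := sorry

theorem ang_ge {r a b : ℝ} (hr : 0 < r) (ha : 0 < a) (hb : 0 < b)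
    (ha2 : exp (-2 * a) ≤ 1 / 2) (hb2 : exp (-2 * b) ≤ 1 / 2) :
    2 * arcsin (exp (-r) / 2) ≤ ang r a b := sorry

theorem ang_ge_exp {r a b : ℝ} (hr : 0 < r) (ha : 0 < a) (hb : 0 < b)
    (ha2 : exp (-2 * a) ≤ 1 / 2) (hb2 : exp (-2 * b) ≤ 1 / 2) : exp (-r) ≤ ang r a b := sorry

theorem ang_small {r a b : ℝ} (hr : 0 < r) (ha : 0 < a) (hb : 0 < b) (h : exp (-r) ≤ 1 / 10) :
    ang r a b ≤ π / 10 := sorry

/-- law of cosines -/
theorem ang_law {r a b : ℝ} (hr : 0 < r) (ha : 0 < a) (hb : 0 < b) :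
    cosh (r + a) * cosh (r + b) - sinh (r + a) * sinh (r + b) * cos (ang r a b)
      = cosh (a + b) := sorry

theorem ang_unique {r a b φ : ℝ} (hr : 0 < r) (ha : 0 < a) (hb : 0 < b) (h0 : 0 ≤ φ) (h1 : φ ≤ π)
    (h : cosh (r + a) * cosh (r + b) - sinh (r + a) * sinh (r + b) * cos φ = cosh (a + b)) :
    φ = ang r a b := sorry

/-! ### Task B (Label.lean): existence of hyperbolic labels (Knaster-Tarski), uses task A -/

theorem label_exists (P : ℕ → List (ℕ × ℕ)) (hP : ∀ v, 100 ≤ (P v).length) :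
    ∃ ρ : ℕ → ℝ, (∀ v, 0 < ρ v) ∧ (∀ v, exp (-ρ v) ≤ 2 * sin (π / ((P v).length : ℝ))) ∧
      ∀ v, ((P v).map fun pq => ang (ρ v) (ρ pq.1) (ρ pq.2)).sum = 2 * π := sorry

theorem lab_exists : ∃ ρ : ℕ → ℝ, Lab ρ := sorry

/-! ### Task C (Mink.lean): boosts and polar coordinates -/

theorem boost_B {X : M3} (hX : IsH X) (V W : M3) : B (boost X V) (boost X W) = B V W := sorry

theorem boost_det {X : M3} (hX : IsH X) (U V W : M3) :
    det3 (boost X U) (boost X V) (boost X W) = det3 U V W := sorry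

theorem boost_one {X : M3} (hX : IsH X) : boost X (1, 0) = X := sorry

theorem boost_inv {X : M3} (hX : IsH X) (V : M3) : boost (X.1, -X.2) (boost X V) = V := sorry

theorem boost_inv' {X : M3} (hX : IsH X) (V : M3) : boost X (boost (X.1, -X.2) V) = V := sorry

theorem isH_neg {X : M3} (hX : IsH X) : IsH (X.1, -X.2) := sorry

theorem boost_add {X : M3} (V W : M3) : boost X (V + W) = boost X V + boost X W := sorry

theorem boost_smul {X : M3} (c : ℝ) (V : M3) : boost X (c • V) = c • boost X V := sorry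

theorem isH_boost {X V : M3} (hX : IsH X) (hV : IsH V) : IsH (boost X V) := sorry

theorem B_comm (X Y : M3) : B X Y = B Y X := sorry

theorem one_le_B {X Y : M3} (hX : IsH X) (hY : IsH Y) : 1 ≤ B X Y := sorry

theorem eq_of_B_eq_one {X Y : M3} (hX : IsH X) (hY : IsH Y) (h : B X Y = 1) : X = Y := sorry

theorem isH_pt {X : M3} (hX : IsH X) {u : ℂ} (hu : ‖u‖ = 1) (d : ℝ) : IsH (pt X d u) := sorry

theorem B_pt {X : M3} (hX : IsH X) {u : ℂ} (hu : ‖u‖ = 1) (d : ℝ) : B X (pt X d u) = cosh d :=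
  sorry

theorem B_pt_pt {X : M3} (hX : IsH X) {u v : ℂ} (hu : ‖u‖ = 1) (hv : ‖v‖ = 1) (d e : ℝ) :
    B (pt X d u) (pt X e v)
      = cosh d * cosh e - sinh d * sinh e * (u.re * v.re + u.im * v.im) := sorry

theorem det_pt_pt {X : M3} (hX : IsH X) (u v : ℂ) (d e : ℝ) :
    det3 X (pt X d u) (pt X e v) = sinh d * sinh e * cr u v := sorry

theorem polar {X Y : M3} (hX : IsH X) (hY : IsH Y) :
    ∃ d u, 0 ≤ d ∧ ‖u‖ = 1 ∧ Y = pt X d u := sorry

theorem pt_inj {X : M3} (hX : IsH X) {u v : ℂ} (hu : ‖u‖ = 1) (hv : ‖v‖ = 1) {d e : ℝ}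
    (hd : 0 < d) (he : 0 < e) (h : pt X d u = pt X e v) : d = e ∧ u = v := sorry

theorem face_of_ang {X : M3} (hX : IsH X) {r a b : ℝ} (hr : 0 < r) (ha : 0 < a) (hb : 0 < b)
    {u : ℂ} (hu : ‖u‖ = 1) :
    B (pt X (r + a) u) (pt X (r + b) (u * Complex.exp (Complex.I * (ang r a b : ℂ))))
      = cosh (a + b) ∧
    0 < det3 X (pt X (r + a) u)
      (pt X (r + b) (u * Complex.exp (Complex.I * (ang r a b : ℂ)))) := sorry

theorem ang_of_face {X : M3} (hX : IsH X) {r a b : ℝ} (hr : 0 < r) (ha : 0 < a) (hb : 0 < b)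
    {u v : ℂ} (hu : ‖u‖ = 1) (hv : ‖v‖ = 1)
    (h1 : B (pt X (r + a) u) (pt X (r + b) v) = cosh (a + b))
    (h2 : 0 < det3 X (pt X (r + a) u) (pt X (r + b) v)) :
    v = u * Complex.exp (Complex.I * (ang r a b : ℂ)) := sorry

/-! ### Task D (Eucl.lean): passage to Euclidean circles in the unit disc -/

theorem poin_mem {X Y : M3} {r : ℝ} (hX : IsH X) (hY : IsH Y) (hr : 0 < r) :
    ‖poin Y - cen X r‖ ≤ rad X r ↔ B X Y ≤ cosh r := sorry

theorem poin_mem_lt {X Y : M3} {r : ℝ} (hX : IsH X) (hY : IsH Y) (hr : 0 < r) :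
    ‖poin Y - cen X r‖ < rad X r ↔ B X Y < cosh r := sorry

theorem cen_tang {X Y : M3} {r s : ℝ} (hX : IsH X) (hY : IsH Y) (hr : 0 < r) (hs : 0 < s) :
    ‖cen X r - cen Y s‖ = rad X r + rad Y s ↔ B X Y = cosh (r + s) := sorry

theorem cen_disj {X Y : M3} {r s : ℝ} (hX : IsH X) (hY : IsH Y) (hr : 0 < r) (hs : 0 < s) :
    rad X r + rad Y s ≤ ‖cen X r - cen Y s‖ ↔ cosh (r + s) ≤ B X Y := sorry

theorem cen_lt {X : M3} {r : ℝ} (hX : IsH X) (hr : 0 < r) : ‖cen X r‖ + rad X r < 1 := sorry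

theorem rad_pos {X : M3} {r : ℝ} (hX : IsH X) (hr : 0 < r) : 0 < rad X r := sorry

theorem poin_lt {Y : M3} (hY : IsH Y) : ‖poin Y‖ < 1 := sorry

theorem poin_surj {y : ℂ} (hy : ‖y‖ < 1) : ∃ Y : M3, IsH Y ∧ poin Y = y := sorry

theorem cen_orient {X Y W : M3} {r s t : ℝ} (hX : IsH X) (hY : IsH Y) (hW : IsH W) (hr : 0 < r)
    (hs : 0 < s) (ht : 0 < t) (h1 : B X Y = cosh (r + s)) (h2 : B Y W = cosh (s + t))
    (h3 : B W X = cosh (t + r)) (hd : 0 < det3 X Y W) :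
    0 < cr (cen Y s - cen X r) (cen W t - cen X r) := sorry

/-! ### Task E (Carr.lean): a point of a face is in one of the discs or in the euclidean triangle -/

theorem carrier_pt {X Y W V : M3} {r s t : ℝ} (hX : IsH X) (hY : IsH Y) (hW : IsH W) (hr : 0 < r)
    (hs : 0 < s) (ht : 0 < t) (h1 : B X Y = cosh (r + s)) (h2 : B Y W = cosh (s + t))
    (h3 : B W X = cosh (t + r)) (hd : 0 < det3 X Y W) (hV : IsH V) (hin : InTri X Y W V)
    (hx : cosh r ≤ B X V) (hy : cosh s ≤ B Y V) (hw : cosh t ≤ B W V) :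
    poin V ∈ convexHull ℝ {cen X r, cen Y s, cen W t} := sorry

/-! ### Task F (StarL.lean): star shaped + locally convex implies convex -/

/-- cyclic successor on `a, …, b-1` -/
def cyc (a b i : ℕ) : ℕ := if i + 1 = b then a else i + 1

theorem star_convex (a b : ℕ) (hab : a + 3 ≤ b) (t s α : ℕ → ℝ) (u : ℂ) (hu : ‖u‖ = 1)
    (ht : ∀ i, a ≤ i → i < b → 0 < t i) (hs : ∀ i, a ≤ i → i < b → 0 < s i)
    (hmono : ∀ i j, a ≤ i → i < j → j < b → α i < α j)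
    (hgap : ∀ i, a ≤ i → i + 1 < b → α (i + 1) - α i < π)
    (hlast : α (b - 1) < α a + 2 * π) (hgap' : α a + 2 * π - α (b - 1) < π)
    (V : ℕ → M3) (hV : ∀ i, a ≤ i → i < b → V i = (t i, (s i : ℂ) * (u * Complex.exp (Complex.I * (α i : ℂ)))))
    (hturn : ∀ i, a ≤ i → i < b → 0 < det3 (V i) (V (cyc a b i)) (V (cyc a b (cyc a b i)))) :
    ∀ i j, a ≤ i → i < b → a ≤ j → j < b → j ≠ i → j ≠ cyc a b i →
      0 < det3 (V i) (V (cyc a b i)) (V j) := sorry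

theorem star_edge (a b : ℕ) (hab : a + 3 ≤ b) (t s α : ℕ → ℝ) (u : ℂ) (hu : ‖u‖ = 1)
    (ht : ∀ i, a ≤ i → i < b → 0 < t i) (hs : ∀ i, a ≤ i → i < b → 0 < s i)
    (hmono : ∀ i j, a ≤ i → i < j → j < b → α i < α j)
    (hgap : ∀ i, a ≤ i → i + 1 < b → α (i + 1) - α i < π)
    (hlast : α (b - 1) < α a + 2 * π) (hgap' : α a + 2 * π - α (b - 1) < π)
    (V : ℕ → M3) (hV : ∀ i, a ≤ i → i < b → V i = (t i, (s i : ℂ) * (u * Complex.exp (Complex.I * (α i : ℂ))))) :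
    ∀ i, a ≤ i → i < b → 0 < det3 (V i) (V (cyc a b i)) (1, 0) := sorry

theorem star_hull (a b : ℕ) (hab : a + 3 ≤ b) (t s α : ℕ → ℝ) (u : ℂ) (hu : ‖u‖ = 1)
    (ht : ∀ i, a ≤ i → i < b → 0 < t i) (hs : ∀ i, a ≤ i → i < b → 0 < s i)
    (hmono : ∀ i j, a ≤ i → i < j → j < b → α i < α j)
    (hgap : ∀ i, a ≤ i → i + 1 < b → α (i + 1) - α i < π)
    (hlast : α (b - 1) < α a + 2 * π) (hgap' : α a + 2 * π - α (b - 1) < π)
    (V : ℕ → M3) (hV : ∀ i, a ≤ i → i < b → V i = (t i, (s i : ℂ) * (u * Complex.exp (Complex.I * (α i : ℂ))))) :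
    InCone V (Finset.Ico a b) (1, 0) := sorry

/-- every direction is in one of the closed sectors -/
theorem star_sector (a b : ℕ) (hab : a + 3 ≤ b) (t s α : ℕ → ℝ) (u : ℂ) (hu : ‖u‖ = 1)
    (ht : ∀ i, a ≤ i → i < b → 0 < t i) (hs : ∀ i, a ≤ i → i < b → 0 < s i)
    (hmono : ∀ i j, a ≤ i → i < j → j < b → α i < α j)
    (hgap : ∀ i, a ≤ i → i + 1 < b → α (i + 1) - α i < π)
    (hlast : α (b - 1) < α a + 2 * π) (hgap' : α a + 2 * π - α (b - 1) < π)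
    (V : ℕ → M3) (hV : ∀ i, a ≤ i → i < b → V i = (t i, (s i : ℂ) * (u * Complex.exp (Complex.I * (α i : ℂ)))))
    (Y : M3) :
    ∃ i, a ≤ i ∧ i < b ∧ 0 ≤ det3 (1, 0) (V i) Y ∧ 0 ≤ det3 (1, 0) Y (V (cyc a b i)) := sorry

/-! ### Task P1 (Fan.lean): closing a flower with equal small circles (euclidean) -/

/-- `c₀` centre and `r₀` radius of the circle whose flower is closed; `cl, rl` the left
neighbour, `cr', rr` the right one. There are `M` equal circles of radius `t ≤ r₀/8` filling the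
gap counterclockwise from the left to the right neighbour. `c 0 = cl`, `c (M+1) = cr'`. -/
theorem fan (c₀ cl cr' : ℂ) (r₀ rl rr : ℝ) (h0 : 0 < r₀) (hl : 0 < rl) (hr : 0 < rr)
    (hcl : ‖cl - c₀‖ = r₀ + rl) (hcr : ‖cr' - c₀‖ = r₀ + rr) (M : ℕ) (hM : 64 ≤ M) :
    ∃ (t : ℝ) (c : ℕ → ℂ) (r : ℕ → ℝ), 0 < t ∧ t ≤ r₀ / 8 ∧ c 0 = cl ∧ r 0 = rl ∧
      c (M + 1) = cr' ∧ r (M + 1) = rr ∧ (∀ j, 1 ≤ j → j ≤ M → r j = t) ∧
      (∀ j, j ≤ M + 1 → ‖c j - c₀‖ = r₀ + r j) ∧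
      (∀ j, j ≤ M → ‖c (j + 1) - c j‖ = r j + r (j + 1)) ∧
      (∀ j, j ≤ M → 0 < cr (c j - c₀) (c (j + 1) - c₀)) := sorry

end Pool.Agent.H776R2.Fatou
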