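import Pool.Agent.H776R2.Fatou.Stubs1

open Real

noncomputable section

namespace Pool.Agent.H776R2.Fatou

/-- consecutive pairs forming a path from `a` to `b` -/
def ChainL : ℕ → List (ℕ × ℕ) → ℕ → Prop
  | a, [], b => a = b
  | a, (p :: l), b => p.1 = a ∧ ChainL p.2 l b

/-! ### Task K (Comb.lean): combinatorics of the spiral triangulation -/

theorem N_ge (k : ℕ) : 2 * 10 ^ 12 + 64 ≤ N k := sorry

theorem n_succ (k : ℕ) : n (k + 1) = n k + N k := sorry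

theorem n_strictMono : StrictMono n := sorry

theorem n_ge (k : ℕ) : k + 2 ≤ n k := sorry

theorem n_ge' (k : ℕ) (hk : 1 ≤ k) : k + 10 ^ 12 ≤ n k := sorry

theorem pet_zero (k : ℕ) : pet k 0 = n k - 1 := sorry

theorem pet_le {k j : ℕ} (h : j ≤ N k) : pet k j = n k - 1 + j := sorry

theorem pet_last (k : ℕ) : pet k (N k + 1) = k + 1 := sorry

theorem pet_mem {k j : ℕ} (h1 : 1 ≤ j) (h2 : j ≤ N k) : n k ≤ pet k j ∧ pet k j < n (k + 1) := sorry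

theorem pet_surj {k i : ℕ} (h1 : n k ≤ i) (h2 : i < n (k + 1)) :
    ∃ j, 1 ≤ j ∧ j ≤ N k ∧ pet k j = i := sorry

theorem pet_lt {k j : ℕ} (h : j ≤ N k + 1) : pet k j < n (k + 1) := sorry

theorem pet_gt {k j : ℕ} (h : j ≤ N k + 1) : k < pet k j := sorry

theorem par_spec {i : ℕ} (h : 2 ≤ i) : n (par i) ≤ i ∧ i < n (par i + 1) := sorry

theorem par_eq {k i : ℕ} (h1 : n k ≤ i) (h2 : i < n (k + 1)) : par i = k := sorry

theorem old_len (k : ℕ) : (old k).length ≤ 4 := sorry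

theorem old_chain {k : ℕ} (hk : 1 ≤ k) : ChainL (k + 1) (old k) (n k - 1) := sorry

theorem new_chain (k : ℕ) : ChainL (n k - 1) (new k) (k + 1) := sorry

theorem pairs_chain (k : ℕ) : ChainL (k + 1) (pairs k) (k + 1) := sorry

/-- the pairs of `old k` are corners at `k` of faces of earlier stages -/
theorem old_face {k : ℕ} {p : ℕ × ℕ} (hp : p ∈ old k) : ∃ k' j, k' < k ∧ j ≤ N k' ∧
    ((k = pet k' j ∧ p.1 = pet k' (j + 1) ∧ p.2 = k') ∨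
     (k = pet k' (j + 1) ∧ p.1 = k' ∧ p.2 = pet k' j)) := sorry

theorem new_face {k : ℕ} {p : ℕ × ℕ} (hp : p ∈ new k) :
    ∃ j, j ≤ N k ∧ p.1 = pet k j ∧ p.2 = pet k (j + 1) := sorry

/-- every face has its three corners in the flowers -/
theorem corner0 {k j : ℕ} (hj : j ≤ N k) : (pet k j, pet k (j + 1)) ∈ pairs k := sorry

theorem corner1 {k j : ℕ} (hj : j ≤ N k) : (pet k (j + 1), k) ∈ pairs (pet k j) := sorry

theorem corner2 {k j : ℕ} (hj : j ≤ N k) : (k, pet k j) ∈ pairs (pet k (j + 1)) := sorry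

/-- boundary edges are edges of faces -/
theorem bd_edge {k i : ℕ} (hk : 1 ≤ k) (h1 : k ≤ i) (h2 : i < n k) :
    ∃ k' j, k' < k ∧ j ≤ N k' ∧ i = pet k' j ∧ nx k i = pet k' (j + 1) := sorry

/-- existence of the colouring -/
theorem st_exists : ∃ st, StSpec st := sorry

/-! ### Task L (Layout.lean) -/

theorem face_rot {ρ : ℕ → ℝ} {X : ℕ → M3} {a b c : ℕ} (h : FaceOK ρ X a b c) :
    FaceOK ρ X b c a := sorry

theorem pairs_faceOK {ρ : ℕ → ℝ} {X : ℕ → M3} (h : Lay ρ X) {k : ℕ} {p : ℕ × ℕ}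
    (hp : p ∈ pairs k) : FaceOK ρ X k p.1 p.2 := sorry

theorem lab_exp {ρ : ℕ → ℝ} (h : Lab ρ) (v : ℕ) : exp (-ρ v) ≤ 1 / 10 ^ 9 := sorry

/-- directions along a chain of faces around `k` -/
theorem chain_dir {ρ : ℕ → ℝ} {X : ℕ → M3} (hρ : ∀ v, 0 < ρ v) (hX : ∀ i, IsH (X i)) {k : ℕ}
    (l : List (ℕ × ℕ)) (a b : ℕ) (h : ChainL a l b) (hf : ∀ p ∈ l, FaceOK ρ X k p.1 p.2)
    (u : ℂ) (hu : ‖u‖ = 1) (ha : X a = pt (X k) (ρ k + ρ a) u) :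
    X b = pt (X k) (ρ k + ρ b) (u * Complex.exp (Complex.I * (asum ρ k l : ℂ))) := sorry

theorem layout_exists {ρ : ℕ → ℝ} (h : Lab ρ) : ∃ X, Lay ρ X := sorry

/-! ### Task M (FrameT.lean): frames and turns -/

theorem frame {ρ : ℕ → ℝ} {X : ℕ → M3} (h : Lay ρ X) (k : ℕ) (hc : k = 0 ∨ Conv X k) :
    ∃ u d α, Frame ρ X k u d α := sorry

/-- a chain of faces around `m` from `a` to `b` with total angle less than `π` is a left turn -/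
theorem turn_of_chain {ρ : ℕ → ℝ} {X : ℕ → M3} (hρ : ∀ v, 0 < ρ v) (hX : ∀ i, IsH (X i)) {m : ℕ}
    (l : List (ℕ × ℕ)) (hl : l ≠ []) (a b : ℕ) (h : ChainL a l b)
    (hf : ∀ p ∈ l, FaceOK ρ X m p.1 p.2) (hs : asum ρ m l < π) :
    0 < det3 (X m) (X a) (X b) := sorry

theorem turns {ρ : ℕ → ℝ} {X : ℕ → M3} (h : Lay ρ X) (k : ℕ) (hc : k = 0 ∨ Conv X k) :
    ∀ i, k + 1 ≤ i → i < n (k + 1) →
      0 < det3 (X i) (X (nx (k + 1) i)) (X (nx (k + 1) (nx (k + 1) i))) := sorry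

/-! ### Task O (ConvT.lean): convexity of all boundary polygons -/

theorem conv_hull {ρ : ℕ → ℝ} {X : ℕ → M3} (h : Lay ρ X) :
    ∀ k, 1 ≤ k → Conv X k ∧ Hull X k := sorry

/-! ### Task R (Tile.lean) -/

/-- Cramer: a point of a positively oriented triangle is a nonnegative combination -/
theorem inTri_comb {a b c Y : M3} (hd : 0 < det3 a b c) (h : InTri a b c Y) :
    ∃ x y z : ℝ, 0 ≤ x ∧ 0 ≤ y ∧ 0 ≤ z ∧ Y = x • a + y • b + z • c := sorry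

theorem inF_poly {ρ : ℕ → ℝ} {X : ℕ → M3} (h : Lay ρ X) {k' j k : ℕ} (hk : k' < k)
    (hj : j ≤ N k') {Y : M3} (hF : InF X k' j Y) : Poly X k Y := sorry

theorem cover {ρ : ℕ → ℝ} {X : ℕ → M3} (h : Lay ρ X) {k : ℕ} (hk : 1 ≤ k) {Y : M3} (hY : IsH Y)
    (hP : Poly X k Y) : ∃ k' j, k' < k ∧ j ≤ N k' ∧ InF X k' j Y := sorry

/-- a point of a face of stage `k ≥ 1` is not strictly inside the old polygon -/
theorem not_strict {ρ : ℕ → ℝ} {X : ℕ → M3} (h : Lay ρ X) {k j : ℕ} (hk : 1 ≤ k) (hj : j ≤ N k)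
    {Y : M3} (hY : IsH Y) (hF : InF X k j Y) :
    det3 (X k) (X (k + 1)) Y ≤ 0 ∨ det3 (X (n k - 1)) (X k) Y ≤ 0 := sorry

/-! ### Task S (CommonF.lean) -/

theorem common_face {ρ : ℕ → ℝ} {X : ℕ → M3} (h : Lay ρ X) {k j k' j' : ℕ} (hj : j ≤ N k)
    (hj' : j' ≤ N k') {Y : M3} (hY : IsH Y) (h1 : InF X k j Y) (h2 : InF X k' j' Y) :
    InCone X (verts k j ∩ verts k' j') Y := sorry

/-! ### Task U (DiscT.lean): discs -/

theorem star_disc {ρ : ℕ → ℝ} {X : ℕ → M3} (h : Lay ρ X) (v : ℕ) {Y : M3} (hY : IsH Y)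
    (hB : B (X v) Y ≤ cosh (ρ v)) :
    ∃ p ∈ pairs v, 0 ≤ det3 (X v) (X p.1) Y ∧ 0 ≤ det3 (X v) Y (X p.2) ∧
      0 < det3 (X p.1) (X p.2) Y := sorry

/-- a closed disc only meets the faces at its centre -/
theorem disc_face {ρ : ℕ → ℝ} {X : ℕ → M3} (h : Lay ρ X) {v k j : ℕ} (hj : j ≤ N k) {Y : M3}
    (hY : IsH Y) (hB : B (X v) Y ≤ cosh (ρ v)) (hF : InF X k j Y) : v ∈ verts k j := sorry

theorem face_tang {ρ : ℕ → ℝ} {X : ℕ → M3} (h : Lay ρ X) {k j a b : ℕ} (hj : j ≤ N k)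
    (ha : a ∈ verts k j) (hb : b ∈ verts k j) (hab : a ≠ b) : Tang ρ X a b := sorry

theorem discs_disjoint {ρ : ℕ → ℝ} {X : ℕ → M3} (h : Lay ρ X) {u v : ℕ} (huv : u ≠ v) :
    cosh (ρ u + ρ v) ≤ B (X u) (X v) := sorry

/-! ### Task V (Exh.lean): exhaustion and local finiteness -/

theorem finite_discs {ρ : ℕ → ℝ} {X : ℕ → M3} (h : Lay ρ X) (T : ℝ) :
    ∃ i0, ∀ i, i0 ≤ i → ∀ Y, IsH Y → B (X i) Y ≤ cosh (ρ i) → T < Y.1 := sorry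

theorem exhaust {ρ : ℕ → ℝ} {X : ℕ → M3} (h : Lay ρ X) (T : ℝ) :
    ∃ k0, 1 ≤ k0 ∧ ∀ k, k0 ≤ k → ∀ Y, IsH Y → Y.1 ≤ T → ∀ i, k ≤ i → i < n k →
      0 < det3 (X i) (X (nx k i)) Y := sorry

theorem exists_face {ρ : ℕ → ℝ} {X : ℕ → M3} (h : Lay ρ X) {Y : M3} (hY : IsH Y) :
    ∃ k j, j ≤ N k ∧ InF X k j Y := sorry

theorem loc_fin {ρ : ℕ → ℝ} {X : ℕ → M3} (h : Lay ρ X) (T : ℝ) :
    ∃ k0, ∀ k j, k0 ≤ k → j ≤ N k → ∀ Y, IsH Y → InF X k j Y → T < Y.1 := sorry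

theorem rad_zero {ρ : ℕ → ℝ} {X : ℕ → M3} (h : Lay ρ X) (ε : ℝ) (hε : 0 < ε) :
    ∃ i0, ∀ i, i0 ≤ i → rad (X i) (ρ i) < ε := sorry

/-! ### Task W (RadB.lean): Euclidean radii of the petals -/

theorem rad_bound {ρ : ℕ → ℝ} {X : ℕ → M3} (h : Lay ρ X) {k j : ℕ} (hk : 1 ≤ k) (h1 : 1 ≤ j)
    (h2 : j ≤ N k) :
    rad (X (pet k j)) (ρ (pet k j)) ≤
      100 * rad (X k) (ρ k) / ((min j (N k + 1 - j) : ℕ) : ℝ) ^ 2 := sorry

theorem rad_bound0 {ρ : ℕ → ℝ} {X : ℕ → M3} (h : Lay ρ X) {i : ℕ} (h1 : 1 ≤ i) (h2 : i < n 1) :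
    rad (X i) (ρ i) ≤ 2 * π / (N 0 : ℝ) := sorry

end Pool.Agent.H776R2.Fatou
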