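import Pool.Agent.H776R2.Fatou.Stubs2

open Real MeasureTheory

noncomputable section

namespace Pool.Agent.H776R2.Fatou

/-! ### Task PA (Col.lean): colours of the faces -/

theorem face_colour_ne {st : ℕ → Option (ZMod 3)} (hst : StSpec st) {k j a b : ℕ} (hj : j ≤ N k)
    (ha : a ∈ verts k j) (hb : b ∈ verts k j) (hab : a ≠ b) (h1 : st a ≠ none)
    (h2 : st b ≠ none) : st a ≠ st b := sorry

theorem face_third {st : ℕ → Option (ZMod 3)} (hst : StSpec st) {k j : ℕ} (hj : j ≤ N k)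
    {x y : ZMod 3} (h1 : st (pet k j) = some x) (h2 : st (pet k (j + 1)) = some y) :
    st k = some (-(x + y)) := sorry

/-- the third vertex of the older face at the edge `k, n k - 1` (`k ≥ 1`) -/
theorem left_old {st : ℕ → Option (ZMod 3)} (hst : StSpec st) {k : ℕ} (hk : 1 ≤ k)
    {x y : ZMod 3} (h1 : st k = some x) (h2 : st (n k - 1) = some y) :
    st (k - 1) = some (-(x + y)) := sorry

/-- vertices which can be bad and adjacent to a good vertex, charged to `g` -/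
def AG (g : ℕ) : Finset ℕ :=
  (Finset.Icc (q g + 1) (q g + mB)).image (pet g) ∪
  (Finset.Icc 1 (N (pet g (q g)))).image (pet (pet g (q g))) ∪
  (Finset.Icc 1 (N (pet g (q g + mB + 1)))).image (pet (pet g (q g + mB + 1))) ∪
  {pet (pet g (q g + mB)) (N (pet g (q g + mB)))}

/-- bad vertices adjacent to a good vertex -/
def Bad1 (st : ℕ → Option (ZMod 3)) : Set ℕ :=
  {i | st i = none ∧ ∃ k j g, j ≤ N k ∧ i ∈ verts k j ∧ g ∈ verts k j ∧ st g ≠ none}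

theorem bad1_sub {st : ℕ → Option (ZMod 3)} (hst : StSpec st) {i : ℕ} (hi : i ∈ Bad1 st) :
    ∃ g, i ∈ AG g := sorry

/-! ### Task PB (Zone.lean): placing a good zone (euclidean) -/

/-- ideal positions of the three colours -/
def ideal (x : ZMod 3) : ℂ := if x = 0 then -1 else if x = 1 then 1 else 0

/-- square root of the radius of a pebble -/
def wp (i : ℕ) : ℝ := 1 / (1000 * 2 ^ i * ((N i : ℝ) + 1))

theorem zone_place (σ : ℝ) (hσ : σ = 1 ∨ σ = -1) (m : ℕ) (x : ZMod 3) (col : ℕ → ZMod 3)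
    (w : ℕ → ℝ) (wk : ℝ) (hw : ∀ j, 0 < w j ∧ w j ≤ 1) (hwk : 0 < wk ∧ wk ≤ 1)
    (hx : ∀ j, j ≤ m → col j ≠ x) (hc : ∀ j, j < m → col (j + 1) ≠ col j)
    (c₀ a₀ : ℂ) (r₀ : ℝ) (hr : r₀ = if x = 2 then wk ^ 2 else 1)
    (R : ℕ → ℝ) (hR : ∀ j, j ≤ m → R j = if col j = 2 then (w j) ^ 2 else 1)
    (h0 : ‖a₀ - c₀‖ = r₀ + R 0) (D : ℝ) (hD0 : ‖c₀ - ideal x‖ ≤ D) (hD1 : ‖a₀ - ideal (col 0)‖ ≤ D)
    (hold : 1 ≤ m → col 1 ≠ 2 → ∃ a' : ℂ, ‖a' - c₀‖ = r₀ + 1 ∧ ‖a' - a₀‖ = R 0 + 1 ∧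
      ‖a' - ideal (col 1)‖ ≤ D) :
    ∃ a : ℕ → ℂ, a 0 = a₀ ∧
      (∀ j, j ≤ m → ‖a j - c₀‖ = r₀ + R j) ∧
      (∀ j, j < m → ‖a (j + 1) - a j‖ = R j + R (j + 1)) ∧
      (∀ j, j < m → 0 < σ * cr (a j - c₀) (a (j + 1) - c₀)) ∧
      (∀ j, j ≤ m → ‖a j - ideal (col j)‖ ≤
        D + 8 * (∑ i ∈ Finset.range (j + 1), w i) + 8 * j * wk) := sorry

/-! ### Task PC (PStep.lean): one stage of the packing `P` -/

/-- the face `(k,j)` is a positively oriented mutually tangent triple of `P` -/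
def PFace (c : ℕ → ℂ) (r : ℕ → ℝ) (k j : ℕ) : Prop :=
  ‖c (pet k j) - c k‖ = r k + r (pet k j) ∧
  ‖c (pet k (j + 1)) - c k‖ = r k + r (pet k (j + 1)) ∧
  ‖c (pet k (j + 1)) - c (pet k j)‖ = r (pet k j) + r (pet k (j + 1)) ∧
  0 < cr (c (pet k j) - c k) (c (pet k (j + 1)) - c k)

/-- invariant before stage `K` -/
structure PInv (st : ℕ → Option (ZMod 3)) (K : ℕ) (c : ℕ → ℂ) (r : ℕ → ℝ) : Prop where
  pos : ∀ i, i < n K → 0 < r i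
  face : ∀ k j, k < K → j ≤ N k → PFace c r k j
  edge : ‖c 1 - c 0‖ = r 0 + r 1
  rad : ∀ i x, i < n K → st i = some x → r i = if x = 2 then (wp i) ^ 2 else 1
  err : ∀ i x, i < n K → st i = some x → ‖c i - ideal x‖ ≤ 1 / 10 * (1 - 1 / 2 ^ K)
  bdd : ∀ i, i < n K → ‖c i‖ + 2 * r i ≤ 4

theorem p_step {st : ℕ → Option (ZMod 3)} (hst : StSpec st) {K : ℕ} {c : ℕ → ℂ} {r : ℕ → ℝ}
    (h : PInv st K c r) :
    ∃ c' r', (∀ i, i < n K → c' i = c i ∧ r' i = r i) ∧ PInv st (K + 1) c' r' := sorry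

/-! ### Task PD (PEx.lean): existence of the packing `P` -/

theorem p_exists {st : ℕ → Option (ZMod 3)} (hst : StSpec st) :
    ∃ (c : ℕ → ℂ) (r : ℕ → ℝ), (∀ i, 0 < r i) ∧ (∀ k j, j ≤ N k → PFace c r k j) ∧
      (∀ i x, st i = some x → x ≠ 2 → r i = 1) ∧ (∀ i, ‖c i‖ + r i ≤ 4) := sorry

/-- adjacent good vertices have images at distance at least 1 -/
theorem p_dist {st : ℕ → Option (ZMod 3)} (hst : StSpec st) {c : ℕ → ℂ} {r : ℕ → ℝ}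
    (h0 : ∀ i, 0 < r i) (h1 : ∀ k j, j ≤ N k → PFace c r k j)
    (h2 : ∀ i x, st i = some x → x ≠ 2 → r i = 1) {k j a b : ℕ} (hj : j ≤ N k)
    (ha : a ∈ verts k j) (hb : b ∈ verts k j) (hab : a ≠ b) (h3 : st a ≠ none)
    (h4 : st b ≠ none) : 1 ≤ ‖c a - c b‖ := sorry

/-! ### Task RA (Ray.lean): discs and faces along a ray -/

theorem ray_isH {ζ : ℂ} (hζ : ‖ζ‖ = 1) (s : ℝ) : IsH (ray ζ s) := sorry

theorem next_disc {ρ : ℕ → ℝ} {X : ℕ → M3} (h : Lay ρ X) {ζ : ℂ} (hζ : ‖ζ‖ = 1) {i : ℕ}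
    {s0 : ℝ} (hs : 0 ≤ s0) (hi : B (X i) (ray ζ s0) ≤ cosh (ρ i)) :
    ∃ k j a s1 s2, j ≤ N k ∧ i ∈ verts k j ∧ a ∈ verts k j ∧ a ≠ i ∧ s0 ≤ s1 ∧ s1 < s2 ∧
      B (X i) (ray ζ s1) ≤ cosh (ρ i) ∧ (∀ s, s1 < s → cosh (ρ i) < B (X i) (ray ζ s)) ∧
      B (X a) (ray ζ s2) ≤ cosh (ρ a) := sorry

theorem prev_disc {ρ : ℕ → ℝ} {X : ℕ → M3} (h : Lay ρ X) {ζ : ℂ} (hζ : ‖ζ‖ = 1) {i : ℕ}
    (hi0 : i ≠ 0) {s0 : ℝ} (hs : 0 ≤ s0) (hi : B (X i) (ray ζ s0) ≤ cosh (ρ i)) :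
    ∃ k j a s1 s2, j ≤ N k ∧ i ∈ verts k j ∧ a ∈ verts k j ∧ a ≠ i ∧ 0 ≤ s2 ∧ s2 < s1 ∧ s1 ≤ s0 ∧
      B (X i) (ray ζ s1) ≤ cosh (ρ i) ∧ (∀ s, 0 ≤ s → s < s1 → cosh (ρ i) < B (X i) (ray ζ s)) ∧
      B (X a) (ray ζ s2) ≤ cosh (ρ a) := sorry

/-- discs are met arbitrarily far along the ray -/
theorem far_disc {ρ : ℕ → ℝ} {X : ℕ → M3} (h : Lay ρ X) {ζ : ℂ} (hζ : ‖ζ‖ = 1) (S : ℝ) :
    ∃ i s, S ≤ s ∧ 0 ≤ s ∧ B (X i) (ray ζ s) ≤ cosh (ρ i) := sorry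

/-! ### Task RB (Vis.lean): visibility -/

theorem all_good {ρ : ℕ → ℝ} {X : ℕ → M3} (h : Lay ρ X) {st : ℕ → Option (ZMod 3)}
    (hst : StSpec st) {ζ : ℂ} (hζ : ‖ζ‖ = 1)
    (hE : ∀ i ∈ Bad1 st, ∀ s, 0 ≤ s → cosh (ρ i) < B (X i) (ray ζ s)) {i : ℕ} {s : ℝ}
    (hs : 0 ≤ s) (hi : B (X i) (ray ζ s) ≤ cosh (ρ i)) : st i ≠ none := sorry

theorem vis {ρ : ℕ → ℝ} {X : ℕ → M3} (h : Lay ρ X) {st : ℕ → Option (ZMod 3)}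
    (hst : StSpec st) {ζ : ℂ} (hζ : ‖ζ‖ = 1)
    (hE : ∀ i ∈ Bad1 st, ∀ s, 0 ≤ s → cosh (ρ i) < B (X i) (ray ζ s)) (S : ℝ) :
    ∃ k j a b s s', j ≤ N k ∧ a ∈ verts k j ∧ b ∈ verts k j ∧ a ≠ b ∧ st a ≠ none ∧
      st b ≠ none ∧ S ≤ s ∧ 0 ≤ s ∧ S ≤ s' ∧ 0 ≤ s' ∧ B (X a) (ray ζ s) ≤ cosh (ρ a) ∧
      B (X b) (ray ζ s') ≤ cosh (ρ b) := sorry

/-! ### Task RC (Meas.lean): measure of the shadows -/

/-- the shadow of the disc `i` -/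
def Shad (ρ : ℕ → ℝ) (X : ℕ → M3) (i : ℕ) : Set ℝ :=
  {θ | θ ∈ Set.Ioc (-π) π ∧
    ∃ s, 0 ≤ s ∧ B (X i) (ray (Complex.exp (Complex.I * (θ : ℂ))) s) ≤ cosh (ρ i)}

theorem shad_meas {ρ : ℕ → ℝ} {X : ℕ → M3} (h : Lay ρ X) {i : ℕ} (hi : 1 ≤ i) :
    ∃ J : Set ℝ, MeasurableSet J ∧ Shad ρ X i ⊆ J ∧
      volume J ≤ ENNReal.ofReal (20 * rad (X i) (ρ i)) := sorry

/-- a center whose disc is met by the ray is seen nontangentially -/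
theorem seen {ρ : ℕ → ℝ} {X : ℕ → M3} (h : Lay ρ X) {ζ : ℂ} (hζ : ‖ζ‖ = 1) {i : ℕ} (hi : 1 ≤ i)
    {s : ℝ} (hs : 0 ≤ s) (hB : B (X i) (ray ζ s) ≤ cosh (ρ i)) :
    ‖ζ - cen (X i) (ρ i)‖ ≤ 10 * (1 - ‖cen (X i) (ρ i)‖) := sorry

/-! ### Task RD (Sum.lean): total size of the bad discs -/

theorem sum_AG {ρ : ℕ → ℝ} {X : ℕ → M3} (h : Lay ρ X) (g : ℕ) :
    ∑ i ∈ AG g, rad (X i) (ρ i) ≤ 10 ^ 5 / (q g : ℝ) := sorry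

theorem AG_pos {g i : ℕ} (hi : i ∈ AG g) : 1 ≤ i := sorry

/-- the exceptional set of directions -/
theorem exc_set {ρ : ℕ → ℝ} {X : ℕ → M3} (h : Lay ρ X) {st : ℕ → Option (ZMod 3)}
    (hst : StSpec st) :
    ∃ E : Set ℝ, MeasurableSet E ∧ E ⊆ Set.Ioc (-π) π ∧ ENNReal.ofReal 6 ≤ volume E ∧
      ∀ θ ∈ E, ∀ i ∈ Bad1 st, ∀ s, 0 ≤ s →
        cosh (ρ i) < B (X i) (ray (Complex.exp (Complex.I * (θ : ℂ))) s) := sorry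

end Pool.Agent.H776R2.Fatou
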