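import Pool.Agent.H776R2.Fatou.Stubs3
import Pool.Agent.H776R2.Fatou.FDefs

open Real MeasureTheory Filter Topology

noncomputable section

namespace Pool.Agent.H776R2.Fatou

/-! ### Task FA (ODisc.lean) -/

theorem open_disc {ρ : ℕ → ℝ} {X : ℕ → M3} (h : Lay ρ X) : Kf.IsOpenDisc := sorry

/-! ### Task FB (Maxi.lean) -/

theorem maximal {ρ : ℕ → ℝ} {X : ℕ → M3} (h : Lay ρ X) :
    Kf.IsMaximal (fun i => cen (X i) (ρ i)) (fun i => rad (X i) (ρ i)) := sorry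

theorem packing_of_PFace {c : ℕ → ℂ} {r : ℕ → ℝ} (h0 : ∀ i, 0 < r i)
    (h1 : ∀ k j, j ≤ N k → PFace c r k j) : Kf.IsPacking c r := sorry

/-! ### Task FC (Seq.lean) -/

theorem seq_exists {ρ : ℕ → ℝ} {X : ℕ → M3} (h : Lay ρ X) {st : ℕ → Option (ZMod 3)}
    (hst : StSpec st) {c : ℕ → ℂ} {r : ℕ → ℝ}
    (h0 : ∀ i, 0 < r i) (h1 : ∀ k j, j ≤ N k → PFace c r k j)
    (h2 : ∀ i x, st i = some x → x ≠ 2 → r i = 1) {ζ : ℂ} (hζ : ‖ζ‖ = 1)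
    (hE : ∀ i ∈ Bad1 st, ∀ s, 0 ≤ s → cosh (ρ i) < B (X i) (ray ζ s)) :
    ∃ v : ℕ → ℕ, Nontangential (fun j => cen (X (v j)) (ρ (v j))) ζ ∧
      ¬ ∃ w, Tendsto (fun j => c (v j)) atTop (𝓝 w) := sorry

/-- final theorem -/
theorem final : ∃ (K : Cx ℕ) (C : ℕ → ℂ) (R : ℕ → ℝ) (c : ℕ → ℂ) (r : ℕ → ℝ),
    K.IsOpenDisc ∧ K.IsMaximal C R ∧ K.IsPacking c r ∧
    Bornology.IsBounded (⋃ v, Metric.sphere (c v) (r v)) ∧
    ∃ E : Set ℝ, E ⊆ Set.Ioc (-π) π ∧ MeasurableSet E ∧ 6 ≤ volume E ∧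
      ∀ θ ∈ E, ∃ v : ℕ → ℕ,
        Nontangential (fun j => C (v j)) (Complex.exp (Complex.I * (θ : ℂ))) ∧
        ¬ ∃ w, Tendsto (fun j => c (v j)) atTop (𝓝 w) := by
  obtain ⟨ρ, hρ⟩ := lab_exists
  obtain ⟨X, hX⟩ := layout_exists hρ
  obtain ⟨st, hst⟩ := st_exists
  obtain ⟨c, r, h0, h1, h2, h3⟩ := p_exists hst
  obtain ⟨E, hE1, hE2, hE3, hE4⟩ := exc_set hX hst
  refine ⟨Kf, _, _, c, r, open_disc hX, maximal hX, packing_of_PFace h0 h1, ?_, E, hE2, hE1, ?_, ?_⟩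
  · rw [Metric.isBounded_iff_subset_closedBall 0]
    refine ⟨4, ?_⟩
    intro z hz
    obtain ⟨v, hv⟩ := Set.mem_iUnion.1 hz
    rw [mem_sphere_iff_norm] at hv
    rw [mem_closedBall_zero_iff]
    calc ‖z‖ = ‖c v + (z - c v)‖ := by ring_nf
      _ ≤ ‖c v‖ + ‖z - c v‖ := norm_add_le _ _
      _ = ‖c v‖ + r v := by rw [hv]
      _ ≤ 4 := h3 v
  · refine le_trans ?_ hE3
    simp
  · intro θ hθ
    exact seq_exists hX hst h0 h1 h2 (by rw [mul_comm]; exact Complex.norm_exp_ofReal_mul_I θ) (hE4 θ hθ)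

end Pool.Agent.H776R2.Fatou
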