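import Pool.Agent.H776R2.Fatou.Mink
import Pool.Agent.H776R2.Fatou.Comb

/-! STUB of task L (temporary, until Layout.lean is on main). -/

open Real

noncomputable section

namespace Pool.Agent.H776R2.Fatou

/-! ### Task L (Layout.lean) -/

theorem face_rot {ρ : ℕ → ℝ} {X : ℕ → M3} {a b c : ℕ} (h : FaceOK ρ X a b c) :
    FaceOK ρ X b c a := sorry

theorem pairs_faceOK {ρ : ℕ → ℝ} {X : ℕ → M3} (h : Lay ρ X) {k : ℕ} {p : ℕ × ℕ}
    (hp : p ∈ pairs k) : FaceOK ρ X k p.1 p.2 := sorry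

theorem lab_exp {ρ : ℕ → ℝ} (h : Lab ρ) (v : ℕ) : exp (-ρ v) ≤ 1 / 10 ^ 9 := sorry

/-- directions along a chain of faces around `k` -/
theorem chain_dir {ρ : ℕ → ℝ} {X : ℕ → M3} (hρ : ∀ v, 0 < ρ v) (hX : ∀ i, IsH (X i)) {k : ℕ}
    (l : List (ℕ × ℕ)) (a b : ℕ) (h : ChainL a l b) (hf : ∀ p ∈ l, FaceOK ρ X k p.1 p.2)
    (u : ℂ) (hu : ‖u‖ = 1) (ha : X a = pt (X k) (ρ k + ρ a) u) :
    X b = pt (X k) (ρ k + ρ b) (u * Complex.exp (Complex.I * (asum ρ k l : ℂ))) := sorry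

theorem layout_exists {ρ : ℕ → ℝ} (h : Lab ρ) : ∃ X, Lay ρ X := sorry

end Pool.Agent.H776R2.Fatou
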