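import Pool.Agent.H776R2.Fatou.Col
import Pool.Agent.H776R2.Fatou.Comb
import Pool.Agent.H776R2.Fatou.RadB
import Pool.Agent.H776R2.Fatou.Meas

open Real MeasureTheory

noncomputable section

namespace Pool.Agent.H776R2.Fatou

/-! ### finite sums -/

theorem RD_image {f : ℕ → ℝ} (hf : ∀ i, 0 ≤ f i) (g : ℕ → ℕ) (S : Finset ℕ) :
    ∑ i ∈ S.image g, f i ≤ ∑ j ∈ S, f (g j) := by
  classical
  induction S using Finset.induction_on with
  | empty => simp
  | insert a S ha ih =>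
    rw [Finset.image_insert, Finset.sum_insert ha]
    by_cases h : g a ∈ S.image g
    · rw [Finset.insert_eq_of_mem h]
      linarith [hf (g a)]
    · rw [Finset.sum_insert h]
      linarith

theorem RD_union {f : ℕ → ℝ} (hf : ∀ i, 0 ≤ f i) (S T : Finset ℕ) :
    ∑ i ∈ S ∪ T, f i ≤ ∑ i ∈ S, f i + ∑ i ∈ T, f i := by
  have h := Finset.sum_union_inter (s₁ := S) (s₂ := T) (f := f)
  have h2 : 0 ≤ ∑ i ∈ S ∩ T, f i := Finset.sum_nonneg fun i _ => hf i
  linarith

theorem RD_sq (m : ℕ) : ∑ j ∈ Finset.Icc 1 (m + 1), 1 / (j : ℝ) ^ 2 ≤ 2 - 1 / (m + 1 : ℝ) := by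
  induction m with
  | zero => norm_num
  | succ m ih =>
    rw [Finset.sum_Icc_succ_top (by omega)]
    refine (add_le_add ih le_rfl).trans ?_
    push_cast
    have h1 : (0 : ℝ) < m + 1 := by positivity
    have h2 : (0 : ℝ) < m + 1 + 1 := by positivity
    have h3 : 1 / (((m : ℝ) + 1 + 1) ^ 2) ≤ 1 / (m + 1 : ℝ) - 1 / (m + 1 + 1) := by
      rw [div_sub_div _ _ h1.ne' h2.ne', div_le_div_iff₀ (by positivity) (by positivity)]
      nlinarith
    linarith

theorem RD_sq' (m : ℕ) : ∑ j ∈ Finset.Icc 1 m, 1 / (j : ℝ) ^ 2 ≤ 2 := by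
  rcases m with _ | m
  · simp
  · refine (RD_sq m).trans ?_
    have : (0 : ℝ) ≤ 1 / (m + 1 : ℝ) := by positivity
    linarith

theorem RD_refl (f : ℕ → ℝ) (m : ℕ) :
    ∑ j ∈ Finset.Icc 1 m, f (m + 1 - j) = ∑ j ∈ Finset.Icc 1 m, f j := by
  refine Finset.sum_nbij' (fun j => m + 1 - j) (fun j => m + 1 - j) ?_ ?_ ?_ ?_ ?_
  · intro j hj
    rw [Finset.mem_Icc] at hj ⊢
    omega
  · intro j hj
    rw [Finset.mem_Icc] at hj ⊢
    omega
  · intro j hj
    rw [Finset.mem_Icc] at hj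
    omega
  · intro j hj
    rw [Finset.mem_Icc] at hj
    omega
  · intro j _
    rfl

theorem RD_min {a b : ℕ} (ha : 1 ≤ a) (hb : 1 ≤ b) :
    1 / ((min a b : ℕ) : ℝ) ^ 2 ≤ 1 / (a : ℝ) ^ 2 + 1 / (b : ℝ) ^ 2 := by
  have h1 : (0 : ℝ) ≤ 1 / (a : ℝ) ^ 2 := by positivity
  have h2 : (0 : ℝ) ≤ 1 / (b : ℝ) ^ 2 := by positivity
  rcases le_total a b with h | h
  · rw [min_eq_left h]
    linarith
  · rw [min_eq_right h]
    linarith

/-! ### radii -/

theorem RD_nonneg {ρ : ℕ → ℝ} {X : ℕ → M3} (h : Lay ρ X) (i : ℕ) : 0 ≤ rad (X i) (ρ i) :=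
  (rad_pos (h.isH i) (h.lab.pos i)).le

theorem RD_le_one {ρ : ℕ → ℝ} {X : ℕ → M3} (h : Lay ρ X) (i : ℕ) : rad (X i) (ρ i) ≤ 1 := by
  have h1 := cen_lt (h.isH i) (h.lab.pos i)
  have h2 := norm_nonneg (cen (X i) (ρ i))
  linarith

theorem RD_row {ρ : ℕ → ℝ} {X : ℕ → M3} (h : Lay ρ X) {k : ℕ} (hk : 1 ≤ k) :
    ∑ j ∈ Finset.Icc 1 (N k), rad (X (pet k j)) (ρ (pet k j)) ≤ 400 * rad (X k) (ρ k) := by
  have hR := RD_nonneg h k
  calc ∑ j ∈ Finset.Icc 1 (N k), rad (X (pet k j)) (ρ (pet k j))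
      ≤ ∑ j ∈ Finset.Icc 1 (N k), 100 * rad (X k) (ρ k) *
          (1 / (j : ℝ) ^ 2 + 1 / ((N k + 1 - j : ℕ) : ℝ) ^ 2) := by
        refine Finset.sum_le_sum fun j hj => ?_
        rw [Finset.mem_Icc] at hj
        refine (rad_bound h hk hj.1 hj.2).trans ?_
        rw [div_eq_mul_one_div]
        exact mul_le_mul_of_nonneg_left (RD_min hj.1 (by omega)) (by positivity)
    _ = 100 * rad (X k) (ρ k) * (∑ j ∈ Finset.Icc 1 (N k), 1 / (j : ℝ) ^ 2 +
          ∑ j ∈ Finset.Icc 1 (N k), 1 / ((N k + 1 - j : ℕ) : ℝ) ^ 2) := by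
        rw [← Finset.mul_sum, Finset.sum_add_distrib]
    _ ≤ 100 * rad (X k) (ρ k) * (2 + 2) := by
        refine mul_le_mul_of_nonneg_left ?_ (by positivity)
        have h1 := RD_refl (fun j => 1 / (j : ℝ) ^ 2) (N k)
        rw [h1]
        exact add_le_add (RD_sq' _) (RD_sq' _)
    _ = 400 * rad (X k) (ρ k) := by ring

theorem RD_q (g : ℕ) : 1 ≤ q g := by
  unfold q Qc
  have : 1 ≤ 2 ^ g := Nat.one_le_two_pow
  nlinarith

theorem RD_N (g : ℕ) : N g = 2 * q g + 64 := rfl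

theorem RD_pet {ρ : ℕ → ℝ} {X : ℕ → M3} (h : Lay ρ X) (g : ℕ) {j : ℕ} (h1 : q g ≤ j)
    (h2 : j ≤ q g + 65) : rad (X (pet g j)) (ρ (pet g j)) ≤ 100 / (q g : ℝ) := by
  have hq := RD_q g
  have hN := RD_N g
  have hq' : (1 : ℝ) ≤ (q g : ℝ) := by exact_mod_cast hq
  rcases Nat.eq_zero_or_pos g with rfl | hg
  · have h3 := pet_mem (k := 0) (j := j) (by omega) (by omega)
    have hn : n 0 = 2 := rfl
    refine (rad_bound0 h (by omega) h3.2).trans ?_
    have h4 : (2 : ℝ) * q 0 ≤ (N 0 : ℝ) := by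
      rw [hN]
      push_cast
      linarith
    rw [div_le_div_iff₀ (by linarith) (by linarith)]
    have := pi_lt_d2
    nlinarith
  · refine (rad_bound h hg (by omega) (by omega)).trans ?_
    have h3 : q g ≤ min j (N g + 1 - j) := by
      apply le_min h1
      omega
    have h4 : (q g : ℝ) ≤ ((min j (N g + 1 - j) : ℕ) : ℝ) := by exact_mod_cast h3
    have h5 := RD_le_one h g
    have h6 := RD_nonneg h g
    have h8 : (0 : ℝ) < ((min j (N g + 1 - j) : ℕ) : ℝ) := by linarith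
    rw [div_le_div_iff₀ (by positivity) (by linarith)]
    have h7 : (q g : ℝ) ≤ ((min j (N g + 1 - j) : ℕ) : ℝ) ^ 2 := by nlinarith
    nlinarith

theorem AG_pos {g i : ℕ} (hi : i ∈ AG g) : 1 ≤ i := by
  have hN := RD_N g
  have hm : mB = 64 := rfl
  unfold AG at hi
  simp only [Finset.mem_union, Finset.mem_image, Finset.mem_Icc, Finset.mem_singleton] at hi
  rcases hi with ((⟨j, hj, rfl⟩ | ⟨j, hj, rfl⟩) | ⟨j, hj, rfl⟩) | rfl
  · have := pet_gt (k := g) (j := j) (by omega)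
    omega
  · have := pet_gt (k := pet g (q g)) (j := j) (by omega)
    omega
  · have := pet_gt (k := pet g (q g + mB + 1)) (j := j) (by omega)
    omega
  · have := pet_gt (k := pet g (q g + mB)) (j := N (pet g (q g + mB))) (by omega)
    omega

theorem sum_AG {ρ : ℕ → ℝ} {X : ℕ → M3} (h : Lay ρ X) (g : ℕ) :
    ∑ i ∈ AG g, rad (X i) (ρ i) ≤ 10 ^ 5 / (q g : ℝ) := by
  have hq := RD_q g
  have hN := RD_N g
  have hq' : (1 : ℝ) ≤ (q g : ℝ) := by exact_mod_cast hq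
  have hm : mB = 64 := rfl
  have hnn := RD_nonneg h
  have hpos : ∀ j, q g ≤ j → j ≤ q g + 65 → 1 ≤ pet g j := by
    intro j _ h2
    have := pet_gt (k := g) (j := j) (by omega)
    omega
  unfold AG
  refine (RD_union hnn _ _).trans ?_
  have e1 : ∑ i ∈ (Finset.Icc (q g + 1) (q g + mB)).image (pet g), rad (X i) (ρ i) ≤
      6400 / (q g : ℝ) := by
    refine (RD_image hnn _ _).trans ?_
    calc ∑ j ∈ Finset.Icc (q g + 1) (q g + mB), rad (X (pet g j)) (ρ (pet g j))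
        ≤ ∑ j ∈ Finset.Icc (q g + 1) (q g + mB), 100 / (q g : ℝ) := by
          refine Finset.sum_le_sum fun j hj => ?_
          rw [Finset.mem_Icc] at hj
          exact RD_pet h g (by omega) (by omega)
      _ = 6400 / (q g : ℝ) := by
          rw [Finset.sum_const, Nat.card_Icc, nsmul_eq_mul]
          have : q g + mB + 1 - (q g + 1) = 64 := by omega
          rw [this]
          push_cast
          ring
  have row : ∀ j, q g ≤ j → j ≤ q g + 65 →
      ∑ i ∈ (Finset.Icc 1 (N (pet g j))).image (pet (pet g j)), rad (X i) (ρ i) ≤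
        40000 / (q g : ℝ) := by
    intro j h1 h2
    refine (RD_image hnn _ _).trans ((RD_row h (hpos j h1 h2)).trans ?_)
    have h3 := RD_pet h g h1 h2
    calc 400 * rad (X (pet g j)) (ρ (pet g j)) ≤ 400 * (100 / (q g : ℝ)) := by linarith
      _ = 40000 / (q g : ℝ) := by ring
  have e4 : rad (X (pet (pet g (q g + mB)) (N (pet g (q g + mB)))))
      (ρ (pet (pet g (q g + mB)) (N (pet g (q g + mB))))) ≤ 10000 / (q g : ℝ) := by
    have h1 := hpos (q g + mB) (by omega) (by omega)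
    have h2 := RD_N (pet g (q g + mB))
    refine (rad_bound h h1 (by omega) le_rfl).trans ?_
    have h3 : min (N (pet g (q g + mB))) (N (pet g (q g + mB)) + 1 - N (pet g (q g + mB))) = 1 := by
      omega
    rw [h3]
    have h4 := RD_pet h g (j := q g + mB) (by omega) (by omega)
    calc 100 * rad (X (pet g (q g + mB))) (ρ (pet g (q g + mB))) / ((1 : ℕ) : ℝ) ^ 2
        = 100 * rad (X (pet g (q g + mB))) (ρ (pet g (q g + mB))) := by norm_num
      _ ≤ 100 * (100 / (q g : ℝ)) := by linarith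
      _ = 10000 / (q g : ℝ) := by ring
  have f1 := RD_union hnn ((Finset.Icc (q g + 1) (q g + mB)).image (pet g) ∪
    (Finset.Icc 1 (N (pet g (q g)))).image (pet (pet g (q g))))
    ((Finset.Icc 1 (N (pet g (q g + mB + 1)))).image (pet (pet g (q g + mB + 1))))
  have f2 := RD_union hnn ((Finset.Icc (q g + 1) (q g + mB)).image (pet g))
    ((Finset.Icc 1 (N (pet g (q g)))).image (pet (pet g (q g))))
  have e2 := row (q g) le_rfl (by omega)
  have e3 := row (q g + mB + 1) (by omega) (by omega)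
  rw [Finset.sum_singleton]
  have e5 : (10 : ℝ) ^ 5 / (q g : ℝ) = 6400 / (q g : ℝ) + 40000 / (q g : ℝ) + 40000 / (q g : ℝ) +
      10000 / (q g : ℝ) + 3600 / (q g : ℝ) := by ring
  have e6 : 0 ≤ 3600 / (q g : ℝ) := by positivity
  linarith

theorem exc_set {ρ : ℕ → ℝ} {X : ℕ → M3} (h : Lay ρ X) {st : ℕ → Option (ZMod 3)}
    (hst : StSpec st) :
    ∃ E : Set ℝ, MeasurableSet E ∧ E ⊆ Set.Ioc (-π) π ∧ ENNReal.ofReal 6 ≤ volume E ∧
      ∀ θ ∈ E, ∀ i ∈ Bad1 st, ∀ s, 0 ≤ s →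
        cosh (ρ i) < B (X i) (ray (Complex.exp (Complex.I * (θ : ℂ))) s) := by
  classical
  have hJ : ∀ i, ∃ J : Set ℝ, 1 ≤ i → MeasurableSet J ∧ Shad ρ X i ⊆ J ∧
      volume J ≤ ENNReal.ofReal (20 * rad (X i) (ρ i)) := by
    intro i
    by_cases hi : 1 ≤ i
    · obtain ⟨J, hJ⟩ := shad_meas h hi
      exact ⟨J, fun _ => hJ⟩
    · exact ⟨∅, fun h' => absurd h' hi⟩
  choose J hJ using hJ
  set U : Set ℝ := ⋃ g : ℕ, ⋃ i ∈ AG g, J i with hU
  have hUm : MeasurableSet U := by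
    refine MeasurableSet.iUnion fun g => ?_
    exact Finset.measurableSet_biUnion _ fun i hi => (hJ i (AG_pos hi)).1
  have hUv : volume U ≤ ENNReal.ofReal (4 / 10 ^ 6) := by
    have h1 : ∀ g, volume (⋃ i ∈ AG g, J i) ≤ ENNReal.ofReal (2 / 10 ^ 6 * (1 / 2) ^ g) := by
      intro g
      calc volume (⋃ i ∈ AG g, J i) ≤ ∑ i ∈ AG g, volume (J i) := measure_biUnion_finset_le _ _
        _ ≤ ∑ i ∈ AG g, ENNReal.ofReal (20 * rad (X i) (ρ i)) :=
            Finset.sum_le_sum fun i hi => (hJ i (AG_pos hi)).2.2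
        _ = ENNReal.ofReal (∑ i ∈ AG g, 20 * rad (X i) (ρ i)) :=
            (ENNReal.ofReal_sum_of_nonneg fun i _ => mul_nonneg (by norm_num) (RD_nonneg h i)).symm
        _ ≤ ENNReal.ofReal (2 / 10 ^ 6 * (1 / 2) ^ g) := by
            apply ENNReal.ofReal_le_ofReal
            rw [← Finset.mul_sum]
            refine (mul_le_mul_of_nonneg_left (sum_AG h g) (by norm_num)).trans (le_of_eq ?_)
            unfold q Qc
            push_cast
            rw [one_div, inv_pow]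
            field_simp
            norm_num
    have hs : Summable (fun g : ℕ => (2 / 10 ^ 6 * (1 / 2) ^ g : ℝ)) :=
      (summable_geometric_two).mul_left _
    calc volume U ≤ ∑' g, volume (⋃ i ∈ AG g, J i) := measure_iUnion_le _
      _ ≤ ∑' g, ENNReal.ofReal (2 / 10 ^ 6 * (1 / 2) ^ g) := ENNReal.tsum_le_tsum h1
      _ = ENNReal.ofReal (∑' g : ℕ, (2 / 10 ^ 6 * (1 / 2) ^ g : ℝ)) :=
          (ENNReal.ofReal_tsum_of_nonneg (fun g => by positivity) hs).symm
      _ = ENNReal.ofReal (4 / 10 ^ 6) := by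
          rw [tsum_mul_left, tsum_geometric_two]
          norm_num
  refine ⟨Set.Ioc (-π) π \ U, measurableSet_Ioc.diff hUm, Set.sdiff_subset, ?_, ?_⟩
  · refine le_trans ?_ (le_measure_sdiff)
    rw [Real.volume_Ioc]
    have h2 : ENNReal.ofReal 6 + volume U ≤ ENNReal.ofReal (π - -π) := by
      refine (add_le_add le_rfl hUv).trans ?_
      rw [← ENNReal.ofReal_add (by norm_num) (by norm_num)]
      apply ENNReal.ofReal_le_ofReal
      have := pi_gt_d2
      linarith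
    exact ENNReal.le_sub_of_add_le_right (ne_top_of_le_ne_top ENNReal.ofReal_ne_top hUv) h2
  · rintro θ ⟨hθ, hθU⟩ i hi s hs
    by_contra hcon
    push Not at hcon
    obtain ⟨g, hg⟩ := bad1_sub hst hi
    apply hθU
    rw [hU, Set.mem_iUnion]
    refine ⟨g, ?_⟩
    rw [Set.mem_iUnion₂]
    exact ⟨i, hg, (hJ i (AG_pos hg)).2.1 ⟨hθ, s, hs, hcon⟩⟩

end Pool.Agent.H776R2.Fatou
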